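import Mathlib.Data.Set.Card
import Mathlib.Data.Setoid.Basic
import Mathlib.GroupTheory.GroupAction.Defs
import Mathlib.Algebra.BigOperators.Group.Finset.Basic
import Mathlib.Algebra.Order.BigOperators.Group.Finset
import Mathlib.Tactic

/-!
Invariant finitary partitions of a set with a group action: basic counting lemmas.
-/

namespace Pool.Agent.P.MP_e517ea_lc

open Set

variable {G A : Type*} [Group G] [MulAction G A]

/-- Partitions of `A` with finite blocks, invariant under `V`, trivial outside `X`. -/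
def Inv (V : Subgroup G) (X : Set A) : Set (Setoid A) :=
  {P | (∀ a, {b | P a b}.Finite) ∧ (∀ g ∈ V, ∀ a b, P a b → P (g • a) (g • b)) ∧
    ∀ a b, P a b → a = b ∨ (a ∈ X ∧ b ∈ X)}

/-- The number of such partitions. -/
noncomputable def nn (V : Subgroup G) (X : Set A) : ℕ := (Inv V X).ncard

/-- `X` is invariant under `V`. -/
def Stab (V : Subgroup G) (X : Set A) : Prop := ∀ g ∈ V, ∀ a ∈ X, g • a ∈ X

/-- Only finitely many `V`-invariant finitary partitions. -/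
def FinG (A : Type*) [MulAction G A] (V : Subgroup G) : Prop := (Inv V (univ : Set A)).Finite

variable {V V' : Subgroup G} {X X' : Set A}

theorem Stab.iff (h : Stab V X) {g : G} (hg : g ∈ V) {a : A} : g • a ∈ X ↔ a ∈ X :=
  ⟨fun H => by simpa using h g⁻¹ (V.inv_mem hg) _ H, h g hg a⟩

theorem Stab.mono (h : Stab V X) (hV : V' ≤ V) : Stab V' X := fun g hg => h g (hV hg)

theorem Stab.union (h : Stab V X) (h' : Stab V X') : Stab V (X ∪ X') :=
  fun g hg a ha => ha.imp (h g hg a) (h' g hg a)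

theorem Stab.inter (h : Stab V X) (h' : Stab V X') : Stab V (X ∩ X') :=
  fun g hg a ha => ⟨h g hg a ha.1, h' g hg a ha.2⟩

theorem Stab.compl (h : Stab V X) : Stab V Xᶜ :=
  fun _ hg _ ha H => ha ((h.iff hg).1 H)

theorem Stab.diff (h : Stab V X) (h' : Stab V X') : Stab V (X \ X') := h.inter h'.compl

theorem Inv.iff {P : Setoid A} (h : P ∈ Inv V X) {g : G} (hg : g ∈ V) {a b : A} :
    P (g • a) (g • b) ↔ P a b :=
  ⟨fun H => by simpa using h.2.1 g⁻¹ (V.inv_mem hg) _ _ H, h.2.1 g hg a b⟩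

theorem Inv_mono (h : X ⊆ X') : Inv V X ⊆ Inv V X' := fun _ hP =>
  ⟨hP.1, hP.2.1, fun a b hab => (hP.2.2 a b hab).imp_right fun H => ⟨h H.1, h H.2⟩⟩

theorem Inv_anti (h : V' ≤ V) : Inv V X ⊆ Inv V' X := fun _ hP =>
  ⟨hP.1, fun g hg => hP.2.1 g (h hg), hP.2.2⟩

theorem FinG.fin (h : FinG A V) (X : Set A) : (Inv V X).Finite := h.subset (Inv_mono (subset_univ _))

theorem bot_mem_Inv : (⊥ : Setoid A) ∈ Inv V X :=
  ⟨fun a => (finite_singleton a).subset fun b (h : a = b) => h.symm,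
    fun _ _ _ _ (h : _ = _) => show _ = _ by rw [h], fun _ _ h => Or.inl h⟩

theorem nn_pos (h : FinG A V) (X : Set A) : 0 < nn V X :=
  (ncard_pos (h.fin X)).2 ⟨_, bot_mem_Inv⟩

theorem nn_mono (h : FinG A V) (hX : X ⊆ X') : nn V X ≤ nn V X' :=
  ncard_le_ncard (Inv_mono hX) (h.fin _)

theorem nn_anti (h : FinG A V') (hV : V' ≤ V) : nn V X ≤ nn V' X :=
  ncard_le_ncard (Inv_anti hV) (h.fin _)

theorem nn_eq_one (h : ∀ P ∈ Inv V X, ∀ a b, P a b → a = b) : nn V X = 1 := by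
  refine ncard_eq_one.2 ⟨⊥, eq_singleton_iff_unique_mem.2 ⟨bot_mem_Inv, fun P hP => ?_⟩⟩
  ext a b
  exact ⟨h P hP a b, fun (H : a = b) => H ▸ P.refl a⟩

theorem nn_empty : nn V (∅ : Set A) = 1 :=
  nn_eq_one fun _ hP a b h => (hP.2.2 a b h).resolve_right fun H => H.1

/-- Restriction of a partition to a set (singletons elsewhere). -/
def res (P : Setoid A) (X : Set A) : Setoid A where
  r a b := a = b ∨ (a ∈ X ∧ b ∈ X ∧ P a b)
  iseqv := ⟨fun _ => Or.inl rfl, fun h => h.imp Eq.symm fun h => ⟨h.2.1, h.1, P.symm h.2.2⟩, by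
    rintro a b c (rfl | h) (rfl | h')
    · exact Or.inl rfl
    · exact Or.inr h'
    · exact Or.inr h
    · exact Or.inr ⟨h.1, h'.2.1, P.trans h.2.2 h'.2.2⟩⟩

theorem res_iff {P : Setoid A} {a b : A} : res P X a b ↔ a = b ∨ (a ∈ X ∧ b ∈ X ∧ P a b) := Iff.rfl

theorem res_iff' {P : Setoid A} {a b : A} (ha : a ∈ X) (hb : b ∈ X) : res P X a b ↔ P a b :=
  ⟨fun h => h.elim (fun h => h ▸ P.refl a) fun h => h.2.2, fun h => Or.inr ⟨ha, hb, h⟩⟩

theorem res_le {P : Setoid A} {a b : A} (h : res P X a b) : P a b :=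
  h.elim (fun h => h ▸ P.refl a) fun h => h.2.2

theorem res_mem {P : Setoid A} {Y : Set A} (hP : P ∈ Inv V Y) (hX : Stab V X) :
    res P X ∈ Inv V X :=
  ⟨fun a => (hP.1 a).subset fun _ h => res_le h, fun g hg a b h => h.imp (fun h => by rw [h])
    fun h => ⟨hX g hg a h.1, hX g hg b h.2.1, hP.2.1 g hg a b h.2.2⟩,
    fun _ _ h => h.imp_right fun h => ⟨h.1, h.2.1⟩⟩

/-- `X'` meets every `V`-orbit of pairs related by an invariant partition supported on `X`. -/
def Detects (V : Subgroup G) (X X' : Set A) : Prop :=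
  ∀ P ∈ Inv V X, ∀ a b, P a b → a ≠ b → ∃ g ∈ V, g • a ∈ X' ∧ g • b ∈ X'

theorem Detects.injOn (h : Detects V X X') : InjOn (fun P => res P X') (Inv V X) := by
  have key : ∀ P ∈ Inv V X, ∀ Q ∈ Inv V X, res P X' = res Q X' → ∀ a b, P a b → Q a b := by
    intro P hP Q hQ e a b hab
    by_cases h0 : a = b
    · exact h0 ▸ Q.refl a
    obtain ⟨g, hg, h1, h2⟩ := h P hP a b hab h0
    have h3 : res P X' (g • a) (g • b) := (res_iff' h1 h2).2 (hP.2.1 g hg a b hab)
    rw [e] at h3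
    exact (Inv.iff hQ hg).1 (res_le h3)
  intro P hP Q hQ e
  ext a b
  exact ⟨key P hP Q hQ e a b, key Q hQ P hP e.symm a b⟩

theorem Detects.le (h : Detects V X X') (hV : V' ≤ V) (hf : FinG A V') (hX : Stab V' X') :
    nn V X ≤ nn V' X' :=
  ncard_le_ncard_of_injOn _ (fun _ hP => res_mem (Inv_anti hV hP) hX) h.injOn (hf.fin _)

/-- One more partition. -/
theorem Detects.lt (h : Detects V X X') (hV : V' ≤ V) (hf : FinG A V') (hX : Stab V' X')
    {Q : Setoid A} (hQ : Q ∈ Inv V' X') {a b : A} (hab : Q a b) (hn : ∀ P ∈ Inv V X, ¬ P a b) :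
    nn V X + 1 ≤ nn V' X' := by
  have h1 : nn V X = ((fun P => res P X') '' Inv V X).ncard := (h.injOn.ncard_image).symm
  rw [h1]
  refine ncard_lt_ncard ⟨?_, fun H => ?_⟩ (hf.fin _)
  · rintro _ ⟨P, hP, rfl⟩
    exact res_mem (Inv_anti hV hP) hX
  · obtain ⟨P, hP, rfl⟩ := H hQ
    exact hn P hP (res_le hab)

/-- Adjoin a compatible partial equivalence relation. -/
def mrg (P : Setoid A) (Q : A → A → Prop) (hs : ∀ a b, Q a b → Q b a)
    (ht : ∀ a b c, Q a b → Q b c → Q a c) (hc : ∀ a b c, P a b → Q b c → Q a c) : Setoid A where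
  r a b := P a b ∨ Q a b
  iseqv := ⟨fun a => Or.inl (P.refl a), fun h => h.imp P.symm (hs _ _), by
    rintro a b c (h | h) (h' | h')
    · exact Or.inl (P.trans h h')
    · exact Or.inr (hc _ _ _ h h')
    · exact Or.inr (hs _ _ (hc _ _ _ (P.symm h') (hs _ _ h)))
    · exact Or.inr (ht _ _ _ h h')⟩

theorem mrg_iff {P : Setoid A} {Q : A → A → Prop} {hs ht hc} {a b : A} :
    mrg P Q hs ht hc a b ↔ P a b ∨ Q a b := Iff.rfl

theorem mrg_mem {P : Setoid A} {Q : A → A → Prop} {hs ht hc} (hP : P ∈ Inv V X)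
    (hf : ∀ a, {b | Q a b}.Finite) (hi : ∀ g ∈ V, ∀ a b, Q a b → Q (g • a) (g • b))
    (hX : ∀ a b, Q a b → a = b ∨ (a ∈ X ∧ b ∈ X)) : mrg P Q hs ht hc ∈ Inv V X :=
  ⟨fun a => ((hP.1 a).union (hf a)).subset fun _ h => h,
    fun g hg a b h => h.imp (hP.2.1 g hg a b) (hi g hg a b),
    fun a b h => h.elim (hP.2.2 a b) (hX a b)⟩

/-- Union of two partitions with disjoint supports. -/
theorem exists_union {P Q : Setoid A} (hP : P ∈ Inv V X) (hQ : Q ∈ Inv V X') (hd : Disjoint X X') :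
    ∃ R ∈ Inv V (X ∪ X'), ∀ a b, R a b ↔ P a b ∨ Q a b := by
  refine ⟨⟨fun a b => P a b ∨ Q a b, fun a => Or.inl (P.refl a), fun h => h.imp P.symm Q.symm, ?_⟩,
    ⟨fun a => ((hP.1 a).union (hQ.1 a)).subset fun _ h => h,
      fun g hg a b h => h.imp (hP.2.1 g hg a b) (hQ.2.1 g hg a b), fun a b h => ?_⟩,
    fun _ _ => Iff.rfl⟩
  · rintro a b c (h | h) (h' | h')
    · exact Or.inl (P.trans h h')
    · rcases hP.2.2 a b h with rfl | H
      · exact Or.inr h'
      rcases hQ.2.2 b c h' with rfl | H'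
      · exact Or.inl h
      · exact (disjoint_left.1 hd H.2 H'.1).elim
    · rcases hQ.2.2 a b h with rfl | H
      · exact Or.inl h'
      rcases hP.2.2 b c h' with rfl | H'
      · exact Or.inr h
      · exact (disjoint_left.1 hd H'.1 H.2).elim
    · exact Or.inr (Q.trans h h')
  · rcases h with h | h
    · exact (hP.2.2 a b h).imp_right fun H => ⟨Or.inl H.1, Or.inl H.2⟩
    · exact (hQ.2.2 a b h).imp_right fun H => ⟨Or.inr H.1, Or.inr H.2⟩

theorem eq_of_union {P Q P' Q' : Setoid A} (hP : P ∈ Inv V X) (hQ' : Q' ∈ Inv V X')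
    (hd : Disjoint X X') (h : ∀ a b, P a b ∨ Q a b → P' a b ∨ Q' a b) {a b : A} (hab : P a b) :
    P' a b := by
  rcases h a b (Or.inl hab) with H | H
  · exact H
  rcases hP.2.2 a b hab with rfl | H1
  · exact P'.refl a
  rcases hQ'.2.2 a b H with rfl | H2
  · exact P'.refl a
  · exact (disjoint_left.1 hd H1.1 H2.1).elim

theorem nn_mul_le (hf : FinG A V) (hd : Disjoint X X') : nn V X * nn V X' ≤ nn V (X ∪ X') := by
  unfold nn
  rw [← ncard_prod]
  have : ∀ p : Setoid A × Setoid A, ∃ R, p ∈ Inv V X ×ˢ Inv V X' →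
      R ∈ Inv V (X ∪ X') ∧ ∀ a b, R a b ↔ p.1 a b ∨ p.2 a b := fun p => by
    by_cases hp : p ∈ Inv V X ×ˢ Inv V X'
    · obtain ⟨R, h1, h2⟩ := exists_union hp.1 hp.2 hd
      exact ⟨R, fun _ => ⟨h1, h2⟩⟩
    · exact ⟨⊥, fun h => (hp h).elim⟩
  choose f hf' using this
  refine ncard_le_ncard_of_injOn f (fun p hp => (hf' p hp).1) (fun p hp q hq e => ?_) (hf.fin _)
  have h1 : ∀ a b, p.1 a b ∨ p.2 a b ↔ q.1 a b ∨ q.2 a b := fun a b => by
    rw [← (hf' p hp).2, ← (hf' q hq).2, e]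
  refine Prod.ext ?_ ?_
  · ext a b
    exact ⟨eq_of_union hp.1 hq.2 hd fun a b => (h1 a b).1,
      eq_of_union hq.1 hp.2 hd fun a b => (h1 a b).2⟩
  · ext a b
    exact ⟨eq_of_union hp.2 hq.1 hd.symm fun a b h => ((h1 a b).1 h.symm).symm,
      eq_of_union hq.2 hp.1 hd.symm fun a b h => ((h1 a b).2 h.symm).symm⟩

theorem prod_nn_le (hf : FinG A V) {ι : Type*} (s : Finset ι) (Y : ι → Set A)
    (hd : (s : Set ι).PairwiseDisjoint Y) : ∏ i ∈ s, nn V (Y i) ≤ nn V (⋃ i ∈ s, Y i) := by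
  classical
  induction s using Finset.induction_on with
  | empty => simp [nn_empty]
  | insert i s hi ih =>
    rw [Finset.prod_insert hi, Finset.set_biUnion_insert]
    refine (Nat.mul_le_mul_left _ (ih (hd.subset (by simp)))).trans (nn_mul_le hf ?_)
    simp only [disjoint_iUnion_right]
    exact fun j hj => hd (by simp) (by simp [hj]) (fun e => hi (e ▸ hj))

/-- `X` is a union of blocks of every invariant finitary partition. -/
def Sat (V : Subgroup G) (X : Set A) : Prop :=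
  ∀ P ∈ Inv V (univ : Set A), ∀ a b, P a b → a ∈ X → b ∈ X

theorem nn_union_le (hf : FinG A V) (hX : Stab V X) (hs : Sat V X) :
    nn V (X ∪ X') ≤ nn V X * nn V X' := by
  unfold nn
  rw [← ncard_prod]
  refine ncard_le_ncard_of_injOn (fun P => (res P X, res P Xᶜ)) (fun P hP => ⟨res_mem hP hX, ?_⟩)
    (fun P hP Q hQ e => ?_) ((hf.fin _).prod (hf.fin _))
  · have h := res_mem hP hX.compl
    refine ⟨h.1, h.2.1, fun a b hab => ?_⟩
    rcases hab with rfl | hab
    · exact Or.inl rfl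
    · exact (hP.2.2 a b hab.2.2).imp_right fun H =>
        ⟨H.1.resolve_left hab.1, H.2.resolve_left hab.2.1⟩
  · have key : ∀ P ∈ Inv V (X ∪ X'), ∀ Q, res P X = res Q X → res P Xᶜ = res Q Xᶜ →
        ∀ a b, P a b → Q a b := by
      intro P hP Q e1 e2 a b hab
      have hP' := Inv_mono (subset_univ _) hP
      by_cases ha : a ∈ X
      · exact res_le (e1 ▸ (res_iff' ha (hs P hP' a b hab ha)).2 hab : res Q X a b)
      · exact res_le (e2 ▸ (res_iff' (X := Xᶜ) ha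
          (show b ∈ Xᶜ from fun h => ha (hs P hP' b a (P.symm hab) h))).2 hab :
          res Q Xᶜ a b)
    simp only [Prod.mk.injEq] at e
    ext a b
    exact ⟨key P hP Q e.1 e.2 a b, key Q hQ P e.1.symm e.2.symm a b⟩

theorem nn_union_eq (hf : FinG A V) (hX : Stab V X) (hs : Sat V X) (hd : Disjoint X X') :
    nn V (X ∪ X') = nn V X * nn V X' := (nn_union_le hf hX hs).antisymm (nn_mul_le hf hd)

theorem nn_biUnion_le (hf : FinG A V) {ι : Type*} (s : Finset ι) (Y : ι → Set A)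
    (hX : ∀ i ∈ s, Stab V (Y i)) (hs : ∀ i ∈ s, Sat V (Y i)) :
    nn V (⋃ i ∈ s, Y i) ≤ ∏ i ∈ s, nn V (Y i) := by
  classical
  induction s using Finset.induction_on with
  | empty => simp [nn_empty]
  | insert i s hi ih =>
    rw [Finset.prod_insert hi, Finset.set_biUnion_insert]
    exact (nn_union_le hf (hX i (by simp)) (hs i (by simp))).trans (Nat.mul_le_mul_left _
      (ih (fun j hj => hX j (by simp [hj])) fun j hj => hs j (by simp [hj])))

/-- Induction of invariant partitions from a block. -/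
theorem nn_induce {D : Set A} (hf : FinG A V) (hD : D.Finite) (hs : Stab V' D)
    (hb : ∀ g ∈ V, ∀ a ∈ D, g • a ∈ D → g ∈ V') (hX : ∀ g ∈ V, ∀ a ∈ D, g • a ∈ X) :
    nn V' D ≤ nn V X := by
  have : ∀ P : Setoid A, ∃ R, P ∈ Inv V' D → R ∈ Inv V X ∧ ∀ a ∈ D, ∀ b ∈ D, R a b ↔ P a b := by
    intro P
    by_cases hP : P ∈ Inv V' D
    swap
    · exact ⟨⊥, fun h => (hP h).elim⟩
    have key : ∀ g ∈ V, ∀ h ∈ V, ∀ a b, g • a ∈ D → h • a ∈ D → g • b ∈ D → P (g • a) (g • b) →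
        h • b ∈ D ∧ P (h • a) (h • b) := by
      intro g hg h hh a b h1 h2 h3 h4
      have h5 : h * g⁻¹ ∈ V' := hb _ (V.mul_mem hh (V.inv_mem hg)) _ h1 (by simpa [mul_smul])
      exact ⟨by simpa [mul_smul] using hs _ h5 _ h3, by simpa [mul_smul] using hP.2.1 _ h5 _ _ h4⟩
    refine ⟨⟨fun a b => a = b ∨ ∃ g ∈ V, g • a ∈ D ∧ g • b ∈ D ∧ P (g • a) (g • b),
      fun _ => Or.inl rfl, fun h => h.imp Eq.symm fun ⟨g, h1, h2, h3, h4⟩ =>
        ⟨g, h1, h3, h2, P.symm h4⟩, ?_⟩, fun _ => ⟨⟨fun a => ?_, ?_, ?_⟩, ?_⟩⟩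
    · rintro a b c (rfl | ⟨g, h1, h2, h3, h4⟩) (rfl | ⟨h, k1, k2, k3, k4⟩)
      · exact Or.inl rfl
      · exact Or.inr ⟨h, k1, k2, k3, k4⟩
      · exact Or.inr ⟨g, h1, h2, h3, h4⟩
      · obtain ⟨l1, l2⟩ := key h k1 g h1 b c k2 h3 k3 k4
        exact Or.inr ⟨g, h1, h2, l1, P.trans h4 l2⟩
    · by_cases ha : ∃ g ∈ V, g • a ∈ D
      · obtain ⟨g, hg, ha⟩ := ha
        refine ((finite_singleton a).union (hD.image (g⁻¹ • ·))).subset ?_
        rintro b (rfl | ⟨h, k1, k2, k3, k4⟩)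
        · exact Or.inl rfl
        · exact Or.inr ⟨_, (key h k1 g hg a b k2 ha k3 k4).1, by simp⟩
      · refine (finite_singleton a).subset ?_
        rintro b (rfl | ⟨h, k1, k2, -⟩)
        · rfl
        · exact (ha ⟨h, k1, k2⟩).elim
    · rintro g hg a b (rfl | ⟨h, k1, k2⟩)
      · exact Or.inl rfl
      · exact Or.inr ⟨h * g⁻¹, V.mul_mem k1 (V.inv_mem hg), by simpa [mul_smul] using k2⟩
    · rintro a b (rfl | ⟨h, k1, k2, k3, -⟩)
      · exact Or.inl rfl
      · exact Or.inr ⟨by simpa using hX _ (V.inv_mem k1) _ k2, by simpa using hX _ (V.inv_mem k1) _ k3⟩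
    · intro a ha b hb'
      constructor
      · rintro (rfl | ⟨h, k1, k2, k3, k4⟩)
        · exact P.refl a
        · simpa using (key h k1 1 V.one_mem a b k2 (by simpa) k3 k4).2
      · exact fun h => Or.inr ⟨1, V.one_mem, by simpa, by simpa, by simpa⟩
  choose f hf' using this
  refine ncard_le_ncard_of_injOn f (fun p hp => (hf' p hp).1) (fun P hP Q hQ e => ?_) (hf.fin _)
  have key : ∀ P ∈ Inv V' D, ∀ Q ∈ Inv V' D, f P = f Q → ∀ a b, P a b → Q a b := by
    intro P hP Q hQ e a b hab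
    rcases hP.2.2 a b hab with rfl | H
    · exact Q.refl a
    · rw [← (hf' Q hQ).2 a H.1 b H.2, ← e, (hf' P hP).2 a H.1 b H.2]
      exact hab
  ext a b
  exact ⟨key P hP Q hQ e a b, key Q hQ P hP e.symm a b⟩

end Pool.Agent.P.MP_e517ea_lc
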