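import Pool.Agent.P.MP_e517ea_lc.Iface
import Mathlib.Data.Fintype.CardEmbedding

/-!
Counting lemmas for invariant partitions: gluing invariant blocks.
-/

namespace Pool.Agent.P.MP_e517ea_lc

open Set

variable {G A : Type*} [Group G] [MulAction G A] {V : Subgroup G} {S S' K K' : Set A}

theorem mem_Inv_of_fix (hK : K.Finite) (hfix : ∀ g ∈ V, ∀ a ∈ K, g • a = a) {P : Setoid A}
    (h : ∀ a b, P a b → a = b ∨ (a ∈ K ∧ b ∈ K)) : P ∈ Inv V K := by
  refine ⟨fun a => (hK.insert a).subset fun b hb => ?_, fun g hg a b hab => ?_, h⟩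
  · rcases h a b hb with rfl | H
    · exact Or.inl rfl
    · exact Or.inr H.2
  · rcases h a b hab with rfl | H
    · exact P.refl _
    · rw [hfix g hg a H.1, hfix g hg b H.2]; exact hab

theorem nn_lower (hf : FinG A V) (hK : K.Finite) (hfix : ∀ g ∈ V, ∀ a ∈ K, g • a = a) {a : ℕ}
    (ha : a ≤ K.ncard) : a ^ (K.ncard - a) ≤ nn V K := by
  classical
  obtain ⟨M, hMK, hM⟩ := Set.exists_subset_card_eq ha
  have hMf : M.Finite := hK.subset hMK
  have h1 := hMf.to_subtype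
  have h2 := (hK.subset (sdiff_subset : K \ M ⊆ K)).to_subtype
  have h3 := (hf.fin K).to_subtype
  have hc : a ^ (K.ncard - a) = Nat.card (↥(K \ M) → ↥M) := by
    rw [Nat.card_fun, Nat.card_coe_set_eq, Nat.card_coe_set_eq, ncard_sdiff hMK hMf, hM]
  rw [hc]
  let F : (↥(K \ M) → ↥M) → A → A := fun f x => if h : x ∈ K \ M then (f ⟨x, h⟩ : A) else x
  have hF1 : ∀ f x (h : x ∈ K \ M), F f x = f ⟨x, h⟩ := fun f x h => dif_pos h
  have hF2 : ∀ f x, x ∉ K \ M → F f x = x := fun f x h => dif_neg h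
  have hmem : ∀ f, Setoid.ker (F f) ∈ Inv V K := fun f => by
    refine mem_Inv_of_fix hK hfix fun x y (hxy : F f x = F f y) => ?_
    by_cases hx : x ∈ K \ M <;> by_cases hy : y ∈ K \ M
    · exact Or.inr ⟨hx.1, hy.1⟩
    · rw [hF1 f x hx, hF2 f y hy] at hxy
      exact Or.inr ⟨hx.1, hMK (hxy ▸ (f ⟨x, hx⟩).2)⟩
    · rw [hF1 f y hy, hF2 f x hx] at hxy
      exact Or.inr ⟨hMK (hxy ▸ (f ⟨y, hy⟩).2), hy.1⟩
    · rw [hF2 f y hy, hF2 f x hx] at hxy
      exact Or.inl hxy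
  refine Nat.card_le_card_of_injective (β := ↥(Inv V K)) (fun f => ⟨_, hmem f⟩) fun f g h => ?_
  have h4 : Setoid.ker (F f) = Setoid.ker (F g) := congrArg Subtype.val h
  funext x
  have h5 : ((f x : M) : A) ∉ K \ M := fun H => H.2 (f x).2
  have h6 : Setoid.ker (F f) x (f x) := by
    show F f x = F f (f x)
    rw [hF1 f x x.2, hF2 f _ h5]
  rw [h4] at h6
  have h7 : F g x = F g (f x) := h6
  rw [hF1 g x x.2, hF2 g _ h5] at h7
  exact Subtype.ext h7.symm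

theorem exists_inj {α : Type*} {B : Set α} (hB : B.Finite) {j : ℕ} (h : j ≤ B.ncard) :
    ∃ u : Fin j → α, Function.Injective u ∧ ∀ i, u i ∈ B := by
  have := hB.fintype
  have h1 : Fintype.card (Fin j) ≤ Fintype.card B := by
    rw [Fintype.card_fin, ← Nat.card_eq_fintype_card, Nat.card_coe_set_eq]; exact h
  obtain ⟨e⟩ := Function.Embedding.nonempty_of_card_le h1
  exact ⟨fun i => e i, Subtype.val_injective.comp e.injective, fun i => (e i).2⟩

theorem IB.sub {P : Setoid A} (hP : P ∈ Inv V S) {β : Set A} (h : β ∈ IB V P S) : β ⊆ S := by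
  obtain ⟨a, ha, rfl, -⟩ := h
  intro b hb
  rcases hP.2.2 a b hb with rfl | H
  · exact ha
  · exact H.2

theorem IB.rel {P : Setoid A} {β : Set A} (h : β ∈ IB V P S) {a b : A} (ha : a ∈ β) :
    b ∈ β ↔ P a b := by
  obtain ⟨c, -, rfl, -⟩ := h
  exact ⟨fun hb => P.trans (P.symm ha) hb, fun hb => P.trans ha hb⟩

theorem IB.ne {P : Setoid A} {β : Set A} (h : β ∈ IB V P S) : β.Nonempty := by
  obtain ⟨c, -, rfl, -⟩ := h
  exact ⟨c, P.refl c⟩

theorem IB.eq {P : Setoid A} {β γ : Set A} (h : β ∈ IB V P S) (h' : γ ∈ IB V P S) {a : A}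
    (ha : a ∈ β) (ha' : a ∈ γ) : β = γ :=
  Set.ext fun _ => (IB.rel h ha).trans (IB.rel h' ha').symm

theorem IB.smul {P : Setoid A} (hP : P ∈ Inv V S) {β : Set A} (h : β ∈ IB V P S) {g : G}
    (hg : g ∈ V) {a : A} (ha : a ∈ β) : g • a ∈ β := by
  obtain ⟨c, -, rfl, hc⟩ := h
  exact P.trans (hc g hg) (hP.2.1 g hg c a ha)

theorem not_rel {P : Setoid A} (hP : P ∈ Inv V S) (hd : Disjoint S S') {a b : A} (ha : a ∈ S)
    (hb : b ∈ S') : ¬ P a b := fun h => by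
  rcases hP.2.2 a b h with rfl | H
  · exact disjoint_left.1 hd ha hb
  · exact disjoint_left.1 hd H.2 hb

theorem exists_glue (hS : S.Finite) (hS' : S'.Finite) (hd : Disjoint S S') {P Q : Setoid A}
    (hP : P ∈ Inv V S) (hQ : Q ∈ Inv V S') {ι : Type*} (u v : ι → Set A)
    (hu : Function.Injective u) (hv : Function.Injective v) (hu' : ∀ i, u i ∈ IB V P S)
    (hv' : ∀ i, v i ∈ IB V Q S') :
    ∃ R ∈ Inv V (S ∪ S'), (∀ a ∈ S, ∀ b ∈ S, R a b ↔ P a b) ∧ (∀ a ∈ S', ∀ b ∈ S', R a b ↔ Q a b) ∧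
      ∀ a ∈ S, ∀ b ∈ S', R a b ↔ ∃ i, a ∈ u i ∧ b ∈ v i := by
  obtain ⟨R, hR, hR'⟩ := exists_union hP hQ hd
  have hd' := disjoint_left.1 hd
  have huS : ∀ i, u i ⊆ S := fun i => IB.sub hP (hu' i)
  have hvS : ∀ i, v i ⊆ S' := fun i => IB.sub hQ (hv' i)
  have hdis : ∀ i i' a, a ∈ u i ∪ v i → a ∈ u i' ∪ v i' → i = i' := by
    rintro i i' a (h | h) (h' | h')
    · exact hu (IB.eq (hu' i) (hu' i') h h')
    · exact (hd' (huS i h) (hvS i' h')).elim
    · exact (hd' (huS i' h') (hvS i h)).elim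
    · exact hv (IB.eq (hv' i) (hv' i') h h')
  have hcl : ∀ i a b, R a b → b ∈ u i ∪ v i → a ∈ u i ∪ v i := by
    rintro i a b hab hb
    rcases (hR' a b).1 hab with h | h
    · rcases hb with hb | hb
      · exact Or.inl ((IB.rel (hu' i) hb).2 (P.symm h))
      · rcases hP.2.2 a b h with rfl | H
        · exact Or.inr hb
        · exact (hd' H.2 (hvS i hb)).elim
    · rcases hb with hb | hb
      · rcases hQ.2.2 a b h with rfl | H
        · exact Or.inl hb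
        · exact (hd' (huS i hb) H.2).elim
      · exact Or.inr ((IB.rel (hv' i) hb).2 (Q.symm h))
  have hsub : ∀ i, u i ∪ v i ⊆ S ∪ S' := fun i => union_subset_union (huS i) (hvS i)
  refine ⟨mrg R (fun a b => ∃ i, a ∈ u i ∪ v i ∧ b ∈ u i ∪ v i)
    (fun a b ⟨i, h1, h2⟩ => ⟨i, h2, h1⟩)
    (fun a b c ⟨i, h1, h2⟩ ⟨i', h3, h4⟩ => ⟨i, h1, hdis i i' b h2 h3 ▸ h4⟩)
    (fun a b c h ⟨i, h1, h2⟩ => ⟨i, hcl i a b h h1, h2⟩),
    mrg_mem hR (fun a => (hS.union hS').subset fun b ⟨i, _, h⟩ => hsub i h)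
      (fun g hg a b ⟨i, h1, h2⟩ => ⟨i, h1.imp (IB.smul hP (hu' i) hg) (IB.smul hQ (hv' i) hg),
        h2.imp (IB.smul hP (hu' i) hg) (IB.smul hQ (hv' i) hg)⟩)
      (fun a b ⟨i, h1, h2⟩ => Or.inr ⟨hsub i h1, hsub i h2⟩), fun a ha b hb => ?_,
      fun a ha b hb => ?_, fun a ha b hb => ?_⟩
  · rw [mrg_iff, hR']
    refine ⟨?_, fun h => Or.inl (Or.inl h)⟩
    rintro ((h | h) | ⟨i, h1, h2⟩)
    · exact h
    · rcases hQ.2.2 a b h with rfl | H
      · exact P.refl a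
      · exact (hd' ha H.1).elim
    · exact (IB.rel (hu' i) (h1.resolve_right fun H => hd' ha (hvS i H))).1
        (h2.resolve_right fun H => hd' hb (hvS i H))
  · rw [mrg_iff, hR']
    refine ⟨?_, fun h => Or.inl (Or.inr h)⟩
    rintro ((h | h) | ⟨i, h1, h2⟩)
    · rcases hP.2.2 a b h with rfl | H
      · exact Q.refl a
      · exact (hd' H.1 ha).elim
    · exact h
    · exact (IB.rel (hv' i) (h1.resolve_left fun H => hd' (huS i H) ha)).1
        (h2.resolve_left fun H => hd' (huS i H) hb)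
  · rw [mrg_iff, hR']
    refine ⟨?_, fun ⟨i, h1, h2⟩ => Or.inr ⟨i, Or.inl h1, Or.inr h2⟩⟩
    rintro ((h | h) | ⟨i, h1, h2⟩)
    · exact (not_rel hP hd ha hb h).elim
    · exact (not_rel hQ hd.symm hb ha (Q.symm h)).elim
    · exact ⟨i, h1.resolve_right fun H => hd' ha (hvS i H),
        h2.resolve_left fun H => hd' (huS i H) hb⟩

theorem Inv.ext_on {P P' : Setoid A} (hP : P ∈ Inv V S) (hP' : P' ∈ Inv V S)
    (h : ∀ a ∈ S, ∀ b ∈ S, P a b ↔ P' a b) : P = P' := by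
  ext a b
  constructor
  · intro H
    rcases hP.2.2 a b H with rfl | H'
    · exact P'.refl a
    · exact (h a H'.1 b H'.2).1 H
  · intro H
    rcases hP'.2.2 a b H with rfl | H'
    · exact P.refl a
    · exact (h a H'.1 b H'.2).2 H

theorem glue (hf : FinG A V) (hS : S.Finite) (hS' : S'.Finite) (hd : Disjoint S S')
    {Ps Qs : Set (Setoid A)} (hP : Ps ⊆ Inv V S) (hQ : Qs ⊆ Inv V S') {j m : ℕ} (hm : 1 ≤ m)
    (hj : ∀ P ∈ Ps, j ≤ (IB V P S).ncard) (hm' : ∀ Q ∈ Qs, m ≤ (IB V Q S').ncard) :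
    nn V S * nn V S' + Ps.ncard * Qs.ncard * j.descFactorial m ≤ nn V (S ∪ S') := by
  classical
  set T1 := {R ∈ Inv V (S ∪ S') | ¬ ∃ a ∈ S, ∃ b ∈ S', R a b} with hT1
  set T2 := {R ∈ Inv V (S ∪ S') | ∃ a ∈ S, ∃ b ∈ S', R a b} with hT2
  have hf1 : T1.Finite := (hf.fin _).subset fun _ h => h.1
  have hf2 : T2.Finite := (hf.fin _).subset fun _ h => h.1
  have h0 : T1.ncard + T2.ncard ≤ nn V (S ∪ S') := by
    rw [← ncard_union_eq (disjoint_left.2 fun _ h h' => h.2 h'.2) hf1 hf2]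
    exact ncard_le_ncard (union_subset (fun _ h => h.1) fun _ h => h.1) (hf.fin _)
  have h1 : nn V S * nn V S' ≤ T1.ncard := by
    have := hf1.to_subtype
    have e1 : nn V S * nn V S' = Nat.card (Inv V S × Inv V S') := by rw [Nat.card_prod]; rfl
    have k1 : ∀ p : Inv V S × Inv V S', _ := fun p =>
      exists_glue hS hS' hd p.1.2 p.2.2 (ι := Empty) Empty.elim Empty.elim (fun i => i.elim)
        (fun i => i.elim) (fun i => i.elim) (fun i => i.elim)
    choose f k1 k2 k3 k4 using k1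
    rw [e1]
    refine Nat.card_le_card_of_injective (β := T1)
      (fun p => ⟨f p, k1 p, fun ⟨a, ha, b, hb, h⟩ => ((k4 p a ha b hb).1 h).elim fun i => i.elim⟩)
      fun p q h => ?_
    have h' : f p = f q := congrArg Subtype.val h
    exact Prod.ext (Subtype.ext (Inv.ext_on p.1.2 q.1.2 fun a ha b hb => by
        rw [← k2 p a ha b hb, ← k2 q a ha b hb, h']))
      (Subtype.ext (Inv.ext_on p.2.2 q.2.2 fun a ha b hb => by
        rw [← k3 p a ha b hb, ← k3 q a ha b hb, h']))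
  have h2 : Ps.ncard * Qs.ncard * j.descFactorial m ≤ T2.ncard := by
    have := hf2.to_subtype
    have e1 : Ps.ncard * Qs.ncard * j.descFactorial m
        = Nat.card ((Ps × Qs) × (Fin m ↪ Fin j)) := by
      rw [Nat.card_prod, Nat.card_prod, Nat.card_eq_fintype_card (α := Fin m ↪ Fin j),
        Fintype.card_embedding_eq, Fintype.card_fin, Fintype.card_fin]
      rfl
    choose u hu hu' using fun P : Ps => exists_inj (IB.finite (V := V) P.1 hS) (hj P.1 P.2)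
    choose v hv hv' using fun Q : Qs => exists_inj (IB.finite (V := V) Q.1 hS') (hm' Q.1 Q.2)
    have k1 : ∀ p : (Ps × Qs) × (Fin m ↪ Fin j), _ := fun p =>
      exists_glue hS hS' hd (hP p.1.1.2) (hQ p.1.2.2) (fun i => u p.1.1 (p.2 i)) (v p.1.2)
        ((hu _).comp p.2.injective) (hv _) (fun i => hu' _ _) (hv' _)
    choose f k1 k2 k3 k4 using k1
    have k5 : ∀ p (i : Fin m), ∃ a ∈ u p.1.1 (p.2 i), ∃ b ∈ v p.1.2 i,
        a ∈ S ∧ b ∈ S' ∧ f p a b := fun p i => by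
      obtain ⟨a, ha⟩ := IB.ne (hu' p.1.1 (p.2 i))
      obtain ⟨b, hb⟩ := IB.ne (hv' p.1.2 i)
      have ha' := IB.sub (hP p.1.1.2) (hu' _ _) ha
      have hb' := IB.sub (hQ p.1.2.2) (hv' _ _) hb
      exact ⟨a, ha, b, hb, ha', hb', (k4 p a ha' b hb').2 ⟨i, ha, hb⟩⟩
    rw [e1]
    refine Nat.card_le_card_of_injective (β := T2)
      (fun p => ⟨f p, k1 p, by
        obtain ⟨a, -, b, -, ha, hb, h⟩ := k5 p ⟨0, hm⟩
        exact ⟨a, ha, b, hb, h⟩⟩) ?_
    rintro ⟨⟨P, Q⟩, e⟩ ⟨⟨P', Q'⟩, e'⟩ h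
    have h' : f ⟨⟨P, Q⟩, e⟩ = f ⟨⟨P', Q'⟩, e'⟩ := congrArg Subtype.val h
    obtain rfl : P = P' := Subtype.ext (Inv.ext_on (hP P.2) (hP P'.2) fun a ha b hb => by
      rw [← k2 ⟨⟨P, Q⟩, e⟩ a ha b hb, ← k2 ⟨⟨P', Q'⟩, e'⟩ a ha b hb, h'])
    obtain rfl : Q = Q' := Subtype.ext (Inv.ext_on (hQ Q.2) (hQ Q'.2) fun a ha b hb => by
      rw [← k3 ⟨⟨P, Q⟩, e⟩ a ha b hb, ← k3 ⟨⟨P, Q'⟩, e'⟩ a ha b hb, h'])
    refine Prod.ext rfl (Function.Embedding.ext fun i => ?_)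
    obtain ⟨a, ha, b, hb, ha', hb', hab⟩ := k5 ⟨⟨P, Q⟩, e⟩ i
    rw [h'] at hab
    obtain ⟨i', l1, l2⟩ := (k4 _ a ha' b hb').1 hab
    obtain rfl : i = i' := hv Q (IB.eq (hv' Q i) (hv' Q i') hb l2)
    exact hu P (IB.eq (hu' P _) (hu' P _) ha l1)
  omega

theorem av (hf : FinG A V) (hS : S.Finite) (hSV : Stab V S) (hKS : K ⊆ S)
    (hfix : ∀ g ∈ V, ∀ a ∈ K, g • a = a) {j : ℕ} (hj : 2 * (2 * j) ^ (2 * j) ≤ 2 ^ K.ncard) :
    nn V S ≤ 2 * {P ∈ Inv V S | j < (IB V P S).ncard}.ncard := by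
  have hK : K.Finite := hS.subset hKS
  have hKV : Stab V K := fun g hg a ha => by rw [hfix g hg a ha]; exact ha
  have e : S \ K ∪ K = S := sdiff_union_of_subset hKS
  have h1 := enc hf (hS.subset (sdiff_subset : S \ K ⊆ S)) hK (hSV.diff hKV) hfix j
  have h2 := nn_mul_le hf (disjoint_sdiff_left : Disjoint (S \ K) K)
  rw [e] at h1 h2
  set k := K.ncard with hk
  have hpos : 0 < (2 * j) ^ (2 * j) := by
    rcases Nat.eq_zero_or_pos j with rfl | h
    · simp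
    · positivity
  have h3 : 2 * j ≤ k := by
    rcases Nat.eq_zero_or_pos j with rfl | h
    · simp
    · have : 2 ^ (2 * j) ≤ 2 ^ k :=
        (Nat.pow_le_pow_left (by omega : 2 ≤ 2 * j) _).trans (by omega)
      exact (Nat.pow_le_pow_iff_right (by norm_num)).1 this
  have h4 := nn_lower hf hK hfix h3
  rw [← hk] at h4
  have h5 : 2 * j ^ k ≤ (2 * j) ^ (k - 2 * j) := by
    refine Nat.le_of_mul_le_mul_right ?_ hpos
    rw [← pow_add, Nat.sub_add_cancel h3, mul_pow 2 j k]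
    calc 2 * j ^ k * (2 * j) ^ (2 * j) = (2 * (2 * j) ^ (2 * j)) * j ^ k := by ring
      _ ≤ 2 ^ k * j ^ k := Nat.mul_le_mul_right _ hj
  have h6 : nn V S ≤ {P ∈ Inv V S | j < (IB V P S).ncard}.ncard
      + {P ∈ Inv V S | (IB V P S).ncard ≤ j}.ncard := by
    refine le_trans (ncard_le_ncard (fun P hP => ?_) (((hf.fin S).subset fun _ h => h.1).union
      ((hf.fin S).subset fun _ h => h.1))) (ncard_union_le _ _)
    exact (lt_or_ge j (IB V P S).ncard).imp (fun h => ⟨hP, h⟩) fun h => ⟨hP, h⟩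
  have h7 : 2 * (nn V (S \ K) * j ^ k) ≤ nn V S :=
    calc 2 * (nn V (S \ K) * j ^ k) = nn V (S \ K) * (2 * j ^ k) := by ring
      _ ≤ nn V (S \ K) * nn V K := Nat.mul_le_mul_left _ (h5.trans h4)
      _ ≤ _ := h2
  omega

theorem mm_pos (hf : FinG A V) (hS : S.Finite) (hSV : Stab V S) (hne : S.Nonempty) :
    1 ≤ mm V S := by
  obtain ⟨a, ha⟩ := hne
  refine (ncard_pos ((hf.fin S).subset fun _ h => h.1)).2 ⟨res ⊤ S, ⟨fun x => ?_, ?_, ?_⟩,
    _, a, ha, rfl, fun g hg => Or.inr ⟨ha, hSV g hg a ha, trivial⟩⟩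
  · exact (hS.insert x).subset fun b h => h.imp Eq.symm fun h => h.2.1
  · exact fun g hg x y h => h.imp (fun h => by rw [h])
      fun h => ⟨hSV g hg x h.1, hSV g hg y h.2.1, trivial⟩
  · exact fun x y h => h.imp_right fun h => ⟨h.1, h.2.1⟩

theorem mm_eq {a : A} (ha : a ∈ S) (hfix : ∀ g ∈ V, g • a = a) : mm V S = nn V S := by
  unfold mm nn
  congr 1
  exact sep_eq_self_iff_mem_true.2 fun P _ =>
    ⟨_, a, ha, rfl, fun g hg => by rw [hfix g hg]⟩

theorem gain (hf : FinG A V) (hS : S.Finite) (hS' : S'.Finite) (hd : Disjoint S S') :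
    nn V S * nn V S' + mm V S * mm V S' ≤ nn V (S ∪ S') := by
  have := glue hf hS hS' hd (Ps := {P ∈ Inv V S | (IB V P S).Nonempty})
    (Qs := {P ∈ Inv V S' | (IB V P S').Nonempty}) (fun _ h => h.1) (fun _ h => h.1) (j := 1) le_rfl
    (fun P h => (ncard_pos (IB.finite P hS)).2 h.2) fun P h => (ncard_pos (IB.finite P hS')).2 h.2
  simpa [mm] using this

theorem n1 (hf : FinG A V) (hS : S.Finite) (hSV : Stab V S) (hKS : K ⊆ S)
    (hfix : ∀ g ∈ V, ∀ a ∈ K, g • a = a) {J : ℕ} (hJ : 2 * (4 * J) ^ (4 * J) ≤ 2 ^ K.ncard)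
    {ι : Type*} (s : Finset ι) (T : ι → Set A)
    (hT : ∀ i ∈ s, (T i).Finite ∧ (T i).Nonempty ∧ Stab V (T i) ∧ Disjoint S (T i))
    (hd : (s : Set ι).PairwiseDisjoint T) :
    J ^ s.card * nn V S ≤ nn V (S ∪ ⋃ i ∈ s, T i) := by
  classical
  induction s using Finset.induction_on with
  | empty => simp
  | insert i s hi ih =>
    have ih' := ih (fun j hj => hT j (by simp [hj])) (hd.subset (by simp))
    set S1 := S ∪ ⋃ i ∈ s, T i with hS1
    obtain ⟨t1, t2, t3, t4⟩ := hT i (by simp)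
    have e : S ∪ ⋃ j ∈ insert i s, T j = S1 ∪ T i := by
      rw [Finset.set_biUnion_insert, hS1, union_assoc, union_comm (T i)]
    have f1 : S1.Finite :=
      hS.union (s.finite_toSet.biUnion fun j hj => (hT j (by simp [Finset.mem_coe.1 hj])).1)
    have f2 : Stab V S1 := hSV.union fun g hg a ha => by
      simp only [mem_iUnion] at ha ⊢
      obtain ⟨j, hj, ha⟩ := ha
      exact ⟨j, hj, (hT j (by simp [hj])).2.2.1 g hg a ha⟩
    have f3 : Disjoint S1 (T i) := by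
      refine disjoint_union_left.2 ⟨t4, ?_⟩
      simp only [disjoint_iUnion_left]
      exact fun j hj => hd (by simp [hj]) (by simp) (fun e => hi (e ▸ hj))
    have h1 := av hf f1 f2 (hKS.trans subset_union_left) hfix (j := 2 * J)
      (by rw [← mul_assoc 2 2 J]; exact hJ)
    have h2 := glue hf f1 t1 f3 (Ps := {P ∈ Inv V S1 | 2 * J < (IB V P S1).ncard})
      (Qs := {P ∈ Inv V (T i) | (IB V P (T i)).Nonempty}) (fun _ h => h.1) (fun _ h => h.1)
      (j := 2 * J) le_rfl (fun P h => h.2.le) fun P h => (ncard_pos (IB.finite P t1)).2 h.2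
    have h3 : 1 ≤ {P ∈ Inv V (T i) | (IB V P (T i)).Nonempty}.ncard := mm_pos hf t1 t3 t2
    rw [Nat.descFactorial_one] at h2
    rw [e, Finset.card_insert_of_notMem hi]
    set a := {P ∈ Inv V S1 | 2 * J < (IB V P S1).ncard}.ncard
    set b := {P ∈ Inv V (T i) | (IB V P (T i)).Nonempty}.ncard
    calc J ^ (s.card + 1) * nn V S = J * (J ^ s.card * nn V S) := by ring
      _ ≤ J * (2 * a) := Nat.mul_le_mul_left _ (ih'.trans h1)
      _ = a * 1 * (2 * J) := by ring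
      _ ≤ a * b * (2 * J) := Nat.mul_le_mul_right _ (Nat.mul_le_mul_left _ h3)
      _ ≤ _ := le_trans (Nat.le_add_left _ _) h2

theorem join (hf : FinG A V) (hS : S.Finite) (hS' : S'.Finite) (hSV : Stab V S)
    (hSV' : Stab V S') (hd : Disjoint S S') (hKS : K ⊆ S) (hKS' : K' ⊆ S')
    (hfix : ∀ g ∈ V, ∀ a ∈ K, g • a = a) (hfix' : ∀ g ∈ V, ∀ a ∈ K', g • a = a) {m : ℕ}
    (hm : 2 * (4 * m) ^ (4 * m) ≤ 2 ^ K.ncard) (hm' : 2 * (4 * m) ^ (4 * m) ≤ 2 ^ K'.ncard) :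
    m ^ m * (nn V S * nn V S') ≤ 4 * nn V (S ∪ S') := by
  rcases Nat.eq_zero_or_pos m with rfl | hm0
  · have := nn_mul_le hf hd
    simp only [pow_zero, one_mul]
    omega
  have h1 := av hf hS hSV hKS hfix (j := 2 * m) (by rw [← mul_assoc 2 2 m]; exact hm)
  have h1' := av hf hS' hSV' hKS' hfix' (j := 2 * m) (by rw [← mul_assoc 2 2 m]; exact hm')
  have h2 := glue hf hS hS' hd (Ps := {P ∈ Inv V S | 2 * m < (IB V P S).ncard})
    (Qs := {P ∈ Inv V S' | 2 * m < (IB V P S').ncard}) (fun _ h => h.1) (fun _ h => h.1)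
    (j := 2 * m) hm0 (fun P h => h.2.le) fun P h => by have := h.2; omega
  have h3 : m ^ m ≤ (2 * m).descFactorial m :=
    (Nat.pow_le_pow_left (by omega) m).trans (Nat.pow_sub_le_descFactorial (2 * m) m)
  set a := {P ∈ Inv V S | 2 * m < (IB V P S).ncard}.ncard
  set b := {P ∈ Inv V S' | 2 * m < (IB V P S').ncard}.ncard
  calc m ^ m * (nn V S * nn V S') ≤ (2 * m).descFactorial m * (2 * a * (2 * b)) :=
        Nat.mul_le_mul h3 (Nat.mul_le_mul h1 h1')
    _ = 4 * (a * b * (2 * m).descFactorial m) := by ring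
    _ ≤ _ := Nat.mul_le_mul_left _ (le_trans (Nat.le_add_left _ _) h2)

end Pool.Agent.P.MP_e517ea_lc
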