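import Pool.Agent.P.MP_e517ea_lc.Hyp
import Pool.Agent.P.MP_e517ea_lc.Count1

/-!
The budget lemma over an algebraically closed base, minimal classes, and bounds for single orbits.
-/

namespace Pool.Agent.P.MP_e517ea_lc

open Set

variable {G A : Type*} [Group G] [MulAction G A]

/-- An algebraically closed base with numerical parameters. -/
structure Base (A : Type*) [MulAction G A] (U : Subgroup G) (J w : ℕ) : Prop where
  hyp : Hyp G A
  opn : Opn A U
  closed : acl A U = Fix A U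
  hJ : 2 * (4 * J) ^ (4 * J) ≤ 2 ^ (Fix A U).ncard
  hw : 2 * (Fix A U).ncard + 1 ≤ w * J
  two : 2 ≤ w
  wJ : w ≤ J

/-- Minimal points. -/
def Min (U : Subgroup G) (a : A) : Prop :=
  a ∉ acl A U ∧ ∀ x ∈ cl U a, x ∉ acl A U → cl U a = cl U x

/-- New fixed points of the stabiliser of a class. -/
def F0 (U : Subgroup G) (a : A) : Set A := Fix A (SS U a) \ Fix A U

variable {U U' V W : Subgroup G} {a b c d : A} {g : G} {X S : Set A} {J w Y : ℕ}

theorem Min.smul (h : Min U a) (hg : g ∈ U) : Min U (g • a) :=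
  ⟨stab_acl.compl g hg a h.1, fun x hx hx' => by
    have := h.2 (g⁻¹ • x) ((smul_mem_cl_iff hg).1 (by simpa))
      (stab_acl.compl _ (U.inv_mem hg) x hx')
    simpa using cl_smul_eq hg this⟩

theorem Min.congr (h : Min U a) (e : cl U a = cl U b) : Min U b :=
  ⟨notMem_acl_of_eq le_rfl e h.1, e ▸ h.2⟩

theorem Min.of_XO (h : Min U a) (hb : b ∈ XO U U a) : Min U b := by
  obtain ⟨g, hg, e⟩ := hb
  exact (h.smul hg).congr e

theorem smul_mem_F0 (hg : g ∈ U) (h : b ∈ F0 U a) : g • b ∈ F0 U (g • a) := by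
  refine ⟨fun k hk => ?_, (stab_Fix Subset.rfl).compl g hg b h.2⟩
  have : g⁻¹ * k * g ∈ SS U a := ⟨U.mul_mem (U.mul_mem (U.inv_mem hg) hk.1) hg, by
    simpa [mul_smul] using cl_smul_eq (U.inv_mem hg) hk.2⟩
  have h1 := h.1 _ this
  rwa [mul_smul, mul_smul, inv_smul_eq_iff] at h1

theorem ncard_F0_smul (hg : g ∈ U) : (F0 U (g • a)).ncard = (F0 U a).ncard := by
  have : F0 U (g • a) = (g • ·) '' F0 U a := by
    ext x
    constructor
    · intro h
      exact ⟨g⁻¹ • x, by simpa using smul_mem_F0 (U.inv_mem hg) h, by simp⟩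
    · rintro ⟨y, hy, rfl⟩
      exact smul_mem_F0 hg hy
  rw [this, ncard_image_of_injective _ (MulAction.injective g)]

theorem ncard_F0_XO (hb : b ∈ XO U U a) : (F0 U b).ncard = (F0 U a).ncard := by
  obtain ⟨g, hg, e⟩ := hb
  rw [← ncard_F0_smul (a := a) hg, F0, F0, SS_congr e]

theorem Hyp.exists_min (H : Hyp G A) (hU : Opn A U) (ha : a ∉ acl A U) :
    ∃ b ∈ cl U a, Min U b := by
  obtain ⟨b, hb, h⟩ := exists_min_image (cl U a \ acl A U) (fun x => (cl U x).ncard)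
    ((H.clf hU a).subset sdiff_subset) ⟨a, mem_cl_self U a, ha⟩
  exact ⟨b, hb.1, hb.2, fun x hx hx' => (eq_of_subset_of_ncard_le (cl_subset le_rfl hx)
    (h x ⟨cl_subset le_rfl hb.1 hx, hx'⟩) (H.clf hU b)).symm⟩

theorem Hyp.F0_subset (H : Hyp G A) (hU : Opn A U) : F0 U a ⊆ cl U a := fun _ hx =>
  acl_SS (H.clf hU a) ▸ Fix_subset_acl hx.1

theorem Hyp.F0f (H : Hyp G A) (hU : Opn A U) (a : A) : (F0 U a).Finite :=
  (H.clf hU a).subset (H.F0_subset hU)

variable (B : Base A U J w)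
include B

theorem Base.budget (hW : Opn A W) (h : W ≤ U) (hc : (Fix A W \ Fix A U).ncard ≤ (Fix A U).ncard)
    (hS : Stab W S) (hS' : S ⊆ acl A W \ Fix A U) {ι : Type*} (s : Finset ι) (T : ι → Set A)
    (hT : ∀ i ∈ s, (T i).Nonempty ∧ Stab W (T i) ∧ T i ⊆ acl A W \ (Fix A U ∪ S))
    (hd : (s : Set ι).PairwiseDisjoint T) :
    J ^ s.card * nn W S * NN A W ≤ (w * J) ^ (Fix A W \ Fix A U).ncard * NN A U := by
  have H := B.hyp
  have hf := H.fin hW
  have ha := H.aclf hW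
  have hL := H.fix B.opn
  have hLW : Fix A U ⊆ acl A W := (Fix_anti h).trans Fix_subset_acl
  have hLS : Fix A U ∪ S ⊆ acl A W := union_subset hLW fun _ hx => (hS' hx).1
  have k1 := n1 hf (ha.subset hLS) ((stab_Fix (Fix_anti h)).union hS) subset_union_left
    (fun g hg a ha => ha g (h hg)) B.hJ s T (fun i hi => ⟨ha.subset fun _ hx => ((hT i hi).2.2 hx).1,
      (hT i hi).1, (hT i hi).2.1, disjoint_right.2 fun _ hx => ((hT i hi).2.2 hx).2⟩) hd
  have k2 := k1.trans (nn_mono hf (union_subset hLS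
    (iUnion₂_subset fun i hi _ hx => ((hT i hi).2.2 hx).1)))
  have k3 : nn U (Fix A U) * nn W S ≤ nn W (Fix A U ∪ S) :=
    (Nat.mul_le_mul_right _ (nn_anti hf h)).trans
      (nn_mul_le hf (disjoint_right.2 fun _ hx => (hS' hx).2))
  have k4 := H.nseq_eq hW
  have k5 := H.nseq_eq B.opn
  rw [B.closed] at k5
  have k6 : (Fix A W).ncard = (Fix A U).ncard + (Fix A W \ Fix A U).ncard := by
    rw [add_comm, ncard_sdiff_add_ncard_of_subset (Fix_anti h) (H.fix hW)]
  have k7 := nseq_add_le (Fix A U).ncard (Fix A W \ Fix A U).ncard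
  rw [← k6, k4, k5] at k7
  have k8 : ((Fix A W).ncard + 1) ^ (Fix A W \ Fix A U).ncard ≤
      (w * J) ^ (Fix A W \ Fix A U).ncard := Nat.pow_le_pow_left (by have := B.hw; omega) _
  refine Nat.le_of_mul_le_mul_left ?_ (nn_pos (H.fin B.opn) (Fix A U))
  calc _ = J ^ s.card * (nn U (Fix A U) * nn W S) * NN A W := by ring
    _ ≤ nn W (acl A W) * NN A W :=
      Nat.mul_le_mul_right _ ((Nat.mul_le_mul_left _ k3).trans k2)
    _ ≤ _ := k7
    _ ≤ _ := Nat.mul_le_mul_right _ k8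
    _ = _ := by ring

theorem Base.J_pos : 0 < J := by have := B.two; have := B.wJ; omega

theorem Base.bl' (hW : Opn A W) (h : W ≤ U) (hc : (Fix A W \ Fix A U).ncard ≤ (Fix A U).ncard)
    (hS : Stab W S) (hS' : S ⊆ acl A W \ Fix A W) :
    nn W S * NN A W ≤ w ^ (Fix A W \ Fix A U).ncard * NN A U := by
  have hF : (Fix A W \ Fix A U).Finite := (B.hyp.fix hW).subset sdiff_subset
  have := B.budget hW h hc hS (fun x hx => ⟨(hS' hx).1, fun h' => (hS' hx).2 (Fix_anti h h')⟩)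
    hF.toFinset (fun x => {x}) (fun x hx => by
      rw [Finite.mem_toFinset] at hx
      exact ⟨singleton_nonempty x, stab_Fix (singleton_subset_iff.2 hx.1), singleton_subset_iff.2
        ⟨Fix_subset_acl hx.1, fun h => h.elim hx.2 fun h => (hS' h).2 hx.1⟩⟩)
    (fun _ _ _ _ h => disjoint_singleton.2 h)
  rw [← ncard_eq_toFinset_card _ hF, mul_pow] at this
  refine Nat.le_of_mul_le_mul_left ?_ (Nat.pow_pos (n := (Fix A W \ Fix A U).ncard) B.J_pos)
  calc _ = _ := by ring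
    _ ≤ _ := this
    _ = _ := by ring

theorem Base.bl (hW : Opn A W) (h : W ≤ U) {n : ℕ} (hn : (Fix A W \ Fix A U).ncard ≤ n)
    (hc : n ≤ (Fix A U).ncard) : NN A W ≤ w ^ n * NN A U := by
  have := B.bl' hW h (hn.trans hc) (S := ∅) (fun _ _ _ h => h.elim) (empty_subset _)
  rw [nn_empty, one_mul] at this
  exact this.trans (Nat.mul_le_mul_right _ (Nat.pow_le_pow_right (by have := B.two; omega) hn))

theorem Base.acl_SS (a : A) : acl A (SS U a) = cl U a :=
  MP_e517ea_lc.acl_SS (B.hyp.clf B.opn a)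

theorem Base.F0_cls (h : Min U a) : F0 U a ⊆ cls U a := fun x hx =>
  h.2 x (B.hyp.F0_subset B.opn hx) (B.closed ▸ hx.2)

theorem Base.cls_subset (ha : a ∉ acl A U) : cls U a ⊆ acl A (SS U a) \ Fix A U := fun _ hx =>
  ⟨B.acl_SS a ▸ cls_subset_cl hx, B.closed ▸ notMem_acl_of_eq le_rfl hx ha⟩

/-- Bound for a minimal orbit. -/
theorem Base.lt_min (h : Min U a) (hc : (F0 U a).ncard ≤ (Fix A U).ncard) :
    nn U (XO U U a) ≤ (2 * (F0 U a).ncard * w) ^ (F0 U a).ncard := by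
  have H := B.hyp
  have hW := B.opn.SS a
  have hf := H.fin hW
  have hN := H.NN_mono hW SS_le
  have hD := H.clsf B.opn a
  have hs : Stab (SS U a) (cls U a \ F0 U a) := stab_cls.diff (stab_Fix sdiff_subset)
  have k1 : nn (SS U a) (cls U a \ F0 U a) ≤ w ^ (F0 U a).ncard :=
    Nat.le_of_mul_le_mul_right ((Nat.mul_le_mul_left _ hN).trans (B.bl' hW SS_le hc hs
      fun x hx => ⟨(B.cls_subset h.1 hx.1).1, fun h' => hx.2 ⟨h', (B.cls_subset h.1 hx.1).2⟩⟩))
      (H.NN_pos B.opn)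
  have k2 := enc hf (hD.subset sdiff_subset) (H.F0f B.opn a) hs (fun g hg a ha => ha.1 g hg)
    (2 * (F0 U a).ncard)
  rw [sdiff_union_of_subset (B.F0_cls h)] at k2
  have k3 : ∀ P ∈ Inv (SS U a) (cls U a), (IB (SS U a) P (cls U a)).ncard ≤ 2 * (F0 U a).ncard := by
    intro P hP
    have hI := IB.finite (V := SS U a) P hD
    have := B.budget hW SS_le hc (S := ∅) (fun _ _ _ h => h.elim) (empty_subset _) hI.toFinset
      (fun β => β) (fun β hβ => by
        obtain ⟨x, hx, rfl, h1⟩ := hI.mem_toFinset.1 hβ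
        refine ⟨⟨x, P.refl x⟩, fun g hg y hy => P.trans (h1 g hg) (hP.2.1 g hg x y hy),
          fun y hy => ?_⟩
        rw [union_empty]
        exact B.cls_subset h.1 ((hP.2.2 x y hy).elim (fun e => e ▸ hx) (·.2)))
      (fun β hβ γ hγ hne => by
        obtain ⟨x, -, rfl, -⟩ := hI.mem_toFinset.1 hβ
        obtain ⟨y, -, rfl, -⟩ := hI.mem_toFinset.1 hγ
        exact disjoint_left.2 fun z h1 h2 => hne ((cls_eq h1).trans (cls_eq h2).symm))
    rw [nn_empty, mul_one, ← ncard_eq_toFinset_card _ hI] at this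
    have k4 := Nat.le_of_mul_le_mul_right ((Nat.mul_le_mul_left _ hN).trans this) (H.NN_pos B.opn)
    refine (Nat.pow_le_pow_iff_right (a := J) (by have := B.two; have := B.wJ; omega)).1
      (k4.trans ?_)
    rw [pow_mul, sq]
    exact Nat.pow_le_pow_left (Nat.mul_le_mul_right _ B.wJ) _
  rw [sep_eq_self_iff_mem_true.2 k3] at k2
  calc _ ≤ _ := nn_XO_le le_rfl SS_le hf stab_cls Subset.rfl
    _ ≤ _ := k2
    _ ≤ _ := Nat.mul_le_mul_right _ k1
    _ = _ := by rw [← mul_pow, mul_comm]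

/-- Bound for the orbits above a minimal point. -/
theorem Base.lt_above (h : Min U b) {n : ℕ} (hn : (F0 U b).ncard ≤ n) (hc : n ≤ (Fix A U).ncard)
    {ι : Type*} (s : Finset ι) (d : ι → A) (h1 : ∀ i ∈ s, d i ∉ cl U b)
    (h2 : ∀ i ∈ s, b ∈ cl U (d i)) (hd : (s : Set ι).PairwiseDisjoint fun i => XO U U (d i)) :
    ∏ i ∈ s, nn U (XO U U (d i)) ≤ w ^ n := by
  have hW := B.opn.SS b
  have := (B.hyp.sp hW SS_le s d (fun i hi => B.acl_SS b ▸ h1 i hi)
    (fun i hi => ⟨b, h2 i hi, B.acl_SS b ▸ mem_cl_self U b, h.1⟩) hd).trans (B.bl hW SS_le hn hc)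
  rw [mul_comm] at this
  exact Nat.le_of_mul_le_mul_right this (B.hyp.NN_pos B.opn)

theorem Base.lt_nonmin (h : Min U b) {n : ℕ} (hn : (F0 U b).ncard ≤ n) (hc : n ≤ (Fix A U).ncard)
    (h1 : ¬ Min U a) (h2 : b ∈ cl U a) : nn U (XO U U a) ≤ w ^ n := by
  simpa using B.lt_above h hn hc {()} (fun _ => a)
    (fun _ _ h3 => h1 (h.congr (cl_eq_cl h3 h2))) (fun _ _ => h2) (by simp)

end Pool.Agent.P.MP_e517ea_lc
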