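import Pool.Agent.P.MP_e517ea_lc.Enc

/-!
Interface definitions shared by the parts of the proof.
-/

namespace Pool.Agent.P.MP_e517ea_lc

open Set

/-- The number of injective finite sequences from an `n`-element set. -/
def nseq : ℕ → ℕ
  | 0 => 1
  | n + 1 => (n + 1) * nseq n + 1

/-- The number of invariant partitions of `S` that have an invariant block. -/
noncomputable def mm {G A : Type*} [Group G] [MulAction G A] (V : Subgroup G) (S : Set A) : ℕ :=
  {P ∈ Inv V S | (IB V P S).Nonempty}.ncard

/-- A permutation group with an equivariant bijection `E` from the injective finite sequences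
onto the finitely supported finitary partitions. -/
structure PermModel (G B : Type*) [Group G] [MulAction G B] (E : List B → Setoid B) : Prop where
  fixfin : ∀ k : List B, {x : B | ∀ g : G, (∀ a ∈ k, g • a = a) → g • x = x}.Finite
  fin : ∀ s : List B, s.Nodup → ∀ a, {b | E s a b}.Finite
  equiv : ∀ (g : G) (s : List B), s.Nodup → ∀ a b, E s a b → E (s.map (g • ·)) (g • a) (g • b)
  inj : ∀ s t : List B, s.Nodup → t.Nodup → E s = E t → s = t
  surj : ∀ (k : List B) (P : Setoid B), (∀ a, {b | P a b}.Finite) →
    (∀ g : G, (∀ a ∈ k, g • a = a) → ∀ a b, P a b → P (g • a) (g • b)) → ∃ s, s.Nodup ∧ E s = P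

/-- A family of predicates on tuples that is closed under first-order operations and contains
equality and the relation `E`. -/
structure Closed {A : Type*} [Inhabited A] (D : Set (List A → Prop))
    (E : List A → A → A → Prop) : Prop where
  neg : ∀ p ∈ D, (fun l => ¬ p l) ∈ D
  and : ∀ p ∈ D, ∀ q ∈ D, (fun l => p l ∧ q l) ∈ D
  ex : ∀ p ∈ D, (fun l => ∃ a, p (a :: l)) ∈ D
  ren : ∀ p ∈ D, ∀ r : List ℕ, (fun l => p (r.map fun i => l.getD i default)) ∈ D
  eq : (fun l => l.getD 0 default = l.getD 1 default) ∈ D
  rel : (fun l => E (l.drop 2) (l.getD 0 default) (l.getD 1 default)) ∈ D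

/-- The definable closure of the tuple `k`. -/
def dcl {A : Type*} (D : Set (List A → Prop)) (k : List A) : Set A :=
  {a | ∃ p ∈ D, p (a :: k) ∧ ∀ b, p (b :: k) → b = a}

end Pool.Agent.P.MP_e517ea_lc
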