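import Mathlib.GroupTheory.CosetCover
import Pool.Agent.P.MP_e517ea_lc.Iface

/-!
Algebraic closure for a group action: finite orbits, closures of points, the lemma of Neumann.
-/

namespace Pool.Agent.P.MP_e517ea_lc

open Set

variable {G A : Type*} [Group G] [MulAction G A]

/-- Fixed points. -/
def Fix (A : Type*) [MulAction G A] (U : Subgroup G) : Set A := {a | ∀ g ∈ U, g • a = a}

/-- Points with finite orbit. -/
def acl (A : Type*) [MulAction G A] (U : Subgroup G) : Set A :=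
  {a | {b | ∃ g ∈ U, g • a = b}.Finite}

/-- Pointwise stabiliser. -/
def pw (G : Type*) [Group G] [MulAction G A] (K : Set A) : Subgroup G where
  carrier := {g | ∀ a ∈ K, g • a = a}
  one_mem' := fun a _ => one_smul G a
  mul_mem' := fun {g h} hg hh a ha => by rw [mul_smul, hh a ha, hg a ha]
  inv_mem' := fun {g} hg a ha => by rw [inv_smul_eq_iff, hg a ha]

theorem mem_pw {K : Set A} {g : G} : g ∈ pw G K ↔ ∀ a ∈ K, g • a = a := Iff.rfl

theorem mem_pw_one {a : A} {g : G} : g ∈ pw G ({a} : Set A) ↔ g • a = a := by simp [mem_pw]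

/-- The closure of a point. -/
def cl (U : Subgroup G) (a : A) : Set A := acl A (U ⊓ pw G {a})

variable {U U' V W : Subgroup G} {a b c : A} {g : G} {X Y : Set A}

theorem Fix_subset_acl : Fix A U ⊆ acl A U := fun a ha =>
  (finite_singleton a).subset fun _ ⟨g, hg, h⟩ => h.symm.trans (ha g hg)

theorem Fix_anti (h : U' ≤ U) : Fix A U ⊆ Fix A U' := fun _ ha g hg => ha g (h hg)

theorem acl_anti (h : U' ≤ U) : acl A U ⊆ acl A U' := fun _ ha =>
  Finite.subset ha fun _ ⟨g, hg, h'⟩ => ⟨g, h hg, h'⟩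

theorem le_pw_Fix : U ≤ pw G (Fix A U) := fun g hg _ ha => ha g hg

theorem stab_Fix (h : X ⊆ Fix A U) : Stab U X := fun g hg a ha => by rwa [h ha g hg]

theorem stab_acl : Stab U (acl A U) := fun g hg _ ha =>
  Finite.subset ha fun _ ⟨h, hh, e⟩ => ⟨h * g, U.mul_mem hh hg, by rwa [mul_smul]⟩

theorem subset_acl (hX : X.Finite) (hs : Stab U X) : X ⊆ acl A U := fun a ha =>
  hX.subset fun _ ⟨g, hg, h⟩ => h ▸ hs g hg a ha

theorem cl_eq_of_mem (ha : a ∈ acl A U) : cl U a = acl A U := by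
  refine Subset.antisymm (fun x hx => ?_) (acl_anti inf_le_left)
  have : ∀ t : {b | ∃ g ∈ U, g • a = b}, ∃ g ∈ U, g • a = t := fun t => t.2
  choose γ h1 h2 using this
  have := Finite.to_subtype ha
  refine (finite_iUnion fun t => Finite.image (γ t • ·) hx).subset ?_
  rintro _ ⟨g, hg, rfl⟩
  refine mem_iUnion.2 ⟨⟨g • a, g, hg, rfl⟩, ((γ ⟨g • a, g, hg, rfl⟩)⁻¹ * g) • x, ⟨_, ⟨U.mul_mem
    (U.inv_mem (h1 _)) hg, mem_pw_one.2 ?_⟩, rfl⟩, by simp [mul_smul]⟩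
  rw [mul_smul, inv_smul_eq_iff, h2]

theorem acl_inf_pw (hX : X.Finite) (h : X ⊆ acl A U) : acl A (U ⊓ pw G X) = acl A U := by
  induction X, hX using Set.Finite.induction_on with
  | empty => congr 1; ext g; simp [mem_pw]
  | @insert a s _ _ ih =>
    have h1 := ih fun x hx => h (Or.inr hx)
    have : U ⊓ pw G (insert a s) = (U ⊓ pw G s) ⊓ pw G {a} := by
      ext g; simp [mem_pw]; tauto
    rw [this, ← h1]
    exact cl_eq_of_mem (h1 ▸ h (Or.inl rfl))

theorem mem_cl_self (U : Subgroup G) (a : A) : a ∈ cl U a :=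
  Fix_subset_acl fun _ hg => mem_pw_one.1 hg.2

theorem acl_subset_cl : acl A U ⊆ cl U a := acl_anti inf_le_left

theorem cl_mono (h : U' ≤ U) : cl U a ⊆ cl U' a := acl_anti (inf_le_inf_right _ h)

theorem cl_subset_acl (h : U' ≤ U) (ha : a ∈ acl A U') : cl U a ⊆ acl A U' :=
  cl_eq_of_mem ha ▸ cl_mono h

theorem cl_subset (h : U' ≤ U) (hb : b ∈ cl U' a) : cl U b ⊆ cl U' a :=
  cl_subset_acl (inf_le_left.trans h) hb

theorem cl_eq_cl (h1 : b ∈ cl U a) (h2 : a ∈ cl U b) : cl U a = cl U b :=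
  (cl_subset le_rfl h2).antisymm (cl_subset le_rfl h1)

theorem mem_cl_of_eq (h : cl U a = cl U b) : b ∈ cl U a := h ▸ mem_cl_self U b

theorem cl_eq_mono (h : U' ≤ U) (e : cl U a = cl U b) : cl U' a = cl U' b :=
  cl_eq_cl (cl_mono h (mem_cl_of_eq e)) (cl_mono h (mem_cl_of_eq e.symm))

theorem notMem_acl_of_eq (h : U' ≤ U) (e : cl U a = cl U b) (ha : a ∉ acl A U') :
    b ∉ acl A U' := fun hb => ha (cl_subset_acl h hb (mem_cl_of_eq e.symm))

theorem smul_mem_cl (hg : g ∈ U) (h : b ∈ cl U a) : g • b ∈ cl U (g • a) := by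
  refine (Finite.image (g • ·) h).subset ?_
  rintro _ ⟨k, hk, rfl⟩
  refine ⟨(g⁻¹ * k * g) • b, ⟨_, ⟨U.mul_mem (U.mul_mem (U.inv_mem hg) hk.1) hg, mem_pw_one.2 ?_⟩,
    rfl⟩, by simp [mul_smul]⟩
  rw [mul_smul, mul_smul, mem_pw_one.1 hk.2, inv_smul_smul]

theorem smul_mem_cl_iff (hg : g ∈ U) : g • b ∈ cl U (g • a) ↔ b ∈ cl U a :=
  ⟨fun h => by simpa using smul_mem_cl (U.inv_mem hg) h, smul_mem_cl hg⟩

theorem cl_smul_eq (hg : g ∈ U) (h : cl U a = cl U b) : cl U (g • a) = cl U (g • b) :=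
  cl_eq_cl (smul_mem_cl hg (mem_cl_of_eq h)) (smul_mem_cl hg (mem_cl_of_eq h.symm))

theorem cl_smul_eq_iff (hg : g ∈ U) : cl U (g • a) = cl U (g • b) ↔ cl U a = cl U b :=
  ⟨fun h => by simpa using cl_smul_eq (U.inv_mem hg) h, cl_smul_eq hg⟩

theorem cl_smul (hg : g ∈ U) : cl U (g • a) = (g • ·) '' cl U a := by
  ext x
  constructor
  · intro h
    exact ⟨g⁻¹ • x, (smul_mem_cl_iff hg).1 (by simpa), by simp⟩
  · rintro ⟨y, hy, rfl⟩
    exact smul_mem_cl hg hy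

theorem ncard_cl_smul (hg : g ∈ U) : (cl U (g • a)).ncard = (cl U a).ncard := by
  rw [cl_smul hg, ncard_image_of_injective _ (MulAction.injective g)]

theorem Inv.cl_eq {P : Setoid A} (hP : P ∈ Inv U X) (h : P a b) : cl U a = cl U b := by
  have key : ∀ a b, P a b → b ∈ cl U a := fun a b h =>
    (hP.1 a).subset fun _ ⟨g, hg, e⟩ => by
      have := hP.2.1 g hg.1 a b h
      rwa [mem_pw_one.1 hg.2, e] at this
  exact cl_eq_cl (key a b h) (key b a (P.symm h))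

/-- The lemma of Neumann. -/
theorem neumann (hX : X.Finite) (hY : Y.Finite) (h : ∀ a ∈ X, a ∉ acl A U) :
    ∃ g ∈ U, ∀ a ∈ X, g • a ∉ Y := by
  classical
  by_contra hc
  push Not at hc
  have h1 : ∀ p : A × A, ∃ γ : U, (∃ g : U, g • p.1 = p.2) → γ • p.1 = p.2 := fun p => by
    by_cases hp : ∃ g : U, g • p.1 = p.2
    · exact hp.imp fun _ h _ => h
    · exact ⟨1, fun h => (hp h).elim⟩
  choose γ hγ using h1
  obtain ⟨p, hp, hfi⟩ := Subgroup.exists_finiteIndex_of_leftCoset_cover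
    (s := hX.toFinset ×ˢ hY.toFinset) (H := fun p => MulAction.stabilizer U p.1) (g := γ) (by
      refine eq_univ_of_forall fun g => ?_
      obtain ⟨a, ha, hg⟩ := hc g g.2
      refine mem_iUnion₂.2 ⟨(a, g • a), by simpa using ⟨ha, hg⟩, ?_⟩
      rw [mem_leftCoset_iff, SetLike.mem_coe, MulAction.mem_stabilizer_iff, mul_smul,
        inv_smul_eq_iff]
      exact (hγ (a, g • a) ⟨g, rfl⟩).symm)
  refine h p.1 (by simpa using (Finset.mem_product.1 hp).1) ?_
  have : Finite (MulAction.orbit U p.1) :=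
    Finite.of_equiv _ (MulAction.orbitEquivQuotientStabilizer U p.1).symm
  exact (toFinite (MulAction.orbit U p.1)).subset fun _ ⟨g, hg, e⟩ => ⟨⟨g, hg⟩, e⟩

/-- The class of a point. -/
def cls (U : Subgroup G) (a : A) : Set A := {b | cl U a = cl U b}

theorem mem_cls_self (U : Subgroup G) (a : A) : a ∈ cls U a := rfl

theorem cls_subset_cl : cls U a ⊆ cl U a := fun _ h => mem_cl_of_eq h

theorem cls_mono (h : U' ≤ U) : cls U a ⊆ cls U' a := fun _ e => cl_eq_mono h e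

/-- The stabiliser of a class. -/
def SS (U : Subgroup G) (a : A) : Subgroup G where
  carrier := {g | g ∈ U ∧ cl U a = cl U (g • a)}
  one_mem' := ⟨U.one_mem, by rw [one_smul]⟩
  mul_mem' := fun {g h} hg hh => ⟨U.mul_mem hg.1 hh.1, by
    rw [mul_smul]; exact hg.2.trans (cl_smul_eq hg.1 hh.2)⟩
  inv_mem' := fun {g} hg => ⟨U.inv_mem hg.1, by
    simpa using (cl_smul_eq (U.inv_mem hg.1) hg.2).symm⟩

theorem mem_SS : g ∈ SS U a ↔ g ∈ U ∧ cl U a = cl U (g • a) := Iff.rfl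

theorem SS_le : SS U a ≤ U := fun _ h => h.1

theorem inf_pw_le_SS : U ⊓ pw G {a} ≤ SS U a := fun _ h => ⟨h.1, by rw [mem_pw_one.1 h.2]⟩

theorem mem_SS_of (hg : g ∈ U) (hb : b ∈ cls U a) (hb' : g • b ∈ cls U a) : g ∈ SS U a :=
  ⟨hg, hb'.trans (cl_smul_eq hg hb).symm⟩

theorem SS_congr (h : cl U a = cl U b) : SS U a = SS U b := by
  ext g
  exact and_congr_right fun hg => by rw [h, cl_smul_eq hg h]

theorem cls_congr (h : cl U a = cl U b) : cls U a = cls U b := by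
  ext x; simp only [cls, mem_ofPred_eq, h]

theorem stab_cls : Stab (SS U a) (cls U a) := fun _ hg _ hb => hg.2.trans (cl_smul_eq hg.1 hb)

theorem stab_cl : Stab (SS U a) (cl U a) := fun _ hg _ hb => hg.2 ▸ smul_mem_cl hg.1 hb

theorem acl_SS (h : (cl U a).Finite) : acl A (SS U a) = cl U a :=
  (acl_anti inf_pw_le_SS).antisymm (subset_acl h stab_cl)

/-- The union of the `W`-translates of the `U`-class of `a`. -/
def XO (U W : Subgroup G) (a : A) : Set A := {b | ∃ g ∈ W, cl U (g • a) = cl U b}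

/-- Unions of classes. -/
def CS (U : Subgroup G) (X : Set A) : Prop := ∀ a ∈ X, ∀ b, cl U a = cl U b → b ∈ X

theorem CS.sat (h : CS U X) : Sat U X := fun _ hP a b hab ha => h a ha b (Inv.cl_eq hP hab)

theorem CS.mono (h : CS U' X) (hU : U' ≤ U) : CS U X := fun a ha b e => h a ha b (cl_eq_mono hU e)

theorem CS.compl (h : CS U X) : CS U Xᶜ := fun _ ha b e hb => ha (h b hb _ e.symm)

theorem CS.union (h : CS U X) (h' : CS U Y) : CS U (X ∪ Y) :=
  fun a ha b e => ha.imp (h a · b e) (h' a · b e)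

theorem CS.inter (h : CS U X) (h' : CS U Y) : CS U (X ∩ Y) :=
  fun a ha b e => ⟨h a ha.1 b e, h' a ha.2 b e⟩

theorem CS.diff (h : CS U X) (h' : CS U Y) : CS U (X \ Y) := h.inter h'.compl

theorem cs_acl (h : U' ≤ U) : CS U (acl A U') := fun _ ha _ e =>
  cl_subset_acl h ha (mem_cl_of_eq e)

theorem cs_cls : CS U (cls U a) := fun _ hb _ e => hb.trans e

theorem cs_XO : CS U (XO U W a) := fun _ ⟨g, hg, h⟩ _ e => ⟨g, hg, h.trans e⟩

theorem stab_XO (h : W ≤ U) : Stab W (XO U W a) := fun g hg _ ⟨k, hk, e⟩ =>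
  ⟨g * k, W.mul_mem hg hk, by rw [mul_smul]; exact cl_smul_eq (h hg) e⟩

theorem cls_subset_XO : cls U a ⊆ XO U W a := fun _ h => ⟨1, W.one_mem, by rwa [one_smul]⟩

theorem mem_XO_self : a ∈ XO U W a := cls_subset_XO (mem_cls_self U a)

theorem smul_mem_XO (hg : g ∈ W) : g • a ∈ XO U W a := ⟨g, hg, rfl⟩

theorem XO_subset (hX : Stab W X) (hc : CS U X) (ha : a ∈ X) : XO U W a ⊆ X :=
  fun _ ⟨g, hg, e⟩ => hc _ (hX g hg a ha) _ e

theorem XO_symm (h : W ≤ U) (hb : b ∈ XO U W a) : a ∈ XO U W b := by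
  obtain ⟨g, hg, e⟩ := hb
  exact ⟨g⁻¹, W.inv_mem hg, by simpa using (cl_smul_eq (U.inv_mem (h hg)) e).symm⟩

theorem XO_eq (h : W ≤ U) (hb : b ∈ XO U W a) : XO U W b = XO U W a :=
  (XO_subset (stab_XO h) cs_XO hb).antisymm (XO_subset (stab_XO h) cs_XO (XO_symm h hb))

theorem XO_disjoint (h : W ≤ U) (hne : XO U W a ≠ XO U W b) : Disjoint (XO U W a) (XO U W b) :=
  disjoint_left.2 fun _ h1 h2 => hne ((XO_eq h h1).symm.trans (XO_eq h h2))

theorem XO_mono (h : V ≤ W) : XO U V a ⊆ XO U W a := fun _ ⟨g, hg, e⟩ => ⟨g, h hg, e⟩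

theorem XO_subset_compl (h : W ≤ U) (ha : a ∉ acl A W) : XO U W a ⊆ (acl A W)ᶜ :=
  XO_subset stab_acl.compl (cs_acl h).compl ha

/-- Detection through classes. -/
theorem nn_le_of_cls (hV : V ≤ U) (hf : FinG A V) (hY : Stab V Y)
    (h : ∀ a ∈ X, ∃ g ∈ U, cls U (g • a) ⊆ Y) : nn U X ≤ nn V Y := by
  refine Detects.le (fun P hP a b hab hne => ?_) hV hf hY
  obtain ⟨g, hg, h1⟩ := h a ((hP.2.2 a b hab).resolve_left hne).1
  exact ⟨g, hg, h1 (mem_cls_self _ _), h1 (cl_smul_eq hg (Inv.cl_eq hP hab))⟩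

theorem nn_XO_le (hW : W ≤ U) (hV : V ≤ U) (hf : FinG A V) (hY : Stab V Y) (h : cls U a ⊆ Y) :
    nn U (XO U W a) ≤ nn V Y :=
  nn_le_of_cls hV hf hY fun b hb => by
    obtain ⟨g, hg, e⟩ := XO_symm hW hb
    exact ⟨g, hW hg, by rwa [cls_congr e]⟩

/-- Induction from a class. -/
theorem nn_cls_le {D : Set A} (hW : W ≤ U) (hf : FinG A W) (hD : D.Finite) (hDc : D ⊆ cls U a)
    (hs : Stab (W ⊓ SS U a) D) (hX : Stab W X) (hDX : D ⊆ X) : nn (W ⊓ SS U a) D ≤ nn W X :=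
  nn_induce hf hD hs (fun _ hg _ hb hb' => ⟨hg, mem_SS_of (hW hg) (hDc hb) (hDc hb')⟩)
    fun g hg b hb => hX g hg b (hDX hb)

end Pool.Agent.P.MP_e517ea_lc
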