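import Pool.Agent.P.MP_e517ea_lc.Iface
import Mathlib.Data.Set.Card.Arithmetic
import Mathlib.Analysis.Complex.ExponentialBounds

/-!
Counting lemmas: injective sequences, Bell numbers against factorials, two doubling lemmas.
-/

namespace Pool.Agent.P.MP_e517ea_lc

open Set

theorem nseq_pos (k : ℕ) : 0 < nseq k := by
  cases k <;> simp [nseq]

theorem factorial_le_nseq (k : ℕ) : k.factorial ≤ nseq k := by
  induction k with
  | zero => simp [nseq]
  | succ k ih =>
    rw [nseq, Nat.factorial_succ]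
    exact (Nat.mul_le_mul_left _ ih).trans (Nat.le_succ _)

theorem nseq_add_le (k c : ℕ) : nseq (k + c) ≤ (k + c + 1) ^ c * nseq k := by
  induction c with
  | zero => simp
  | succ c ih =>
    have h1 := nseq_pos (k + c)
    have h2 : (k + c + 1) ^ c ≤ (k + c + 1 + 1) ^ c := Nat.pow_le_pow_left (by omega) _
    calc nseq (k + (c + 1)) = (k + c + 1) * nseq (k + c) + 1 := rfl
      _ ≤ (k + c + 1 + 1) * nseq (k + c) := by rw [add_mul (k + c + 1) 1]; omega
      _ ≤ (k + c + 1 + 1) * ((k + c + 1 + 1) ^ c * nseq k) :=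
        Nat.mul_le_mul_left _ (ih.trans (Nat.mul_le_mul_right _ h2))
      _ = _ := by rw [← add_assoc]; ring

theorem nseq_rem (k c : ℕ) : ∃ q r, nseq (k + c) = q * nseq k + r ∧ r + 1 ≤ (k + c + 1) ^ c ∧
    (1 ≤ c → 0 < r) := by
  induction c with
  | zero => exact ⟨1, 0, by simp, by simp, by simp⟩
  | succ c ih =>
    obtain ⟨q, r, h1, h2, -⟩ := ih
    refine ⟨(k + c + 1) * q, (k + c + 1) * r + 1, ?_, ?_, fun _ => by omega⟩
    · rw [← add_assoc, nseq, h1]; ring
    · have h3 : (k + c + 1) ^ c ≤ (k + c + 1 + 1) ^ c := Nat.pow_le_pow_left (by omega) _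
      calc (k + c + 1) * r + 1 + 1 ≤ (k + c + 1 + 1) * (r + 1) := by nlinarith
        _ ≤ (k + c + 1 + 1) * (k + c + 1 + 1) ^ c := Nat.mul_le_mul_left _ (h2.trans h3)
        _ = _ := by rw [← add_assoc]; ring

theorem le_of_dvd_nseq {k c d : ℕ} (hc : 1 ≤ c) (h1 : d ∣ nseq k) (h2 : d ∣ nseq (k + c)) :
    d ≤ (k + c + 1) ^ c := by
  obtain ⟨q, r, e, h3, h4⟩ := nseq_rem k c
  rw [e] at h2
  have := Nat.le_of_dvd (h4 hc) ((Nat.dvd_add_right (h1.mul_left q)).1 h2)
  omega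

theorem exists_nodup {A : Type*} (n : ℕ) (s : Finset A) (hs : s.card = n) :
    ∃ T : Finset (List A), (∀ l, l ∈ T ↔ l.Nodup ∧ ∀ x ∈ l, x ∈ s) ∧ T.card = nseq n := by
  classical
  induction n generalizing s with
  | zero =>
    rw [Finset.card_eq_zero] at hs
    subst hs
    refine ⟨{[]}, fun l => ?_, rfl⟩
    cases l with
    | nil => simp
    | cons a l =>
      simp only [Finset.mem_singleton, reduceCtorEq, false_iff, not_and]
      exact fun _ h => absurd (h a (by simp)) (by simp)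
  | succ n ih =>
    have : ∀ x, ∃ T : Finset (List A), x ∈ s →
        (∀ l, l ∈ T ↔ l.Nodup ∧ ∀ y ∈ l, y ∈ s.erase x) ∧ T.card = nseq n := fun x => by
      by_cases hx : x ∈ s
      · obtain ⟨T, h⟩ := ih (s.erase x) (by rw [Finset.card_erase_of_mem hx, hs]; rfl)
        exact ⟨T, fun _ => h⟩
      · exact ⟨∅, fun h => (hx h).elim⟩
    choose T hT using this
    refine ⟨insert [] (s.biUnion fun x => (T x).image (x :: ·)), fun l => ?_, ?_⟩
    · cases l with
      | nil => simp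
      | cons a l =>
        simp only [Finset.mem_insert, reduceCtorEq, Finset.mem_biUnion, Finset.mem_image,
          List.cons.injEq, false_or, List.nodup_cons, List.mem_cons, forall_eq_or_imp]
        constructor
        · rintro ⟨x, hx, m, hm, rfl, rfl⟩
          obtain ⟨h1, h2⟩ := ((hT x hx).1 m).1 hm
          exact ⟨⟨fun h => by simpa using h2 x h, h1⟩, hx,
            fun y hy => Finset.mem_of_mem_erase (h2 y hy)⟩
        · rintro ⟨⟨h1, h2⟩, h3, h4⟩
          exact ⟨a, h3, l, ((hT a h3).1 l).2 ⟨h2, fun y hy =>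
            Finset.mem_erase.2 ⟨fun e => h1 (e ▸ hy), h4 y hy⟩⟩, rfl, rfl⟩
    · rw [Finset.card_insert_of_notMem (by simp), Finset.card_biUnion, nseq,
        Finset.sum_const_nat (m := nseq n), hs]
      · intro x hx
        rw [Finset.card_image_of_injective _ List.cons_injective, (hT x hx).2]
      · intro x _ y _ hxy
        simp only [Function.onFun, Finset.disjoint_left, Finset.mem_image]
        rintro l ⟨m, -, rfl⟩ ⟨m', -, e⟩
        exact hxy (List.cons.inj e).1.symm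

theorem ncard_nodup {A : Type*} {S : Set A} (hS : S.Finite) :
    {l : List A | l.Nodup ∧ ∀ x ∈ l, x ∈ S}.Finite ∧
      {l : List A | l.Nodup ∧ ∀ x ∈ l, x ∈ S}.ncard = nseq S.ncard := by
  obtain ⟨T, h1, h2⟩ := exists_nodup S.ncard hS.toFinset (ncard_eq_toFinset_card S hS).symm
  have : {l : List A | l.Nodup ∧ ∀ x ∈ l, x ∈ S} = (T : Set (List A)) := by
    ext l
    simp [h1]
  rw [this]
  exact ⟨T.finite_toSet, by rw [ncard_coe_finset, h2]⟩

theorem le_of_succ_pow_le {Z k M : ℕ} (hZ : 0 < Z) (h : (Z + 1) ^ k ≤ Z ^ k * 2 ^ M) :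
    k ≤ Z * M := by
  have h1 : ∀ n, Z ^ n * (Z + n) ≤ Z * (Z + 1) ^ n := by
    intro n
    induction n with
    | zero => simp
    | succ n ih =>
      calc Z ^ (n + 1) * (Z + (n + 1)) = Z ^ n * (Z * (Z + (n + 1))) := by ring
        _ ≤ Z ^ n * ((Z + n) * (Z + 1)) := Nat.mul_le_mul_left _ (by nlinarith)
        _ = Z ^ n * (Z + n) * (Z + 1) := by ring
        _ ≤ Z * (Z + 1) ^ n * (Z + 1) := Nat.mul_le_mul_right _ ih
        _ = _ := by ring
  have h2 : Z ^ Z * 2 ≤ (Z + 1) ^ Z :=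
    Nat.le_of_mul_le_mul_left (by have := h1 Z; nlinarith) hZ
  by_contra hk
  obtain ⟨m, rfl⟩ : ∃ m, k = Z * M + (m + 1) := ⟨k - Z * M - 1, by omega⟩
  have h3 : (Z ^ Z * 2) ^ M ≤ ((Z + 1) ^ Z) ^ M := Nat.pow_le_pow_left h2 _
  have h4 : Z ^ (m + 1) < (Z + 1) ^ (m + 1) := Nat.pow_lt_pow_left (by omega) (by omega)
  have h5 : (Z ^ Z * 2) ^ M * Z ^ (m + 1) < ((Z + 1) ^ Z) ^ M * (Z + 1) ^ (m + 1) :=
    Nat.mul_lt_mul_of_le_of_lt h3 h4 (by positivity)
  rw [← pow_mul, ← pow_add, mul_pow, ← pow_mul, mul_right_comm, ← pow_add] at h5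
  omega

variable {G A : Type*} [Group G] [MulAction G A] {V U : Subgroup G} {K X D : Set A}

theorem nn_le_factorial (hf : FinG A V) (hK : K.Finite)
    (hfix : ∀ g ∈ V, ∀ a ∈ K, g • a = a) : nn V K ≤ K.ncard.factorial := by
  induction K, hK using Set.Finite.induction_on with
  | empty => simp [nn_empty]
  | @insert x K hx hK ih =>
    have h1 := enc hf hK (finite_singleton x)
      (fun g hg a ha => by rwa [hfix g hg a (Or.inr ha)])
      (fun g hg a ha => hfix g hg a (Or.inl ha)) (K.ncard + 1)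
    have h2 : {P ∈ Inv V (K ∪ {x}) | (IB V P (K ∪ {x})).ncard ≤ K.ncard + 1} =
        Inv V (insert x K) := by
      rw [union_singleton]
      refine sep_eq_self_iff_mem_true.2 fun P _ => ?_
      rw [← ncard_insert_of_notMem hx hK]
      refine le_trans (ncard_le_ncard ?_ ((hK.insert x).image fun a => {b | P a b}))
        (ncard_image_le (hK.insert x))
      exact fun _ ⟨a, ha, h, _⟩ => ⟨a, ha, h.symm⟩
    rw [h2, ncard_singleton, pow_one] at h1
    rw [ncard_insert_of_notMem hx hK, Nat.factorial_succ, mul_comm]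
    exact h1.trans (Nat.mul_le_mul_right _ (ih fun g hg a ha => hfix g hg a (Or.inr ha)))

theorem nn_lt_nseq (hf : FinG A V) (hK : K.Finite) (hne : K.Nonempty)
    (hfix : ∀ g ∈ V, ∀ a ∈ K, g • a = a) : nn V K < nseq K.ncard := by
  refine (nn_le_factorial hf hK hfix).trans_lt ?_
  obtain ⟨n, hn⟩ : ∃ n, K.ncard = n + 1 := ⟨K.ncard - 1, by have := (ncard_pos hK).2 hne; omega⟩
  rw [hn, nseq, Nat.factorial_succ]
  exact Nat.lt_succ_of_le (Nat.mul_le_mul_left _ (factorial_le_nseq n))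

theorem nn_insert_le [DecidableEq A] (hf : FinG A V) (s : Finset A) {x : A} (hx : x ∉ s)
    (hfix : ∀ g ∈ V, ∀ a ∈ s, g • a = a) :
    nn V (insert x (s : Set A)) ≤ ∑ T ∈ s.powerset, nn V ((s \ T : Finset A) : Set A) := by
  classical
  have h1 : Inv V (insert x (s : Set A)) = ⋃ T ∈ s.powerset,
      {P ∈ Inv V (insert x (s : Set A)) | s.filter (fun b => P x b) = T} := by
    ext P
    simp only [mem_iUnion, mem_ofPred_eq, Finset.mem_powerset]
    exact ⟨fun h => ⟨_, Finset.filter_subset _ _, h, rfl⟩, fun ⟨_, _, h, _⟩ => h⟩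
  rw [nn, h1]
  refine (Finset.set_ncard_biUnion_le _ _).trans (Finset.sum_le_sum fun T _ => ?_)
  refine ncard_le_ncard_of_injOn (fun P => res P ((s \ T : Finset A) : Set A))
    (fun P hP => res_mem hP.1 fun g hg a ha => ?_) (fun P hP Q hQ e => ?_) (hf.fin _)
  · rwa [hfix g hg a (Finset.mem_sdiff.1 ha).1]
  · have key : ∀ P ∈ Inv V (insert x (s : Set A)), ∀ Q : Setoid A,
        s.filter (fun b => P x b) = T → s.filter (fun b => Q x b) = T →
        res P ((s \ T : Finset A) : Set A) = res Q ((s \ T : Finset A) : Set A) →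
        ∀ a b, P a b → Q a b := by
      intro P hP Q e1 e2 e a b hab
      have k1 : ∀ c ∈ insert x (s : Set A), P x c → Q x c := by
        rintro c (rfl | hc) h
        · exact Q.refl _
        · have : c ∈ T := e1 ▸ Finset.mem_filter.2 ⟨hc, h⟩
          rw [← e2] at this
          exact (Finset.mem_filter.1 this).2
      have k2 : ∀ c ∈ insert x (s : Set A), ¬ P x c → c ∈ ((s \ T : Finset A) : Set A) := by
        rintro c (rfl | hc) h
        · exact absurd (P.refl _) h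
        · refine Finset.mem_sdiff.2 ⟨hc, fun h' => h ?_⟩
          rw [← e1] at h'
          exact (Finset.mem_filter.1 h').2
      rcases hP.2.2 a b hab with rfl | ⟨ha, hb⟩
      · exact Q.refl a
      by_cases h : P x a
      · exact Q.trans (Q.symm (k1 a ha h)) (k1 b hb (P.trans h hab))
      · exact res_le (e ▸ (res_iff' (k2 a ha h) (k2 b hb fun h' => h (P.trans h' (P.symm hab)))).2
          hab : res Q _ a b)
    ext a b
    exact ⟨key P hP.1 Q hP.2 hQ.2 e a b, key Q hQ.1 P hQ.2 hP.2 e.symm a b⟩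

theorem nn_le_bell (hf : FinG A V) (n : ℕ) (s : Finset A) (hs : s.card = n)
    (hfix : ∀ g ∈ V, ∀ a ∈ s, g • a = a) :
    (nn V (s : Set A) : ℝ) ≤ 3 ^ 80 * n.factorial / 3 ^ n := by
  classical
  induction n using Nat.strong_induction_on generalizing s with
  | _ n ih =>
  by_cases hn : n ≤ 80
  · have h1 := nn_le_factorial hf s.finite_toSet hfix
    rw [ncard_coe_finset, hs] at h1
    have h2 : (3 : ℝ) ^ n ≤ 3 ^ 80 := pow_le_pow_right₀ (by norm_num) hn
    rw [le_div_iff₀ (by positivity), mul_comm]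
    exact mul_le_mul h2 (by exact_mod_cast h1) (by positivity) (by positivity)
  obtain ⟨x, hx⟩ : s.Nonempty := Finset.card_pos.1 (by omega)
  obtain ⟨m, rfl⟩ : ∃ m, n = m + 1 := ⟨n - 1, by omega⟩
  have hc : (s.erase x).card = m := by rw [Finset.card_erase_of_mem hx, hs]; rfl
  have h1 := nn_insert_le hf (s.erase x) (x := x) (by simp)
    (fun g hg a ha => hfix g hg a (Finset.mem_of_mem_erase ha))
  rw [← Finset.coe_insert, Finset.insert_erase hx] at h1
  have h2 : ∀ T ∈ (s.erase x).powerset, (nn V ((s.erase x \ T : Finset A) : Set A) : ℝ) ≤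
      3 ^ 80 * (m - T.card).factorial / 3 ^ (m - T.card) := fun T hT =>
    ih _ (by omega) _ (by rw [Finset.card_sdiff_of_subset (Finset.mem_powerset.1 hT), hc])
      (fun g hg a ha => hfix g hg a (Finset.mem_of_mem_erase (Finset.mem_sdiff.1 ha).1))
  have h3 := Finset.sum_powerset_apply_card
    (fun j => (3 : ℝ) ^ 80 * (m - j).factorial / 3 ^ (m - j)) (x := s.erase x)
  have h4 : ∑ j ∈ Finset.range (m + 1), m.choose j • ((3 : ℝ) ^ 80 * (m - j).factorial / 3 ^ (m - j))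
      = 3 ^ 80 * m.factorial / 3 ^ m * ∑ j ∈ Finset.range (m + 1), (3 : ℝ) ^ j / j.factorial := by
    rw [Finset.mul_sum]
    refine Finset.sum_congr rfl fun j hj => ?_
    obtain ⟨i, rfl⟩ : ∃ i, m = j + i := ⟨m - j, by have := Finset.mem_range.1 hj; omega⟩
    rw [nsmul_eq_mul, ← Nat.choose_mul_factorial_mul_factorial (Nat.le_add_right j i),
      Nat.add_sub_cancel_left]
    push_cast
    field_simp
    ring
  have h5 : ∑ j ∈ Finset.range (m + 1), (3 : ℝ) ^ j / j.factorial ≤ 27 := by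
    refine (Real.sum_le_exp_of_nonneg (by norm_num) _).trans ?_
    have := Real.exp_one_lt_d9
    have h6 : Real.exp 3 = Real.exp 1 ^ 3 := by rw [← Real.exp_nat_mul]; norm_num
    rw [h6]
    exact (pow_le_pow_left₀ (Real.exp_pos 1).le (show Real.exp 1 ≤ 3 by linarith) 3).trans
      (by norm_num)
  have h7 : (80 : ℝ) ≤ m := by exact_mod_cast (show 80 ≤ m by omega)
  calc (nn V (s : Set A) : ℝ)
      ≤ ∑ T ∈ (s.erase x).powerset, (nn V ((s.erase x \ T : Finset A) : Set A) : ℝ) := by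
        exact_mod_cast h1
    _ ≤ _ := Finset.sum_le_sum h2
    _ = _ := by rw [h3, hc, h4]
    _ ≤ 3 ^ 80 * m.factorial / 3 ^ m * ((m + 1) / 3) :=
        mul_le_mul_of_nonneg_left (by linarith) (by positivity)
    _ = _ := by rw [Nat.factorial_succ]; push_cast; field_simp; ring

theorem nn_upper (hf : FinG A V) (hK : K.Finite) (hfix : ∀ g ∈ V, ∀ a ∈ K, g • a = a)
    (hn : 2 ^ 200 ≤ K.ncard) : 2 ^ K.ncard * nn V K ≤ nseq K.ncard := by
  have h1 := nn_le_bell hf K.ncard hK.toFinset (ncard_eq_toFinset_card K hK).symm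
    (fun g hg a ha => hfix g hg a (hK.mem_toFinset.1 ha))
  rw [hK.coe_toFinset, le_div_iff₀ (by positivity)] at h1
  refine le_trans ?_ (factorial_le_nseq _)
  obtain ⟨m, hm⟩ : ∃ m, K.ncard = 240 + m := ⟨K.ncard - 240, by omega⟩
  have h2 : (2 : ℝ) ^ K.ncard * 3 ^ 80 ≤ 3 ^ K.ncard := by
    rw [hm, pow_add, pow_add, mul_right_comm]
    exact mul_le_mul (by norm_num) (pow_le_pow_left₀ (by norm_num) (by norm_num) _)
      (by positivity) (by positivity)
  have h3 : (2 : ℝ) ^ K.ncard * nn V K * 3 ^ K.ncard ≤ K.ncard.factorial * 3 ^ K.ncard :=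
    calc (2 : ℝ) ^ K.ncard * nn V K * 3 ^ K.ncard
        ≤ 2 ^ K.ncard * (3 ^ 80 * K.ncard.factorial) := by
          rw [mul_assoc]; exact mul_le_mul_of_nonneg_left h1 (by positivity)
      _ = K.ncard.factorial * (2 ^ K.ncard * 3 ^ 80) := by ring
      _ ≤ _ := mul_le_mul_of_nonneg_left h2 (by positivity)
  exact_mod_cast le_of_mul_le_mul_right h3 (by positivity)

theorem two_to_one (hf : FinG A V) (hle : V ≤ U) (hD : Stab U D) {x : A}
    (hx : ∀ g ∈ V, g • x = x) {g : G} (hg : g ∈ U) (hgx : g • x ≠ x) :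
    nn U D ≤ 2 * nn V (D \ {x}) := by
  have h1 : 2 * nn V (D \ {x}) = (Inv V (D \ {x}) ×ˢ (univ : Set Prop)).ncard := by
    rw [ncard_prod, ncard_univ, mul_comm, Nat.card_eq_fintype_card, Fintype.card_prop]; rfl
  have h2 : Stab V (D \ {x}) := (hD.mono hle).diff fun g hg a ha => by
    rw [mem_singleton_iff.1 ha]; exact hx g hg
  rw [h1]
  refine ncard_le_ncard_of_injOn (fun P => (res P (D \ {x}), P x (g⁻¹ • x)))
    (fun P hP => ⟨res_mem (Inv_anti hle hP) h2, trivial⟩) (fun P hP Q hQ e => ?_)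
    ((hf.fin _).prod finite_univ)
  have key : ∀ P ∈ Inv U D, ∀ Q ∈ Inv U D, res P (D \ {x}) = res Q (D \ {x}) →
      (P x (g⁻¹ • x) → Q x (g⁻¹ • x)) → ∀ a b, P a b → Q a b := by
    intro P hP Q hQ e1 e2
    have k1 : ∀ a b, a ∈ D → b ∈ D → a ≠ x → b ≠ x → P a b → Q a b := fun a b ha hb a1 b1 h =>
      res_le (e1 ▸ (res_iff' (X := D \ {x}) ⟨ha, a1⟩ ⟨hb, b1⟩).2 h : res Q _ a b)
    have k2 : ∀ b, x ∈ D → b ∈ D → P x b → Q x b := by
      intro b ha hb h
      by_cases e : g • b = x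
      · have : b = g⁻¹ • x := by rw [← e, inv_smul_smul]
        rw [this] at h ⊢
        exact e2 h
      · exact (Inv.iff hQ hg).1 (k1 _ _ (hD g hg _ ha) (hD g hg _ hb) hgx e (hP.2.1 g hg _ _ h))
    intro a b hab
    rcases hP.2.2 a b hab with rfl | ⟨ha, hb⟩
    · exact Q.refl a
    by_cases a1 : a = x
    · subst a1; exact k2 b ha hb hab
    by_cases b1 : b = x
    · subst b1; exact Q.symm (k2 a hb ha (P.symm hab))
    exact k1 a b ha hb a1 b1 hab
  simp only [Prod.mk.injEq, eq_iff_iff] at e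
  ext a b
  exact ⟨key P hP Q hQ e.1 e.2.1 a b, key Q hQ P hP e.1.symm e.2.2 a b⟩

theorem pointed (hf : FinG A V) {τ σ : Setoid A} (hτ : τ ∈ Inv V (univ : Set A)) (hX : Stab V X)
    {d : A} (hd : d ∈ X) (hσ : ∀ v ∈ V, ∀ v' ∈ V, σ (v • d) (v' • d) → v • d = v' • d)
    {v0 : G} (hv0 : v0 ∈ V) (h1 : τ d (v0 • d)) (h2 : ¬ σ d (v0 • d))
    {Ps : Set (Setoid A)} (hP : Ps ⊆ Inv V X) (hσP : ∀ P ∈ Ps, ∀ a b, P a b → σ a b)
    (hτP : ∀ P ∈ Ps, ∀ a b, P a b → τ a b) : 2 * Ps.ncard ≤ nn V X := by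
  have : ∀ P : Setoid A, ∃ R : Setoid A, P ∈ Ps →
      R ∈ Inv V X ∧ R d (v0 • d) ∧ ∀ a b, P a b ↔ R a b ∧ σ a b := by
    intro P
    by_cases hm : P ∈ Ps
    swap
    · exact ⟨⊥, fun h => (hm h).elim⟩
    have k1 : ∀ a, (∃ v ∈ V, P a (v • d)) → a ∈ X := by
      rintro a ⟨v, hv, h⟩
      rcases (hP hm).2.2 _ _ h with rfl | h
      exacts [hX v hv d hd, h.1]
    have k2 : ∀ g ∈ V, ∀ a, (∃ v ∈ V, P a (v • d)) → ∃ v ∈ V, P (g • a) (v • d) := by
      rintro g hg a ⟨v, hv, h⟩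
      exact ⟨g * v, V.mul_mem hg hv, by rw [mul_smul]; exact (hP hm).2.1 g hg _ _ h⟩
    refine ⟨mrg P (fun a b => (∃ v ∈ V, P a (v • d)) ∧ (∃ v ∈ V, P b (v • d)) ∧ τ a b)
      (fun a b h => ⟨h.2.1, h.1, τ.symm h.2.2⟩)
      (fun a b c h h' => ⟨h.1, h'.2.1, τ.trans h.2.2 h'.2.2⟩)
      (fun a b c h ⟨⟨v, hv, k⟩, k', k''⟩ =>
        ⟨⟨v, hv, P.trans h k⟩, k', τ.trans (hτP P hm a b h) k''⟩), fun _ => ⟨?_, ?_, ?_⟩⟩
    · exact mrg_mem (hP hm) (fun a => (hτ.1 a).subset fun _ h => h.2.2)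
        (fun g hg a b h => ⟨k2 g hg a h.1, k2 g hg b h.2.1, hτ.2.1 g hg a b h.2.2⟩)
        (fun a b h => Or.inr ⟨k1 a h.1, k1 b h.2.1⟩)
    · exact Or.inr ⟨⟨1, V.one_mem, by rw [one_smul]⟩, ⟨v0, hv0, P.refl _⟩, h1⟩
    · intro a b
      refine ⟨fun h => ⟨Or.inl h, hσP P hm a b h⟩, ?_⟩
      rintro ⟨h | ⟨⟨v, hv, k⟩, ⟨v', hv', k'⟩, -⟩, h'⟩
      · exact h
      · have := hσ v hv v' hv'
          (σ.trans (σ.symm (hσP P hm _ _ k)) (σ.trans h' (hσP P hm _ _ k')))
        exact P.trans k (this ▸ P.symm k')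
  choose f hf' using this
  have hfin : Ps.Finite := (hf.fin X).subset hP
  have h3 : InjOn f Ps := fun P h Q h' e => by
    ext a b
    rw [(hf' P h).2.2, (hf' Q h').2.2, e]
  have h4 : Disjoint Ps (f '' Ps) := disjoint_left.2 fun R hR ⟨P, h, e⟩ =>
    h2 (hσP R hR _ _ (e ▸ (hf' P h).2.1))
  have h5 := ncard_union_eq h4 hfin (hfin.image f)
  rw [h3.ncard_image] at h5
  rw [two_mul, ← h5]
  exact ncard_le_ncard (union_subset hP fun _ ⟨P, h, e⟩ => e ▸ (hf' P h).1) (hf.fin X)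

end Pool.Agent.P.MP_e517ea_lc
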