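import Mathlib.Combinatorics.Colex
import Mathlib.Data.Multiset.DershowitzManna
import Pool.Agent.Lib.TypedZF.Types

/-!
The Dedekind infinite case. `N` is a transitive model of ZF, `X` a coded type that is Dedekind
infinite in `N`. There is no `N`-definable bijection from injective lists onto finitary partitions.

Proof. Let `K` be an ordinal of `N` that does not inject into `X` (Hartogs). The finite subsets of
`K × ℕ` are well ordered colexicographically, and every initial segment that is not contained in the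
first `ω` elements codes, uniformly, its own finite lists. Diagonalising along this well ordering
gives a definable injection of these finite sets into `X`.
-/

set_option synthInstance.maxSize 16384

namespace Pool.Agent.P.MP_e517ea_lc

open ZFSet Pool.Agent.Lib.Forcing Pool.Agent.Lib.TypedZF

namespace DInf

variable {N : Set ZFSet.{0}} [ZF N]
variable {X T W Y : Type} [Coded N X] [Coded N T] [Coded N W] [Coded N Y]

/-- Recursion along a definable transitive well-founded relation. -/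
theorem wf_rec (r : T → T → Prop) (hr : WellFounded r) (htr : ∀ a b c, r a b → r b c → r a c)
    (dr : DefF N (fun z : T × T => r z.1 z.2)) (x₀ : X) (G : T → (T → X) → X)
    (dG : DefF N (fun z : T × DFun N T X => G z.1 z.2.app)) :
    ∃ f : T → X, DefF N f ∧ ∀ t, ∃ F : T → X, DefF N F ∧ (∀ u, r u t → F u = f u) ∧
      f t = G t F := by
  classical
  obtain ⟨ρ, dρ, hρ⟩ := exists_dfun (N := N) (W := T × DFun N T X)
    (F := fun z u => if r u z.1 then z.2.app u else x₀) (by fun_prop)
  let G' : T → (T → X) → X := fun t F => G t (fun u => if r u t then F u else x₀)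
  have dG' : DefF N (fun z : T × DFun N T X => G' z.1 z.2.app) := by
    refine (dG.comp (f := fun z : T × DFun N T X => (z.1, ρ z)) (by fun_prop)).congr fun z => ?_
    have : (ρ z).app = fun u => if r u z.1 then z.2.app u else x₀ := funext (hρ z)
    simp only [this, G']
  have hG' : ∀ t F F', (∀ u, r u t → F u = F' u) → G' t F = G' t F' := by
    intro t F F' h
    refine congrArg (G t) (funext fun u => ?_)
    split_ifs with hu
    exacts [h u hu, rfl]
  let f : T → X := hr.fix fun t ih => G t (fun u => if h : r u t then ih u h else x₀)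
  have hf : ∀ t, f t = G' t f := fun t => by
    simp only [f, G']
    rw [hr.fix_eq]
    rfl
  have h1 : ∀ t (F : T → X), (∀ u, r u t → F u = G' u F) → ∀ u, r u t → F u = f u := by
    intro t F hF u
    induction u using hr.induction with
    | _ u ih =>
      intro hu
      rw [hF u hu, hf u]
      exact hG' u F f fun v hv => ih v hv (htr _ _ _ hv hu)
  have dR : DefF N (fun z : T × X => ∃ F : DFun N T X,
      (∀ u, r u z.1 → F.app u = G' u F.app) ∧ G' z.1 F.app = z.2) := by
    simp only [all_eq, imp_eq]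
    generalize G' = G'' at dG'
    have : DefF N (fun z : T × DFun N T X => G'' z.1 z.2.app) := dG'
    refine DefF.exists (DefF.and (DefF.all (DefF.imp (by fun_prop) (DefF.eq (by fun_prop) ?_)))
      (DefF.eq ?_ (by fun_prop)))
    · exact dG'.comp (f := fun z : ((T × X) × DFun N T X) × T => (z.2, z.1.2)) (by fun_prop)
    · exact dG'.comp (f := fun z : (T × X) × DFun N T X => (z.1.1, z.2)) (by fun_prop)
  have h2 : ∀ t, DefF N (fun u => if r u t then f u else x₀) → ∀ y, f t = y ↔
      ∃ F : DFun N T X, (∀ u, r u t → F.app u = G' u F.app) ∧ G' t F.app = y := by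
    intro t ht y
    constructor
    · rintro rfl
      refine ⟨⟨_, ht⟩, fun u hu => ?_, ?_⟩
      · simp only [if_pos hu]
        rw [hf u]
        exact hG' _ _ _ fun v hv => by simp only [if_pos (htr _ _ _ hv hu)]
      · rw [hf t]
        exact hG' _ _ _ fun v hv => by simp only [if_pos hv]
    · rintro ⟨F, h3, rfl⟩
      rw [hf t]
      exact (hG' _ _ _ (h1 t F.app h3)).symm
  have h3 : ∀ t, DefF N (fun u => if r u t then f u else x₀) := by
    intro t
    induction t using hr.induction with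
    | _ t ih =>
      refine DefF.of_rel (fun u y => (r u t ∧ ∃ F : DFun N T X,
        (∀ v, r v u → F.app v = G' v F.app) ∧ G' u F.app = y) ∨ (¬ r u t ∧ x₀ = y))
        (DefF.or (DefF.and (by fun_prop) dR) (by fun_prop)) fun u y => ?_
      by_cases hu : r u t
      · simp only [hu, if_true, true_and, not_true, false_and, or_false]
        exact h2 u (ih u hu) y
      · simp [hu]
  exact ⟨f, DefF.of_rel _ dR fun t y => h2 t (h3 t) y,
    fun t => ⟨_, h3 t, fun u hu => if_pos hu, hf t⟩⟩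

open Classical in
/-- The unique element with a property, if there is one. -/
noncomputable def uq {X : Type} (x₀ : X) (p : X → Prop) : X :=
  if h : ∃! y, p y then h.choose else x₀

theorem uq_eq {X : Type} {x₀ y : X} {p : X → Prop} (h : p y) (h' : ∀ y', p y' → y' = y) :
    uq x₀ p = y := by
  have h1 : ∃! y, p y := ⟨y, h, h'⟩
  rw [uq, dif_pos h1]
  exact h' _ h1.choose_spec.1

theorem defF_uq (x₀ : X) {R : W → X → Prop} (h : DefF N (fun z : W × X => R z.1 z.2)) :
    DefF N (fun w => uq x₀ (R w)) := by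
  refine DefF.of_rel (fun w y => (R w y ∧ ∀ y', R w y' → y' = y) ∨
    ((¬ ∃ y, R w y ∧ ∀ y', R w y' → y' = y) ∧ x₀ = y)) ?_ fun w y => ?_
  · simp only [all_eq, imp_eq]
    fun_prop
  · by_cases h1 : ∃! y, R w y
    · obtain ⟨y1, h2, h3⟩ := h1
      rw [uq_eq h2 h3]
      constructor
      · rintro rfl
        exact Or.inl ⟨h2, h3⟩
      · rintro (h4 | h4)
        · exact h4.2 _ h2
        · exact (h4.1 ⟨y1, h2, h3⟩).elim
    · rw [uq, dif_neg h1]
      exact ⟨fun h => Or.inr ⟨h1, h⟩, fun h => h.elim (fun h => (h1 ⟨y, h⟩).elim) fun h => h.2⟩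

theorem defF_nodup : DefF N (List.Nodup : List X → Prop) := by
  have h : DefF N (fun s : List X => ∀ i j x, At s i x → At s j x → i = j) := by
    simp only [all_eq, imp_eq]
    fun_prop
  refine h.congr_iff fun s => ?_
  rw [List.nodup_iff_getElem?_ne_getElem?]
  constructor
  · intro h i j hij hj he
    have h1 : At s j s[j] := List.getElem?_eq_getElem hj
    exact hij.ne (h i j _ (he.trans h1) h1)
  · intro h i j x hi hj
    by_contra hij
    rcases Nat.lt_or_gt_of_ne hij with h1 | h1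
    · exact h i j h1 (List.getElem?_eq_some_iff.1 hj).1 (hi.trans hj.symm)
    · exact h j i h1 (List.getElem?_eq_some_iff.1 hi).1 (hj.trans hi.symm)

/-- The diagonal partition. -/
def Diag {I X : Type} (D : I → Prop) (e : I → X → X → Prop) (p q : I → X) (x y : X) : Prop :=
  x = y ∨ ∃ i, D i ∧ ¬ e i (p i) (q i) ∧ ((x = p i ∧ y = q i) ∨ (x = q i ∧ y = p i))

theorem diag {I X : Type} (D : I → Prop) (e : I → X → X → Prop) (p q : I → X)
    (hp : ∀ i j, D i → D j → p i = p j → i = j) (hq : ∀ i j, D i → D j → q i = q j → i = j)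
    (hpq : ∀ i j, D i → D j → p i ≠ q j) :
    Equivalence (Diag D e p q) ∧ (∀ a, {b | Diag D e p q a b}.Finite) ∧
      ∀ i, D i → e i ≠ Diag D e p q := by
  have key : ∀ a b c, a ≠ b → a ≠ c → Diag D e p q a b → Diag D e p q a c → b = c := by
    rintro a b c hb hc (h | ⟨i, hi, -, h⟩) (h' | ⟨j, hj, -, h'⟩)
    · exact (hb h).elim
    · exact (hb h).elim
    · exact (hc h').elim
    · rcases h with ⟨rfl, rfl⟩ | ⟨rfl, rfl⟩ <;> rcases h' with ⟨h1, rfl⟩ | ⟨h1, rfl⟩
      · rw [hp i j hi hj h1]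
      · exact (hpq i j hi hj h1).elim
      · exact (hpq j i hj hi h1.symm).elim
      · rw [hq i j hi hj h1]
  have hs : ∀ {a b}, Diag D e p q a b → Diag D e p q b a := by
    rintro a b (h | ⟨i, hi, h1, h⟩)
    · exact Or.inl h.symm
    · exact Or.inr ⟨i, hi, h1, by tauto⟩
  refine ⟨⟨fun _ => Or.inl rfl, hs, fun {a b c} h1 h2 => ?_⟩, fun a => ?_, fun i hi h => ?_⟩
  · by_cases hab : b = a
    · exact hab ▸ h2
    by_cases hbc : b = c
    · exact hbc ▸ h1
    exact Or.inl (key b a c hab hbc (hs h1) h2)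
  · have h1 : {b | a ≠ b ∧ Diag D e p q a b}.Subsingleton :=
      fun b hb c hc => key a b c hb.1 hc.1 hb.2 hc.2
    refine (h1.finite.insert a).subset fun b hb => ?_
    by_cases hab : b = a
    · exact Or.inl hab
    · exact Or.inr ⟨Ne.symm hab, hb⟩
  · by_cases he : e i (p i) (q i)
    · have h1 := he
      rw [h] at h1
      rcases h1 with h1 | ⟨j, hj, h2, ⟨h1, -⟩ | ⟨h1, -⟩⟩
      · exact hpq i i hi hi h1
      · exact h2 (hp i j hi hj h1 ▸ he)
      · exact hpq i j hi hj h1
    · exact he (h ▸ Or.inr ⟨i, hi, he, Or.inl ⟨rfl, rfl⟩⟩)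

/-- Diagonalisation along a well ordering whose initial segments code their own lists. -/
theorem exists_inj (ι : ℕ → X) (hι : DefF N ι)
    (hι' : Function.Injective ι) (E : List X → X → X → Prop)
    (hE : DefF N (fun z : List X × X × X => E z.1 z.2.1 z.2.2))
    (hinj : ∀ s t, s.Nodup → t.Nodup → E s = E t → s = t)
    (hsurj : ∀ R : X → X → Prop, DefF N (fun z : X × X => R z.1 z.2) → Equivalence R →
      (∀ a, {b | R a b}.Finite) → ∃ s, s.Nodup ∧ E s = R)
    (r : T → T → Prop) [IsWellOrder T r] (dr : DefF N (fun z : T × T => r z.1 z.2))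
    (sm : T → Prop) (dsm : DefF N sm) (hsm : ∀ u t, r u t → sm t → sm u)
    (σ : T → ℕ) (dσ : DefF N σ) (hσ : ∀ u t, sm u → sm t → σ u = σ t → u = t)
    (c : T → List T → ℕ → T) (dc : DefF N (fun z : T × List T × ℕ => c z.1 z.2.1 z.2.2))
    (hc : ∀ t L n, ¬ sm t → (∀ u ∈ L, r u t) → r (c t L n) t)
    (hc' : ∀ t L n L' n', c t L n = c t L' n' → L = L' ∧ n = n') :
    ∃ f : T → X, DefF N f ∧ Function.Injective f := by
  classical
  let P : T → (T → X) → X → X → Prop := fun t F => Diag (fun L : List T => ∀ u ∈ L, r u t)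
    (fun L => E (L.map F)) (fun L => F (c t L 0)) (fun L => F (c t L 1))
  have dP : DefF N (fun z : (T × DFun N T X) × X × X => P z.1.1 z.1.2.app z.2.1 z.2.2) := by
    simp only [P, Diag, all_eq, imp_eq]
    fun_prop
  let Q : T → (T → X) → X → Prop := fun t F y => ∃ s : List X, s.Nodup ∧
    (∀ a b, E s a b ↔ P t F a b) ∧ ∃ i, At s i y ∧ (¬ ∃ u, r u t ∧ F u = y) ∧
      ∀ j y', j < i → At s j y' → ∃ u, r u t ∧ F u = y'
  have dQ : DefF N (fun z : (T × DFun N T X) × X => Q z.1.1 z.1.2.app z.2) := by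
    have := defF_nodup (N := N) (X := X)
    simp only [Q, all_eq, imp_eq]
    refine DefF.exists (DefF.and (by fun_prop) (DefF.and (DefF.all (DefF.all
      (DefF.iff (by fun_prop) ?_))) (by fun_prop)))
    exact dP.comp (f := fun z : ((((T × DFun N T X) × X) × List X) × X) × X =>
      (z.1.1.1.1, z.1.2, z.2)) (by fun_prop)
  obtain ⟨f, df, hf⟩ := wf_rec r IsWellFounded.wf (fun _ _ _ => trans_of r) dr (ι 0)
    (fun t F => if sm t then ι (σ t) else uq (ι 0) (Q t F))
    (DefF.ite (by fun_prop) (by fun_prop)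
      (defF_uq (R := fun z : T × DFun N T X => Q z.1 z.2.app) _ dQ))
  have key : ∀ t u, r u t → f u ≠ f t := by
    intro t
    induction t using (IsWellFounded.wf (r := r)).induction with
    | _ t ih =>
      obtain ⟨F, dF, hF, h1⟩ := hf t
      by_cases ht : sm t
      · intro u hu he
        obtain ⟨F', -, -, h2⟩ := hf u
        rw [h1, h2, if_pos ht, if_pos (hsm u t hu ht)] at he
        exact irrefl_of r t (hσ u t (hsm u t hu ht) ht (hι' he) ▸ hu)
      rw [if_neg ht] at h1
      have hFi : ∀ u v, r u t → r v t → F u = F v → u = v := by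
        intro u v hu hv he
        rw [hF u hu, hF v hv] at he
        rcases trichotomous_of r u v with h | h | h
        exacts [(ih v hv u h he).elim, h, (ih u hu v h he.symm).elim]
      obtain ⟨h2, h3, h4⟩ := diag (fun L : List T => ∀ u ∈ L, r u t)
        (fun L => E (L.map F)) (fun L => F (c t L 0)) (fun L => F (c t L 1))
        (fun L L' hL hL' h => (hc' _ _ _ _ _ (hFi _ _ (hc _ _ _ ht hL) (hc _ _ _ ht hL') h)).1)
        (fun L L' hL hL' h => (hc' _ _ _ _ _ (hFi _ _ (hc _ _ _ ht hL) (hc _ _ _ ht hL') h)).1)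
        (fun L L' hL hL' h => by
          have := (hc' _ _ _ _ _ (hFi _ _ (hc _ _ _ ht hL) (hc _ _ _ ht hL') h)).2
          omega)
      obtain ⟨s, hs, hs'⟩ := hsurj (P t F) (dP.comp (f := fun z : X × X =>
        ((t, (⟨F, dF⟩ : DFun N T X)), z)) (by fun_prop)) h2 h3
      have h5 : ∃ i y, At s i y ∧ ¬ ∃ u, r u t ∧ F u = y := by
        by_contra hcon
        have h6 : ∀ y ∈ s, ∃ u, r u t ∧ F u = y := by
          intro y hy
          obtain ⟨i, hi⟩ := List.mem_iff_getElem?.1 hy
          by_contra h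
          exact hcon ⟨i, y, hi, h⟩
        have : Nonempty T := ⟨t⟩
        choose! g hg using h6
        refine h4 (s.map g) (fun u hu => ?_) ?_
        · obtain ⟨y, hy, rfl⟩ := List.mem_map.1 hu
          exact (hg y hy).1
        · rw [List.map_map, List.map_congr_left (f := F ∘ g) (g := id) fun y hy => (hg y hy).2, List.map_id]
          exact hs'
      obtain ⟨y, h6, h7⟩ := Nat.find_spec h5
      have h8 : ∀ j y', j < Nat.find h5 → At s j y' → ∃ u, r u t ∧ F u = y' := by
        intro j y' hj h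
        by_contra h'
        exact Nat.find_min h5 hj ⟨y', h, h'⟩
      have h9 : f t = y := by
        rw [h1]
        refine uq_eq ⟨s, hs, fun a b => by rw [hs'], _, h6, h7, h8⟩ ?_
        rintro y' ⟨s', k1, k2, i, k3, k4, k5⟩
        obtain rfl : s' = s := hinj _ _ k1 hs (by rw [hs']; funext a b; exact propext (k2 a b))
        rcases lt_trichotomy i (Nat.find h5) with h | h | h
        · exact (k4 (h8 i y' h k3)).elim
        · exact Option.some.inj (k3.symm.trans (h ▸ h6))
        · exact (h7 (k5 _ y h h6)).elim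
      intro u hu he
      exact h7 ⟨u, hu, by rw [hF u hu, he, h9]⟩
  refine ⟨f, df, fun u v he => ?_⟩
  rcases trichotomous_of r u v with h | h | h
  exacts [(key v u h he).elim, h, (key u v h he.symm).elim]

/-- Finite sets as definable sets. -/
def finGraph (A : Finset Y) : DSet N Y := ⟨fun y => y ∈ A, defF_finite A.finite_toSet⟩

theorem finGraph_inj : Function.Injective (finGraph : Finset Y → DSet N Y) := fun _ _ h =>
  Finset.ext fun y => eq_iff_iff.1 (congrArg (fun S : DSet N Y => S.Mem y) h)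

noncomputable local instance codedFinset : Coded N (Finset Y) :=
  Coded.ofInj finGraph finGraph_inj <| by
    classical
    have h : DefF N (fun S : DSet N Y => ∃ l : List Y, ∀ y, S.Mem y ↔ y ∈ l) := by
      simp only [all_eq]
      fun_prop
    refine h.congr_iff fun S => ⟨?_, ?_⟩
    · rintro ⟨l, hl⟩
      refine ⟨l.toFinset, ?_⟩
      ext y
      simp [finGraph, hl]
    · rintro ⟨A, rfl⟩
      exact ⟨A.toList, fun y => by simp [finGraph]⟩

theorem defF_finGraph : DefF N (finGraph : Finset Y → DSet N Y) := defF_of_cd_eq fun _ => rfl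

@[local fun_prop] theorem defF_finMem {A : W → Finset Y} {y : W → Y} (hA : DefF N A)
    (hy : DefF N y) : DefF N (fun w => y w ∈ A w) :=
  DefF.mem (defF_finGraph.comp hA) hy

theorem defF_of_finMem {A : W → Finset Y} (h : DefF N (fun z : W × Y => z.2 ∈ A z.1)) :
    DefF N A :=
  DefF.of_inj finGraph_inj defF_finGraph (DefF.of_mem h)

/-- The colexicographic order. -/
def Col {Y : Type} (r : Y → Y → Prop) (A B : Finset Y) : Prop :=
  ∃ a, a ∈ B ∧ ¬ a ∈ A ∧ ∀ b, b ∈ A → ¬ b ∈ B → r b a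

theorem col_wo {Y : Type} (r : Y → Y → Prop) [h : IsWellOrder Y r] :
    IsWellOrder (Finset Y) (Col r) := by
  classical
  let _ := IsWellOrder.linearOrder r
  have : WellFoundedLT Y := h.toIsWellFounded
  refine { wf := ?_, trichotomous := fun A B h1 h2 => ?_ }
  · refine Subrelation.wf ?_ (InvImage.wf Finset.val Multiset.wellFounded_isDershowitzMannaLT)
    rintro A B ⟨a, h1, h2, h3⟩
    refine ⟨(A ∩ B).val, (A \ B).val, (B \ A).val, fun h0 => ?_, ?_, ?_, fun y hy => ?_⟩
    · have h4 : a ∈ (B \ A).val := Finset.mem_sdiff.2 ⟨h1, h2⟩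
      rw [h0] at h4
      exact Multiset.notMem_zero a h4
    · ext y
      simp only [Multiset.count_add, Multiset.count_eq_of_nodup (Finset.nodup _), Finset.mem_val,
        Finset.mem_inter, Finset.mem_sdiff]
      by_cases hA : y ∈ A <;> by_cases hB : y ∈ B <;> simp [hA, hB]
    · ext y
      simp only [Multiset.count_add, Multiset.count_eq_of_nodup (Finset.nodup _), Finset.mem_val,
        Finset.mem_inter, Finset.mem_sdiff]
      by_cases hA : y ∈ A <;> by_cases hB : y ∈ B <;> simp [hA, hB]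
    · exact ⟨a, Finset.mem_sdiff.2 ⟨h1, h2⟩,
        h3 y (Finset.mem_sdiff.1 hy).1 (Finset.mem_sdiff.1 hy).2⟩
  · have e : ∀ A B : Finset Y, toColex A < toColex B ↔ Col r A B := fun A B =>
      Finset.Colex.toColex_lt_toColex_iff_exists_forall_lt
    rw [← e, not_lt] at h1 h2
    exact toColex.injective (le_antisymm h2 h1)

/-- The finite set of natural numbers coded by `n`. -/
def Dec (n m : ℕ) : Prop :=
  ∃ i : ℕ, (Nat.unpair (Nat.rec n (fun _ k => (Nat.unpair k).2) i : ℕ)).1 = m + 1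

theorem defF_dec : DefF N (fun z : ℕ × ℕ => Dec z.1 z.2) := by
  have h := DefF.natRec (N := N) (W := ℕ) (a := fun n => n) (s := fun _ _ k => (Nat.unpair k).2)
    DefF.id (by fun_prop)
  refine DefF.exists (DefF.eq (DefF.fst.comp (DefF.unpair.comp ?_)) (by fun_prop))
  exact h.comp (f := fun z : (ℕ × ℕ) × ℕ => (z.1.1, z.2)) (by fun_prop)

theorem exists_dec (A : Finset ℕ) : ∃ n, ∀ m, m ∈ A ↔ Dec n m := by
  induction A using Finset.induction_on with
  | empty =>
    refine ⟨0, fun m => ⟨fun h => by simp at h, ?_⟩⟩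
    rintro ⟨i, hi⟩
    have h : ∀ i : ℕ, (Nat.rec 0 (fun _ k => (Nat.unpair k).2) i : ℕ) = 0 := by
      intro i
      induction i with
      | zero => rfl
      | succ i ih => simp only [ih, Nat.unpair_zero]; rfl
    rw [h] at hi
    simp at hi
  | insert a A _ ih =>
    obtain ⟨n, hn⟩ := ih
    have h : ∀ i : ℕ, (Nat.rec (Nat.pair (a + 1) n) (fun _ k => (Nat.unpair k).2) (i + 1) : ℕ) =
        Nat.rec n (fun _ k => (Nat.unpair k).2) i := by
      intro i
      induction i with
      | zero => simp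
      | succ i ih => exact congrArg (fun k => (Nat.unpair k).2) ih
    refine ⟨Nat.pair (a + 1) n, fun m => ?_⟩
    rw [Finset.mem_insert, hn]
    constructor
    · rintro (rfl | ⟨i, hi⟩)
      · exact ⟨0, by simp⟩
      · exact ⟨i + 1, by rw [h]; exact hi⟩
    · rintro ⟨_ | i, hi⟩
      · left
        simpa [eq_comm] using hi
      · exact Or.inr ⟨i, by rw [← h]; exact hi⟩

/-- `β` is the largest first coordinate in `t`. -/
def Top {K : Type} (r : K → K → Prop) (t : Finset (K × ℕ)) (β : K) : Prop :=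
  (∃ m, (β, m) ∈ t) ∧ ∀ p, p ∈ t → ¬ r β p.1

open Classical in
/-- The code of the point `q` of the entry number `i`. -/
noncomputable def pt {K : Type} (r : K → K → Prop) (z : K) (t : Finset (K × ℕ)) (i : ℕ)
    (q : K × ℕ) : K × ℕ :=
  if Top r t q.1 then (z, Nat.pair i (Nat.pair q.2 0)) else (q.1, Nat.pair i (Nat.pair q.2 1))

open Classical in
/-- The code of a list of finite sets and a number. -/
noncomputable def enc {K : Type} (r : K → K → Prop) (z : K) (t : Finset (K × ℕ))
    (L : List (Finset (K × ℕ))) (n : ℕ) : Finset (K × ℕ) :=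
  insert (z, Nat.pair L.length (Nat.pair n 2))
    ((Finset.univ : Finset (Fin L.length)).biUnion fun i => L[i].image (pt r z t i))

theorem mem_enc {K : Type} {r : K → K → Prop} {z : K} {t : Finset (K × ℕ)}
    {L : List (Finset (K × ℕ))} {n : ℕ} {p : K × ℕ} : p ∈ enc r z t L n ↔
    p = (z, Nat.pair L.length (Nat.pair n 2)) ∨ ∃ i A q, At L i A ∧ q ∈ A ∧ pt r z t i q = p := by
  simp only [enc, Finset.mem_insert, Finset.mem_biUnion, Finset.mem_univ, true_and,
    Finset.mem_image]
  refine or_congr Iff.rfl ⟨?_, ?_⟩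
  · rintro ⟨i, q, h1, h2⟩
    exact ⟨i, _, q, List.getElem?_eq_getElem i.2, h1, h2⟩
  · rintro ⟨i, A, q, h1, h2, h3⟩
    obtain ⟨h4, rfl⟩ := List.getElem?_eq_some_iff.1 h1
    exact ⟨⟨i, h4⟩, q, h2, h3⟩

theorem enc_inj {K : Type} (r : K → K → Prop) [IsWellOrder K r] (z : K) (t : Finset (K × ℕ))
    (L : List (Finset (K × ℕ))) (n : ℕ) (L' : List (Finset (K × ℕ))) (n' : ℕ)
    (h : enc r z t L n = enc r z t L' n') : L = L' ∧ n = n' := by
  have h1 : ∀ i q j m, pt r z t i q ≠ (z, Nat.pair j (Nat.pair m 2)) := by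
    intro i q j m
    unfold pt
    split_ifs <;> simp [Nat.pair_eq_pair]
  have h2 : ∀ i q j q', pt r z t i q = pt r z t j q' → i = j ∧ q = q' := by
    intro i q j q'
    unfold pt
    split_ifs with k1 k2 k2
    · simp only [Prod.mk.injEq, Nat.pair_eq_pair, true_and, and_true]
      rintro ⟨k3, k4⟩
      refine ⟨k3, Prod.ext ?_ k4⟩
      obtain ⟨⟨m, k5⟩, k6⟩ := k1
      obtain ⟨⟨m', k7⟩, k8⟩ := k2
      rcases trichotomous_of r q.1 q'.1 with k | k | k
      exacts [(k6 _ k7 k).elim, k, (k8 _ k5 k).elim]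
    · simp [Nat.pair_eq_pair]
    · simp [Nat.pair_eq_pair]
    · simp only [Prod.mk.injEq, Nat.pair_eq_pair, and_true]
      rintro ⟨k3, k4, k5⟩
      exact ⟨k4, Prod.ext k3 k5⟩
  have h3 : (z, Nat.pair L.length (Nat.pair n 2)) ∈ enc r z t L' n' := h ▸ mem_enc.2 (Or.inl rfl)
  rcases mem_enc.1 h3 with h4 | ⟨i, A, q, -, -, h4⟩
  swap
  · exact (h1 _ _ _ _ h4).elim
  simp only [Prod.mk.injEq, Nat.pair_eq_pair, true_and, and_true] at h4
  refine ⟨List.ext_getElem h4.1 fun i hi hi' => ?_, h4.2⟩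
  have h5 : ∀ L L' n n' (hi : i < L.length) (hi' : i < L'.length),
      enc r z t L n = enc r z t L' n' → L[i] ⊆ L'[i] := by
    intro L L' n n' hi hi' h q hq
    have h6 : pt r z t i q ∈ enc r z t L' n' :=
      h ▸ mem_enc.2 (Or.inr ⟨i, _, q, List.getElem?_eq_getElem hi, hq, rfl⟩)
    rcases mem_enc.1 h6 with h7 | ⟨j, A, q', h7, h8, h9⟩
    · exact (h1 _ _ _ _ h7).elim
    · obtain ⟨rfl, rfl⟩ := h2 _ _ _ _ h9
      obtain ⟨_, rfl⟩ := List.getElem?_eq_some_iff.1 h7
      exact h8
  exact Finset.Subset.antisymm (h5 _ _ _ _ hi hi' h) (h5 _ _ _ _ hi' hi h.symm)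

theorem enc_lt {K : Type} (r : K → K → Prop) [IsWellOrder K r] (z : K) (hz : ∀ β, ¬ r β z)
    (t : Finset (K × ℕ)) (L : List (Finset (K × ℕ))) (n : ℕ) (ht : ¬ ∀ p, p ∈ t → p.1 = z)
    (hL : ∀ u ∈ L, Col (Prod.Lex r (· < ·)) u t) :
    Col (Prod.Lex r (· < ·)) (enc r z t L n) t := by
  push Not at ht
  obtain ⟨p₀, hp₀, hp₀'⟩ := ht
  obtain ⟨a, ha, ha'⟩ : ∃ a ∈ t, ∀ p ∈ t, ¬ r a.1 p.1 := by
    let _ := IsWellOrder.linearOrder r
    obtain ⟨a, ha, ha'⟩ := t.exists_max_image Prod.fst ⟨p₀, hp₀⟩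
    exact ⟨a, ha, fun p hp => not_lt.2 (ha' p hp)⟩
  have h1 : r z a.1 := by
    rcases trichotomous_of r z a.1 with h | h | h
    · exact h
    · rcases trichotomous_of r z p₀.1 with k | k | k
      exacts [(ha' _ hp₀ (h ▸ k)).elim, (hp₀' k.symm).elim, (hz _ k).elim]
    · exact (hz _ h).elim
  have h2 : ∀ p ∈ enc r z t L n, r p.1 a.1 := by
    intro p hp
    rcases mem_enc.1 hp with rfl | ⟨i, A, q, h3, h4, rfl⟩
    · exact h1
    unfold pt
    split_ifs with h5
    · exact h1
    rcases trichotomous_of r q.1 a.1 with h | h | h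
    · exact h
    · exact (h5 ⟨⟨a.2, h ▸ ha⟩, h ▸ ha'⟩).elim
    · obtain ⟨b, h6, -, h7⟩ := hL A (List.mem_iff_getElem?.2 ⟨i, h3⟩)
      by_cases hq : q ∈ t
      · exact (ha' q hq h).elim
      · rcases (Prod.lex_def.1 (h7 q h4 hq)) with k | k
        · exact (ha' b h6 (trans_of r h k)).elim
        · exact (ha' b h6 (k.1 ▸ h)).elim
  exact ⟨a, ha, fun h => irrefl_of r _ (h2 a h), fun b hb _ => Prod.lex_def.2 (Or.inl (h2 b hb))⟩

/-- Every definably well ordered type injects into `X`. -/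
theorem exists_inj' (ι : ℕ → X) (hι : DefF N ι)
    (hι' : Function.Injective ι) (E : List X → X → X → Prop)
    (hE : DefF N (fun z : List X × X × X => E z.1 z.2.1 z.2.2))
    (hinj : ∀ s t, s.Nodup → t.Nodup → E s = E t → s = t)
    (hsurj : ∀ R : X → X → Prop, DefF N (fun z : X × X => R z.1 z.2) → Equivalence R →
      (∀ a, {b | R a b}.Finite) → ∃ s, s.Nodup ∧ E s = R)
    (r : T → T → Prop) [IsWellOrder T r] (dr : DefF N (fun z : T × T => r z.1 z.2)) :
    ∃ f : T → X, DefF N f ∧ Function.Injective f := by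
  classical
  rcases isEmpty_or_nonempty T with hT | hT
  · exact ⟨fun _ => ι 0, by fun_prop, fun a => isEmptyElim a⟩
  obtain ⟨z, -, hz⟩ := (IsWellFounded.wf (r := r)).has_min Set.univ Set.univ_nonempty
  have := col_wo (Prod.Lex r (· < · : ℕ → ℕ → Prop))
  have hD : ∀ t : Finset (T × ℕ), ∃ n, ∀ m, (z, m) ∈ t ↔ Dec n m := fun t => by
    obtain ⟨n, hn⟩ := exists_dec ((t.filter fun p => p.1 = z).image Prod.snd)
    exact ⟨n, fun m => by rw [← hn]; simp⟩
  have dD := defF_dec (N := N)
  have dT : DefF N (fun w : Finset (T × ℕ) × T => Top r w.1 w.2) := by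
    simp only [Top, all_eq, imp_eq]
    fun_prop
  have dp : DefF N (fun w : Finset (T × ℕ) × ℕ × T × ℕ => pt r z w.1 w.2.1 w.2.2) := by
    unfold pt
    fun_prop
  obtain ⟨f, df, hf⟩ := exists_inj ι hι hι' E hE hinj hsurj
    (Col (Prod.Lex r (· < · : ℕ → ℕ → Prop)))
    (by
      simp only [Col, Prod.lex_def, all_eq, imp_eq]
      fun_prop)
    (fun t => ∀ p, p ∈ t → p.1 = z)
    (by
      simp only [all_eq, imp_eq]
      fun_prop)
    (by
      rintro u t ⟨a, h1, -, h2⟩ ht p hp
      by_cases h : p ∈ t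
      · exact ht p h
      · rcases Prod.lex_def.1 (h2 p hp h) with k | k
        · exact (hz _ trivial (ht a h1 ▸ k)).elim
        · exact k.1.trans (ht a h1))
    (fun t => Nat.find (hD t))
    (DefF.of_rel (fun t n => (∀ m, (z, m) ∈ t ↔ Dec n m) ∧
        ∀ k, k < n → ¬ ∀ m, (z, m) ∈ t ↔ Dec k m)
      (by
        simp only [all_eq, imp_eq]
        fun_prop)
      fun t n => Nat.find_eq_iff _)
    (fun u t hu ht h => by
      have h1 := Nat.find_spec (hD u)
      have h2 := Nat.find_spec (hD t)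
      rw [h] at h1
      ext ⟨β, m⟩
      constructor
      · intro k
        obtain rfl : β = z := hu _ k
        exact (h2 m).2 ((h1 m).1 k)
      · intro k
        obtain rfl : β = z := ht _ k
        exact (h1 m).2 ((h2 m).1 k))
    (enc r z)
    (defF_of_finMem (by
      simp only [mem_enc]
      fun_prop))
    (fun t L n => enc_lt r z (fun β => hz β trivial) t L n) (enc_inj r z)
  refine ⟨fun β => f {(β, 0)}, df.comp (defF_of_finMem ?_), fun β γ h => by simpa using hf h⟩
  simp only [Finset.mem_singleton]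
  fun_prop

/-- `g` is an order isomorphism from the ordinal `κ` onto the non-strict order `w` inside `c`. -/
def Iso (c κ w g : ZFSet.{0}) : Prop :=
  (∀ a ∈ κ, ∃ x ∈ c, pair a x ∈ g) ∧
  (∀ a ∈ κ, ∀ b ∈ κ, ∀ x ∈ c, ∀ y ∈ c, pair a x ∈ g → pair b y ∈ g → (¬ b ∈ a ↔ pair x y ∈ w)) ∧
  ∀ x ∈ c, pair x x ∈ w → ∃ a ∈ κ, pair a x ∈ g

theorem iso_subset {c κ κ' w g g' : ZFSet.{0}} (hκ : κ.IsOrdinal) (hκ' : κ'.IsOrdinal)
    (h : Iso c κ w g) (h' : Iso c κ' w g') : κ ⊆ κ' := by
  have h1 : ∀ {κ κ' g g' : ZFSet.{0}}, Iso c κ w g → Iso c κ' w g' → ∀ a ∈ κ,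
      ∃ x ∈ c, ∃ a' ∈ κ', pair a x ∈ g ∧ pair a' x ∈ g' := by
    intro κ κ' g g' h h' a ha
    obtain ⟨x, hx, k⟩ := h.1 a ha
    obtain ⟨a', ha', k'⟩ := h'.2.2 x hx ((h.2.1 a ha a ha x hx x hx k k).1 (mem_irrefl a))
    exact ⟨x, hx, a', ha', k, k'⟩
  have h2 : ∀ a, a ∈ κ → ∀ a' ∈ κ', ∀ x ∈ c, pair a x ∈ g → pair a' x ∈ g' → a = a' := by
    intro a
    induction a using ZFSet.inductionOn with
    | h a ih =>
      intro ha a' ha' x hx k k'
      have h3 : ∀ b ∈ κ, ∀ b' ∈ κ', ∀ y ∈ c, pair b y ∈ g → pair b' y ∈ g' →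
          (b ∈ a ↔ b' ∈ a') := fun b hb b' hb' y hy j j' =>
        not_iff_not.1 ((h.2.1 a ha b hb x hx y hy k j).trans
          (h'.2.1 a' ha' b' hb' x hx y hy k' j').symm)
      ext b
      constructor
      · intro hb
        have hbκ := hκ.mem_trans hb ha
        obtain ⟨y, hy, b', hb', j, j'⟩ := h1 h h' b hbκ
        rw [ih b hb hbκ b' hb' y hy j j']
        exact (h3 b hbκ b' hb' y hy j j').1 hb
      · intro hb
        have hbκ := hκ'.mem_trans hb ha'
        obtain ⟨y, hy, b', hb', j, j'⟩ := h1 h' h b hbκ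
        have h4 := (h3 b' hb' b hbκ y hy j' j).2 hb
        rwa [← ih b' h4 hb' b hbκ y hy j' j]
  intro a ha
  obtain ⟨x, hx, a', ha', k, k'⟩ := h1 h h' a ha
  rwa [h2 a ha a' ha' x hx k k']

/-- Hartogs' theorem in the model. -/
theorem hartogs (H : ∀ (κ : ZFSet.{0}) [InM N κ], κ.IsOrdinal →
    ∃ f : El κ → X, DefF N f ∧ Function.Injective f) : False := by
  have hdf : Df N (fun e => (e 0).IsOrdinal ∧ ∃ g ∈ N, Iso (car N X) (e 0) (e 1) g) := by
    unfold Iso
    infer_instance
  obtain ⟨b, hb, hb'⟩ := collection (M := N) ZF.pow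
    (fun κ w => κ.IsOrdinal ∧ ∃ g ∈ N, Iso (car N X) κ w g) (car_mem (DSet N (X × X)))
  have := InM.mk (rk_mem hb)
  obtain ⟨f, df, hf⟩ := H (rk b) (isOrdinal_rk b)
  have dm : DefF N (fun z : El (rk b) × El (rk b) => cd N z.1 ∈ cd N z.2) :=
    defF_cd_mem DefF.fst DefF.snd
  let w : DSet N (X × X) := ⟨fun z => ∃ a a', f a = z.1 ∧ f a' = z.2 ∧ ¬ cd N a' ∈ cd N a, by
    refine DefF.exists (DefF.exists (DefF.and (by fun_prop) (DefF.and (by fun_prop)
      (defF_cd_mem (by fun_prop) (by fun_prop)).not)))⟩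
  obtain ⟨g, hg, hg'⟩ := df
  have h1 : Iso (car N X) (rk b) (cd N w) g := by
    refine ⟨fun a ha => ?_, fun a ha a' ha' => ?_, ?_⟩
    · obtain ⟨a, rfl⟩ := El.exists_val ha
      exact ⟨_, cd_mem_car (f a), (hg' a _).1 rfl⟩
    · obtain ⟨a, rfl⟩ := El.exists_val ha
      obtain ⟨a', rfl⟩ := El.exists_val ha'
      rw [forall_car]
      intro x
      rw [forall_car]
      intro y k k'
      obtain rfl := (hg' a x).2 k
      obtain rfl := (hg' a' y).2 k'
      rw [← cd_prod, cd_mem_dset]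
      refine ⟨fun h => ⟨a, a', rfl, rfl, h⟩, ?_⟩
      rintro ⟨c, c', j, j', h⟩
      obtain rfl := hf j
      obtain rfl := hf j'
      exact h
    · rw [forall_car]
      intro x k
      rw [← cd_prod, cd_mem_dset] at k
      obtain ⟨a, -, rfl, -⟩ := k
      exact ⟨_, a.val_mem, (hg' a _).1 rfl⟩
  obtain ⟨κ, hκ, h2, g', -, h3⟩ := hb' _ (cd_mem_car w) ⟨_, rk_mem hb, isOrdinal_rk b, g, hg, h1⟩
  have h4 := rank_mono (iso_subset (isOrdinal_rk b) h2 h1 h3)
  rw [rk, Ordinal.rank_toZFSet] at h4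
  exact (rank_lt_of_mem hκ).not_ge h4

end DInf

theorem dinf {N : Set ZFSet.{0}} [ZF N] {X : Type} [Coded N X] (ι : ℕ → X) (hι : DefF N ι)
    (hι' : Function.Injective ι) (E : List X → X → X → Prop)
    (hE : DefF N (fun z : List X × X × X => E z.1 z.2.1 z.2.2))
    (hinj : ∀ s t, s.Nodup → t.Nodup → E s = E t → s = t)
    (hsurj : ∀ R : X → X → Prop, DefF N (fun z : X × X => R z.1 z.2) → Equivalence R →
      (∀ a, {b | R a b}.Finite) → ∃ s, s.Nodup ∧ E s = R) : False := by
  refine DInf.hartogs (N := N) (X := X) fun κ _ hκ => ?_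
  have : IsWellOrder (El κ) (fun a b => a.val ∈ b.val) :=
    { wf := InvImage.wf El.val mem_wf
      trichotomous := fun a b h1 h2 => by
        rcases (hκ.mem a.val_mem).mem_trichotomous (hκ.mem b.val_mem) with h | h | h
        exacts [(h1 h).elim, El.val_inj h, (h2 h).elim] }
  exact DInf.exists_inj' ι hι hι' E hE hinj hsurj (fun a b : El κ => a.val ∈ b.val)
    (defF_cd_mem DefF.fst DefF.snd)

end Pool.Agent.P.MP_e517ea_lc
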