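import Pool.Agent.Lib.Forcing.Defs

/-!
Finitary partitions and injective finite sequences, computed in a transitive model `M` of ZF.
-/

namespace Pool.Agent.P.MP_e517ea_lc

open ZFSet

/-- `M` contains a bijection from `x` onto `y`, that is `M` satisfies `|x| = |y|`. -/
def EqCard (M : Set ZFSet.{0}) (x y : ZFSet.{0}) : Prop :=
  ∃ f ∈ M, IsFunc x y f ∧ ∀ b ∈ y, ∃! a, pair a b ∈ f

/-- `M` satisfies: `x` is finite, that is in bijection with some natural number `n ∈ ω`. -/
def FiniteIn (M : Set ZFSet.{0}) (x : ZFSet.{0}) : Prop := ∃ n ∈ omega, EqCard M x n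

/-- `P` is a partition of `A`: a set of nonempty subsets of `A` such that every element of `A`
lies in exactly one of them. -/
def IsPartition (P A : ZFSet.{0}) : Prop :=
  (∀ b ∈ P, b ≠ ∅ ∧ b ⊆ A) ∧ ∀ a ∈ A, ∃! b, b ∈ P ∧ a ∈ b

/-- The set of finitary partitions of `A` as computed in `M`: the partitions of `A` lying in `M`
all of whose blocks are finite in `M`. -/
noncomputable def finParts (M : Set ZFSet.{0}) (A : ZFSet.{0}) : ZFSet.{0} :=
  (powerset (powerset A)).sep fun P => P ∈ M ∧ IsPartition P A ∧ ∀ b ∈ P, FiniteIn M b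

/-- The set of injective finite sequences of elements of `A` as computed in `M`: the injective
functions lying in `M` from some `n ∈ ω` to `A`. -/
noncomputable def injSeqs (M : Set ZFSet.{0}) (A : ZFSet.{0}) : ZFSet.{0} :=
  (powerset (omega.prod A)).sep fun s => s ∈ M ∧ ∃ n ∈ omega, IsFunc n A s ∧
    ∀ i j a, pair i a ∈ s → pair j a ∈ s → i = j

end Pool.Agent.P.MP_e517ea_lc
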