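import Pool.Agent.P.MP_e517ea_lc.Basic

/-!
Encoding invariant partitions after adding fixed points; most partitions have many invariant blocks.
-/

namespace Pool.Agent.P.MP_e517ea_lc

open Set

variable {G A : Type*} [Group G] [MulAction G A] {V : Subgroup G} {S K : Set A}

/-- The invariant blocks of `P` that meet `S`. -/
def IB (V : Subgroup G) (P : Setoid A) (S : Set A) : Set (Set A) :=
  {β | ∃ a ∈ S, β = {b | P a b} ∧ ∀ g ∈ V, P a (g • a)}

theorem IB.finite (P : Setoid A) (hS : S.Finite) : (IB V P S).Finite :=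
  (hS.image fun a => {b | P a b}).subset fun _ ⟨a, ha, h, _⟩ => ⟨a, ha, h.symm⟩

theorem exists_enum {α : Type*} (B : Set α) :
    ∃ e : α → ℕ, B.Finite → InjOn e B ∧ ∀ x ∈ B, e x < B.ncard := by
  classical
  by_cases hB : B.Finite
  swap
  · exact ⟨fun _ => 0, fun h => (hB h).elim⟩
  have := hB.to_subtype
  let e := Finite.equivFin B
  refine ⟨fun x => if h : x ∈ B then e ⟨x, h⟩ else 0, fun _ => ⟨fun x hx y hy h => ?_, fun x hx => ?_⟩⟩
  · simp only [dif_pos hx, dif_pos hy] at h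
    exact congrArg Subtype.val (e.injective (Fin.ext h))
  · simp only [dif_pos hx]
    exact (e ⟨x, hx⟩).2

theorem cls_eq {P : Setoid A} {a b : A} (h : P a b) : {c | P a c} = {c | P b c} :=
  Set.ext fun _ => ⟨P.trans (P.symm h), P.trans h⟩

theorem exists_code (hS : S.Finite) (hK : K.Finite) (hSV : Stab V S)
    (hfix : ∀ g ∈ V, ∀ a ∈ K, g • a = a) {P : Setoid A} {j : ℕ}
    (hj : (IB V P (S ∪ K)).ncard ≤ j) (e : Set A → ℕ) (he : InjOn e (IB V (res P S) S))
    (he' : ∀ x ∈ IB V (res P S) S, e x < (IB V (res P S) S).ncard) (hP : P ∈ Inv V (S ∪ K)) :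
    ∃ f : A → ℕ, (∀ a ∈ K, f a < j) ∧ (∀ a ∈ K, ∀ b ∈ K, P a b ↔ f a = f b) ∧
      ∀ a ∈ K, ∀ b ∈ S, P a b ↔ {c | res P S b c} ∈ IB V (res P S) S ∧
        e {c | res P S b c} = f a := by
  classical
  set B := IB V P (S ∪ K) with hB
  have hBf : B.Finite := IB.finite P (hS.union hK)
  set B2 := {β ∈ B | ¬ (β ∩ S).Nonempty} with hB2
  set u := (IB V (res P S) S).ncard with hu
  obtain ⟨e2, h2⟩ := exists_enum B2
  obtain ⟨h2, h3⟩ := h2 (hBf.subset fun _ h => h.1)
  have hr : ∀ b ∈ S, {c | res P S b c} = {c | P b c} ∩ S := fun b hb => Set.ext fun c =>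
    ⟨fun h => ⟨res_le h, by rcases h with rfl | h; exacts [hb, h.2.1]⟩,
      fun h => (res_iff' hb h.2).2 h.1⟩
  have hu1 : u + B2.ncard ≤ j := by
    have h4 : u ≤ {β ∈ B | (β ∩ S).Nonempty}.ncard := by
      refine le_trans (ncard_le_ncard ?_ ((hBf.subset fun _ h => h.1).image (· ∩ S)))
        (ncard_image_le (hBf.subset fun _ h => h.1))
      rintro _ ⟨a, ha, rfl, h⟩
      exact ⟨_, ⟨⟨a, Or.inl ha, rfl, fun g hg => res_le (h g hg)⟩, a, P.refl a, ha⟩, (hr a ha).symm⟩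
    have h5 : {β ∈ B | (β ∩ S).Nonempty}.ncard + B2.ncard = B.ncard := by
      rw [← ncard_union_eq (disjoint_left.2 fun _ h h' => h'.2 h.2) (hBf.subset fun _ h => h.1)
        (hBf.subset fun _ h => h.1)]
      congr 1
      ext β
      simp only [hB2, mem_union, mem_ofPred_eq]
      tauto
    omega
  have hm : ∀ a ∈ K, ∀ b ∈ S, P a b → {c | P a c} ∩ S ∈ IB V (res P S) S := by
    intro a ha b hb hab
    refine ⟨b, hb, by rw [hr b hb, cls_eq hab], fun g hg => (res_iff' hb (hSV g hg b hb)).2 ?_⟩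
    have := hP.2.1 g hg a b hab
    rw [hfix g hg a ha] at this
    exact P.trans (P.symm hab) this
  have hm2 : ∀ a ∈ K, ¬ ({c | P a c} ∩ S).Nonempty → {c | P a c} ∈ B2 := fun a ha h =>
    ⟨⟨a, Or.inr ha, rfl, fun g hg => by rw [hfix g hg a ha]⟩, h⟩
  refine ⟨fun a => if ({c | P a c} ∩ S).Nonempty then e ({c | P a c} ∩ S) else u + e2 {c | P a c},
    fun a ha => ?_, fun a ha b hb => ⟨fun h => by simp only [cls_eq h], fun h => ?_⟩,
    fun a ha b hb => ⟨fun h => ?_, fun h => ?_⟩⟩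
  · dsimp only
    split_ifs with h
    · obtain ⟨b, h4, h5⟩ := h
      have := he' _ (hm a ha b h5 h4)
      omega
    · have := h3 _ (hm2 a ha h)
      omega
  · dsimp only at h
    split_ifs at h with k1 k2 k2
    · obtain ⟨c, k3, k4⟩ := k1
      obtain ⟨d, k5, k6⟩ := k2
      have := he (hm a ha c k4 k3) (hm b hb d k6 k5) h
      have k7 : c ∈ {c | P b c} ∩ S := this ▸ ⟨k3, k4⟩
      exact P.trans k3 (P.symm k7.1)
    · obtain ⟨c, k3, k4⟩ := k1
      have := he' _ (hm a ha c k4 k3)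
      omega
    · obtain ⟨c, k3, k4⟩ := k2
      have := he' _ (hm b hb c k4 k3)
      omega
    · have := h2 (hm2 a ha k1) (hm2 b hb k2) (by omega)
      have k7 : b ∈ {c | P a c} := this ▸ P.refl b
      exact k7
  · have k1 : ({c | P a c} ∩ S).Nonempty := ⟨b, h, hb⟩
    simp only [if_pos k1]
    rw [hr b hb, ← cls_eq h]
    exact ⟨hm a ha b hb h, rfl⟩
  · obtain ⟨k1, k2⟩ := h
    dsimp only at k2
    split_ifs at k2 with k3
    · obtain ⟨c, k4, k5⟩ := k3
      have := he k1 (hm a ha c k5 k4) k2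
      have k7 : b ∈ {c | P a c} ∩ S := this ▸ (res P S).refl b
      exact k7.1
    · have := he' _ k1
      omega

theorem enc (hf : FinG A V) (hS : S.Finite) (hK : K.Finite) (hSV : Stab V S)
    (hfix : ∀ g ∈ V, ∀ a ∈ K, g • a = a) (j : ℕ) :
    {P ∈ Inv V (S ∪ K) | (IB V P (S ∪ K)).ncard ≤ j}.ncard ≤ nn V S * j ^ K.ncard := by
  classical
  choose e he using fun B : Set (Set A) => exists_enum B
  have := hK.to_subtype
  have h1 : ∀ P : {P ∈ Inv V (S ∪ K) | (IB V P (S ∪ K)).ncard ≤ j}, _ := fun P =>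
    exists_code hS hK hSV hfix P.2.2 (e _) (he _ (IB.finite _ hS)).1 (he _ (IB.finite _ hS)).2 P.2.1
  choose f h1 h2 h3 using h1
  have := (hf.fin S).to_subtype
  have h4 : nn V S * j ^ K.ncard = Nat.card (Inv V S × (K → Fin j)) := by
    rw [Nat.card_prod, Nat.card_fun, Nat.card_eq_fintype_card (α := Fin j), Fintype.card_fin]
    rfl
  rw [h4]
  refine Nat.card_le_card_of_injective
    (fun P => (⟨res P.1 S, res_mem P.2.1 hSV⟩, fun k => ⟨f P k, h1 P k k.2⟩)) ?_
  have key : ∀ P Q : {P ∈ Inv V (S ∪ K) | (IB V P (S ∪ K)).ncard ≤ j}, res P.1 S = res Q.1 S →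
      (∀ k ∈ K, f P k = f Q k) → ∀ a b, P.1 a b → Q.1 a b := by
    intro P Q e1 e2 a b hab
    have k1 : ∀ a ∈ K, ∀ b ∈ S, P.1 a b → Q.1 a b := fun a ha b hb h => by
      rw [h3 Q a ha b hb, ← e1, ← e2 a ha, ← h3 P a ha b hb]; exact h
    rcases P.2.1.2.2 a b hab with rfl | ⟨ha | ha, hb | hb⟩
    · exact Q.1.refl a
    · exact res_le (e1 ▸ (res_iff' ha hb).2 hab : res Q.1 S a b)
    · exact Q.1.symm (k1 b hb a ha (P.1.symm hab))
    · exact k1 a ha b hb hab
    · rw [h2 Q a ha b hb, ← e2 a ha, ← e2 b hb, ← h2 P a ha b hb]; exact hab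
  intro P Q h
  simp only [Prod.mk.injEq, Subtype.mk.injEq] at h
  have h5 : ∀ k ∈ K, f P k = f Q k := fun k hk => congrArg Fin.val (congrFun h.2 ⟨k, hk⟩)
  refine Subtype.ext ?_
  ext a b
  exact ⟨key P Q h.1 h5 a b, key Q P h.1.symm (fun k hk => (h5 k hk).symm) a b⟩

end Pool.Agent.P.MP_e517ea_lc
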