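import Mathlib

/-!
Row N: choice of the numeric parameters.
-/

namespace Pool.Agent.P.MP_e517ea_lc

theorem params_loglog (n : ℕ) : ∃ l0 : ℕ, ∀ l, l0 ≤ l → n ≤ Nat.log 2 (Nat.log 2 l) := by
  refine ⟨2 ^ (2 ^ n), fun l hl => ?_⟩
  apply Nat.le_log_of_pow_le (by norm_num)
  exact Nat.le_log_of_pow_le (by norm_num) hl

theorem params_sq (s : ℕ) (hs : 30 ≤ s) : 20000 * (s + 6) ^ 2 ≤ 2 ^ s := by
  induction s, hs using Nat.le_induction with
  | base => norm_num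
  | succ s hs ih =>
    have : (s + 1 + 6) ^ 2 ≤ 2 * (s + 6) ^ 2 := by nlinarith
    rw [pow_succ 2 s]
    omega

theorem params_pow (a b : ℕ) (h : a ≤ b) : 2 ^ a ≤ 2 ^ b :=
  Nat.pow_le_pow_right (by norm_num) h

theorem params_pp (a e n : ℕ) (h : a ≤ 2 ^ e) : a ^ n ≤ 2 ^ (e * n) := by
  rw [pow_mul 2]
  exact Nat.pow_le_pow_left h _

theorem params_mk (L eta om w l Y : ℕ) (hw : w ≤ 2 ^ om) (hom : 9 ≤ om)
    (heta : 800 * om ^ 2 ≤ eta) (hL1 : 13 * eta ≤ L) (hL2 : L < 13 * eta + 13)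
    (hl : l < 2 ^ (L + 1)) (hY : 2 ^ eta ≤ Y) (hYl : Y ≤ l) :
    ∃ m k, 4 * w ^ Y < m ^ m ∧
      2 * (4 * m) ^ (4 * m) ≤ 2 ^ k ∧ 4 * Y ≤ k ∧ 3 * k ≤ 400 * om * Y := by
  have hom2 : 9 * om ≤ om ^ 2 := by nlinarith
  have heta0 : 0 < eta := by omega
  have hetaY : eta < Y := lt_of_lt_of_le (Nat.lt_two_pow_self) hY
  obtain ⟨q, hq⟩ : ∃ q, q = 2 * (om + 1) * Y / eta := ⟨_, rfl⟩
  have hq1 : q * eta ≤ 2 * (om + 1) * Y := hq ▸ Nat.div_mul_le_self _ _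
  have hq2 : 2 * (om + 1) * Y < (q + 1) * eta := by
    have := Nat.lt_div_mul_add (a := 2 * (om + 1) * Y) heta0
    rw [← hq] at this
    linarith
  obtain ⟨h, hh⟩ : ∃ h, h = (eta + 1) / 2 := ⟨_, rfl⟩
  have hm : 2 ^ h ≤ q + 1 := by
    have e1 : eta ≤ 2 ^ (eta / 2 + 1) := by
      have : eta / 2 < 2 ^ (eta / 2) := Nat.lt_two_pow_self
      rw [pow_succ]
      omega
    have e2 : 2 ^ h * 2 ^ (eta / 2 + 1) = 2 * 2 ^ eta := by
      rw [← pow_add, show h + (eta / 2 + 1) = eta + 1 by omega, pow_succ]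
      ring
    have e3 : 2 ^ h * eta ≤ 2 * Y :=
      (Nat.mul_le_mul_left _ e1).trans (by rw [e2]; omega)
    have e4 : 2 * Y ≤ 2 * (om + 1) * Y := by nlinarith
    have e5 : 2 ^ h * eta < (q + 1) * eta := by omega
    exact (Nat.lt_of_mul_lt_mul_right e5).le
  have h4m : 4 * (q + 1) ≤ Y := by
    have e1 : q * (16 * (om + 1)) ≤ q * eta := Nat.mul_le_mul_left _ (by omega)
    have e2 : (8 * q) * (2 * (om + 1)) ≤ Y * (2 * (om + 1)) := by nlinarith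
    have e3 : 8 * q ≤ Y := Nat.le_of_mul_le_mul_right e2 (by omega)
    omega
  refine ⟨q + 1, 4 * (q + 1) * (L + 1) + 1, ?_, ?_, ?_, ?_⟩
  · have e1 : w ^ Y ≤ 2 ^ (om * Y) := params_pp _ _ _ hw
    have e2 : 2 ^ (h * (q + 1)) ≤ (q + 1) ^ (q + 1) := by
      rw [pow_mul]
      exact Nat.pow_le_pow_left hm _
    have e3 : (q + 1) * eta ≤ (q + 1) * (2 * h) := Nat.mul_le_mul_left _ (by omega)
    have e4 : om * Y + 3 ≤ h * (q + 1) := by nlinarith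
    have e5 := params_pow _ _ e4
    have e6 : 0 < 2 ^ (om * Y) := by positivity
    rw [pow_add] at e5
    omega
  · have e1 : 4 * (q + 1) ≤ 2 ^ (L + 1) := by omega
    have e2 : (4 * (q + 1)) ^ (4 * (q + 1)) ≤ 2 ^ (4 * (q + 1) * (L + 1)) := by
      rw [mul_comm (4 * (q + 1)) (L + 1)]
      exact params_pp _ _ _ e1
    rw [pow_succ 2]
    omega
  · have e1 : (q + 1) * eta ≤ (q + 1) * (L + 1) := Nat.mul_le_mul_left _ (by omega)
    nlinarith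
  · have e1 : (q + 1) * (L + 1) ≤ (q + 1) * (14 * eta) := Nat.mul_le_mul_left _ (by omega)
    have e2 : 9 * Y ≤ om * Y := Nat.mul_le_mul_right _ hom
    nlinarith

theorem params : ∃ l0 : ℕ, ∀ l, l0 ≤ l → ∃ J w om ka Y0 lam : ℕ,
    2 * (4 * J) ^ (4 * J) ≤ 2 ^ l ∧ 2 * l + 1 ≤ w * J ∧ w ≤ 2 ^ om ∧ 2 ≤ w ∧ 1 ≤ ka ∧
    w ^ ka < J ∧ J ≤ l ∧ (l + 1) ^ l ≤ w ^ l * J ^ (l - J) ∧
    (∀ y, Y0 ≤ y → (y / 2) ^ (y - y / 2) ≤ w ^ l → (ka + 4) * y ≤ l) ∧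
    (∀ Y, Y0 ≤ Y → (ka + 4) * Y ≤ l → ∃ m k, 4 * w ^ Y < m ^ m ∧
      2 * (4 * m) ^ (4 * m) ≤ 2 ^ k ∧ 4 * Y ≤ k ∧ 3 * k ≤ ka * Y) ∧
    2 * w ^ (2 * (ka + 4)) + 2 ≤ Y0 ∧ 4 * ((130 * w) ^ 65) ^ 2 ≤ Y0 ∧ om ≤ Y0 ∧ ka + 4 ≤ Y0 ∧
    lam ≤ Y0 ∧ 2 * Y0 * w ≤ 2 ^ lam ∧ 2 * l + 1 ≤ 2 ^ lam ∧ Y0 ^ 13 ≤ l ∧ 1000 ≤ Y0 := by
  obtain ⟨l0, hl0⟩ := params_loglog 30
  refine ⟨l0, fun l hl => ?_⟩
  have hs := hl0 l hl
  obtain ⟨L, hL⟩ : ∃ L, L = Nat.log 2 l := ⟨_, rfl⟩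
  rw [← hL] at hs
  obtain ⟨s, hsd⟩ : ∃ s, s = Nat.log 2 L := ⟨_, rfl⟩
  rw [← hsd] at hs
  have hL0 : L ≠ 0 := by
    rintro rfl
    simp at hsd
    omega
  have hl0' : l ≠ 0 := by
    rintro rfl
    simp at hL
    omega
  have hs1 : 2 ^ s ≤ L := hsd ▸ Nat.pow_log_le_self 2 hL0
  have hs2 : L < 2 ^ (s + 1) := hsd ▸ Nat.lt_pow_succ_log_self (by norm_num) L
  have hl1 : 2 ^ L ≤ l := hL ▸ Nat.pow_log_le_self 2 hl0'
  have hl2 : l < 2 ^ (L + 1) := hL ▸ Nat.lt_pow_succ_log_self (by norm_num) l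
  have hsq := params_sq s hs
  obtain ⟨om, hom⟩ : ∃ om, om = s + 6 := ⟨_, rfl⟩
  rw [← hom] at hsq
  have hom2 : 36 * om ≤ om ^ 2 := by
    rw [sq]
    exact Nat.mul_le_mul_right _ (by omega)
  obtain ⟨eta, heta⟩ : ∃ eta, eta = L / 13 := ⟨_, rfl⟩
  have he1 : 13 * eta ≤ L := by omega
  have he2 : L < 13 * eta + 13 := by omega
  have he3 : 1000 * om ^ 2 ≤ eta := by omega
  have he4 : eta < 2 ^ eta := Nat.lt_two_pow_self
  obtain ⟨J, hJ⟩ : ∃ J, J = l / (8 * L) := ⟨_, rfl⟩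
  have hJ1 : J * (8 * L) ≤ l := hJ ▸ Nat.div_mul_le_self _ _
  have hJ2 : l < J * (8 * L) + 8 * L := hJ ▸ Nat.lt_div_mul_add (by omega)
  have hw : 32 * L ≤ 2 ^ om := by
    rw [hom, show s + 6 = (s + 1) + 5 by ring, pow_add]
    omega
  have hLl : 32 * L ≤ l := hw.trans ((params_pow _ _ (by omega)).trans hl1)
  have hJL : 2 * J ≤ J * L := by
    rw [mul_comm 2 J]
    exact Nat.mul_le_mul_left _ (by omega)
  have hJ1' : 8 * (J * L) ≤ l := by linarith only [hJ1]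
  have hJ2' : l < 8 * (J * L) + 8 * L := by linarith only [hJ2]
  have c1 : 2 * (4 * J) ^ (4 * J) ≤ 2 ^ l := by
    have e1 : 4 * J ≤ 2 ^ (L + 1) := by omega
    have e2 : (4 * J) ^ (4 * J) ≤ 2 ^ ((L + 1) * (4 * J)) := params_pp _ _ _ e1
    have e3 : (L + 1) * (4 * J) + 1 ≤ l := by
      have : (L + 1) * (4 * J) = 4 * (J * L) + 4 * J := by ring
      omega
    have e4 := params_pow _ _ e3
    rw [pow_succ 2] at e4
    omega
  have c2 : 2 * (l + 1) ≤ 32 * L * J := by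
    have : 32 * L * J = 32 * (J * L) := by ring
    omega
  have c6 : (32 * L) ^ (400 * om) < J := by
    have e1 : (32 * L) ^ (400 * om) ≤ 2 ^ (om * (400 * om)) := params_pp _ _ _ hw
    by_contra hc
    have e2 : J ≤ 2 ^ (om * (400 * om)) := by omega
    have e3 : 0 < 2 ^ (om * (400 * om)) := by positivity
    have e4 : (J + 1) * (8 * L) ≤ (2 * 2 ^ (om * (400 * om))) * 2 ^ om :=
      Nat.mul_le_mul (by omega) (by omega)
    have e5 : (2 * 2 ^ (om * (400 * om))) * 2 ^ om = 2 ^ (om * (400 * om) + om + 1) := by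
      rw [pow_succ, pow_add]
      ring
    have e6 : om * (400 * om) + om + 1 ≤ L := by
      have : om * (400 * om) = 400 * om ^ 2 := by ring
      omega
    have e7 := params_pow _ _ e6
    have e8 : (J + 1) * (8 * L) = 8 * (J * L) + 8 * L := by ring
    omega
  have hJ0 : 0 < J := lt_of_le_of_lt (Nat.zero_le _) c6
  have c7 : J ≤ l := by omega
  refine ⟨J, 32 * L, om, 400 * om, 2 ^ eta, L + 2, c1, by omega, hw, by omega, by omega, c6, c7,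
    ?_, ?_, ?_, ?_, ?_, by omega, by omega, ?_, ?_, ?_, ?_, by omega⟩
  · have e1 : J ^ J ≤ 2 ^ l := by
      have a1 : J ^ J ≤ (4 * J) ^ J := Nat.pow_le_pow_left (by omega) _
      have a2 : (4 * J) ^ J ≤ (4 * J) ^ (4 * J) := Nat.pow_le_pow_right (by omega) (by omega)
      omega
    have e2 : (2 * (l + 1)) ^ l ≤ (32 * L * J) ^ l := Nat.pow_le_pow_left c2 _
    have e3 : (32 * L * J) ^ l = (32 * L) ^ l * J ^ (l - J) * J ^ J := by
      rw [mul_assoc ((32 * L) ^ l), ← pow_add, Nat.sub_add_cancel c7, mul_pow (32 * L)]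
    have e4 : (l + 1) ^ l * J ^ J ≤ (2 * (l + 1)) ^ l := by
      rw [mul_pow, mul_comm (2 ^ l)]
      exact Nat.mul_le_mul_left _ e1
    exact Nat.le_of_mul_le_mul_right (e4.trans (e2.trans e3.le)) (by positivity)
  · intro y hy hyw
    have e1 : 2 ^ (eta - 1) ≤ y / 2 := by
      have : 2 ^ eta = 2 ^ (eta - 1) * 2 := by
        rw [← pow_succ]
        congr 1
        omega
      omega
    have e2 : 2 ^ ((eta - 1) * (y - y / 2)) ≤ (y / 2) ^ (y - y / 2) := by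
      rw [pow_mul]
      exact Nat.pow_le_pow_left e1 _
    have e3 : (32 * L) ^ l ≤ 2 ^ (om * l) := params_pp _ _ _ hw
    have e4 : (eta - 1) * (y - y / 2) ≤ om * l :=
      (Nat.pow_le_pow_iff_right (by norm_num : 1 < 2)).1 (e2.trans (hyw.trans e3))
    have e5 : 2 * om * (400 * om + 4) ≤ eta - 1 := by
      have : 2 * om * (400 * om + 4) = 800 * om ^ 2 + 8 * om := by ring
      omega
    have e6 : 2 * om * (400 * om + 4) * y ≤ (eta - 1) * (2 * (y - y / 2)) :=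
      Nat.mul_le_mul e5 (by omega)
    have e7 : (2 * om) * ((400 * om + 4) * y) ≤ (2 * om) * l := by
      linarith only [e4, e6]
    exact Nat.le_of_mul_le_mul_left e7 (by omega)
  · intro Y hY hYl
    exact params_mk L eta om (32 * L) l Y hw (by omega) (by omega) he1 he2 hl2 hY
      ((Nat.le_mul_of_pos_left Y (by omega)).trans hYl)
  · have e1 : (32 * L) ^ (2 * (400 * om + 4)) ≤ 2 ^ (om * (2 * (400 * om + 4))) :=
      params_pp _ _ _ hw
    have e2 : om * (2 * (400 * om + 4)) + 2 ≤ eta := by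
      have : om * (2 * (400 * om + 4)) = 800 * om ^ 2 + 8 * om := by ring
      omega
    have e3 := params_pow _ _ e2
    have e4 : 0 < 2 ^ (om * (2 * (400 * om + 4))) := by positivity
    rw [pow_add] at e3
    omega
  · have e1 : 130 * (32 * L) ≤ 2 ^ (om + 8) := by
      rw [pow_add]
      omega
    have e2 : ((130 * (32 * L)) ^ 65) ^ 2 ≤ 2 ^ ((om + 8) * 130) := by
      rw [← pow_mul]
      exact params_pp _ _ _ e1
    have e3 := params_pow ((om + 8) * 130 + 2) eta (by omega)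
    rw [pow_add] at e3
    omega
  · have e1 := params_pow (s + 1 + 1) eta (by omega)
    rw [pow_succ] at e1
    omega
  · have e1 : 2 * 2 ^ eta * (32 * L) ≤ 2 * 2 ^ eta * 2 ^ om := Nat.mul_le_mul_left _ hw
    have e2 : 2 * 2 ^ eta * 2 ^ om = 2 ^ (eta + om + 1) := by
      rw [pow_succ, pow_add]
      ring
    exact e1.trans (e2.le.trans (params_pow _ _ (by omega)))
  · rw [show L + 2 = (L + 1) + 1 by ring, pow_succ]
    omega
  · rw [← pow_mul]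
    exact (params_pow _ _ (by omega)).trans hl1

end Pool.Agent.P.MP_e517ea_lc
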