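import Pool.Agent.P.MP_e517ea_lc.Low
import Pool.Agent.P.MP_e517ea_lc.Params

/-!
The number of nontrivial orbits is small; the counting hypothesis is contradictory.
-/

namespace Pool.Agent.P.MP_e517ea_lc

open Set

variable {G A : Type*} [Group G] [MulAction G A]

variable {U : Subgroup G} {c : A} {J w ka Y T om lam : ℕ}

theorem arith {Y nu M un g1 bb r ln o Z K : ℕ} (hY : 1000 ≤ Y) (h1 : nu ≤ Y ^ 2)
    (h2 : M ≤ 2 * Y ^ 4) (h3 : un ≤ Y ^ 2) (hZ : Z ≤ Y) (h4 : g1 ≤ 3 * (Z * M) + un)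
    (hK : K ≤ Y ^ 3) (h5 : bb ≤ K * (g1 + M)) (h6 : r ≤ nu + g1 + bb) (h7 : ln ≤ Y ^ 2 * r)
    (h8 : o ≤ nu + g1 + ln + ln) : Y ^ 2 * o < Y ^ 13 := by
  have p : ∀ {a b : ℕ}, a ≤ b → Y ^ a ≤ Y ^ b := fun h => Nat.pow_le_pow_right (by omega) h
  have a1 : Z * M ≤ 2 * Y ^ 5 := (Nat.mul_le_mul hZ h2).trans (by ring_nf; rfl)
  have a2 : g1 ≤ 7 * Y ^ 5 := by have := p (show 2 ≤ 5 by norm_num); omega
  have a3 : g1 + M ≤ 9 * Y ^ 5 := by have := p (show 4 ≤ 5 by norm_num); omega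
  have a4 : bb ≤ 9 * Y ^ 8 := h5.trans ((Nat.mul_le_mul hK a3).trans (by ring_nf; rfl))
  have a5 : r ≤ 17 * Y ^ 8 := by
    have := p (show 2 ≤ 8 by norm_num); have := p (show 5 ≤ 8 by norm_num); omega
  have a6 : ln ≤ 17 * Y ^ 10 := h7.trans ((Nat.mul_le_mul_left _ a5).trans (by ring_nf; rfl))
  have a7 : o ≤ 42 * Y ^ 10 := by
    have := p (show 2 ≤ 10 by norm_num); have := p (show 5 ≤ 10 by norm_num); omega
  have a8 : 0 < Y ^ 12 := by positivity
  calc _ ≤ Y ^ 2 * (42 * Y ^ 10) := Nat.mul_le_mul_left _ a7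
    _ = 42 * Y ^ 12 := by ring
    _ < Y * Y ^ 12 := Nat.mul_lt_mul_of_pos_right (by omega) a8
    _ = _ := by ring

theorem Base2.NN_lt (B : Base2 A U J w ka Y) (hc : Min U c) (hY : 1000 ≤ Y) (hw : w ≤ 2 ^ om)
    (hT : T = (130 * w) ^ 65) (hZ : 4 * T ^ 2 ≤ Y) (hom : om ≤ Y) (hka : ka + 4 ≤ Y) (hlam : lam ≤ Y)
    (hl1 : 2 * Y * w ≤ 2 ^ lam) (hl2 : 2 * (Fix A U).ncard + 1 ≤ 2 ^ lam) :
    NN A U < 2 ^ Y ^ 13 := by
  classical
  have H := B.hyp
  have h65 : 65 ≤ Y ∧ T = (130 * w) ^ 65 := ⟨by omega, hT⟩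
  have hV := B.opn.SS c
  have hf := H.fin hV
  have hfU := H.fin B.opn
  have hT0 : 0 < T := by have := B.pos.2; rw [hT]; positivity
  clear hT
  obtain ⟨o, ho⟩ : ∃ o : Finset (Set A), ∀ O, O ∈ o ↔ O ∈ Orb A U :=
    ⟨(Orb.finite hfU).toFinset, fun _ => Finite.mem_toFinset _⟩
  have hB : ∀ O ∈ o, nn U O ≤ 2 ^ (lam * Y) := fun O h => by
    obtain ⟨a, ha, rfl, -⟩ := (ho O).1 h
    exact (B.lt ha).trans (pow_mul 2 lam Y ▸ Nat.pow_le_pow_left hl1 _)
  set u := o.filter fun O => ¬ Stb U c O with hu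
  have hu' : ∀ O ∈ u, O ∈ Orb A U := fun O h => (ho O).1 (Finset.mem_filter.1 h).1
  have u1 : nn (SS U c) ((⋃ O ∈ u, O) \ cl U c) ≤ w ^ Y * ∏ O ∈ u, nn U O :=
    (B.f1 (X := ⋃ O ∈ u, O) hc (stab_biUnion fun O h => Orb.stab (hu' O h))
      (cs_biUnion fun O h => Orb.cs (hu' O h)) (iUnion₂_subset fun O h => Orb.subset (hu' O h))).trans
      (Nat.mul_le_mul_left _ (nn_biUnion_le hfU u _ (fun O h => Orb.stab (hu' O h))
        fun O h => (Orb.cs (hu' O h)).sat))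
  have u2 : u.card ≤ om * Y := by
    have k1 : ∏ O ∈ u, 2 * nn U O ≤ ∏ O ∈ u, nn (SS U c) (O \ cl U c) :=
      Finset.prod_le_prod' fun O h => not_lt.1 fun h' => (Finset.mem_filter.1 h).2 ⟨hu' O h, h'⟩
    rw [Finset.prod_mul_distrib, Finset.prod_const] at k1
    have k3 : (⋃ O ∈ u, O \ cl U c) ⊆ (⋃ O ∈ u, O) \ cl U c := iUnion₂_subset fun O h =>
      sdiff_subset_sdiff_left (Finset.subset_set_biUnion_of_mem (f := fun O => O) h)
    have k2 := k1.trans ((prod_nn_le hf u (fun O => O \ cl U c) fun O h O' h' hne =>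
      disjoint_SO (hu' O h) (hu' O' h') hne).trans ((nn_mono hf k3).trans u1))
    exact le_of_two_pow hw (Nat.le_of_mul_le_mul_right k2 (Finset.prod_pos fun O _ => nn_pos hfU O))
  have u3 : w ^ Y * ∏ O ∈ u, nn U O ≤ 2 ^ (om * Y + lam * Y * (om * Y)) := by
    rw [pow_add]
    refine Nat.mul_le_mul (pow_mul 2 om Y ▸ Nat.pow_le_pow_left hw _) ((Finset.prod_le_pow_card _ _ _
      fun O h => hB O (Finset.mem_filter.1 h).1).trans ?_)
    rw [← pow_mul]
    exact Nat.pow_le_pow_right two_pos (Nat.mul_le_mul_left _ u2)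
  set M := om * Y + lam * Y * (om * Y) with hM
  have g1 := B.good_le hT0 (B.NN_le hc) o ho u3
  set gd := o.filter fun O => Good U c T O ∧ ¬ Bad U c T O with hgd
  have c1 := B.F0_pos hc
  have c2 := B.hY c hc
  have un : (o.filter fun O => Stb U c O ∧ Unch U c O).card ≤ lam * Y := by
    refine le_trans (le_of_two_pow (w := 2 ^ lam) le_rfl ((B.unch c1 _
      fun O h => (Finset.mem_filter.1 h).2).trans (Nat.pow_le_pow_left ?_ _)))
      (Nat.mul_le_mul_left _ c2)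
    have := B.Yl
    omega
  have low : ∀ t : Finset (Set A), (∀ Λ ∈ t, ∃ b, Low U c b ∧ Λ = XO U (SS U c) b) →
      t.card ≤ gd.card + M := by
    intro t ht
    rw [← Finset.card_filter_add_card_filter_not (s := t) (· ∈ gd.image (· \ cl U c))]
    refine Nat.add_le_add ((Finset.card_le_card fun _ h => (Finset.mem_filter.1 h).2).trans
      Finset.card_image_le) ((Nat.pow_le_pow_iff_right one_lt_two).1 (le_trans ?_ (u1.trans u3)))
    refine (two_pow_le_prod fun Λ h => ?_).trans ((prod_nn_le hf _ (fun Λ => Λ)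
      fun Λ h Λ' h' hne => ?_).trans (nn_mono hf (iUnion₂_subset fun Λ h => ?_)))
    · obtain ⟨b, hb, rfl⟩ := ht Λ (Finset.mem_filter.1 h).1
      exact (Orb.two_le (B.big_orb hb.1)).trans
        (nn_XO_le le_rfl SS_le hf (stab_XO SS_le) cls_subset_XO)
    · obtain ⟨b, -, rfl⟩ := ht Λ (Finset.mem_filter.1 h).1
      obtain ⟨b', -, rfl⟩ := ht Λ' (Finset.mem_filter.1 h').1
      exact XO_disjoint SS_le hne
    · obtain ⟨b, hb, rfl⟩ := ht Λ (Finset.mem_filter.1 h).1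
      have k1 := B.big_orb hb.1
      have k2 : XO U U b ∈ u := Finset.mem_filter.2 ⟨(ho _).2 k1, fun hs => by
        have k3 : b ∈ XO U U b \ cl U c := ⟨mem_XO_self, hb.2.1⟩
        refine (Finset.mem_filter.1 h).2 (Finset.mem_image.2 ⟨XO U U b, Finset.mem_filter.2
          ⟨(ho _).2 k1, ⟨hs, Or.inr ⟨b, mem_XO_self, hb.1⟩⟩, fun hbad => ?_⟩, (B.SO_eq hs k3).symm⟩)
        obtain ⟨b', m1, m2, m3, m4⟩ := B.bad_nonlow h65 hc hbad k3
        exact m4 (hb.2.2 b' m1 m2 m3)⟩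
      exact subset_inter ((XO_mono SS_le).trans (Finset.subset_set_biUnion_of_mem (f := fun O => O) k2))
        (B.acl_SS c ▸ XO_subset_compl SS_le (B.acl_SS c ▸ hb.2.1))
  set bd := o.filter (Bad U c T) with hbd
  have hbd' : ∀ O ∈ bd, Bad U c T O := fun O h => (Finset.mem_filter.1 h).2
  have bb : bd.card ≤ om * ((ka + 4) * Y) * (gd.card + M) := by
    have h1 : ∀ O : Set A, ∃ b, O ∈ bd → Low U c b ∧
        ∃ d ∈ O \ cl U c, b ∈ cl (SS U c) d ∧ d ∉ cl (SS U c) b := fun O => by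
      by_cases h : O ∈ bd
      · obtain ⟨d, hd, -⟩ := B.exists_gen (hbd' O h).1.1.1 c
        obtain ⟨b, k1, k2⟩ := B.exists_low h65 hc (hbd' O h) hd
        exact ⟨b, fun _ => ⟨k1, d, hd, k2⟩⟩
      · exact ⟨c, fun h' => (h h').elim⟩
    choose b hb using h1
    refine (Finset.card_le_mul_card_image (f := fun O => XO U (SS U c) (b O)) bd _
      fun Λ hΛ => ?_).trans (Nat.mul_le_mul_left _ (low _ fun Λ hΛ => ?_))
    · obtain ⟨O0, h0, rfl⟩ := Finset.mem_image.1 hΛ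
      refine B.bad_above (T := T) hc hw (hb O0 h0).1.1 (hb O0 h0).1.2.1 _ fun O h => ?_
      obtain ⟨h1, h2⟩ := Finset.mem_filter.1 h
      obtain ⟨-, d, hd, k1, k2⟩ := hb O h1
      obtain ⟨v, hv, ev⟩ : b O0 ∈ XO U (SS U c) (b O) := h2 ▸ mem_XO_self
      have ev' : cl (SS U c) (v • b O) = cl (SS U c) (b O0) := cl_eq_mono SS_le ev
      exact ⟨hbd' O h1, v • d, stab_SO (hbd' O h1).1.1.1 v hv d hd,
        cl_subset le_rfl (smul_mem_cl hv k1) (mem_cl_of_eq ev'),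
        fun h => k2 ((smul_mem_cl_iff hv).1 (ev' ▸ h))⟩
    · obtain ⟨O0, h0, rfl⟩ := Finset.mem_image.1 hΛ
      exact ⟨_, (hb O0 h0).1, rfl⟩
  have cov : ∀ O ∈ o, nn U O ≤ T ∨ Big U O → O ∈ u ∪ gd ∪ bd := fun O h h' => by
    by_cases h1 : Stb U c O
    · by_cases h2 : Bad U c T O
      · exact Finset.mem_union_right _ (Finset.mem_filter.2 ⟨h, h2⟩)
      · exact Finset.mem_union_left _ (Finset.mem_union_right _
          (Finset.mem_filter.2 ⟨h, ⟨h1, h'⟩, h2⟩))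
    · exact Finset.mem_union_left _ (Finset.mem_union_left _ (Finset.mem_filter.2 ⟨h, h1⟩))
  have cu : (u ∪ gd ∪ bd).card ≤ u.card + gd.card + bd.card :=
    (Finset.card_union_le _ _).trans (Nat.add_le_add_right (Finset.card_union_le _ _) _)
  have hr : (o.filter (Big U)).card ≤ u.card + gd.card + bd.card :=
    (Finset.card_le_card fun O h => cov O (Finset.mem_filter.1 h).1
      (Or.inr (Finset.mem_filter.1 h).2)).trans cu
  have hln := B.ln_le h65 hw o ho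
  have ho' : o.card ≤ u.card + gd.card + bd.card + (o.filter (LN U T)).card := by
    refine (Finset.card_le_card (t := u ∪ gd ∪ bd ∪ o.filter (LN U T)) fun O h => ?_).trans
      ((Finset.card_union_le _ _).trans (Nat.add_le_add_right cu _))
    by_cases h1 : nn U O ≤ T ∨ Big U O
    · exact Finset.mem_union_left _ (cov O h h1)
    · push Not at h1
      exact Finset.mem_union_right _ (Finset.mem_filter.2 ⟨h, (ho O).1 h, h1⟩)
  have q1 : om * Y ≤ Y ^ 2 := sq Y ▸ Nat.mul_le_mul_right _ hom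
  have q2 : lam * Y ≤ Y ^ 2 := sq Y ▸ Nat.mul_le_mul_right _ hlam
  have q3 : M ≤ 2 * Y ^ 4 := by
    have k1 := Nat.mul_le_mul q2 q1
    rw [← pow_add] at k1
    rw [two_mul]
    exact Nat.add_le_add (q1.trans (Nat.pow_le_pow_right B.pos.1 (by norm_num))) k1
  have q4 : om * ((ka + 4) * Y) ≤ Y ^ 3 :=
    (Nat.mul_le_mul hom (Nat.mul_le_mul_right Y hka)).trans (by ring_nf; rfl)
  have q5 : u.card + gd.card + bd.card ≤ Y ^ 2 * (u.card + gd.card + bd.card) :=
    Nat.le_mul_of_pos_left _ (by positivity)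
  have q6 := hln.trans (Nat.mul_le_mul q1 hr)
  have := arith (o := o.card) hY (u2.trans q1) q3 (un.trans q2) hZ g1 q4 bb le_rfl le_rfl (by omega)
  calc _ ≤ ∏ O ∈ o, nn U O :=
        nn_le_prod hfU o (fun O h => (ho O).1 h) fun a ha h => (ho _).2 ⟨a, ha, rfl, h⟩
    _ ≤ (2 ^ (lam * Y)) ^ o.card := Finset.prod_le_pow_card _ _ _ hB
    _ ≤ 2 ^ (Y ^ 2 * o.card) := by
        rw [← pow_mul]; exact Nat.pow_le_pow_right two_pos (Nat.mul_le_mul_right _ q2)
    _ < _ := Nat.pow_lt_pow_right one_lt_two this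

theorem Hyp.false [Nonempty A] (H : Hyp G A) : False := by
  rcases finite_or_infinite A with hA | hA
  · have hU := opn_pw (G := G) (finite_univ (α := A))
    have h1 : Fix A (pw G (univ : Set A)) = univ := eq_univ_of_forall fun a g hg => hg a trivial
    have h2 := (H _ hU).2.2
    rw [h1] at h2
    exact (nn_lt_nseq (H.fin hU) finite_univ univ_nonempty fun g hg a _ => hg a trivial).ne h2
  obtain ⟨l0, hl0⟩ := params
  obtain ⟨K, hK⟩ := Infinite.exists_subset_card_eq A (max l0 (2 ^ 200))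
  have h0 := opn_pw (G := G) K.finite_toSet
  have hL := H.aclf h0
  set U := pw G (K : Set A) ⊓ pw G (acl A (pw G (K : Set A))) with hUdef
  have hU : Opn A U := h0.inf (opn_pw hL)
  have e1 : acl A U = acl A (pw G (K : Set A)) := acl_inf_pw hL Subset.rfl
  have e2 : acl A U = Fix A U :=
    Subset.antisymm (fun a ha g hg => hg.2 a (e1 ▸ ha)) Fix_subset_acl
  have hF := H.fix hU
  have hf := H.fin hU
  have e3 : max l0 (2 ^ 200) ≤ (Fix A U).ncard := by
    rw [← hK, ← ncard_coe_finset]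
    exact ncard_le_ncard (fun a ha g hg => hg.1 a ha) hF
  obtain ⟨J, w, om, ka, Y0, lam, p1, p2, p3, p4, p5, p6, p7, p8, p9, p10, p11, p12, p13, p14, p15,
    p16, p17, p18, p19⟩ := hl0 _ (le_of_max_le_left e3)
  have B : Base A U J w := ⟨H, hU, e2, p1, p2, p4, (Nat.le_self_pow (by omega) w).trans p6.le⟩
  have e4 := H.nseq_eq hU
  rw [e2] at e4
  have n1 : NN A U ≤ w ^ (Fix A U).ncard := by
    have k1 := nn_lower hf hF (fun g hg a ha => ha g hg) p7
    have k2 := nseq_add_le 0 (Fix A U).ncard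
    rw [zero_add, e4, nseq, mul_one] at k2
    have k3 := (Nat.mul_le_mul_right _ k1).trans (k2.trans p8)
    rw [mul_comm] at k3
    exact Nat.le_of_mul_le_mul_right k3 (Nat.pow_pos B.J_pos)
  have n2 : 2 ^ (Fix A U).ncard ≤ NN A U := by
    have k1 := nn_upper hf hF (fun g hg a ha => ha g hg) (le_of_max_le_right e3)
    rw [e4, mul_comm] at k1
    exact Nat.le_of_mul_le_mul_left k1 (nn_pos hf _)
  have big : ∀ Y, Y0 ≤ Y → 2 * w ^ 2 < Y := fun Y h => by
    have : w ^ 2 ≤ w ^ (2 * (ka + 4)) := Nat.pow_le_pow_right (by omega) (by omega)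
    omega
  have ap : ∀ a : A, Min U a → Y0 ≤ (F0 U a).ncard →
      (ka + 4) * (F0 U a).ncard ≤ (Fix A U).ncard := fun a ha h =>
    p9 _ h ((B.lower ha (Nat.div_le_self _ _)).trans
      ((nn_mono hf (XO_subset_compl le_rfl ha.1)).trans n1))
  have hY : ∀ a : A, Min U a → (F0 U a).ncard ≤ Y0 := by
    intro a ha
    by_contra h
    have hb : BddAbove {n | ∃ a : A, Min U a ∧ (F0 U a).ncard = n} := by
      refine ⟨max Y0 (Fix A U).ncard, ?_⟩
      rintro _ ⟨b, hb, rfl⟩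
      by_cases h' : Y0 ≤ (F0 U b).ncard
      · exact le_max_of_le_right (le_trans (by nlinarith) (ap b hb h'))
      · exact le_max_of_le_left (not_le.1 h').le
    obtain ⟨b, k1, k2⟩ := Nat.sSup_mem (s := {n | ∃ a : A, Min U a ∧ (F0 U a).ncard = n})
      ⟨_, a, ha, rfl⟩ hb
    have k3 : ∀ x : A, Min U x → (F0 U x).ncard ≤ (F0 U b).ncard := fun x hx =>
      k2 ▸ le_csSup hb ⟨x, hx, rfl⟩
    have k4 : Y0 ≤ (F0 U b).ncard := (not_le.1 h).le.trans (k3 a ha)
    exact Base2.lemA ⟨B, k3, ap b k1 k4, big _ k4, p10 _ k4 (ap b k1 k4)⟩ (p11.trans k4) p6 k1 rfl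
  have hYl : (ka + 4) * Y0 ≤ (Fix A U).ncard := (Nat.mul_le_mul_right _ p14).trans
    (le_trans (by rw [← sq]; exact Nat.pow_le_pow_right (by omega) (by norm_num)) p18)
  obtain ⟨a, ha⟩ := (H.aclf hU).infinite_compl.nonempty
  obtain ⟨c, -, hc⟩ := H.exists_min hU ha
  have := Base2.NN_lt ⟨B, hY, hYl, big _ le_rfl, p10 _ le_rfl hYl⟩ hc p19 p3 rfl p12 p13 p14 p15 p16 p17
  exact absurd ((Nat.pow_le_pow_right two_pos p18).trans n2) (not_le.2 this)

end Pool.Agent.P.MP_e517ea_lc
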