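import Pool.Agent.P.MP_e517ea_lc.Cl
import Pool.Agent.P.MP_e517ea_lc.Count2

/-!
Open subgroups, the counting hypothesis, generic points and the basic comparison lemmas.
-/

namespace Pool.Agent.P.MP_e517ea_lc

open Set

variable {G A : Type*} [Group G] [MulAction G A]

/-- Open subgroups. -/
def Opn (A : Type*) [MulAction G A] (U : Subgroup G) : Prop := ∃ K : Set A, K.Finite ∧ pw G K ≤ U

/-- The counting hypothesis. -/
def Hyp (G A : Type*) [Group G] [MulAction G A] : Prop :=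
  ∀ U : Subgroup G, Opn A U →
    (Fix A U).Finite ∧ FinG A U ∧ nn U (univ : Set A) = nseq (Fix A U).ncard

/-- The number of invariant partitions outside the algebraic closure. -/
noncomputable def NN (A : Type*) [MulAction G A] (U : Subgroup G) : ℕ := nn U (acl A U)ᶜ

variable {U U' V W : Subgroup G} {a b c : A} {g : G} {X Y : Set A}

theorem Opn.mono (h : Opn A U) (h' : U ≤ V) : Opn A V := h.imp fun _ h => ⟨h.1, h.2.trans h'⟩

theorem Opn.inf (h : Opn A U) (h' : Opn A V) : Opn A (U ⊓ V) := by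
  obtain ⟨K, h1, h2⟩ := h
  obtain ⟨K', k1, k2⟩ := h'
  exact ⟨K ∪ K', h1.union k1, fun g hg =>
    ⟨h2 fun a ha => hg a (Or.inl ha), k2 fun a ha => hg a (Or.inr ha)⟩⟩

theorem opn_pw (h : X.Finite) : Opn A (pw G X) := ⟨X, h, le_rfl⟩

theorem Opn.pt (h : Opn A U) (a : A) : Opn A (U ⊓ pw G {a}) := h.inf (opn_pw (finite_singleton a))

theorem Opn.SS (h : Opn A U) (a : A) : Opn A (SS U a) := (h.pt a).mono inf_pw_le_SS

theorem PermModel.hyp {E : List A → Setoid A} (h : PermModel G A E) : Hyp G A := by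
  rintro U ⟨K, hK, hU⟩
  have h1 : (Fix A U).Finite := (h.fixfin hK.toFinset.toList).subset fun x hx g hg =>
    hx g (hU fun a ha => hg a (by simpa using ha))
  obtain ⟨h2, h3⟩ := ncard_nodup h1
  have h4 : Inv U (univ : Set A) = E '' {l : List A | l.Nodup ∧ ∀ x ∈ l, x ∈ Fix A U} := by
    ext P
    constructor
    · intro hP
      obtain ⟨s, hs, rfl⟩ := h.surj hK.toFinset.toList P hP.1 fun g hg =>
        hP.2.1 g (hU fun a ha => hg a (by simpa using ha))
      refine ⟨s, ⟨hs, fun x hx g hg => ?_⟩, rfl⟩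
      have hs' := hs.map (MulAction.injective g)
      have : s.map (g • ·) = s := by
        refine h.inj _ _ hs' hs (Setoid.ext fun a b => ⟨fun H => ?_, fun H => ?_⟩)
        · have := h.equiv g⁻¹ _ hs' a b H
          rw [List.map_map, show ((g⁻¹ • ·) ∘ (g • ·) : A → A) = id from funext fun _ => by simp,
            List.map_id] at this
          exact (Inv.iff hP (U.inv_mem hg)).1 this
        · simpa using h.equiv g s hs _ _ ((Inv.iff hP (U.inv_mem hg)).2 H)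
      exact List.map_inj_left.1 (this.trans (List.map_id s).symm) x hx
    · rintro ⟨s, hs, rfl⟩
      refine ⟨h.fin s hs.1, fun g hg a b H => ?_, fun a b _ => Or.inr ⟨trivial, trivial⟩⟩
      have := h.equiv g s hs.1 a b H
      rwa [(List.map_congr_left fun x hx => hs.2 x hx g hg : s.map (g • ·) = s.map id),
        List.map_id] at this
  refine ⟨h1, by unfold FinG; rw [h4]; exact h2.image _, ?_⟩
  rw [nn, h4, InjOn.ncard_image fun s hs t ht => h.inj s t hs.1 ht.1, h3]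

theorem blk_mem (hX : X.Finite) (hs : Stab U X) : res ⊤ X ∈ Inv U X :=
  ⟨fun a => ((finite_singleton a).union hX).subset fun _ h => h.imp Eq.symm fun h => h.2.1,
    fun g hg a b h => h.imp (fun h => by rw [h]) fun h => ⟨hs g hg a h.1, hs g hg b h.2.1, trivial⟩,
    fun _ _ h => h.imp_right fun h => ⟨h.1, h.2.1⟩⟩

theorem one_lt_nn (hf : FinG A U) {P : Setoid A} (hP : P ∈ Inv U X) (h : P a b) (hne : a ≠ b) :
    1 < nn U X :=
  (one_lt_ncard (hf.fin X)).2 ⟨P, hP, ⊥, bot_mem_Inv, fun e => hne (by rw [e] at h; exact h)⟩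

theorem FinG.acl_finite (hf : FinG A U) (hF : (Fix A U).Finite) : (acl A U).Finite := by
  have h1 : ({P ∈ Inv U (univ : Set A) | {x | ∃ y, y ≠ x ∧ P x y}.Finite}).Finite :=
    hf.subset fun _ h => h.1
  refine (hF.union (h1.biUnion fun P hP => hP.2)).subset fun a ha => ?_
  by_cases h0 : a ∈ Fix A U
  · exact Or.inl h0
  have hs : Stab U {b | ∃ g ∈ U, g • a = b} := by
    rintro g hg _ ⟨k, hk, rfl⟩
    exact ⟨g * k, U.mul_mem hg hk, mul_smul _ _ _⟩
  refine Or.inr (mem_iUnion₂.2 ⟨res ⊤ {b | ∃ g ∈ U, g • a = b},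
    ⟨Inv_mono (subset_univ _) (blk_mem ha hs), Finite.subset ha ?_⟩, ?_⟩)
  · rintro x ⟨y, hy, h | h⟩
    · exact (hy h.symm).elim
    · exact h.1
  · simp only [Fix, mem_ofPred_eq, not_forall] at h0
    obtain ⟨g, hg, h0⟩ := h0
    exact ⟨g • a, h0, Or.inr ⟨⟨1, U.one_mem, one_smul _ _⟩, ⟨g, hg, rfl⟩, trivial⟩⟩

/-- Generic points. -/
def Gen (U W : Subgroup G) : Set A := {a | a ∉ acl A U ∧ ∀ x ∈ cl U a, x ∈ acl A W → x ∈ acl A U}

theorem cs_gen : CS U (Gen U W : Set A) := fun _ ha _ e =>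
  ⟨notMem_acl_of_eq le_rfl e ha.1, e ▸ ha.2⟩

theorem stab_gen (h : W ≤ U) : Stab W (Gen U W : Set A) := fun g hg a ha =>
  ⟨stab_acl.compl g (h hg) a ha.1, fun x hx hx' => by
    have h1 := ha.2 (g⁻¹ • x) ((smul_mem_cl_iff (h hg)).1 (by simpa))
      (stab_acl _ (W.inv_mem hg) _ hx')
    simpa using stab_acl g (h hg) _ h1⟩

theorem gen_subset : (Gen U W : Set A) ⊆ (acl A W)ᶜ := fun a ha h =>
  ha.1 (ha.2 a (mem_cl_self U a) h)

/-- Orbits of classes. -/
def Orb (A : Type*) [MulAction G A] (U : Subgroup G) : Set (Set A) :=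
  {O | ∃ a ∉ acl A U, O = XO U U a ∧ 1 < nn U O}

theorem Orb.stab {O : Set A} (h : O ∈ Orb A U) : Stab U O := by
  obtain ⟨a, -, rfl, -⟩ := h; exact stab_XO le_rfl

theorem Orb.cs {O : Set A} (h : O ∈ Orb A U) : CS U O := by
  obtain ⟨a, -, rfl, -⟩ := h; exact cs_XO

theorem Orb.subset {O : Set A} (h : O ∈ Orb A U) : O ⊆ (acl A U)ᶜ := by
  obtain ⟨a, ha, rfl, -⟩ := h; exact XO_subset_compl le_rfl ha

theorem Orb.eq {O : Set A} (h : O ∈ Orb A U) (ha : a ∈ O) : XO U U a = O := by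
  obtain ⟨b, -, rfl, -⟩ := h; exact XO_eq le_rfl ha

theorem Orb.two_le {O : Set A} (h : O ∈ Orb A U) : 2 ≤ nn U O := h.choose_spec.2.2

theorem Orb.disjoint : (Orb A U).PairwiseDisjoint id := by
  rintro _ ⟨a, -, rfl, -⟩ _ ⟨b, -, rfl, -⟩ h
  exact XO_disjoint le_rfl h

theorem nn_le_prod (hf : FinG A U) (s : Finset (Set A)) (hs : ∀ O ∈ s, O ∈ Orb A U)
    (hX : ∀ a ∈ X, 1 < nn U (XO U U a) → XO U U a ∈ s) : nn U X ≤ ∏ O ∈ s, nn U O := by
  refine le_trans ?_ (nn_biUnion_le hf s (fun O => O) (fun O h => Orb.stab (hs O h))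
    fun O h => (Orb.cs (hs O h)).sat)
  refine ncard_le_ncard (fun P hP => ⟨hP.1, hP.2.1, fun a b hab => ?_⟩) (hf.fin _)
  by_cases h : a = b
  · exact Or.inl h
  have hb : b ∈ XO U U a := cls_subset_XO (Inv.cl_eq hP hab)
  have := hX a ((hP.2.2 a b hab).resolve_left h).1 (one_lt_nn hf (res_mem hP (stab_XO le_rfl))
    ((res_iff' mem_XO_self hb).2 hab) h)
  exact Or.inr ⟨mem_iUnion₂.2 ⟨_, this, mem_XO_self⟩, mem_iUnion₂.2 ⟨_, this, hb⟩⟩

theorem two_pow_le_prod {ι : Type*} {s : Finset ι} {f : ι → ℕ} (h : ∀ i ∈ s, 2 ≤ f i) :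
    2 ^ s.card ≤ ∏ i ∈ s, f i := Finset.pow_card_le_prod _ _ _ h

theorem Orb.finite (hf : FinG A U) : (Orb A U).Finite := by
  by_contra h
  obtain ⟨s, h1, h2⟩ := Set.Infinite.exists_subset_card_eq h (nn U (univ : Set A))
  have h3 := (two_pow_le_prod fun O hO => Orb.two_le (h1 hO)).trans ((prod_nn_le hf s
    (fun O => O) (Orb.disjoint.subset h1)).trans (nn_mono hf (subset_univ _)))
  rw [h2] at h3
  exact absurd h3 (not_le.2 Nat.lt_two_pow_self)

variable (H : Hyp G A)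
include H

theorem Hyp.fix (hU : Opn A U) : (Fix A U).Finite := (H U hU).1

theorem Hyp.fin (hU : Opn A U) : FinG A U := (H U hU).2.1

theorem Hyp.aclf (hU : Opn A U) : (acl A U).Finite := (H.fin hU).acl_finite (H.fix hU)

theorem Hyp.clf (hU : Opn A U) (a : A) : (cl U a).Finite := H.aclf (hU.pt a)

theorem Hyp.clsf (hU : Opn A U) (a : A) : (cls U a).Finite := (H.clf hU a).subset cls_subset_cl

theorem Hyp.nseq_eq (hU : Opn A U) : nseq (Fix A U).ncard = nn U (acl A U) * NN A U := by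
  rw [← (H U hU).2.2, NN, ← nn_union_eq (H.fin hU) stab_acl (cs_acl le_rfl).sat
    disjoint_compl_right, union_compl_self]

/-- Invariant partitions are coded by fixed points. -/
theorem Hyp.code (hU : Opn A U) {P : Setoid A} (hP : P ∈ Inv U X) (hg : ∀ a ∈ Fix A U, g • a = a)
    (h : P a b) : P (g • a) (g • b) := by
  have h1 := opn_pw (G := G) (H.fix hU)
  have h2 : Fix A (pw G (Fix A U)) = Fix A U :=
    (Fix_anti le_pw_Fix).antisymm fun x hx k hk => hk x hx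
  have h3 : Inv (pw G (Fix A U)) (univ : Set A) = Inv U univ :=
    eq_of_subset_of_ncard_le (Inv_anti le_pw_Fix) (by
      have e1 := (H _ h1).2.2
      have e2 := (H _ hU).2.2
      rw [h2, ← e2] at e1
      exact e1.ge) (H.fin hU)
  exact (h3.ge (Inv_mono (subset_univ _) hP)).2.1 g hg a b h

theorem Hyp.tau_mem (hU : Opn A U) : Setoid.ker (cl U) ∈ Inv U (univ : Set A) :=
  ⟨H.clsf hU, fun _ hg _ _ h => cl_smul_eq hg h, fun _ _ _ => Or.inr ⟨trivial, trivial⟩⟩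

theorem Hyp.exists_gen (hU : Opn A U) (hW : Opn A W) (ha : a ∉ acl A U) :
    ∃ g ∈ U, g • a ∈ Gen U W := by
  obtain ⟨g, hg, h⟩ := neumann ((H.clf hU a).subset (sdiff_subset (t := acl A U))) (H.aclf hW)
    fun x hx => hx.2
  refine ⟨g, hg, stab_acl.compl g hg a ha, fun x hx hx' => ?_⟩
  by_contra h0
  refine h (g⁻¹ • x) ⟨(smul_mem_cl_iff hg).1 (by simpa), stab_acl.compl _ (U.inv_mem hg) x h0⟩ ?_
  simpa

theorem Hyp.det_gen (hW : Opn A W) (h : W ≤ U) (hY : Stab U Y) (hc : CS U Y)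
    (hs : Y ⊆ (acl A U)ᶜ) : nn U Y ≤ nn W (Y ∩ Gen U W) :=
  nn_le_of_cls h (H.fin hW) ((hY.mono h).inter (stab_gen h)) fun a ha => by
    obtain ⟨g, hg, h1⟩ := H.exists_gen (hW.mono h) hW (hs ha)
    exact ⟨g, hg, fun b hb => ⟨hc _ (hY g hg a ha) b hb, cs_gen _ h1 b hb⟩⟩

theorem Hyp.det (hW : Opn A W) (h : W ≤ U) (hY : Stab U Y) (hc : CS U Y)
    (hs : Y ⊆ (acl A U)ᶜ) : nn U Y ≤ nn W (Y \ acl A W) :=
  (H.det_gen hW h hY hc hs).trans (nn_mono (H.fin hW) fun _ hx => ⟨hx.1, gen_subset hx.2⟩)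

theorem Hyp.NN_mono (hW : Opn A W) (h : W ≤ U) : NN A U ≤ NN A W :=
  (H.det hW h stab_acl.compl (cs_acl le_rfl).compl Subset.rfl).trans
    (nn_mono (H.fin hW) fun _ hx => hx.2)

theorem Hyp.NN_pos (hU : Opn A U) : 0 < NN A U := nn_pos (H.fin hU) _

/-- Splitting off dependent classes. -/
theorem Hyp.sp (hW : Opn A W) (h : W ≤ U) {ι : Type*} (s : Finset ι) (d : ι → A)
    (h1 : ∀ i ∈ s, d i ∉ acl A W) (h2 : ∀ i ∈ s, ∃ x ∈ cl U (d i), x ∈ acl A W ∧ x ∉ acl A U)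
    (hd : (s : Set ι).PairwiseDisjoint fun i => XO U U (d i)) :
    NN A U * ∏ i ∈ s, nn U (XO U U (d i)) ≤ NN A W := by
  have hf := H.fin hW
  have k1 := H.det_gen hW h stab_acl.compl (cs_acl le_rfl).compl Subset.rfl
  have k2 : ∏ i ∈ s, nn U (XO U U (d i)) ≤ nn W (⋃ i ∈ s, XO U W (d i)) :=
    (Finset.prod_le_prod' fun i _ => nn_XO_le le_rfl h hf (stab_XO h) cls_subset_XO).trans
      (prod_nn_le hf s _ fun i hi j hj hij => (hd hi hj hij).mono (XO_mono h) (XO_mono h))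
  refine (Nat.mul_le_mul k1 k2).trans ((nn_mul_le hf ?_).trans (nn_mono hf ?_))
  · refine disjoint_left.2 fun x hx hx' => ?_
    obtain ⟨i, hi, hx'⟩ := mem_iUnion₂.1 hx'
    obtain ⟨y, k3, k4, k5⟩ := h2 i hi
    exact k5 ((XO_subset (stab_gen h) cs_gen hx.2 (XO_symm h hx')).2 y k3 k4)
  · rintro x (hx | hx)
    · exact gen_subset hx.2
    · obtain ⟨i, hi, hx⟩ := mem_iUnion₂.1 hx
      exact XO_subset_compl h (h1 i hi) hx

/-- The budget applies to every invariant union of classes. -/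
theorem Hyp.f1 (hV : Opn A V) (h : V ≤ U) {β : ℕ} (hβ : NN A V ≤ β * NN A U) (hX : Stab U X)
    (hc : CS U X) (hs : X ⊆ (acl A U)ᶜ) : nn V (X \ acl A V) ≤ β * nn U X := by
  have hf := H.fin hV
  have hU := hV.mono h
  have k1 : NN A U = nn U X * nn U ((acl A U)ᶜ \ X) := by
    rw [← nn_union_eq (H.fin hU) hX hc.sat disjoint_sdiff_right, union_sdiff_cancel hs, NN]
  have k2 := H.det hV h (stab_acl.compl.diff hX) ((cs_acl le_rfl).compl.diff hc) sdiff_subset
  have k3 : nn V (X \ acl A V) * nn V (((acl A U)ᶜ \ X) \ acl A V) ≤ NN A V :=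
    (nn_mul_le hf (disjoint_sdiff_right.mono sdiff_subset sdiff_subset)).trans
      (nn_mono hf fun _ hx => hx.elim (·.2) (·.2))
  refine Nat.le_of_mul_le_mul_right ?_ (nn_pos (H.fin hU) ((acl A U)ᶜ \ X))
  calc _ ≤ _ := Nat.mul_le_mul_left _ k2
    _ ≤ _ := k3
    _ ≤ _ := hβ
    _ = _ := by rw [k1, mul_assoc]

end Pool.Agent.P.MP_e517ea_lc
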