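import Pool.Agent.P.MP_e517ea_lc.Stable

/-!
Counting good orbits through the gains caused by merging.
-/

namespace Pool.Agent.P.MP_e517ea_lc

open Set

variable {G A : Type*} [Group G] [MulAction G A]

/-- Large orbits that are not big minimal. -/
def LN (U : Subgroup G) (T : ℕ) (O : Set A) : Prop := O ∈ Orb A U ∧ T < nn U O ∧ ¬ Big U O

/-- Good orbits that merge only with large orbits that are not big minimal. -/
def Bad (U : Subgroup G) (c : A) (T : ℕ) (O : Set A) : Prop :=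
  Good U c T O ∧ (∀ O', Good U c T O' → lab U c O' = lab U c O → O' = O) ∧
    ∃ O', Stb U c O' ∧ LN U T O' ∧ lab U c O' = lab U c O

/-- Unchanged orbits. -/
def Unch (U : Subgroup G) (c : A) (O : Set A) : Prop :=
  lab U c O = O \ cl U c ∧ nn (SS U c) (O \ cl U c) = nn U O

variable {U U' V W : Subgroup G} {a b c d d' e x : A} {g : G} {X S R K O O' Ξ : Set A}
  {J w ka Y T : ℕ}

theorem prod_dvd_NN (hf : FinG A W) {ι : Type*} (s : Finset ι) (f : ι → Set A)
    (h1 : ∀ i ∈ s, Stab W (f i)) (h2 : ∀ i ∈ s, CS W (f i)) (h3 : ∀ i ∈ s, f i ⊆ (acl A W)ᶜ)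
    (hd : (s : Set ι).PairwiseDisjoint f) : ∏ i ∈ s, nn W (f i) ∣ NN A W := by
  rw [(prod_nn_le hf s f hd).antisymm (nn_biUnion_le hf s f h1 fun i hi => (h2 i hi).sat), NN,
    ← union_sdiff_cancel (iUnion₂_subset h3),
    nn_union_eq (X := ⋃ i ∈ s, f i) hf (stab_biUnion h1) (cs_biUnion h2).sat disjoint_sdiff_right]
  exact Dvd.intro _ rfl

theorem stab_lab : Stab (SS U c) (lab U c O) := stab_biUnion fun _ _ => stab_XO le_rfl

theorem cs_lab : CS (SS U c) (lab U c O) := cs_biUnion fun _ _ => cs_XO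

theorem disjoint_SO (h : O ∈ Orb A U) (h' : O' ∈ Orb A U) (hne : O ≠ O') :
    Disjoint (O \ cl U c) (O' \ cl U c) := (Orb.disjoint h h' hne).mono sdiff_subset sdiff_subset

variable (B : Base A U J w)
include B

theorem Base.lab_subset : lab U c O ⊆ (acl A (SS U c))ᶜ :=
  iUnion₂_subset fun _ hd => XO_subset_compl le_rfl (B.acl_SS c ▸ hd.2)

theorem Base.lab_disjoint (h : Stb U c O) (h' : Stb U c O') (hne : lab U c O ≠ lab U c O') :
    Disjoint (lab U c O) (lab U c O') := by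
  obtain ⟨d, -, e⟩ := B.exists_lab h
  obtain ⟨d', -, e'⟩ := B.exists_lab h'
  rw [e, e'] at hne ⊢
  exact XO_disjoint le_rfl hne

theorem Base.prod_det (t : Finset (Set A)) (ht : ∀ O ∈ t, O ∈ Orb A U) :
    ∏ O ∈ t, nn U O ≤ nn (SS U c) (⋃ O ∈ t, O \ cl U c) :=
  (Finset.prod_le_prod' fun O hO => B.det (ht O hO)).trans (prod_nn_le (B.hyp.fin (B.opn.SS c)) t _
    fun O hO O' hO' hne => disjoint_SO (ht O hO) (ht O' hO') hne)

theorem Base.pairs (hT : 0 < T) (n : ℕ) : ∀ t : Finset (Set A), t.card = n →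
    (∀ O ∈ t, Good U c T O ∧ lab U c O = Ξ) → ∃ k, t.card ≤ 2 * k + 1 ∧
      (4 * T ^ 2 + 1) ^ k * ∏ O ∈ t, nn U O ≤
        (4 * T ^ 2) ^ k * nn (SS U c) (⋃ O ∈ t, O \ cl U c) := by
  classical
  induction n using Nat.strong_induction_on with
  | h n ih =>
    intro t hn ht
    by_cases h1 : t.card ≤ 1
    · exact ⟨0, h1, by simpa using B.prod_det t fun O hO => (ht O hO).1.1.1⟩
    obtain ⟨O, hO, O', hO', hne⟩ := Finset.one_lt_card.1 (not_le.1 h1)
    have hO'' : O' ∈ t.erase O := Finset.mem_erase.2 ⟨hne.symm, hO'⟩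
    have c1 := Finset.card_erase_add_one hO
    have c2 := Finset.card_erase_add_one hO''
    have hs : ∀ X ∈ (t.erase O).erase O', X ∈ t := fun X h =>
      Finset.mem_of_mem_erase (Finset.mem_of_mem_erase h)
    obtain ⟨k, k1, k2⟩ := ih _ (by omega) ((t.erase O).erase O') rfl fun X h => ht X (hs X h)
    have k3 := B.gain2 (ht O hO).1 (ht O' hO').1 hT hne ((ht O hO).2.trans (ht O' hO').2.symm)
    have hf := B.hyp.fin (B.opn.SS c)
    have k4 := (nn_mul_le hf (X := (O \ cl U c) ∪ (O' \ cl U c))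
      (X' := ⋃ X ∈ (t.erase O).erase O', X \ cl U c) (disjoint_iUnion₂_right.2 fun X hX =>
        disjoint_union_left.2 ⟨disjoint_SO (ht O hO).1.1.1 (ht X (hs X hX)).1.1.1
          (Finset.ne_of_mem_erase (Finset.mem_of_mem_erase hX)).symm,
          disjoint_SO (ht O' hO').1.1.1 (ht X (hs X hX)).1.1.1
          (Finset.ne_of_mem_erase hX).symm⟩)).trans (nn_mono hf (X' := ⋃ O ∈ t, O \ cl U c)
        (union_subset (union_subset (subset_biUnion_of_mem (u := fun O => O \ cl U c) hO)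
          (subset_biUnion_of_mem (u := fun O => O \ cl U c) hO'))
          (iUnion₂_subset fun X hX => subset_biUnion_of_mem (u := fun O => O \ cl U c) (hs X hX))))
    refine ⟨k + 1, by omega, ?_⟩
    rw [← Finset.mul_prod_erase _ _ hO, ← Finset.mul_prod_erase _ _ hO'']
    calc _ = ((4 * T ^ 2 + 1) * (nn U O * nn U O')) *
          ((4 * T ^ 2 + 1) ^ k * ∏ X ∈ (t.erase O).erase O', nn U X) := by ring
      _ ≤ _ := Nat.mul_le_mul k3 k2
      _ = (4 * T ^ 2) ^ (k + 1) * _ := by ring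
      _ ≤ _ := Nat.mul_le_mul_left _ k4

theorem Base.ext {t t' : Finset (Set A)} (h : t ⊆ t') (ht : ∀ O ∈ t', Stb U c O ∧ lab U c O = Ξ)
    {p q : ℕ} (hk : p * ∏ O ∈ t, nn U O ≤ q * nn (SS U c) (⋃ O ∈ t, O \ cl U c)) :
    p * ∏ O ∈ t', nn U O ≤ q * nn (SS U c) Ξ := by
  classical
  have hf := B.hyp.fin (B.opn.SS c)
  have k1 := B.prod_det (c := c) (t' \ t) fun O hO => (ht O (Finset.mem_sdiff.1 hO).1).1.1
  have k2 := (nn_mul_le hf (X := ⋃ O ∈ t, O \ cl U c) (X' := ⋃ O ∈ t' \ t, O \ cl U c)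
    (disjoint_iUnion₂_right.2 fun X hX => disjoint_iUnion₂_left.2 fun X' hX' =>
      disjoint_SO (ht X' (h hX')).1.1 (ht X (Finset.mem_sdiff.1 hX).1).1.1
        fun e => (Finset.mem_sdiff.1 hX).2 (e ▸ hX'))).trans (nn_mono hf (X' := Ξ) (union_subset
      (iUnion₂_subset fun X hX => (ht X (h hX)).2 ▸ subset_lab)
      (iUnion₂_subset fun X hX => (ht X (Finset.mem_sdiff.1 hX).1).2 ▸ subset_lab)))
  rw [← Finset.prod_sdiff h]
  calc _ = (p * ∏ O ∈ t, nn U O) * ∏ O ∈ t' \ t, nn U O := by ring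
    _ ≤ _ := Nat.mul_le_mul hk k1
    _ = q * _ := by ring
    _ ≤ _ := Nat.mul_le_mul_left _ k2

open Classical in
theorem Base.fiber (hT : 0 < T) (t : Finset (Set A)) (ht : ∀ O, O ∈ t ↔ Stb U c O ∧ lab U c O = Ξ) :
    ∃ e, (4 * T ^ 2 + 1) ^ e * ∏ O ∈ t, nn U O ≤ (4 * T ^ 2) ^ e * nn (SS U c) Ξ ∧
      (t.filter fun O => Good U c T O ∧ ¬ Bad U c T O).card ≤ 3 * e + (t.filter (Unch U c)).card := by
  obtain ⟨k, k1, k2⟩ := B.pairs (Ξ := Ξ) hT _ (t.filter (Good U c T)) rfl fun O hO =>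
    ⟨(Finset.mem_filter.1 hO).2, ((ht O).1 (Finset.mem_filter.1 hO).1).2⟩
  have k3 := B.ext (Finset.filter_subset _ _) (fun O hO => (ht O).1 hO) k2
  have k4 : (t.filter fun O => Good U c T O ∧ ¬ Bad U c T O).card ≤ (t.filter (Good U c T)).card :=
    Finset.card_le_card (Finset.monotone_filter_right _ fun _ _ h => h.1)
  by_cases h1 : 1 < (t.filter (Good U c T)).card
  · exact ⟨k, k3, by omega⟩
  rcases (t.filter fun O => Good U c T O ∧ ¬ Bad U c T O).eq_empty_or_nonempty with h2 | ⟨O, hO⟩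
  · exact ⟨k, k3, by rw [h2]; simp⟩
  obtain ⟨o1, o2, o3⟩ := Finset.mem_filter.1 hO
  obtain ⟨-, rfl⟩ := (ht O).1 o1
  have u1 : ∀ O', Good U c T O' → lab U c O' = lab U c O → O' = O := fun O' h h' =>
    Finset.card_le_one.1 (not_lt.1 h1) _ (Finset.mem_filter.2 ⟨(ht O').2 ⟨h.1, h'⟩, h⟩) _
      (Finset.mem_filter.2 ⟨o1, o2⟩)
  have u2 : t = {O} := Finset.eq_singleton_iff_unique_mem.2 ⟨o1, fun O' h => by
    obtain ⟨h3, h4⟩ := (ht O').1 h
    refine u1 O' ⟨h3, ?_⟩ h4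
    by_contra h5
    push Not at h5
    exact o3 ⟨o2, u1, O', h3, ⟨h3.1, h5⟩, h4⟩⟩
  rcases (lab U c O \ (O \ cl U c)).eq_empty_or_nonempty with h3 | ⟨x, hx⟩
  · have h4 : lab U c O = O \ cl U c := (sdiff_eq_empty.1 h3).antisymm subset_lab
    have h5 := B.det (c := c) o2.1.1
    by_cases h6 : nn (SS U c) (O \ cl U c) = nn U O
    · refine ⟨0, by simpa [u2, h4] using h5, ?_⟩
      have := Finset.card_pos.2 ⟨O, Finset.mem_filter.2 (⟨o1, h4, h6⟩ : O ∈ t ∧ Unch U c O)⟩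
      omega
    · refine ⟨1, ?_, by omega⟩
      have h7 := o2.2.resolve_right fun h => h6 ((B.st5 o2.1 h).antisymm h5)
      rw [u2, h4, Finset.prod_singleton, pow_one, pow_one]
      have : nn U O + 1 ≤ nn (SS U c) (O \ cl U c) := by omega
      nlinarith
  · refine ⟨1, ?_, by omega⟩
    have := B.gain1 o2 hT (stab_lab.diff (stab_SO o2.1.1)) sdiff_subset hx disjoint_sdiff_right
    rw [union_sdiff_cancel subset_lab] at this
    rwa [u2, Finset.prod_singleton, pow_one, pow_one]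

/-- Unchanged orbits are few. -/
theorem Base.unch (hc : 1 ≤ (F0 U c).ncard) (t : Finset (Set A))
    (ht : ∀ O ∈ t, Stb U c O ∧ Unch U c O) :
    2 ^ t.card ≤ ((Fix A U).ncard + (F0 U c).ncard + 1) ^ (F0 U c).ncard := by
  have H := B.hyp
  have hV := B.opn.SS c
  have k1 := prod_dvd_NN (H.fin B.opn) t (fun O => O) (fun O h => Orb.stab (ht O h).1.1)
    (fun O h => Orb.cs (ht O h).1.1) (fun O h => Orb.subset (ht O h).1.1)
    (Orb.disjoint.subset fun O h => (ht O h).1.1)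
  have k2 := prod_dvd_NN (H.fin hV) t (fun O => O \ cl U c) (fun O h => stab_SO (ht O h).1.1)
    (fun O h => (ht O h).2.1 ▸ cs_lab) (fun O h => (ht O h).2.1 ▸ B.lab_subset)
    fun O h O' h' hne => disjoint_SO (ht O h).1.1 (ht O' h').1.1 hne
  rw [Finset.prod_congr rfl fun O h => (ht O h).2.2] at k2
  have k3 : (Fix A (SS U c)).ncard = (Fix A U).ncard + (F0 U c).ncard := by
    rw [add_comm, F0, ncard_sdiff_add_ncard_of_subset (Fix_anti SS_le) (H.fix hV)]
  refine (two_pow_le_prod fun O h => Orb.two_le (ht O h).1.1).trans (le_of_dvd_nseq hc ?_ ?_)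
  · rw [H.nseq_eq B.opn]; exact k1.mul_left _
  · rw [← k3, H.nseq_eq hV]; exact k2.mul_left _

open Classical in
/-- The number of good orbits that are not bad. -/
theorem Base.good_le (hT : 0 < T) {β M : ℕ} (hβ : NN A (SS U c) ≤ β * NN A U)
    (o : Finset (Set A)) (ho : ∀ O, O ∈ o ↔ O ∈ Orb A U)
    (hM : β * ∏ O ∈ o.filter (fun O => ¬ Stb U c O), nn U O ≤ 2 ^ M) :
    (o.filter fun O => Good U c T O ∧ ¬ Bad U c T O).card ≤
      3 * (4 * T ^ 2 * M) + (o.filter fun O => Stb U c O ∧ Unch U c O).card := by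
  have H := B.hyp
  have hf := H.fin (B.opn.SS c)
  set s := o.filter (Stb U c) with hs
  have hs' : ∀ O, O ∈ s ↔ Stb U c O := fun O =>
    Finset.mem_filter.trans ⟨(·.2), fun h => ⟨(ho O).2 h.1, h⟩⟩
  choose e e1 e2 using fun Ξ : Set A => B.fiber (Ξ := Ξ) hT (s.filter fun O => lab U c O = Ξ)
    fun O => by rw [Finset.mem_filter, hs']
  have k1 := Finset.prod_le_prod' fun Ξ (_ : Ξ ∈ s.image (lab U c)) => e1 Ξ
  rw [Finset.prod_mul_distrib, Finset.prod_mul_distrib, Finset.prod_pow_eq_pow_sum,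
    Finset.prod_pow_eq_pow_sum,
    Finset.prod_fiberwise_of_maps_to fun _ h => Finset.mem_image_of_mem _ h] at k1
  have k2 : ∏ Ξ ∈ s.image (lab U c), nn (SS U c) Ξ ≤ NN A (SS U c) := by
    refine (prod_nn_le hf _ (fun Ξ => Ξ) fun Ξ h Ξ' h' hne => ?_).trans
      (nn_mono hf (iUnion₂_subset fun Ξ h => ?_))
    · obtain ⟨O, hO, rfl⟩ := Finset.mem_image.1 h
      obtain ⟨O', hO', rfl⟩ := Finset.mem_image.1 h'
      exact B.lab_disjoint ((hs' O).1 hO) ((hs' O').1 hO') hne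
    · obtain ⟨O, -, rfl⟩ := Finset.mem_image.1 h
      exact B.lab_subset
  have k3 : NN A U ≤ ∏ O ∈ o, nn U O := nn_le_prod (H.fin B.opn) o (fun O h => (ho O).1 h)
    fun a ha h => (ho _).2 ⟨a, ha, rfl, h⟩
  rw [← Finset.prod_filter_mul_prod_filter_not o (Stb U c)] at k3
  have k4 : ∑ Ξ ∈ s.image (lab U c), e Ξ ≤ 4 * T ^ 2 * M := by
    refine le_of_succ_pow_le (by positivity) (Nat.le_of_mul_le_mul_right (c := ∏ O ∈ s, nn U O) ?_
      (Finset.prod_pos fun O _ => nn_pos (H.fin B.opn) O))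
    refine k1.trans ?_
    rw [mul_assoc]
    refine Nat.mul_le_mul_left _ (k2.trans (hβ.trans ((Nat.mul_le_mul_left _ k3).trans ?_)))
    rw [mul_comm (∏ O ∈ o.filter (Stb U c), _), ← mul_assoc]
    exact Nat.mul_le_mul_right _ hM
  have k5 := Finset.sum_le_sum fun Ξ (_ : Ξ ∈ s.image (lab U c)) => e2 Ξ
  have k6 : ∀ (p : Set A → Prop) [DecidablePred p], ∑ Ξ ∈ s.image (lab U c),
      ((s.filter fun O => lab U c O = Ξ).filter p).card = (s.filter p).card := fun p _ => by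
    rw [Finset.card_eq_sum_card_fiberwise (f := lab U c) (s := s.filter p) (t := s.image (lab U c))
      fun O h => Finset.mem_image_of_mem _ (Finset.mem_filter.1 h).1]
    exact Finset.sum_congr rfl fun _ _ => by rw [Finset.filter_comm]
  rw [Finset.sum_add_distrib, ← Finset.mul_sum, k6, k6, hs, Finset.filter_filter,
    Finset.filter_filter] at k5
  refine le_trans (Finset.card_le_card (Finset.monotone_filter_right _ fun _ _ h => ⟨h.1.1, h⟩))
    (k5.trans (Nat.add_le_add_right (Nat.mul_le_mul_left _ k4) _))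

end Pool.Agent.P.MP_e517ea_lc
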