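import Pool.Agent.P.MP_e517ea_lc.Second

/-!
Minimal classes have few new fixed points.
-/

namespace Pool.Agent.P.MP_e517ea_lc

open Set

variable {G A : Type*} [Group G] [MulAction G A]

variable {U U' V W : Subgroup G} {a b c d d' x : A} {g : G} {X S K : Set A} {J w ka Y : ℕ}

/-- Setwise stabiliser inside `U`. -/
def sw (U : Subgroup G) (X : Set A) : Subgroup G where
  carrier := {g | g ∈ U ∧ ∀ x, g • x ∈ X ↔ x ∈ X}
  one_mem' := ⟨U.one_mem, fun _ => by rw [one_smul]⟩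
  mul_mem' := fun {g h} hg hh => ⟨U.mul_mem hg.1 hh.1, fun x => by rw [mul_smul, hg.2, hh.2]⟩
  inv_mem' := fun {g} hg => ⟨U.inv_mem hg.1, fun x => by rw [← hg.2, smul_inv_smul]⟩

theorem smul_mem_acl (h : ∀ k ∈ W, g⁻¹ * k * g ∈ W) (hx : x ∈ acl A W) : g • x ∈ acl A W := by
  refine (Finite.image (g • ·) hx).subset ?_
  rintro _ ⟨k, hk, rfl⟩
  exact ⟨(g⁻¹ * k * g) • x, ⟨_, h k hk, rfl⟩, by simp [mul_smul]⟩

theorem conj_mem_SS (hg : g ∈ U) (e : cl U (g • a) = cl U b) {k : G} (hk : k ∈ SS U b) :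
    g⁻¹ * k * g ∈ SS U a :=
  ⟨U.mul_mem (U.mul_mem (U.inv_mem hg) hk.1) hg, by
    have := cl_smul_eq (U.inv_mem hg) (SS_congr e ▸ hk : k ∈ SS U (g • a)).2
    simpa [mul_smul] using this⟩

theorem Hyp.acl_two (H : Hyp G A) (hU : Opn A U) :
    acl A (SS U a ⊓ SS U b) = cl (SS U a) b :=
  (acl_anti (le_inf inf_le_left ((inf_le_inf_right _ SS_le).trans inf_pw_le_SS))).antisymm
    (cl_subset_acl inf_le_left (acl_anti inf_le_right (acl_SS (H.clf hU b) ▸ mem_cl_self U b)))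

/-- An orbit that splits. -/
theorem nn_split (hV : V ≤ U) (hf : FinG A V) (hd : d ∈ XO U U a) (hd' : d' ∈ XO U U a)
    (h1 : d ∉ acl A V) (h2 : d' ∉ acl A V) (h : d' ∉ XO U V d) :
    nn U (XO U U a) * nn U (XO U U a) ≤ nn V (XO U U a \ acl A V) := by
  have k1 : ∀ y ∈ XO U U a, nn U (XO U U a) ≤ nn V (XO U V y) := fun y hy =>
    XO_eq le_rfl hy ▸ nn_XO_le le_rfl hV hf (stab_XO hV) cls_subset_XO
  have k2 : ∀ y ∈ XO U U a, y ∉ acl A V → XO U V y ⊆ XO U U a \ acl A V := fun y hy hy' =>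
    subset_inter (XO_eq le_rfl hy ▸ XO_mono hV) (XO_subset_compl hV hy')
  exact (Nat.mul_le_mul (k1 d hd) (k1 d' hd')).trans ((nn_mul_le hf (XO_disjoint hV fun e =>
    h (e.symm ▸ mem_XO_self))).trans (nn_mono hf (union_subset (k2 d hd h1) (k2 d' hd' h2))))

theorem Base.lower (B : Base A U J w) (h : Min U a) {t : ℕ} (ht : t ≤ (F0 U a).ncard) :
    t ^ ((F0 U a).ncard - t) ≤ nn U (XO U U a) := by
  have H := B.hyp
  have k1 := nn_cls_le (X := XO U U a) le_rfl (H.fin B.opn) (H.F0f B.opn a) (B.F0_cls h)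
    ((stab_Fix sdiff_subset).mono inf_le_right) (stab_XO le_rfl) ((B.F0_cls h).trans cls_subset_XO)
  rw [inf_eq_right.2 SS_le] at k1
  exact (nn_lower (H.fin (B.opn.SS a)) (H.F0f B.opn a) (fun g hg a ha => ha.1 g hg) ht).trans k1

theorem Base2.lemA (B : Base2 A U J w ka Y) (h1 : 2 * w ^ (2 * (ka + 4)) + 2 ≤ Y) (h2 : w ^ ka < J)
    (ha : Min U a) (hY : (F0 U a).ncard = Y) : False := by
  classical
  have H := B.hyp
  obtain ⟨p1, p2⟩ := B.pos
  have low : w ^ ((ka + 4) * Y) < nn U (XO U U a) := by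
    have k1 := B.lower ha (t := Y / 2) (by omega)
    rw [hY] at k1
    refine lt_of_lt_of_le ?_ k1
    calc _ ≤ (w ^ (2 * (ka + 4))) ^ (Y - Y / 2) := by
          rw [← pow_mul]
          refine Nat.pow_le_pow_right p2 ?_
          rw [mul_comm 2, mul_assoc]
          exact Nat.mul_le_mul_left _ (by omega)
      _ < _ := Nat.pow_lt_pow_left (by omega) (by omega)
  set V := SS U a with hV
  have hVo : Opn A V := B.opn.SS a
  have eV : acl A V = cl U a := B.acl_SS a
  have tr : ∀ d ∈ XO U U a, ∀ d' ∈ XO U U a, d ∉ cl U a → d' ∉ cl U a → d' ∈ XO U V d := by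
    intro d hd d' hd' k1 k2
    by_contra h
    have k3 := nn_split SS_le (H.fin hVo) hd hd' (eV ▸ k1) (eV ▸ k2) h
    rw [eV] at k3
    have k4 := Nat.le_of_mul_le_mul_right (k3.trans (B.f1 ha (stab_XO le_rfl) cs_XO
      (XO_subset_compl le_rfl ha.1))) (nn_pos (H.fin B.opn) _)
    exact absurd (k4.trans (Nat.pow_le_pow_right p2 (by nlinarith))) (not_le.2 low)
  obtain ⟨g, hg, hgen⟩ := H.exists_gen B.opn hVo ha.1
  have hb : g • a ∉ cl U a := eV ▸ gen_subset hgen
  have hbm := ha.smul hg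
  obtain ⟨v, hv, ev⟩ := tr _ (smul_mem_XO hg) _ (smul_mem_XO (U.inv_mem hg)) hb fun h =>
    hb (hbm.2 a (by simpa using smul_mem_cl hg h) ha.1 ▸ mem_cl_self U _)
  set b := g • a with hbdef
  have hs : g * v ∈ U := U.mul_mem hg hv.1
  have s1 : cl U ((g * v) • a) = cl U b := by rw [mul_smul]; exact (cl_smul_eq hg hv.2).symm
  have s2 : cl U ((g * v) • b) = cl U a := by
    rw [mul_smul]; simpa using cl_smul_eq hg ev
  have s3 : cl U ((g * v)⁻¹ • a) = cl U b := by
    simpa only [inv_smul_smul] using (cl_smul_eq (U.inv_mem hs) s2).symm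
  have s4 : cl U ((g * v)⁻¹ • b) = cl U a := by
    simpa only [inv_smul_smul] using (cl_smul_eq (U.inv_mem hs) s1).symm
  set P := sw U (cl V b) with hP
  have hsP : g * v ∈ P := by
    refine ⟨hs, fun x => ?_⟩
    rw [← H.acl_two B.opn]
    refine ⟨fun h => ?_, smul_mem_acl fun k hk => ⟨conj_mem_SS hs s1 hk.2, conj_mem_SS hs s2 hk.1⟩⟩
    simpa only [inv_smul_smul] using smul_mem_acl (W := SS U a ⊓ SS U b) (g := (g * v)⁻¹) (fun k hk =>
      ⟨conj_mem_SS (U.inv_mem hs) s3 hk.2, conj_mem_SS (U.inv_mem hs) s4 hk.1⟩) h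
  have hle : SS V b ≤ P := fun k hk => ⟨hk.1.1, fun x => stab_cl.iff hk⟩
  have hPo : Opn A P := (hVo.SS b).mono hle
  have hPU : P ≤ U := fun _ h => h.1
  have hPs : Stab P (cl V b) := fun k hk x hx => (hk.2 x).2 hx
  have z1 : ∀ z ∈ Fix A P \ Fix A U, z ∉ cl U a := fun z hz h => by
    have e := ha.2 z h (B.closed ▸ hz.2)
    have := cl_smul_eq hs e
    rw [hz.1 _ hsP, s1, ← e] at this
    exact hb (this ▸ mem_cl_self U b)
  have z2 : ∀ z ∈ Fix A P, z ∈ cl V b := fun z hz =>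
    acl_SS (H.clf hVo b) ▸ Fix_subset_acl (Fix_anti hle hz)
  by_cases hz : ∀ z ∈ Fix A P \ Fix A U, b ∈ cl V z
  · have k1 : (Fix A P \ Fix A U).ncard ≤ ka * Y :=
      (ncard_le_ncard (t := Fix A (SS V b) ∩ cls V b) (fun z h => ⟨Fix_anti hle h.1, cl_eq_cl (z2 z h.1) (hz z h)⟩)
        ((H.clsf hVo b).subset inter_subset_right)).trans (B.lemF ha hb)
    have hZ : (Fix A P \ Fix A U).Finite := (H.fix hPo).subset sdiff_subset
    have hF := (H.F0f B.opn a).union hZ
    have k2 := B.budget hPo hPU (k1.trans (le_trans (by nlinarith) B.hYl)) (S := ∅)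
      (fun _ _ _ h => h.elim) (empty_subset _) hF.toFinset (fun z => {y | ∃ k ∈ P, k • z = y})
      (fun z hz => by
        rw [Finite.mem_toFinset] at hz
        refine ⟨⟨z, 1, P.one_mem, one_smul _ _⟩, ?_, ?_⟩
        · rintro k hk _ ⟨k', hk', rfl⟩
          exact ⟨k * k', P.mul_mem hk hk', mul_smul _ _ _⟩
        · rintro _ ⟨k, hk, rfl⟩
          rw [union_empty]
          exact ⟨subset_acl (H.clf hVo b) hPs (hPs k hk z (hz.elim
            (fun h => acl_subset_cl (eV ▸ H.F0_subset B.opn h)) fun h => z2 z h.1)),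
            (stab_Fix Subset.rfl).compl k hk.1 z (hz.elim (·.2) (·.2))⟩)
      (fun x hx y hy hne => disjoint_left.2 (by
        rw [Finset.mem_coe, Finite.mem_toFinset] at hx hy
        rintro _ ⟨k, hk, rfl⟩ ⟨k', hk', e⟩
        have hq := P.mul_mem (P.inv_mem hk') hk
        have e' : (k'⁻¹ * k) • x = y := by rw [mul_smul, ← e, inv_smul_smul]
        rcases hx with hx | hx
        · rcases hy with hy | hy
          · refine hne (e'.symm.trans (hx.1 _ (mem_SS_of hq.1 (B.F0_cls ha hx) ?_))).symm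
            exact e' ▸ B.F0_cls ha hy
          · exact hne ((eq_inv_smul_iff.2 e').trans (hy.1 _ (P.inv_mem hq)))
        · exact hne (e'.symm.trans (hx.1 _ hq)).symm))
    rw [nn_empty, mul_one, ← ncard_eq_toFinset_card _ hF, ncard_union_eq (disjoint_right.2
      fun z h h' => z1 z h (H.F0_subset B.opn h')) (H.F0f B.opn a) hZ, hY] at k2
    have k3 := Nat.le_of_mul_le_mul_right ((Nat.mul_le_mul_left _ (H.NN_mono hPo hPU)).trans k2)
      (H.NN_pos B.opn)
    rw [pow_add, mul_pow] at k3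
    have k4 := (Nat.le_of_mul_le_mul_right k3 (Nat.pow_pos B.J_pos)).trans
      (Nat.pow_le_pow_right p2 k1)
    rw [pow_mul] at k4
    exact absurd k4 (not_le.2 (Nat.pow_lt_pow_left h2 p1.ne'))
  · push Not at hz
    obtain ⟨z, k1, k2⟩ := hz
    have k3 := B.gl' ha hbm hb (Fix_anti ((inf_SS_le SS_le rfl).trans hle) k1.1) (z1 z k1) {()}
      (fun _ => b) (fun _ _ => z2 z k1.1) (fun _ _ => k2) (by simp)
    rw [Finset.prod_singleton] at k3
    have k4 := nn_XO_le (a := b) le_rfl SS_le (H.fin hVo) (stab_XO le_rfl)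
      ((cls_mono SS_le).trans (cls_subset_XO (W := V)))
    rw [XO_eq le_rfl (smul_mem_XO hg)] at k4
    exact absurd (k4.trans k3) (not_le.2 low)

end Pool.Agent.P.MP_e517ea_lc
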