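import Pool.Agent.P.MP_e517ea_lc.Labels

/-!
Large orbits and the lowest big minimal points.
-/

namespace Pool.Agent.P.MP_e517ea_lc

open Set

variable {G A : Type*} [Group G] [MulAction G A]

/-- Lowest big minimal points. -/
def Low (U : Subgroup G) (c b : A) : Prop :=
  BigP U b ∧ b ∉ cl U c ∧ ∀ b', BigP U b' → b' ∉ cl U c → b' ∈ cl (SS U c) b → b ∈ cl (SS U c) b'

variable {U U' V W : Subgroup G} {a b c d d' e x y : A} {g : G} {X S R K O O' Ξ : Set A}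
  {J w ka Y T om : ℕ}

theorem le_of_two_pow (h : w ≤ 2 ^ om) {n m : ℕ} (h' : 2 ^ n ≤ w ^ m) : n ≤ om * m :=
  (Nat.pow_le_pow_iff_right one_lt_two).1 (h'.trans (pow_mul 2 om m ▸ Nat.pow_le_pow_left h _))

theorem Base.F0_pos (B : Base A U J w) (hc : Min U c) : 1 ≤ (F0 U c).ncard := by
  have H := B.hyp
  refine (ncard_pos (H.F0f B.opn c)).2 (nonempty_iff_ne_empty.2 fun h0 => ?_)
  have h1 : Fix A (SS U c) ⊆ Fix A U := sdiff_eq_empty.1 h0
  by_cases h : ∀ x ∈ cls U c, x = c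
  · exact hc.1 (Fix_subset_acl (h1 fun g hg => h _ hg.2))
  push Not at h
  obtain ⟨x, hx, hne⟩ := h
  refine hc.1 ((H.clsf B.opn c).subset ?_)
  rintro _ ⟨g, hg, rfl⟩
  have := H.code (B.opn.SS c) (blk_mem (H.clsf B.opn c) stab_cls) (fun z hz => h1 hz g hg)
    (Or.inr ⟨mem_cls_self U c, hx, trivial⟩ : res ⊤ (cls U c) c x)
  exact (this.resolve_left fun e => hne (MulAction.injective g e).symm).1

theorem Base.big_orb (B : Base A U J w) (h : BigP U b) : XO U U b ∈ Orb A U :=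
  ⟨b, h.1.1, rfl, lt_of_lt_of_le (Nat.one_lt_two_pow (by have := h.2; omega))
    (B.lower h.1 (t := 2) (by have := h.2; omega))⟩

variable (B : Base2 A U J w ka Y) (h65 : 65 ≤ Y ∧ T = (130 * w) ^ 65)
include B h65

theorem Base2.ln_nonmin (h : LN U T O) (hy : y ∈ O) : ¬ Min U y := fun hm => by
  obtain ⟨h65, rfl⟩ := h65
  have h1 : (F0 U y).ncard ≤ 65 := not_lt.1 fun h' => h.2.2 ⟨y, hy, hm, h'⟩
  have h2 := B.lt_min hm (h1.trans (h65.trans B.Yl))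
  rw [Orb.eq h.1 hy] at h2
  have := B.pos.2
  exact absurd (h2.trans ((Nat.pow_le_pow_left (Nat.mul_le_mul_right _ (by omega)) _).trans
    (Nat.pow_le_pow_right (by omega) h1))) (not_le.2 h.2.1)

theorem Base2.ln_big (h : LN U T O) (hy : y ∈ O) (hb : Min U b) (hb' : b ∈ cl U y) :
    BigP U b := by
  refine ⟨hb, not_le.1 fun h1 => ?_⟩
  have h2 := B.lt_nonmin hb h1 (h65.1.trans B.Yl) (B.ln_nonmin h65 h hy) hb'
  obtain ⟨-, rfl⟩ := h65
  rw [Orb.eq h.1 hy] at h2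
  exact absurd (h2.trans (Nat.pow_le_pow_left (by omega) _)) (not_le.2 h.2.1)

theorem Base2.pa (hc : Min U c) (hs : Stb U c O) (h : LN U T O)
    (hy : y ∈ O \ cl U c) :
    ∃ b, BigP U b ∧ b ∉ cl U c ∧ b ∈ cl U y ∧ y ∉ cl (SS U c) b := by
  have H := B.hyp
  by_contra h0
  have h1 : ∀ b, Min U b → b ∈ cl U y → y ∈ cl (SS U c) b := fun b hb hb' => by
    by_contra h2
    exact h0 ⟨b, B.ln_big h65 h hy.1 hb hb', fun h3 =>
      hb.1 ((B.gen hs hy).2 b hb' (B.acl_SS c ▸ h3)), hb', h2⟩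
  obtain ⟨b, hb, hm⟩ := H.exists_min B.opn (Orb.subset h.1 hy.1)
  refine B.ln_nonmin h65 h hy.1 (hm.congr (cl_eq_cl ((H.clf (B.opn.SS c) b).subset ?_) hb))
  rintro _ ⟨g, hg, rfl⟩
  have k1 : g • y ∈ O := Orb.stab h.1 g hg.1 y hy.1
  obtain ⟨v, hv, ev⟩ := B.tr hs hy ⟨k1, fun h2 =>
    B.ln_nonmin h65 h k1 (hc.congr (hc.2 _ h2 (Orb.subset h.1 k1)))⟩
  have k2 : b ∈ cl U (v • y) := by
    have := smul_mem_cl hg.1 hb
    rwa [mem_pw_one.1 hg.2, ← ev] at this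
  have k3 := smul_mem_cl hv (h1 _ (hm.smul (U.inv_mem hv.1))
    ((smul_mem_cl_iff hv.1).1 (by rwa [smul_inv_smul])))
  rw [smul_inv_smul] at k3
  exact cl_subset SS_le k3 (mem_cl_of_eq ev)

theorem Base2.bad_nonlow (hc : Min U c) (h : Bad U c T O) (hd : d ∈ O \ cl U c) :
    ∃ b, BigP U b ∧ b ∉ cl U c ∧ b ∈ cl (SS U c) d ∧ d ∉ cl (SS U c) b := by
  obtain ⟨-, -, O', h1, h2, h3⟩ := h
  obtain ⟨y, hy, e⟩ := B.exists_lab h1
  obtain ⟨v, hv, ev⟩ : d ∈ XO (SS U c) (SS U c) y := e ▸ h3 ▸ subset_lab hd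
  obtain ⟨b, k1, k2, k3, k4⟩ := B.pa h65 hc h1 h2 (stab_SO h1.1 v hv y hy)
  exact ⟨b, k1, k2, ev ▸ cl_mono SS_le k3, fun h => k4 (cl_subset le_rfl h (mem_cl_of_eq ev.symm))⟩

theorem Base2.exists_low (hc : Min U c) (h : Bad U c T O) (hd : d ∈ O \ cl U c) :
    ∃ b, Low U c b ∧ b ∈ cl (SS U c) d ∧ d ∉ cl (SS U c) b := by
  have hf := B.hyp.clf (B.opn.SS c)
  obtain ⟨b0, k1, k2, k3, k4⟩ := B.bad_nonlow h65 hc h hd
  obtain ⟨b, ⟨m1, m2, m3⟩, m4⟩ := exists_min_image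
    {b | BigP U b ∧ b ∉ cl U c ∧ b ∈ cl (SS U c) d} (fun b => (cl (SS U c) b).ncard)
    ((hf d).subset fun _ h => h.2.2) ⟨b0, k1, k2, k3⟩
  have key : ∀ b', BigP U b' → b' ∉ cl U c → b' ∈ cl (SS U c) b → cl (SS U c) b' = cl (SS U c) b :=
    fun b' h1 h2 h3 => eq_of_subset_of_ncard_le (cl_subset le_rfl h3)
      (m4 b' ⟨h1, h2, cl_subset le_rfl m3 h3⟩) (hf b)
  exact ⟨b, ⟨m1, m2, fun b' h1 h2 h3 => key b' h1 h2 h3 ▸ mem_cl_self _ b⟩, m3, fun h =>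
    k4 (key b0 k1 k2 (cl_subset le_rfl h k3) ▸ h)⟩

omit h65 in
/-- Bad orbits above one big minimal point. -/
theorem Base2.bad_above (hc : Min U c) (hw : w ≤ 2 ^ om) (hb : BigP U b) (hb' : b ∉ cl U c)
    (t : Finset (Set A)) (ht : ∀ O ∈ t, Bad U c T O ∧
      ∃ d ∈ O \ cl U c, b ∈ cl (SS U c) d ∧ d ∉ cl (SS U c) b) :
    t.card ≤ om * ((ka + 4) * Y) := by
  have h1 : ∀ O : Set A, ∃ d, O ∈ t → d ∈ O \ cl U c ∧ b ∈ cl (SS U c) d ∧ d ∉ cl (SS U c) b :=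
    fun O => by
      by_cases h : O ∈ t
      · exact (ht O h).2.imp fun _ h _ => h
      · exact ⟨b, fun h' => (h h').elim⟩
  choose d hd using h1
  obtain ⟨x, hx⟩ := hb.nonempty
  have ex : cl U b = cl U x := B.F0_cls hb.1 hx
  have ex' : cl (SS U c) b = cl (SS U c) x := cl_eq_mono SS_le ex
  have el : ∀ O ∈ t, XO (SS U c) (SS U c) (d O) = lab U c O := fun O h =>
    (B.lab_eq (ht O h).1.1.1 (hd O h).1).symm
  have := B.gl' hc hb.1 hb' (Fix_anti inf_le_right hx.1)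
    (fun h => hb' (cl_subset le_rfl h (mem_cl_of_eq ex.symm))) t d
    (fun O h => cl_subset le_rfl (hd O h).2.1 (mem_cl_of_eq ex')) (fun O h => ex' ▸ (hd O h).2.2)
    fun O h O' h' hne => by
      rw [Function.onFun, el O h, el O' h']
      exact B.lab_disjoint (ht O h).1.1.1 (ht O' h').1.1.1 fun e =>
        hne ((ht O' h').1.2.1 O (ht O h).1.1 e)
  refine le_of_two_pow hw ((two_pow_le_prod fun O h => ?_).trans this)
  rw [el O h]
  exact (Orb.two_le (ht O h).1.1.1.1).trans ((B.det (ht O h).1.1.1.1).trans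
    (nn_mono (B.hyp.fin (B.opn.SS c)) subset_lab))

open Classical in
/-- Large orbits that are not big minimal lie above big minimal orbits. -/
theorem Base2.ln_le (hw : w ≤ 2 ^ om) (o : Finset (Set A)) (ho : ∀ O, O ∈ o ↔ O ∈ Orb A U) :
    (o.filter (LN U T)).card ≤ om * Y * (o.filter (Big U)).card := by
  have H := B.hyp
  rcases (o.filter (LN U T)).eq_empty_or_nonempty with h0 | ⟨O0, h0⟩
  · rw [h0]; simp
  obtain ⟨a0, -⟩ := (Finset.mem_filter.1 h0).2.1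
  have h1 : ∀ O : Set A, ∃ b, LN U T O → BigP U b ∧ ∃ y ∈ O, b ∈ cl U y := fun O => by
    by_cases h : LN U T O
    · obtain ⟨y, hy, e, -⟩ := h.1
      have hy' : y ∈ O := e ▸ mem_XO_self
      obtain ⟨b, hb, hm⟩ := H.exists_min B.opn hy
      exact ⟨b, fun _ => ⟨B.ln_big h65 h hy' hm hb, y, hy', hb⟩⟩
    · exact ⟨a0, fun h' => (h h').elim⟩
  choose b hb using h1
  refine Finset.card_le_mul_card_image_of_maps_to (f := fun O => XO U U (b O)) (fun O h => ?_) _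
    fun Ob hOb => ?_
  · have := (hb O (Finset.mem_filter.1 h).2).1
    exact Finset.mem_filter.2 ⟨(ho _).2 (B.big_orb this), _, mem_XO_self, this⟩
  obtain ⟨b0, k1, k2⟩ := (Finset.mem_filter.1 hOb).2
  set t := (o.filter (LN U T)).filter fun O => XO U U (b O) = Ob with ht
  have h2 : ∀ O ∈ t, LN U T O := fun O h =>
    (Finset.mem_filter.1 (Finset.mem_filter.1 h).1).2
  have h3 : ∀ O : Set A, ∃ y, O ∈ t → y ∈ O ∧ b0 ∈ cl U y := fun O => by
    by_cases h : O ∈ t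
    · obtain ⟨-, y, hy, hy'⟩ := hb O (h2 O h)
      obtain ⟨g, hg, e⟩ : b0 ∈ XO U U (b O) := (Finset.mem_filter.1 h).2 ▸ k1
      exact ⟨g • y, fun _ => ⟨Orb.stab (h2 O h).1 g hg y hy,
        cl_subset le_rfl (smul_mem_cl hg hy') (mem_cl_of_eq e)⟩⟩
    · exact ⟨a0, fun h' => (h h').elim⟩
  choose y hy using h3
  have el : ∀ O ∈ t, XO U U (y O) = O := fun O h => Orb.eq (h2 O h).1 (hy O h).1
  have := B.lt_above k2.1 (B.hY b0 k2.1) B.Yl t y (fun O h h' => B.ln_nonmin h65 (h2 O h) (hy O h).1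
    (k2.1.congr (cl_eq_cl h' (hy O h).2))) (fun O h => (hy O h).2) fun O h O' h' hne => by
      rw [Function.onFun, el O h, el O' h']
      exact Orb.disjoint (h2 O h).1 (h2 O' h').1 hne
  refine le_of_two_pow hw ((two_pow_le_prod fun O h => ?_).trans this)
  rw [el O h]
  exact Orb.two_le (h2 O h).1

end Pool.Agent.P.MP_e517ea_lc
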