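import Pool.Agent.P.MP_e517ea_lc.ModelA

/-!
The countable homogeneous submodel and its automorphism group.
-/

namespace Pool.Agent.P.MP_e517ea_lc

open Set

namespace Mdl

variable {A : Type} [Inhabited A] {D : Set (List A → Prop)} {E : List A → A → A → Prop}
  {l l' m k k' t t' : List A} {x x' : A}

theorem Eqv.drop_mid (hD : Closed D E) {u u' : List A} (h : Eqv D (t ++ (t' ++ k)) (u ++ (u' ++ k')))
    (h1 : t.length = u.length) (h2 : t'.length = u'.length) : Eqv D (t ++ k) (u ++ k') :=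
  h.of_zip hD (by simpa [h1, h2] using h.1) (by simp [List.zip_append h1, List.zip_append h2])

theorem Eqv.pick (hD : Closed D E) {u u' : List A} (h : Eqv D (t ++ (t' ++ k)) (u ++ (u' ++ k')))
    (h1 : t.length = u.length) (h2 : t'.length = u'.length) (h3 : (x, x') ∈ t'.zip u') :
    Eqv D (x :: t) (x' :: u) :=
  h.of_zip hD (by simp [h1]) (by simp [List.zip_append h1, List.zip_append h2, h3])

/-- `l` is built over `k` by steps -/
def Chain (D : Set (List A → Prop)) (E : List A → A → A → Prop) (k : List A) : List A → Prop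
  | [] => True
  | x :: l => Step D E (l ++ k) x ∧ Chain D E k l

/-- reachable elements -/
def Rch (D : Set (List A → Prop)) (E : List A → A → A → Prop) (x : A) : Prop :=
  ∃ l, Chain D E [] l ∧ x ∈ l

theorem Chain.mono (hD : Closed D E) (h : Chain D E k l) (hk : k ⊆ k') : Chain D E k' l := by
  induction l with
  | nil => trivial
  | cons x l ih =>
    exact ⟨h.1.mono hD (List.append_subset.2 ⟨List.subset_append_left _ _,
      List.subset_append_of_subset_right _ hk⟩), ih h.2⟩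

omit [Inhabited A] in
theorem Chain.append (h : Chain D E (m ++ k) l) (j : Chain D E k m) : Chain D E k (l ++ m) := by
  induction l with
  | nil => exact j
  | cons x l ih => exact ⟨by simpa using h.1, ih h.2⟩

theorem exists_chain (hD : Closed D E) (h : ∀ x ∈ t, Rch D E x) : ∃ l, Chain D E [] l ∧ t ⊆ l := by
  induction t with
  | nil => exact ⟨[], trivial, by simp⟩
  | cons x t ih =>
    obtain ⟨l, l1, l2⟩ := ih fun y hy => h y (List.mem_cons_of_mem _ hy)
    obtain ⟨m, m1, m2⟩ := h x List.mem_cons_self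
    exact ⟨m ++ l, (m1.mono hD (by simp)).append l1, List.cons_subset.2
      ⟨List.mem_append_left _ m2, List.subset_append_of_subset_right _ l2⟩⟩

theorem Step.rch (hD : Closed D E) (h : Step D E k x) (hk : ∀ y ∈ k, Rch D E y) : Rch D E x := by
  obtain ⟨l, l1, l2⟩ := exists_chain hD hk
  exact ⟨x :: l, ⟨h.mono hD (by simpa using l2), l1⟩, List.mem_cons_self⟩

theorem Chain.transfer (hD : Closed D E) (h : Chain D E k l) (hl : l.length = l'.length)
    (e : Eqv D (l ++ k) (l' ++ k')) : Chain D E k' l' := by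
  induction l generalizing l' with
  | nil => cases l' with
    | nil => trivial
    | cons _ _ => simp at hl
  | cons x l ih => cases l' with
    | nil => simp at hl
    | cons x' l' => exact ⟨h.1.transfer hD e, ih h.2 (by simpa using hl) (Eqv.tail hD e)⟩

theorem Hyp.extend_chain (h : Hyp D E) (c : Chain D E k l) (e : Eqv D k k') :
    ∃ l', l.length = l'.length ∧ Eqv D (l ++ k) (l' ++ k') := by
  induction l with
  | nil => exact ⟨[], rfl, e⟩
  | cons x l ih =>
    obtain ⟨l', h1, h2⟩ := ih c.2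
    obtain ⟨x', h3⟩ := h.extend c.1 h2
    exact ⟨x' :: l', by simp [h1], h3⟩

theorem Hyp.rch (h : Hyp D E) (e : Eqv D [x] [x']) (hx : Rch D E x) : Rch D E x' := by
  obtain ⟨l, l1, l2⟩ := hx
  obtain ⟨l', h1, h2⟩ := h.extend_chain (l1.mono h.cl (List.nil_subset _)) e
  refine ⟨l', l1.transfer h.cl h1 (by simpa using h2.left h.cl h1), Eqv.mem h.cl (x := x) ?_ l2⟩
  exact h2.of_zip h.cl (by simp [h1]) (by simp [List.zip_append h1])

theorem Hyp.rch_list (h : Hyp D E) (e : Eqv D t t') (hx : ∀ x ∈ t, Rch D E x) :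
    ∀ x ∈ t', Rch D E x := by
  induction t generalizing t' with
  | nil => obtain rfl := List.length_eq_zero_iff.1 e.1.symm; simp
  | cons y t ih => cases t' with
    | nil => simp
    | cons y' t' =>
      exact List.forall_mem_cons.2 ⟨h.rch (e.of_zip h.cl (m := [y]) rfl (by simp))
        (hx y List.mem_cons_self),
        ih (e.tail h.cl) fun x hx' => hx x (List.mem_cons_of_mem _ hx')⟩

theorem Hyp.isolate_chain (h : Hyp D E) (c : Chain D E k l) : ∃ p ∈ D, p (l ++ k) ∧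
    ∀ l', l.length = l'.length → p (l' ++ k) → Eqv D (l ++ k) (l' ++ k) := by
  induction l with
  | nil =>
    obtain ⟨p, hp, h1⟩ := Df.true h.cl (env := fun _ : Unit => k)
    refine ⟨p, hp, (h1 ()).2 trivial, fun l' hl _ => ?_⟩
    obtain rfl := List.length_eq_zero_iff.1 hl.symm
    exact Eqv.refl _
  | cons x l ih =>
    obtain ⟨p, hp, h1, h2⟩ := ih c.2
    obtain ⟨q, hq, h3, h4⟩ := h.isolate c.1
    obtain ⟨r, hr, h5⟩ := (Df.atom h.cl hq (Lm.t0.cons Lm.self.up)).and h.cl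
      (Df.atom h.cl hp (Lm.self (n := (l ++ k).length)).up)
    refine ⟨r, hr, (h5 (x, ⟨_, rfl⟩)).2 ⟨h3, h1⟩, fun l' hl j => ?_⟩
    cases l' with
    | nil => simp at hl
    | cons x' l' =>
      have hl' : l.length = l'.length := by simpa using hl
      obtain ⟨a, b⟩ := (h5 (x', ⟨l' ++ k, by simp [hl']⟩)).1 j
      exact iso_transfer h.cl hq h4 (h2 l' hl' b) a

theorem Hyp.isolate_tuple (h : Hyp D E) (ht : ∀ x ∈ t, Rch D E x) (k : List A) :
    ∃ p ∈ D, ∀ t', t.length = t'.length → (p (t' ++ k) ↔ Eqv D (t ++ k) (t' ++ k)) := by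
  have hD := h.cl
  obtain ⟨l, l1, l2⟩ := exists_chain hD ht
  obtain ⟨p, hp, h1, h2⟩ := h.isolate_chain (l1.mono hD (List.nil_subset k))
  obtain ⟨r, r1, r2⟩ := exists_idx (A := A) l2
  have r3 : t = r.map fun i => l.getD i default := by simpa using r2 id
  have hk : Lm (fun _ : Unit => k) fun _ => k := Lm.const fun _ h => h
  obtain ⟨q, hq, h3⟩ := ((Df.atom hD hp (Lm.vec.append hk.vup.vup)).and hD
    (Df.leq hD (Lm.vec (n := t.length)).vup
      (Lm.vec.sub (n := l.length) (fun γ => γ.1.2) r1))).exN hD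
  refine ⟨q, hq, fun t' hl => ⟨fun j => ?_, fun e =>
    (e.2 q hq).1 ((h3 (⟨t, rfl⟩, ())).2 ⟨⟨l, rfl⟩, h1, r3⟩)⟩⟩
  obtain ⟨⟨l', hl'⟩, a, b⟩ := (h3 (⟨t', hl.symm⟩, ())).1 j
  refine (h2 l' hl'.symm a).of_zip hD (by simp [hl]) ?_
  rw [List.zip_append hl, List.zip_append hl'.symm]
  refine List.append_subset.2 ⟨List.subset_append_of_subset_left _ ?_,
    List.subset_append_right _ _⟩
  dsimp only at b
  rw [r3, b, List.zip_map']
  intro z hz
  obtain ⟨i, hi, rfl⟩ := List.mem_map.1 hz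
  have i1 := r1 i hi
  have i2 : i < l'.length := hl' ▸ i1
  exact List.mem_iff_getElem.2 ⟨i, by simp [i1, i2], by simp [i1, i2]⟩

/-- a countable set of reachable elements with witnesses for all steps -/
structure Good (D : Set (List A → Prop)) (E : List A → A → A → Prop) (B : Set A) : Prop where
  cnt : B.Countable
  rch : ∀ x ∈ B, Rch D E x
  wit : ∀ k : List A, (∀ a ∈ k, a ∈ B) → ∀ p ∈ D, (∃ y, Step D E k y ∧ p (y :: k)) →
    ∃ x ∈ B, p (x :: k)

theorem exists_good (hD : Closed D E) (hc : D.Countable) : ∃ B, Good D E B := by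
  classical
  choose! w w1 w2 using fun (k : List A) (p : List A → Prop)
    (h : ∃ y, Step D E k y ∧ p (y :: k)) => h
  obtain ⟨S, S0, S1⟩ : ∃ S : ℕ → Set A, S 0 = ∅ ∧ ∀ n, S (n + 1) = S n ∪ {x | ∃ k : List A,
      (∀ a ∈ k, a ∈ S n) ∧ ∃ p ∈ D, (∃ y, Step D E k y ∧ p (y :: k)) ∧ x = w k p} :=
    ⟨fun n => Nat.rec ∅ (fun _ T => T ∪ {x | ∃ k : List A, (∀ a ∈ k, a ∈ T) ∧
      ∃ p ∈ D, (∃ y, Step D E k y ∧ p (y :: k)) ∧ x = w k p}) n, rfl, fun _ => rfl⟩
  have mono : Monotone S := monotone_nat_of_le_succ fun n => S1 n ▸ subset_union_left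
  refine ⟨⋃ n, S n, countable_iUnion fun n => ?_, fun x hx => ?_, fun k hk p hp h => ?_⟩
  · induction n with
    | zero => exact S0 ▸ countable_empty
    | succ n ih =>
      have i1 : Countable {x // x ∈ S n} := Set.Countable.to_subtype ih
      have i2 : Countable {p // p ∈ D} := hc.to_subtype
      have i3 : Countable (List {x // x ∈ S n} × {p // p ∈ D}) := inferInstance
      rw [S1]
      refine ih.union ((countable_range fun u : List {x // x ∈ S n} × {p // p ∈ D} =>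
        w (List.map Subtype.val u.1) u.2.1).mono ?_)
      rintro _ ⟨k, hk, p, hp, -, rfl⟩
      lift k to List {x // x ∈ S n} using hk
      exact ⟨(k, ⟨p, hp⟩), rfl⟩
  · obtain ⟨n, hn⟩ := mem_iUnion.1 hx
    clear hx
    induction n generalizing x with
    | zero => exact (S0 ▸ hn : x ∈ (∅ : Set A)).elim
    | succ n ih =>
      rw [S1] at hn
      rcases hn with hn | ⟨k, hk, p, -, h, rfl⟩
      · exact ih x hn
      · exact (w1 k p h).rch hD fun y hy => ih y (hk y hy)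
  · obtain ⟨n, hn⟩ : ∃ n, ∀ a ∈ k, a ∈ S n := by
      clear h
      induction k with
      | nil => exact ⟨0, by simp⟩
      | cons a k ih =>
        obtain ⟨n, hn⟩ := ih fun b hb => hk b (List.mem_cons_of_mem _ hb)
        obtain ⟨j, hj⟩ := mem_iUnion.1 (hk a List.mem_cons_self)
        exact ⟨max n j, List.forall_mem_cons.2 ⟨mono (le_max_right _ _) hj,
          fun b hb => mono (le_max_left _ _) (hn b hb)⟩⟩
    exact ⟨w k p, mem_iUnion.2 ⟨n + 1, S1 n ▸ Or.inr ⟨k, hn, p, hp, h, rfl⟩⟩, w2 k p h⟩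

variable {B : Set A}

omit [Inhabited A] in
theorem map_mem {ι : Type} (f : ι → B) (L : List ι) : ∀ a ∈ L.map fun u => (f u).1, a ∈ B :=
  List.forall_mem_map.2 fun u _ => (f u).2

omit [Inhabited A] in
theorem Good.dcl (g : Good D E B) (hk : ∀ a ∈ k, a ∈ B) (hx : x ∈ dcl D k) : x ∈ B := by
  obtain ⟨p, hp, h1, h2⟩ := id hx
  obtain ⟨y, y1, y2⟩ := g.wit k hk p hp ⟨x, Or.inl hx, h1⟩
  exact h2 y y2 ▸ y1

theorem Good.ext_chain (g : Good D E B) (h : Hyp D E) (c : Chain D E k l) (e : Eqv D k k')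
    (hk : ∀ a ∈ k', a ∈ B) :
    ∃ l', (∀ a ∈ l', a ∈ B) ∧ l.length = l'.length ∧ Eqv D (l ++ k) (l' ++ k') := by
  induction l with
  | nil => exact ⟨[], by simp, rfl, e⟩
  | cons x l ih =>
    obtain ⟨l', h0, h1, h2⟩ := ih c.2
    obtain ⟨p, hp, h3, h4⟩ := h.isolate c.1
    obtain ⟨y, h5⟩ := h.extend c.1 h2
    obtain ⟨z, z1, z2⟩ := g.wit (l' ++ k') (List.forall_mem_append.2 ⟨h0, hk⟩) p hp
      ⟨y, c.1.transfer h.cl h5, (h5.2 p hp).1 h3⟩
    exact ⟨z :: l', List.forall_mem_cons.2 ⟨z1, h0⟩, by simp [h1],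
      iso_transfer h.cl hp h4 h2 z2⟩

theorem Good.ext (g : Good D E B) (h : Hyp D E) (ht : ∀ x ∈ t, Rch D E x) (e : Eqv D k k')
    (hk : ∀ a ∈ k', a ∈ B) :
    ∃ t' : List B, t.length = t'.length ∧ Eqv D (t ++ k) (t'.map Subtype.val ++ k') := by
  obtain ⟨l, l1, l2⟩ := exists_chain h.cl ht
  obtain ⟨l', h0, h1, h2⟩ := g.ext_chain h (l1.mono h.cl (List.nil_subset k)) e hk
  obtain ⟨t', a1, a2, a3⟩ := exists_zip h1 l2
  lift t' to List B using fun a ha => h0 a (a3 ha)
  refine ⟨t', by simpa using a1, h2.of_zip h.cl (by simp [a1, e.1]) ?_⟩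
  rw [List.zip_append a1, List.zip_append h1]
  exact List.append_subset.2 ⟨List.subset_append_of_subset_left _ a2, List.subset_append_right _ _⟩

theorem Good.ext1 (g : Good D E B) (h : Hyp D E) (x : B) (e : Eqv D k k') (hk : ∀ a ∈ k', a ∈ B) :
    ∃ y : B, Eqv D (x.1 :: k) (y.1 :: k') := by
  obtain ⟨t', h1, h2⟩ := g.ext h (t := [x.1]) (by simpa using g.rch x x.2) e hk
  obtain ⟨y, rfl⟩ := List.length_eq_one_iff.1 h1.symm
  exact ⟨y, h2⟩

/-- elementary permutations of `B` -/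
def Aut (D : Set (List A → Prop)) (B : Set A) : Subgroup (Equiv.Perm B) where
  carrier := {g | ∀ l : List B, Eqv D (l.map Subtype.val) ((l.map g).map Subtype.val)}
  one_mem' l := by simpa using Eqv.refl _
  mul_mem' {g f} hg hf l := by
    have := (hf l).trans (hg (l.map f))
    rwa [List.map_map (g := g)] at this
  inv_mem' {g} hg l := by
    have := (hg (l.map (g⁻¹ : Equiv.Perm B))).symm
    rwa [List.map_map (g := g), show g ∘ (g⁻¹ : Equiv.Perm B) = id by ext; simp, List.map_id] at this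

theorem Good.exists_aut (g : Good D E B) (h : Hyp D E) {k k' : List B}
    (e : Eqv D (k.map Subtype.val) (k'.map Subtype.val)) (hB : Nonempty B) :
    ∃ σ ∈ Aut D B, k.map σ = k' := by
  have hD := h.cl
  have := g.cnt.to_subtype
  obtain ⟨en, hen⟩ := exists_surjective_nat B
  have hl : k.length = k'.length := by simpa using e.1
  let PI := fun L : List (B × B) => Eqv D (L.map fun u => u.1.1) (L.map fun u => u.2.1)
  have step : ∀ (n : ℕ) (L : {L // PI L}), ∃ M : {L // PI L}, L.1 ⊆ M.1 ∧ (∃ v, (en n, v) ∈ M.1) ∧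
      ∃ u, (u, en n) ∈ M.1 := by
    intro n L
    obtain ⟨v, hv⟩ := g.ext1 h (en n) L.2 (map_mem Prod.snd _)
    obtain ⟨u, hu⟩ := g.ext1 h (en n) hv.symm
      (List.forall_mem_cons.2 ⟨(en n).2, map_mem Prod.fst _⟩)
    exact ⟨⟨(u, en n) :: (en n, v) :: L.1, hu.symm⟩, by simp, ⟨v, by simp⟩, u, by simp⟩
  choose nx n1 n2 n3 using step
  have p0 : PI (k.zip k') := by
    have a : (k.zip k').map (fun u => u.1.1) = k.map Subtype.val := by
      rw [← List.map_fst_zip (l₁ := k) (l₂ := k') hl.le, List.map_map, List.map_fst_zip hl.le]; rfl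
    have b : (k.zip k').map (fun u => u.2.1) = k'.map Subtype.val := by
      rw [← List.map_snd_zip (l₁ := k) (l₂ := k') hl.ge, List.map_map, List.map_snd_zip hl.ge]; rfl
    simp only [PI, a, b, e]
  let L : ℕ → {L // PI L} := fun n => Nat.rec ⟨_, p0⟩ nx n
  have mono : ∀ {i j}, i ≤ j → (L i).1 ⊆ (L j).1 := fun hij => by
    induction hij with
    | refl => exact fun _ h => h
    | step _ ih => exact List.Subset.trans ih (n1 _ _)
  have key : ∀ M : List (B × B), (∀ u ∈ M, ∃ n, u ∈ (L n).1) → PI M := by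
    intro M hM
    obtain ⟨n, hn⟩ : ∃ n, M ⊆ (L n).1 := by
      induction M with
      | nil => exact ⟨0, by simp⟩
      | cons a M ih =>
        obtain ⟨n, hn⟩ := ih fun b hb => hM b (List.mem_cons_of_mem _ hb)
        obtain ⟨j, hj⟩ := hM a List.mem_cons_self
        exact ⟨max n j, List.cons_subset.2 ⟨mono (le_max_right _ _) hj,
          List.Subset.trans hn (mono (le_max_left _ _))⟩⟩
    exact Eqv.sub hD (L n).2 hn
  have uniq : ∀ u v : B × B, (∃ n, u ∈ (L n).1) → (∃ n, v ∈ (L n).1) → (u.1 = v.1 ↔ u.2 = v.2) :=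
    fun u v hu hv => by
      rw [Subtype.ext_iff, Subtype.ext_iff]
      exact (key [u, v] (by simp [hu, hv])).2 _ hD.eq
  choose f hf using fun a : B => show ∃ v n, (a, v) ∈ (L n).1 by
    obtain ⟨n, rfl⟩ := hen a
    obtain ⟨v, hv⟩ := n2 n (L n)
    exact ⟨v, n + 1, hv⟩
  refine ⟨Equiv.ofBijective f ⟨fun a b e => (uniq _ _ (hf a) (hf b)).2 e, fun b => ?_⟩,
    fun l => ?_, ?_⟩
  · obtain ⟨n, rfl⟩ := hen b
    obtain ⟨u, hu⟩ := n3 n (L n)
    exact ⟨u, (uniq _ (u, en n) (hf u) ⟨n + 1, hu⟩).1 rfl⟩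
  · simpa [PI, Function.comp_def] using key (l.map fun a => (a, f a)) 
      (List.forall_mem_map.2 fun a _ => hf a)
  · refine List.ext_getElem (by simpa using hl) fun i h1 h2 => ?_
    rw [List.getElem_map]
    refine (uniq _ (k[i]'(hl ▸ h2), k'[i]) (hf _) ⟨0, ?_⟩).1 rfl
    rw [← List.getElem_zip (h := by simp [hl, h2])]
    exact List.getElem_mem _

theorem Good.exists_aut_fix (g : Good D E B) (h : Hyp D E) {t u k : List B}
    (e : Eqv D (t.map Subtype.val ++ k.map Subtype.val) (u.map Subtype.val ++ k.map Subtype.val))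
    (hB : Nonempty B) : ∃ σ : Aut D B, (∀ a ∈ k, σ • a = a) ∧ t.map (σ • ·) = u := by
  rw [← List.map_append, ← List.map_append] at e
  obtain ⟨σ, h1, h2⟩ := g.exists_aut h e hB
  rw [List.map_append] at h2
  obtain ⟨h3, h4⟩ := List.append_inj' h2 (by simp)
  exact ⟨⟨σ, h1⟩, List.map_inj_left.1 (h4.trans (List.map_id k).symm), h3⟩

theorem Good.fixfin (g : Good D E B) (h : Hyp D E) (k : List B) :
    {x : B | ∀ σ : Aut D B, (∀ a ∈ k, σ • a = a) → σ • x = x}.Finite := by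
  have hD := h.cl
  refine ((h.fin (k.map Subtype.val)).preimage Subtype.val_injective.injOn).subset fun x hx => ?_
  obtain ⟨p, hp, e⟩ := h.isolate_tuple (t := [x.1]) (by simpa using g.rch x x.2) (k.map Subtype.val)
  have key : ∀ y : B, Eqv D (x.1 :: k.map Subtype.val) (y.1 :: k.map Subtype.val) → y = x :=
    fun y hy => by
      obtain ⟨σ, s1, s2⟩ := g.exists_aut_fix h (t := [x]) (u := [y]) hy ⟨x⟩
      simpa [hx σ s1, eq_comm] using s2
  refine ⟨p, hp, (e [x.1] rfl).2 (Eqv.refl _), fun z hz => ?_⟩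
  have e1 := (e [z] rfl).1 hz
  obtain ⟨t', t1, t2⟩ := g.ext h (t := [z, x.1]) (by
    simpa using ⟨h.rch (e1.left hD rfl) (g.rch x x.2), g.rch x x.2⟩) (Eqv.refl (k.map Subtype.val))
    (map_mem id k)
  obtain ⟨z', x', rfl⟩ := List.length_eq_two.1 t1.symm
  obtain rfl := key x' (Eqv.tail hD t2)
  obtain rfl := key z' (e1.trans (t2.of_zip hD rfl (by simp)))
  exact (t2.eq hD (x' := z'.1) (y' := z'.1) (by simp) (by simp)).2 rfl

theorem Good.inj (g : Good D E B) (h : Hyp D E) {s t : List B} (hs : (s.map Subtype.val).Nodup)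
    (ht : (t.map Subtype.val).Nodup)
    (e : ∀ a b : B, E (s.map Subtype.val) a b → E (t.map Subtype.val) a b) (a b : A)
    (hab : E (s.map Subtype.val) a b) : E (t.map Subtype.val) a b := by
  have hD := h.cl
  by_cases e0 : a = b
  · exact e0 ▸ (h.eqv _ ht).1.refl a
  have hk : ∀ y ∈ s.map Subtype.val, Rch D E y := by simpa using fun y hy _ => g.rch y hy
  obtain ⟨t', t1, t2⟩ := g.ext h (t := [a, b]) (by
    simpa using ⟨Step.rch hD (Or.inr ⟨_, hs, fun _ h => h, b, Ne.symm e0, hab⟩) hk,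
      Step.rch hD (Or.inr ⟨_, hs, fun _ h => h, a, e0, (h.eqv _ hs).1.symm hab⟩) hk⟩)
    (Eqv.refl (s.map Subtype.val ++ t.map Subtype.val)) 
    (List.forall_mem_append.2 ⟨map_mem id s, map_mem id t⟩)
  obtain ⟨a', b', rfl⟩ := List.length_eq_two.1 t1.symm
  exact (Eqv.rel hD (Eqv.drop_mid hD (t := [a, b]) (u := [a'.1, b'.1]) t2 rfl rfl)).2
    (e a' b' ((Eqv.rel hD (Eqv.left hD (m := a :: b :: s.map Subtype.val)
      (m' := a'.1 :: b'.1 :: s.map Subtype.val) t2 rfl)).1 hab))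

theorem Good.surj (g : Good D E B) (h : Hyp D E) (hB : Nonempty B) (k : List B) (P : Setoid B)
    (hf : ∀ a, {b | P a b}.Finite)
    (hi : ∀ σ : Aut D B, (∀ a ∈ k, σ • a = a) → ∀ a b, P a b → P (σ • a) (σ • b)) :
    ∃ s : List B, (s.map Subtype.val).Nodup ∧ ∀ a b : B, E (s.map Subtype.val) a b ↔ P a b := by
  have hD := h.cl
  set K := k.map Subtype.val
  have hK : ∀ a ∈ K, a ∈ B := map_mem id k
  choose T hT using fun a => show ∃ t : List B, ∀ b, b ∈ t ↔ P a b from
    ⟨(hf a).toFinset.toList, by simp⟩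
  set F := fun (a : B) (t : List A) => Eqv D ((T a).map Subtype.val ++ K) (t ++ K)
  have Fl : ∀ {a t}, F a t → ((T a).map Subtype.val).length = t.length := fun e => by
    simpa using e.1
  have Tr : ∀ a, ∀ x ∈ (T a).map Subtype.val, Rch D E x := fun a => by
    simpa using fun y hy _ => g.rch y hy
  have cls : ∀ a (u : List B), F a (u.map Subtype.val) → ∀ x ∈ u, ∀ y, y ∈ u ↔ P x y := by
    intro a u e x hx y
    obtain ⟨σ, s1, rfl⟩ := g.exists_aut_fix h e hB
    obtain ⟨x, hx', rfl⟩ := List.mem_map.1 hx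
    obtain ⟨y, rfl⟩ : ∃ z, σ • z = y := ⟨σ⁻¹ • y, by simp⟩
    rw [List.mem_map_of_injective (MulAction.injective σ), hT]
    rw [hT] at hx'
    refine ⟨fun j => hi σ s1 _ _ (P.trans (P.symm hx') j), fun j => P.trans hx' ?_⟩
    simpa using hi σ⁻¹ (fun a ha => inv_smul_eq_iff.2 (s1 a ha).symm) _ _ j
  have key : ∀ {a a' t t' x}, F a t → F a' t' → x ∈ t → x ∈ t' → ∀ y ∈ t', y ∈ t := by
    intro a a' t t' x e e' hx hx' y hy
    obtain ⟨w, w1, w2⟩ := g.ext h (t := t ++ t') (List.forall_mem_append.2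
      ⟨h.rch_list (e.left hD (Fl e)) (Tr a), h.rch_list (e'.left hD (Fl e')) (Tr a')⟩)
      (Eqv.refl K) hK
    obtain ⟨u, u', rfl, u1⟩ : ∃ u u', w = u ++ u' ∧ t.length = u.length :=
      ⟨w.take t.length, w.drop t.length, by simp, by simp [← w1]⟩
    have u1' : t.length = (u.map Subtype.val).length := by simpa using u1
    have u2 : t'.length = (u'.map Subtype.val).length := by simpa [u1] using w1
    rw [List.map_append, List.append_assoc, List.append_assoc] at w2
    have c1 := cls a u (e.trans (w2.drop_mid hD u1' u2))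
    have c2 := cls a' u' (e'.trans (w2.right hD u1'))
    obtain ⟨v, v1, v2, v3⟩ := exists_zip u2 (s := [x, y]) (by simp [hx', hy])
    lift v to List B using fun z hz => by
      obtain ⟨z, -, rfl⟩ := List.mem_map.1 (v3 hz); exact z.2
    obtain ⟨x', y', rfl⟩ := List.length_eq_two.1 (show v.length = 2 by simpa using v1.symm)
    simp only [List.map_cons, List.map_nil, List.zip_cons_cons, List.cons_subset,
      List.mem_map_of_injective Subtype.val_injective] at v2 v3
    have m1 : x' ∈ u := (List.mem_map_of_injective Subtype.val_injective).1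
      (Eqv.mem hD (w2.pick hD u1' u2 v2.1) hx)
    exact Eqv.mem hD (w2.pick hD u1' u2 v2.2.1).symm
      (List.mem_map_of_mem ((c1 x' m1 y').2 ((c2 x' v3.1 y').1 v3.2.1)))
  have rel : ∀ S : Set B, Equivalence (fun x y => x = y ∨ ∃ a ∈ S, ∃ t, F a t ∧ x ∈ t ∧ y ∈ t) ∧
      ∀ x, {y | x = y ∨ ∃ a ∈ S, ∃ t, F a t ∧ x ∈ t ∧ y ∈ t}.Finite := fun S => by
    refine ⟨⟨fun _ => Or.inl rfl, fun j => j.imp Eq.symm fun ⟨a, h1, t, h2, h3, h4⟩ =>
      ⟨a, h1, t, h2, h4, h3⟩, ?_⟩, fun x => ?_⟩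
    · rintro x y z (rfl | ⟨a, h1, t, h2, h3, h4⟩) j
      · exact j
      rcases j with rfl | ⟨a', -, t', j2, j3, j4⟩
      · exact Or.inr ⟨a, h1, t, h2, h3, h4⟩
      · exact Or.inr ⟨a, h1, t, h2, h3, key h2 j2 h4 j3 z j4⟩
    · by_cases hx : ∃ a t, F a t ∧ x ∈ t
      · obtain ⟨a, t, h1, h2⟩ := hx
        refine t.finite_toSet.subset ?_
        rintro y (rfl | ⟨a', -, t', j2, j3, j4⟩)
        · exact h2
        · exact key h1 j2 h2 j3 y j4
      · refine (finite_singleton x).subset ?_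
        rintro y (rfl | ⟨a', -, t', j2, j3, -⟩)
        · rfl
        · exact (hx ⟨a', t', j2, j3⟩).elim
  have hk : Lm (fun _ : Unit => K) fun _ => K := Lm.const fun _ h => h
  set Q := fun (a : B) (x y : A) => x = y ∨ ∃ a' ∈ ({a} : Set B), ∃ t, F a' t ∧ x ∈ t ∧ y ∈ t
  have dQ : ∀ a, D2 D K (Q a) := fun a => by
    obtain ⟨p, hp, e⟩ := h.isolate_tuple (Tr a) K
    refine D2.of_df (((Df.eq hD Lm.t0 Lm.t0.up).or hD (((Df.atom hD hp
      ((Lm.vec (n := ((T a).map Subtype.val).length)).append hk.up.up.vup)).and hD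
      ((Df.mem hD Lm.t0.vup Lm.vec).and hD (Df.mem hD Lm.t0.up.vup Lm.vec))).exN hD)).congr
      (Q := fun γ => Q a γ.1 γ.2.1) fun γ => or_congr Iff.rfl ⟨?_, ?_⟩)
    · rintro ⟨t, h1, h2⟩; exact ⟨a, rfl, t.1, (e _ t.2.symm).1 h1, h2⟩
    · rintro ⟨_, rfl, t, h1, h2⟩; exact ⟨⟨t, (Fl h1).symm⟩, (e _ (Fl h1)).2 h1, h2⟩
  have fQ : (range Q).Finite := (h.fin_rel K).subset (by
    rintro _ ⟨a, rfl⟩; exact ⟨dQ a, rel {a}⟩)
  obtain ⟨s, s1, s2, s3⟩ := h.code (k := K) (D2.of_df ((Df.union hD fQ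
    (R := fun R (γ : A × A × Unit) => R γ.1 γ.2.1) (by
      rintro _ ⟨a, rfl⟩; exact (dQ a).app hD Lm.t0 Lm.t0.up hk.up.up)).congr
    (Q := fun γ => γ.1 = γ.2.1 ∨ ∃ a ∈ (univ : Set B), ∃ t, F a t ∧ γ.1 ∈ t ∧ γ.2.1 ∈ t)
    fun γ => ⟨by
      rintro ⟨_, ⟨a, rfl⟩, j⟩
      exact j.imp_right fun ⟨a, _, j⟩ => ⟨a, trivial, j⟩, by
      rintro (j | ⟨a, -, j⟩)
      · exact ⟨_, ⟨hB.some, rfl⟩, Or.inl j⟩
      · exact ⟨_, ⟨a, rfl⟩, Or.inr ⟨a, rfl, j⟩⟩⟩)) (rel univ).1 (rel univ).2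
  lift s to List B using fun x hx => g.dcl hK (s3 x hx)
  refine ⟨s, s1, fun a b => ?_⟩
  have m : ∀ b, b.1 ∈ (T a).map Subtype.val ↔ P a b := fun b => by
    rw [List.mem_map_of_injective Subtype.val_injective, hT]
  rw [s2]
  refine ⟨?_, fun j => Or.inr ⟨a, trivial, _, Eqv.refl _, (m a).2 (P.refl a), (m b).2 j⟩⟩
  rintro (j | ⟨a', -, t, j1, j2, j3⟩)
  · exact Subtype.ext j ▸ P.refl a
  · exact (m b).1 (key (Eqv.refl _) j1 ((m a).2 (P.refl a)) j2 _ j3)

end Mdl

open Mdl in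
theorem exists_permModel {A : Type} [Inhabited A] (D : Set (List A → Prop))
    (E : List A → A → A → Prop) (hc : D.Countable) (hD : Closed D E)
    (hdcl : ∀ k, (dcl D k).Finite)
    (hE : ∀ s, s.Nodup → Equivalence (E s) ∧ ∀ a, {b | E s a b}.Finite)
    (hinj : ∀ s t, s.Nodup → t.Nodup → E s = E t → s = t)
    (hsurj : ∀ p ∈ D, ∀ k : List A, Equivalence (fun a b => p (a :: b :: k)) →
      (∀ a, {b | p (a :: b :: k)}.Finite) → ∃ s, s.Nodup ∧ E s = fun a b => p (a :: b :: k)) :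
    ∃ (B : Type) (_ : Nonempty B) (G : Subgroup (Equiv.Perm B)) (E' : List B → Setoid B),
      PermModel G B E' := by
  classical
  have h : Hyp D E := ⟨hD, hdcl, hE, hinj, hsurj⟩
  obtain ⟨B, g⟩ := exists_good hD hc
  have hB : Nonempty B := ⟨⟨default, g.dcl (k := []) (by simp) ⟨_, hD.eq, rfl, fun _ h => h⟩⟩⟩
  have nd : ∀ {s : List B}, s.Nodup → (s.map Subtype.val).Nodup :=
    fun hs => hs.map Subtype.val_injective
  let E' : List B → Setoid B := fun s =>
    if hs : s.Nodup then Setoid.comap Subtype.val ⟨E (s.map Subtype.val), (hE _ (nd hs)).1⟩ else ⊥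
  have e : ∀ {s : List B}, s.Nodup → ∀ a b, E' s a b ↔ E (s.map Subtype.val) a b :=
    fun {s} hs a b => by
      rw [show E' s = _ from dif_pos hs]; rfl
  refine ⟨B, hB, Aut D B, E', g.fixfin h, fun s hs a => ?_, fun σ s hs a b hab => ?_,
    fun s t hs ht j => ?_, fun k P h1 h2 => ?_⟩
  · exact (((hE _ (nd hs)).2 a).preimage Subtype.val_injective.injOn).subset
      fun b hb => (e hs a b).1 hb
  · rw [e (hs.map (MulAction.injective σ))]
    exact (Eqv.rel hD (σ.2 (a :: b :: s))).1 ((e hs a b).1 hab)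
  · refine List.map_injective_iff.2 Subtype.val_injective (hinj _ _ (nd hs) (nd ht)
      (funext₂ fun a b => propext ⟨g.inj h (nd hs) (nd ht) (fun a b => ?_) a b,
        g.inj h (nd ht) (nd hs) (fun a b => ?_) a b⟩))
    · rw [← e hs, ← e ht, j]; exact id
    · rw [← e hs, ← e ht, j]; exact id
  · obtain ⟨s, s1, s2⟩ := g.surj h hB k P h1 h2
    exact ⟨s, s1.of_map _, Setoid.ext fun a b => (e (s1.of_map _) a b).trans (s2 a b)⟩

end Pool.Agent.P.MP_e517ea_lc
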