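import Mathlib.Data.Nat.Nth
import Pool.Agent.Lib.TypedZF.Types
import Pool.Agent.P.MP_e517ea_lc.Iface
import Pool.Agent.P.MP_e517ea_lc.Defs

/-!
Internal satisfaction in a transitive model of ZF, and the passage from a set-level bijection
to a typed relation.
-/

set_option synthInstance.maxSize 16384

namespace Pool.Agent.P.MP_e517ea_lc

open Pool.Agent.Lib.TypedZF

namespace ZOne

section Sat

variable {N : Set ZFSet.{0}} [ZF N] {X W : Type} [Coded N X] [Coded N W]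

theorem defF_getD [Inhabited X] {l : W → List X} {i : W → ℕ} (hl : DefF N l) (hi : DefF N i) :
    DefF N (fun w => (l w).getD (i w) default) :=
  DefF.of_rel (fun w x => At (l w) (i w) x ∨ ((¬ ∃ y, At (l w) (i w) y) ∧ default = x))
    (by fun_prop) fun w x => by
      simp only [At, List.getD_eq_getElem?_getD]
      cases (l w)[i w]? <;> simp

theorem defF_drop2 {l : W → List X} (hl : DefF N l) : DefF N (fun w => (l w).drop 2) :=
  DefF.of_at ((by fun_prop : DefF N (fun z : W × ℕ × X => At (l z.1) (2 + z.2.1) z.2.2)).congr_iff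
    fun ⟨w, i, y⟩ => by simp [At])

/-- Unpacking a number into a list of numbers and a remainder. -/
def unpack (r n : ℕ) : List ℕ × ℕ :=
  Nat.rec ([], r) (fun _ z => ((Nat.unpair z.2).1 :: z.1, (Nat.unpair z.2).2)) n

theorem exists_unpack (l : List ℕ) : ∀ t, ∃ r, unpack r l.length = (l, t) := by
  induction l with
  | nil => exact fun t => ⟨t, rfl⟩
  | cons a l ih =>
    intro t
    obtain ⟨r, hr⟩ := ih (Nat.pair a t)
    refine ⟨r, ?_⟩
    change ((Nat.unpair (unpack r l.length).2).1 :: (unpack r l.length).1,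
      (Nat.unpair (unpack r l.length).2).2) = _
    rw [hr]
    simp

/-- A surjection from the numbers onto the lists of numbers. -/
def dec (j : ℕ) : List ℕ := (unpack (Nat.unpair j).1 (Nat.unpair j).2).1

theorem dec_surj (l : List ℕ) : ∃ j, dec j = l := by
  obtain ⟨r, hr⟩ := exists_unpack l 0
  exact ⟨Nat.pair r l.length, by simp [dec, hr]⟩

theorem defF_dec : DefF N dec := by
  have h := DefF.natRec (N := N) (W := ℕ) (X := List ℕ × ℕ) (a := fun r => ([], r))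
    (s := fun _ _ z => ((Nat.unpair z.2).1 :: z.1, (Nat.unpair z.2).2)) (by fun_prop) (by fun_prop)
  exact DefF.fst.comp (h.comp DefF.unpair)

/-- One step of the recursive definition of satisfaction. -/
def step [Inhabited X] (E : List X → X → X → Prop) (n : ℕ) (S : ℕ → List X → Prop) (l : List X) :
    Prop :=
  ((Nat.unpair n).1 = 0 ∧ l.getD 0 default = l.getD 1 default) ∨
  ((Nat.unpair n).1 = 1 ∧ E (l.drop 2) (l.getD 0 default) (l.getD 1 default)) ∨
  ((Nat.unpair n).1 = 2 ∧ ¬ S (Nat.unpair n).2 l) ∨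
  ((Nat.unpair n).1 = 3 ∧ S (Nat.unpair (Nat.unpair n).2).1 l ∧
    S (Nat.unpair (Nat.unpair n).2).2 l) ∨
  ((Nat.unpair n).1 = 4 ∧ ∃ a, S (Nat.unpair n).2 (a :: l)) ∨
  ((Nat.unpair n).1 = 5 ∧ S (Nat.unpair (Nat.unpair n).2).1
    ((dec (Nat.unpair (Nat.unpair n).2).2).map fun i => l.getD i default))

theorem defF_step [Inhabited X] (E : List X → X → X → Prop)
    (hE : DefF N (fun z : List X × X × X => E z.1 z.2.1 z.2.2)) :
    DefF N (fun z : (ℕ × DSet N (ℕ × List X)) × List X =>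
      step E z.1.1 (fun i l => z.1.2.Mem (i, l)) z.2) := by
  have h0 : DefF N (fun l : List X => l.getD 0 default) := defF_getD DefF.id (DefF.const _)
  have h1 : DefF N (fun l : List X => l.getD 1 default) := defF_getD DefF.id (DefF.const _)
  have h2 : DefF N (fun l : List X => l.drop 2) := defF_drop2 DefF.id
  have h3 : DefF N (fun z : List X × ℕ => (dec z.2).map fun i => z.1.getD i default) :=
    DefF.map (F := fun (z : List X × ℕ) i => z.1.getD i default)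
      (defF_getD (by fun_prop) (by fun_prop)) (defF_dec.comp DefF.snd)
  have h4 : DefF N (fun l : List X => E (l.drop 2) (l.getD 0 default) (l.getD 1 default)) :=
    hE.comp (h2.prodMk (h0.prodMk h1))
  unfold step
  refine DefF.or (DefF.and (by fun_prop) ((h0.eq h1).comp DefF.snd)) (DefF.or
    (DefF.and (by fun_prop) (h4.comp DefF.snd)) (DefF.or (by fun_prop) (DefF.or (by fun_prop)
    (DefF.or (by fun_prop) (DefF.and (by fun_prop) (DefF.mem (by fun_prop)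
      (DefF.prodMk (by fun_prop) ?_)))))))
  exact h3.comp (f := fun z : (ℕ × DSet N (ℕ × List X)) × List X =>
    (z.2, (Nat.unpair (Nat.unpair z.1.1).2).2)) (by fun_prop)

theorem exists_sat [Inhabited X] (E : List X → X → X → Prop)
    (hE : DefF N (fun z : List X × X × X => E z.1 z.2.1 z.2.2)) :
    ∃ S : ℕ → List X → Prop, DefF N (fun z : ℕ × List X => S z.1 z.2) ∧
      ∀ n l, S n l ↔ step E n (fun i l => i < n ∧ S i l) l := by
  have h1 := defF_step E hE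
  obtain ⟨s, hs, Hs⟩ := exists_dset (N := N) (W := ℕ × DSet N (ℕ × List X)) (X := ℕ × List X)
    (R := fun w z => w.2.Mem z ∨ (z.1 = w.1 ∧ step E w.1 (fun i l => w.2.Mem (i, l)) z.2))
    (DefF.or (by fun_prop) (DefF.and (by fun_prop)
      (h1.comp (f := fun z : (ℕ × DSet N (ℕ × List X)) × ℕ × List X => (z.1, z.2.2))
        (by fun_prop))))
  let e : DSet N (ℕ × List X) := ⟨fun _ => False, DefF.const _⟩
  let T : ℕ → DSet N (ℕ × List X) := fun n => Nat.rec e (fun i S => s (i, S)) n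
  have hT : DefF N T := (DefF.natRec (N := N) (W := ℕ) (a := fun _ => e)
    (s := fun _ i S => s (i, S)) (by fun_prop) (by fun_prop)).comp
      (f := fun n : ℕ => (n, n)) (by fun_prop)
  have h2 : ∀ m n l, (T m).Mem (n, l) ↔
      n < m ∧ step E n (fun i l => (T n).Mem (i, l)) l := by
    intro m
    induction m with
    | zero => exact fun n l => ⟨False.elim, fun h => absurd h.1 (Nat.not_lt_zero _)⟩
    | succ m ih =>
      intro n l
      change (s (m, T m)).Mem (n, l) ↔ _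
      rw [Hs, ih]
      constructor
      · rintro (⟨h, h'⟩ | ⟨h, h'⟩)
        · exact ⟨by omega, h'⟩
        · dsimp only at h
          subst h
          exact ⟨by omega, h'⟩
      · rintro ⟨h, h'⟩
        rcases Nat.lt_succ_iff_lt_or_eq.1 h with h | rfl
        · exact Or.inl ⟨h, h'⟩
        · exact Or.inr ⟨rfl, h'⟩
  refine ⟨fun n l => (T (n + 1)).Mem (n, l), by fun_prop, fun n l => ?_⟩
  refine (h2 (n + 1) n l).trans ?_
  have h3 : (fun i l => (T n).Mem (i, l)) = fun i l => i < n ∧ (T (i + 1)).Mem (i, l) := by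
    funext i l
    rw [h2 n i l, h2 (i + 1) i l]
    simp
  rw [h3]
  simp

theorem defF_count {C : ℕ → Prop} [DecidablePred C] (hC : DefF N C) : DefF N (Nat.count C) := by
  have h := (DefF.natRec (N := N) (W := ℕ) (X := ℕ) (a := fun _ => 0)
    (s := fun _ i y => y + if C i then 1 else 0) (by fun_prop) (by fun_prop)).comp
      (f := fun n : ℕ => (n, n)) (by fun_prop)
  refine h.congr fun n => ?_
  dsimp only
  have h : ∀ m, (Nat.rec 0 (fun i y => y + if C i then 1 else 0) m : ℕ) = Nat.count C m := by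
    intro m
    induction m with
    | zero => rfl
    | succ m ih => rw [Nat.count_succ, ← ih]
  exact h n

theorem finite_isolated (hD : ∀ ι : ℕ → X, DefF N ι → ¬ Function.Injective ι)
    {I : ℕ → X → Prop} (hI : DefF N (fun z : ℕ × X => I z.1 z.2))
    (hu : ∀ n a b, I n a → I n b → a = b) : {a | ∃ n, I n a}.Finite := by
  classical
  by_contra hinf
  let M : ℕ → X → Prop := fun n a => I n a ∧ ¬ ∃ m, m < n ∧ I m a
  have hM : DefF N (fun z : ℕ × X => M z.1 z.2) := by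
    simp only [M]
    fun_prop
  have h1 : ∀ m n a, M m a → M n a → m = n := fun m n a h h' => by
    rcases lt_trichotomy m n with k | k | k
    · exact (h'.2 ⟨m, k, h.1⟩).elim
    · exact k
    · exact (h.2 ⟨n, k, h'.1⟩).elim
  let C : ℕ → Prop := fun n => ∃ a, M n a
  have hC : DefF N C := DefF.exists hM
  have h2 : {n | C n}.Infinite := by
    intro hf
    refine hinf ((hf.biUnion (t := fun n => {a | I n a}) fun n _ =>
      Set.Subsingleton.finite fun a ha b hb => hu n a b ha hb).subset ?_)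
    rintro a ha
    have ha' : ∃ n, I n a := ha
    exact Set.mem_biUnion (x := Nat.find ha')
      ⟨a, Nat.find_spec ha', fun ⟨m, h, h'⟩ => Nat.find_min ha' h h'⟩ (Nat.find_spec ha')
  have h3 : ∀ i, ∃ a, M (Nat.nth C i) a := fun i => Nat.nth_mem_of_infinite h2 i
  choose ι hι using h3
  have h4 := defF_count hC
  refine hD ι (DefF.of_rel (fun i a => ∃ n, Nat.count C n = i ∧ M n a) (by fun_prop)
    fun i a => ⟨?_, ?_⟩) fun i j h => ?_
  · rintro rfl
    exact ⟨_, Nat.count_nth_of_infinite h2 i, hι i⟩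
  · rintro ⟨n, rfl, h⟩
    have h5 := hι (Nat.count C n)
    rw [Nat.nth_count (p := C) ⟨a, h⟩] at h5
    exact hu n _ _ h5.1 h.1
  · exact Nat.nth_injective h2 (h1 _ _ _ (hι i) (h ▸ hι j))

end Sat

end ZOne

open ZOne

theorem exists_closed {N : Set ZFSet.{0}} [ZF N] {X : Type} [Coded N X] [Inhabited X]
    (E : List X → X → X → Prop) (hE : DefF N (fun z : List X × X × X => E z.1 z.2.1 z.2.2))
    (hD : ∀ ι : ℕ → X, DefF N ι → ¬ Function.Injective ι) :
    ∃ D : Set (List X → Prop), D.Countable ∧ Closed D E ∧ (∀ p ∈ D, DefF N p) ∧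
      ∀ k, (dcl D k).Finite := by
  obtain ⟨S, hS, HS⟩ := exists_sat E hE
  have hlt : ∀ t m : ℕ, 0 < t → m < Nat.pair t m := fun t m h => by
    have := Nat.add_le_pair t m
    omega
  refine ⟨Set.range S, Set.countable_range S, ⟨?_, ?_, ?_, ?_, ?_, ?_⟩, ?_, fun k => ?_⟩
  · rintro _ ⟨i, rfl⟩
    refine ⟨Nat.pair 2 i, funext fun l => propext ?_⟩
    rw [HS]
    simp [step, hlt 2 i]
  · rintro _ ⟨i, rfl⟩ _ ⟨j, rfl⟩
    refine ⟨Nat.pair 3 (Nat.pair i j), funext fun l => propext ?_⟩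
    rw [HS]
    simp [step, (Nat.left_le_pair i j).trans_lt (hlt 3 _ (by omega)),
      (Nat.right_le_pair i j).trans_lt (hlt 3 _ (by omega))]
  · rintro _ ⟨i, rfl⟩
    refine ⟨Nat.pair 4 i, funext fun l => propext ?_⟩
    rw [HS]
    simp [step, hlt 4 i]
  · rintro _ ⟨i, rfl⟩ r
    obtain ⟨j, rfl⟩ := dec_surj r
    refine ⟨Nat.pair 5 (Nat.pair i j), funext fun l => propext ?_⟩
    rw [HS]
    simp [step, (Nat.left_le_pair i j).trans_lt (hlt 5 _ (by omega))]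
  · refine ⟨Nat.pair 0 0, funext fun l => propext ?_⟩
    rw [HS]
    simp [step]
  · refine ⟨Nat.pair 1 0, funext fun l => propext ?_⟩
    rw [HS]
    simp [step]
  · rintro _ ⟨i, rfl⟩
    exact hS.comp (f := fun l => (i, l)) (by fun_prop)
  · refine (finite_isolated hD (I := fun n a => S n (a :: k) ∧ ¬ ∃ b, S n (b :: k) ∧ b ≠ a)
      (by fun_prop) fun n a b h h' => ?_).subset ?_
    · by_contra hab
      exact h'.2 ⟨a, h.1, hab⟩
    · rintro a ⟨_, ⟨n, rfl⟩, h, h'⟩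
      exact ⟨n, h, fun ⟨b, h1, h2⟩ => h2 (h' b h1)⟩

namespace ZOne

section Rel

open ZFSet Pool.Agent.Lib.Forcing

variable {N : Set ZFSet.{0}} [ZF N] {X Y : Type} [Coded N X] [Coded N Y]

theorem exists_cd_dset {z : ZFSet.{0}} (hz : z ∈ N) (h : z ⊆ car N X) :
    ∃ S : DSet N X, cd N S = z := by
  refine ⟨⟨fun x => cd N x ∈ z, defF_mem hz⟩, ?_⟩
  ext w
  constructor
  · intro hw
    obtain ⟨x, rfl⟩ := mem_car.1 (cd_dset_subset _ hw)
    exact cd_mem_dset.1 hw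
  · intro hw
    obtain ⟨x, rfl⟩ := mem_car.1 (h hw)
    exact cd_mem_dset.2 hw

theorem mem_cd_dset {S : DSet N X} {w : ZFSet.{0}} : w ∈ cd N S ↔ ∃ x, S.Mem x ∧ cd N x = w := by
  constructor
  · intro hw
    obtain ⟨x, rfl⟩ := mem_car.1 (cd_dset_subset _ hw)
    exact ⟨x, cd_mem_dset.1 hw, rfl⟩
  · rintro ⟨x, hx, rfl⟩
    exact cd_mem_dset.2 hx

theorem mem_cd_nat {n : ℕ} {w : ZFSet.{0}} : w ∈ cd N n ↔ ∃ i, i < n ∧ cd N i = w := by
  constructor
  · intro hw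
    obtain ⟨a, ha, rfl⟩ := Ordinal.mem_toZFSet_iff.1 hw
    obtain ⟨i, rfl⟩ := Ordinal.lt_omega0.1 (ha.trans (Ordinal.natCast_lt_omega0 n))
    exact ⟨i, by exact_mod_cast ha, rfl⟩
  · rintro ⟨i, hi, rfl⟩
    exact cd_nat_mem.2 hi

theorem mem_cd_list {l : List X} {w : ZFSet.{0}} :
    w ∈ cd N l ↔ ∃ i x, At l i x ∧ pair (cd N i) (cd N x) = w := by
  change w ∈ cd N (listGraph (N := N) l) ↔ _
  rw [mem_cd_dset]
  exact ⟨fun ⟨z, h, h'⟩ => ⟨z.1, z.2, h, h'⟩, fun ⟨i, x, h, h'⟩ => ⟨(i, x), h, h'⟩⟩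

theorem pair_mem_cd_list {l : List X} {i : ℕ} {x : X} :
    pair (cd N i) (cd N x) ∈ cd N l ↔ At l i x := by
  rw [mem_cd_list]
  constructor
  · rintro ⟨j, y, h, h'⟩
    obtain ⟨h1, h2⟩ := pair_inj.1 h'
    rwa [← cd_inj.1 h1, ← cd_inj.1 h2]
  · exact fun h => ⟨i, x, h, rfl⟩

theorem nodup_iff_at {l : List X} : l.Nodup ↔ ∀ i j x, At l i x → At l j x → i = j := by
  constructor
  · intro h i j x hi hj
    obtain ⟨h1, h2⟩ := List.getElem?_eq_some_iff.1 hi
    obtain ⟨h3, h4⟩ := List.getElem?_eq_some_iff.1 hj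
    exact (List.Nodup.getElem_inj_iff h).1 (h2.trans h4.symm)
  · intro h
    rw [List.nodup_iff_injective_getElem]
    intro i j hij
    exact Fin.ext (h i j _ (List.getElem?_eq_getElem i.2)
      (List.getElem?_eq_some_iff.2 ⟨j.2, hij.symm⟩))

theorem finiteIn_iff (B : DSet N X) : FiniteIn N (cd N B) ↔ {x | B.Mem x}.Finite := by
  constructor
  · rintro ⟨n, hn, f, -, h1, h2⟩
    obtain ⟨n, rfl⟩ := mem_car.1 (car_nat (N := N) ▸ hn)
    refine ((Set.finite_lt_nat n).biUnion (t := fun i => {x : X | pair (cd N x) (cd N i) ∈ f})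
      fun i hi => Set.Subsingleton.finite fun a ha b hb => ?_).subset fun x hx => ?_
    · exact cd_inj.1 ((h2 _ (cd_nat_mem.2 hi)).unique ha hb)
    · obtain ⟨w, hw, -⟩ := h1.2 _ (cd_mem_dset.2 hx)
      obtain ⟨i, hi, rfl⟩ := mem_cd_nat.1 (pair_mem_prod.1 (h1.1 hw)).2
      exact Set.mem_biUnion hi hw
  · intro h
    obtain ⟨l, h1, h2⟩ : ∃ l : List X, l.Nodup ∧ ∀ x, x ∈ l ↔ B.Mem x :=
      ⟨h.toFinset.toList, Finset.nodup_toList _, fun x => by simp⟩
    let F : DSet N (X × ℕ) := ⟨fun z => At l z.2 z.1, by fun_prop⟩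
    have h3 : ∀ x i, pair (cd N x) (cd N i) ∈ cd N F ↔ At l i x := fun x i =>
      cd_mem_dset (S := F) (x := (x, i))
    have h4 : ∀ a b, pair a b ∈ cd N F → ∃ x i, At l i x ∧ cd N x = a ∧ cd N i = b := by
      intro a b hab
      obtain ⟨z, hz, h'⟩ := mem_cd_dset.1 hab
      exact ⟨z.1, z.2, hz, pair_inj.1 h'⟩
    refine ⟨cd N l.length, car_nat (N := N) ▸ cd_mem_car _, cd N F, cd_mem F, ⟨?_, ?_⟩, ?_⟩
    · intro w hw
      obtain ⟨z, hz, rfl⟩ := mem_cd_dset.1 hw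
      exact pair_mem_prod.2 ⟨cd_mem_dset.2 ((h2 _).1 (List.mem_of_getElem? hz)),
        cd_nat_mem.2 (List.getElem?_eq_some_iff.1 hz).1⟩
    · intro w hw
      obtain ⟨x, hx, rfl⟩ := mem_cd_dset.1 hw
      obtain ⟨i, hi⟩ := List.mem_iff_getElem?.1 ((h2 x).2 hx)
      refine ⟨cd N i, (h3 x i).2 hi, fun b hb => ?_⟩
      obtain ⟨y, j, hj, h5, rfl⟩ := h4 _ _ hb
      rw [cd_inj.1 h5] at hj
      rw [nodup_iff_at.1 h1 j i x hj hi]
    · intro w hw
      obtain ⟨i, hi, rfl⟩ := mem_cd_nat.1 hw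
      refine ⟨cd N l[i], (h3 _ i).2 (List.getElem?_eq_getElem hi), fun b hb => ?_⟩
      obtain ⟨y, j, hj, rfl, h5⟩ := h4 _ _ hb
      rw [cd_inj.1 h5] at hj
      rw [(List.getElem?_eq_some_iff.1 hj).2]

theorem cd_mem_injSeqs {l : List X} (h : l.Nodup) : cd N l ∈ injSeqs N (car N X) := by
  have h1 : cd N l ⊆ (cd N l.length).prod (car N X) := by
    intro w hw
    obtain ⟨i, x, hi, rfl⟩ := mem_cd_list.1 hw
    exact pair_mem_prod.2 ⟨cd_nat_mem.2 (List.getElem?_eq_some_iff.1 hi).1, cd_mem_car x⟩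
  have h2 : ∀ a b, pair a b ∈ cd N l → ∃ i x, At l i x ∧ cd N i = a ∧ cd N x = b := by
    intro a b hab
    obtain ⟨i, x, hz, h'⟩ := mem_cd_list.1 hab
    exact ⟨i, x, hz, pair_inj.1 h'⟩
  refine mem_sep.2 ⟨mem_powerset.2 fun w hw => ?_, cd_mem l, cd N l.length,
    car_nat (N := N) ▸ cd_mem_car _, ⟨h1, fun w hw => ?_⟩, fun a b c ha hb => ?_⟩
  · obtain ⟨i, x, -, rfl⟩ := mem_cd_list.1 hw
    exact pair_mem_prod.2 ⟨car_nat (N := N) ▸ cd_mem_car i, cd_mem_car x⟩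
  · obtain ⟨i, hi, rfl⟩ := mem_cd_nat.1 hw
    refine ⟨cd N l[i], pair_mem_cd_list.2 (List.getElem?_eq_getElem hi), fun b hb => ?_⟩
    obtain ⟨j, y, hj, h5, rfl⟩ := h2 _ _ hb
    rw [cd_inj.1 h5] at hj
    rw [(List.getElem?_eq_some_iff.1 hj).2]
  · obtain ⟨i, x, hi, rfl, rfl⟩ := h2 _ _ ha
    obtain ⟨j, y, hj, rfl, h5⟩ := h2 _ _ hb
    rw [cd_inj.1 h5] at hj
    rw [nodup_iff_at.1 h i j x hi hj]

theorem exists_cd_list {z : ZFSet.{0}} (hz : z ∈ injSeqs N (car N X)) :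
    ∃ l : List X, l.Nodup ∧ cd N l = z := by
  obtain ⟨-, -, n, hn, h1, h2⟩ := mem_sep.1 hz
  obtain ⟨n, rfl⟩ := mem_car.1 (car_nat (N := N) ▸ hn)
  have h3 : ∀ i : Fin n, ∃ x : X, pair (cd N i.1) (cd N x) ∈ z := fun i => by
    obtain ⟨w, hw, -⟩ := h1.2 _ (cd_nat_mem.2 i.2)
    obtain ⟨x, rfl⟩ := mem_car.1 (pair_mem_prod.1 (h1.1 hw)).2
    exact ⟨x, hw⟩
  choose g hg using h3
  have h4 : ∀ i x, At (List.ofFn g) i x ↔ pair (cd N i) (cd N x) ∈ z := by
    intro i x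
    simp only [At, List.getElem?_ofFn]
    constructor
    · intro h
      split_ifs at h with hi
      exact Option.some.inj h ▸ hg ⟨i, hi⟩
    · intro h
      have hi := cd_nat_mem.1 (pair_mem_prod.1 (h1.1 h)).1
      rw [dif_pos hi, cd_inj.1 ((h1.2 _ (cd_nat_mem.2 hi)).unique (hg ⟨i, hi⟩) h)]
  refine ⟨List.ofFn g, nodup_iff_at.2 fun i j x hi hj =>
    cd_inj.1 (h2 _ _ _ ((h4 i x).1 hi) ((h4 j x).1 hj)), ?_⟩
  ext w
  rw [mem_cd_list]
  constructor
  · rintro ⟨i, x, h, rfl⟩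
    exact (h4 i x).1 h
  · intro hw
    obtain ⟨a, ha, b, hb, rfl⟩ := mem_prod.1 (h1.1 hw)
    obtain ⟨i, -, rfl⟩ := mem_cd_nat.1 ha
    obtain ⟨x, rfl⟩ := mem_car.1 hb
    exact ⟨i, x, (h4 i x).2 hw, rfl⟩

/-- A partition into finite blocks, in typed form. -/
def Part (P : DSet N (DSet N X)) : Prop :=
  (∀ B, P.Mem B → (∃ a, B.Mem a) ∧ {x | B.Mem x}.Finite) ∧ ∀ a, ∃! B, P.Mem B ∧ B.Mem a

theorem cd_mem_finParts {P : DSet N (DSet N X)} (h : Part P) : cd N P ∈ finParts N (car N X) := by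
  refine mem_sep.2 ⟨mem_powerset.2 fun w hw => ?_, cd_mem P, ⟨fun w hw => ?_, fun w hw => ?_⟩,
    fun w hw => ?_⟩
  · obtain ⟨B, -, rfl⟩ := mem_cd_dset.1 hw
    exact mem_powerset.2 (cd_dset_subset B)
  · obtain ⟨B, hB, rfl⟩ := mem_cd_dset.1 hw
    obtain ⟨a, ha⟩ := (h.1 B hB).1
    exact ⟨fun h0 => notMem_empty _ (h0 ▸ cd_mem_dset.2 ha), cd_dset_subset B⟩
  · obtain ⟨a, rfl⟩ := mem_car.1 hw
    obtain ⟨B, hB, hu⟩ := h.2 a
    refine ⟨cd N B, ⟨cd_mem_dset.2 hB.1, cd_mem_dset.2 hB.2⟩, fun b hb => ?_⟩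
    obtain ⟨B', hB', rfl⟩ := mem_cd_dset.1 hb.1
    rw [hu B' ⟨hB', cd_mem_dset.1 hb.2⟩]
  · obtain ⟨B, hB, rfl⟩ := mem_cd_dset.1 hw
    exact (finiteIn_iff B).2 (h.1 B hB).2

theorem exists_cd_part {z : ZFSet.{0}} (hz : z ∈ finParts N (car N X)) :
    ∃ P : DSet N (DSet N X), Part P ∧ cd N P = z := by
  obtain ⟨-, h1, h2, h3⟩ := mem_sep.1 hz
  obtain ⟨P, rfl⟩ := exists_cd_dset (X := DSet N X) h1 fun b hb =>
    mem_car.2 (exists_cd_dset (mem_of_mem h1 hb) (h2.1 b hb).2)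
  refine ⟨P, ⟨fun B hB => ⟨?_, (finiteIn_iff B).1 (h3 _ (cd_mem_dset.2 hB))⟩, fun a => ?_⟩, rfl⟩
  · by_contra h0
    refine (h2.1 _ (cd_mem_dset.2 hB)).1 ((eq_empty _).2 fun w hw => ?_)
    obtain ⟨a, ha, -⟩ := mem_cd_dset.1 hw
    exact h0 ⟨a, ha⟩
  · obtain ⟨b, hb, hu⟩ := h2.2 _ (cd_mem_car a)
    obtain ⟨B, hB, rfl⟩ := mem_cd_dset.1 hb.1
    exact ⟨B, ⟨hB, cd_mem_dset.1 hb.2⟩, fun B' hB' =>
      cd_inj.1 (hu _ ⟨cd_mem_dset.2 hB'.1, cd_mem_dset.2 hB'.2⟩)⟩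

/-- Lying in the same block. -/
def Same (P : DSet N (DSet N X)) (a b : X) : Prop := ∃ B, P.Mem B ∧ B.Mem a ∧ B.Mem b

theorem Part.same_iff {P : DSet N (DSet N X)} (h : Part P) {B : DSet N X} {a : X} (hB : P.Mem B)
    (ha : B.Mem a) (b : X) : Same P a b ↔ B.Mem b :=
  ⟨fun ⟨_, h1, h2, h3⟩ => (h.2 a).unique ⟨h1, h2⟩ ⟨hB, ha⟩ ▸ h3, fun hb => ⟨B, hB, ha, hb⟩⟩

theorem Part.equivalence {P : DSet N (DSet N X)} (h : Part P) : Equivalence (Same P) where
  refl a := by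
    obtain ⟨B, hB, -⟩ := h.2 a
    exact ⟨B, hB.1, hB.2, hB.2⟩
  symm := fun ⟨B, h1, h2, h3⟩ => ⟨B, h1, h3, h2⟩
  trans := fun ⟨B, h1, h2, h3⟩ h' => ⟨B, h1, h2, (h.same_iff h1 h3 _).1 h'⟩

theorem Part.finite {P : DSet N (DSet N X)} (h : Part P) (a : X) : {b | Same P a b}.Finite := by
  obtain ⟨B, hB, -⟩ := h.2 a
  exact (h.1 B hB.1).2.subset fun b hb => (h.same_iff hB.1 hB.2 b).1 hb

theorem Part.ext {P Q : DSet N (DSet N X)} (hP : Part P) (hQ : Part Q) (h : Same P = Same Q) :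
    P = Q := by
  have key : ∀ {P Q : DSet N (DSet N X)}, Part P → Part Q → Same P = Same Q →
      ∀ B, P.Mem B → Q.Mem B := by
    intro P Q hP hQ h B hB
    obtain ⟨a, ha⟩ := (hP.1 B hB).1
    obtain ⟨B', hB', -⟩ := hQ.2 a
    have : B = B' := by
      ext b
      rw [← hP.same_iff hB ha, h, hQ.same_iff hB'.1 hB'.2]
    exact this ▸ hB'.1
  ext B
  exact ⟨key hP hQ h B, key hQ hP h.symm B⟩

theorem exists_part {R : X → X → Prop} (hR : DefF N (fun z : X × X => R z.1 z.2))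
    (he : Equivalence R) (hf : ∀ a, {b | R a b}.Finite) :
    ∃ P : DSet N (DSet N X), Part P ∧ Same P = R := by
  obtain ⟨S, hS, HS⟩ := exists_dset hR
  let P : DSet N (DSet N X) := ⟨fun B => ∃ a, S a = B, by fun_prop⟩
  have hP : Part P := by
    refine ⟨?_, fun a => ⟨S a, ⟨⟨a, rfl⟩, (HS a a).2 (he.refl a)⟩, ?_⟩⟩
    · rintro _ ⟨a, rfl⟩
      exact ⟨⟨a, (HS a a).2 (he.refl a)⟩, (hf a).subset fun b hb => (HS a b).1 hb⟩
    · rintro _ ⟨⟨b, rfl⟩, hb⟩
      ext c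
      rw [HS, HS]
      exact ⟨he.trans (he.symm ((HS b a).1 hb)), he.trans ((HS b a).1 hb)⟩
  refine ⟨P, hP, funext fun a => funext fun b => propext ?_⟩
  rw [hP.same_iff ⟨a, rfl⟩ ((HS a a).2 (he.refl a)), HS]

theorem exists_rel_car
    (h : EqCard N (finParts N (car N X)) (injSeqs N (car N X))) :
    ∃ E : List X → X → X → Prop,
      DefF N (fun z : List X × X × X => E z.1 z.2.1 z.2.2) ∧
      (∀ s, s.Nodup → Equivalence (E s) ∧ ∀ a, {b | E s a b}.Finite) ∧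
      (∀ s t, s.Nodup → t.Nodup → E s = E t → s = t) ∧
      ∀ R : X → X → Prop, DefF N (fun z : X × X => R z.1 z.2) → Equivalence R →
        (∀ a, {b | R a b}.Finite) → ∃ s, s.Nodup ∧ E s = R := by
  obtain ⟨f, hf, h1, h2⟩ := h
  have hI : DefF N (In N f : DSet N (DSet N X) × List X → Prop) := DefF.isIn hf
  let E : List X → X → X → Prop := fun s a b =>
    ∃ P : DSet N (DSet N X), In N f (P, s) ∧ ∃ B, P.Mem B ∧ B.Mem a ∧ B.Mem b
  have h3 : ∀ (s : List X) (P : DSet N (DSet N X)), s.Nodup → In N f (P, s) → E s = Same P := by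
    intro s P hs hP
    funext a b
    refine propext ⟨fun ⟨Q, hQ, h⟩ => ?_, fun h => ⟨P, hP, h⟩⟩
    have : Q = P := cd_inj.1 ((h2 _ (cd_mem_injSeqs hs)).unique hQ hP)
    exact this ▸ h
  have h4 : ∀ s : List X, s.Nodup → ∃ P : DSet N (DSet N X), Part P ∧ In N f (P, s) := by
    intro s hs
    obtain ⟨a, ha, -⟩ := h2 _ (cd_mem_injSeqs hs)
    obtain ⟨P, hP, rfl⟩ := exists_cd_part (pair_mem_prod.1 (h1.1 ha)).1
    exact ⟨P, hP, ha⟩
  refine ⟨E, by simp only [E]; fun_prop, fun s hs => ?_, fun s t hs ht h => ?_,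
    fun R hR he hfin => ?_⟩
  · obtain ⟨P, hP, h⟩ := h4 s hs
    rw [h3 s P hs h]
    exact ⟨hP.equivalence, hP.finite⟩
  · obtain ⟨P, hP, k⟩ := h4 s hs
    obtain ⟨Q, hQ, k'⟩ := h4 t ht
    rw [h3 s P hs k, h3 t Q ht k'] at h
    obtain rfl := hP.ext hQ h
    exact (cd_inj (N := N)).1 ((h1.2 _ (cd_mem_finParts hP)).unique k k')
  · obtain ⟨P, hP, rfl⟩ := exists_part hR he hfin
    obtain ⟨w, hw, -⟩ := h1.2 _ (cd_mem_finParts hP)
    obtain ⟨s, hs, rfl⟩ := exists_cd_list (pair_mem_prod.1 (h1.1 hw)).2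
    exact ⟨s, hs, h3 s P hs hw⟩

end Rel

end ZOne

theorem exists_rel {N : Set ZFSet.{0}} [ZF N] {A : ZFSet.{0}} (hA : A ∈ N) (hinf : ¬ FiniteIn N A)
    (h : EqCard N (finParts N A) (injSeqs N A)) :
    ∃ (X : Type) (_ : Coded N X) (_ : Inhabited X) (E : List X → X → X → Prop),
      DefF N (fun z : List X × X × X => E z.1 z.2.1 z.2.2) ∧
      (∀ s, s.Nodup → Equivalence (E s) ∧ ∀ a, {b | E s a b}.Finite) ∧
      (∀ s t, s.Nodup → t.Nodup → E s = E t → s = t) ∧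
      ∀ R : X → X → Prop, DefF N (fun z : X × X => R z.1 z.2) → Equivalence R →
        (∀ a, {b | R a b}.Finite) → ∃ s, s.Nodup ∧ E s = R := by
  have := Lib.Forcing.InM.mk hA
  have hc : car N (El A) = A := car_el
  have hne : Nonempty (El A) := by
    by_contra h0
    obtain ⟨B, hB⟩ := exists_cd_dset (X := El A) hA (by rw [hc])
    refine hinf (hB ▸ (finiteIn_iff B).2 (Set.finite_empty.subset fun x _ => h0 ⟨x⟩))
  exact ⟨El A, inferInstance, ⟨hne.some⟩, exists_rel_car (by rwa [hc])⟩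

end Pool.Agent.P.MP_e517ea_lc
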