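import Pool.Agent.P.MP_e517ea_lc.Final
import Pool.Agent.P.MP_e517ea_lc.Model
import Pool.Agent.P.MP_e517ea_lc.DInf
import Pool.Agent.P.MP_e517ea_lc.ZFIface

/-!
Assembly: no transitive model of ZF has a bijection between the finitary partitions and the
injective finite sequences of an infinite set.
-/

namespace Pool.Agent.P.MP_e517ea_lc

open Pool.Agent.Lib.Forcing Pool.Agent.Lib.TypedZF

theorem main {M : Set ZFSet.{0}} (hM : IsZFModel M) {A : ZFSet.{0}} (hA : A ∈ M)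
    (hinf : ¬ FiniteIn M A) : ¬ EqCard M (finParts M A) (injSeqs M A) := by
  intro h
  have := zf_of hM
  obtain ⟨X, _, _, E, h1, h2, h3, h4⟩ := exists_rel hA hinf h
  by_cases hD : ∃ ι : ℕ → X, DefF M ι ∧ Function.Injective ι
  · obtain ⟨ι, k1, k2⟩ := hD
    exact dinf ι k1 k2 E h1 h3 h4
  obtain ⟨D, d1, d2, d3, d4⟩ := exists_closed E h1 fun ι k1 k2 => hD ⟨ι, k1, k2⟩
  obtain ⟨B, _, G, E', hP⟩ := exists_permModel D E d1 d2 d4 h2 h3 fun p hp k =>
    h4 _ ((d3 p hp).comp (f := fun z : X × X => z.1 :: z.2 :: k) (by fun_prop))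
  exact hP.hyp.false

end Pool.Agent.P.MP_e517ea_lc
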