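import Pool.Agent.P.MP_e517ea_lc.Iface

/-!
Definability calculus, types of tuples and isolation of steps.
-/

namespace Pool.Agent.P.MP_e517ea_lc.Mdl

open Set

variable {A : Type} [Inhabited A] {D : Set (List A → Prop)} {E : List A → A → A → Prop}
  {Γ : Type} {env F H : Γ → List A} {P Q : Γ → Prop} {f g : Γ → A}

/-- `F` selects entries of the environment. -/
def Lm (env F : Γ → List A) : Prop :=
  ∃ r : List ℕ, ∀ γ, F γ = r.map fun i => (env γ).getD i default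

/-- `P` is definable from the environment. -/
def Df (D : Set (List A → Prop)) (env : Γ → List A) (P : Γ → Prop) : Prop :=
  ∃ p ∈ D, ∀ γ, p (env γ) ↔ P γ

/-- lists of length `n` -/
abbrev Vec (A : Type) (n : ℕ) := {t : List A // t.length = n}

def ext (env : Γ → List A) : A × Γ → List A := fun x => x.1 :: env x.2
def vext (n : ℕ) (env : Γ → List A) : Vec A n × Γ → List A := fun x => x.1.1 ++ env x.2

theorem map_range_getD (l m : List A) :
    (List.range l.length).map (fun i => (l ++ m).getD i default) = l := by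
  apply List.ext_getElem (by simp)
  intro i h1 h2
  simp [List.getElem?_append_left h2, List.getElem?_eq_getElem h2]

theorem Lm.nil : Lm env fun _ => [] := ⟨[], fun _ => rfl⟩

theorem Lm.append (h : Lm env F) (j : Lm env H) : Lm env fun γ => F γ ++ H γ := by
  obtain ⟨r, h⟩ := h
  obtain ⟨s, j⟩ := j
  exact ⟨r ++ s, fun γ => by simp only [h, j, List.map_append]⟩

theorem Lm.cons (h : Lm env fun γ => [f γ]) (j : Lm env H) : Lm env fun γ => f γ :: H γ :=
  h.append j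

theorem Lm.t0 : Lm (ext env) fun γ => [γ.1] := ⟨[0], fun _ => rfl⟩

theorem Lm.up (h : Lm env F) : Lm (ext env) fun γ => F γ.2 := by
  obtain ⟨r, h⟩ := h
  exact ⟨r.map (· + 1), fun γ => by simp [h, ext]⟩

theorem Lm.vec {n : ℕ} : Lm (vext n env) fun γ => γ.1.1 :=
  ⟨List.range n, fun ⟨⟨t, ht⟩, γ⟩ => by subst ht; exact (map_range_getD t _).symm⟩

theorem Lm.vup {n : ℕ} (h : Lm env F) : Lm (vext n env) fun γ => F γ.2 := by
  obtain ⟨r, h⟩ := h
  refine ⟨r.map (n + ·), fun ⟨⟨t, ht⟩, γ⟩ => ?_⟩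
  subst ht
  simp [h, vext, List.getElem?_append_right]

theorem Lm.self {n : ℕ} : Lm (Subtype.val : Vec A n → List A) Subtype.val :=
  ⟨List.range n, fun ⟨t, ht⟩ => by subst ht; simpa using (map_range_getD t []).symm⟩

theorem exists_idx {L M : List Γ} (h : M ⊆ L) : ∃ r : List ℕ, (∀ i ∈ r, i < L.length) ∧
    ∀ f : Γ → A, M.map f = r.map fun i => (L.map f).getD i default := by
  induction M with
  | nil => exact ⟨[], by simp, fun _ => rfl⟩
  | cons a M ih =>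
    obtain ⟨r, h1, h2⟩ := ih fun x hx => h (List.mem_cons_of_mem _ hx)
    obtain ⟨i, hi, e⟩ := List.getElem_of_mem (h List.mem_cons_self)
    refine ⟨i :: r, by simpa [hi] using h1, fun f => ?_⟩
    simp [h2 f, List.getElem?_eq_getElem hi, e]

theorem Lm.const {k s : List A} (h : s ⊆ k) : Lm (fun _ : Γ => k) fun _ => s := by
  obtain ⟨r, -, h⟩ := exists_idx (A := A) h
  exact ⟨r, fun _ => by simpa using h id⟩

theorem Lm.sub (h : Lm env F) {n : ℕ} (hn : ∀ γ, (F γ).length = n) {r : List ℕ}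
    (hr : ∀ i ∈ r, i < n) : Lm env fun γ => r.map fun i => (F γ).getD i default := by
  obtain ⟨s, h⟩ := h
  refine ⟨r.map fun i => s.getD i 0, fun γ => ?_⟩
  rw [List.map_map]
  refine List.map_congr_left fun i hi => ?_
  have : i < s.length := by have := hn γ; rw [h, List.length_map] at this; exact this ▸ hr i hi
  simp [h, List.getElem?_eq_getElem this]

theorem Df.congr (h : Df D env P) (e : ∀ γ, P γ ↔ Q γ) : Df D env Q := by
  obtain ⟨p, hp, h⟩ := h
  exact ⟨p, hp, fun γ => (h γ).trans (e γ)⟩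

section
variable (hD : Closed D E)
include hD

theorem Df.atom {p : List A → Prop} (hp : p ∈ D) (h : Lm env F) : Df D env fun γ => p (F γ) := by
  obtain ⟨r, h⟩ := h
  exact ⟨_, hD.ren p hp r, fun γ => by simp only [h]⟩

theorem Df.eq (h : Lm env fun γ => [f γ]) (j : Lm env fun γ => [g γ]) :
    Df D env fun γ => f γ = g γ := Df.atom hD hD.eq (h.append j)

theorem Df.rel (s : Lm env F) (h : Lm env fun γ => [f γ]) (j : Lm env fun γ => [g γ]) :
    Df D env fun γ => E (F γ) (f γ) (g γ) := Df.atom hD hD.rel (h.cons (j.cons s))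

theorem Df.not (h : Df D env P) : Df D env fun γ => ¬ P γ := by
  obtain ⟨p, hp, h⟩ := h
  exact ⟨_, hD.neg p hp, fun γ => not_congr (h γ)⟩

theorem Df.and (h : Df D env P) (j : Df D env Q) : Df D env fun γ => P γ ∧ Q γ := by
  obtain ⟨p, hp, h⟩ := h
  obtain ⟨q, hq, j⟩ := j
  exact ⟨_, hD.and p hp q hq, fun γ => and_congr (h γ) (j γ)⟩

theorem Df.or (h : Df D env P) (j : Df D env Q) : Df D env fun γ => P γ ∨ Q γ :=
  (((h.not hD).and hD (j.not hD)).not hD).congr fun γ => by tauto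

theorem Df.imp (h : Df D env P) (j : Df D env Q) : Df D env fun γ => P γ → Q γ :=
  ((h.and hD (j.not hD)).not hD).congr fun γ => by tauto

theorem Df.iff (h : Df D env P) (j : Df D env Q) : Df D env fun γ => P γ ↔ Q γ :=
  ((h.imp hD j).and hD (j.imp hD h)).congr fun γ => iff_def.symm

theorem Df.ex {P : A × Γ → Prop} (h : Df D (ext env) P) : Df D env fun γ => ∃ a, P (a, γ) := by
  obtain ⟨p, hp, h⟩ := h
  exact ⟨_, hD.ex p hp, fun γ => exists_congr fun a => h (a, γ)⟩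

theorem Df.all {P : A × Γ → Prop} (h : Df D (ext env) P) : Df D env fun γ => ∀ a, P (a, γ) :=
  (((h.not hD).ex hD).not hD).congr fun γ => by simp

theorem exN_mem (n : ℕ) : ∀ p ∈ D, (fun l => ∃ t : List A, t.length = n ∧ p (t ++ l)) ∈ D := by
  induction n with
  | zero => intro p hp; simpa using hp
  | succ n ih =>
    intro p hp
    have := ih _ (hD.ex p hp)
    refine (congrArg (· ∈ D) (funext fun l => propext ⟨?_, ?_⟩)).mp this
    · rintro ⟨t, h, a, ha⟩; exact ⟨a :: t, by simp [h], ha⟩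
    · rintro ⟨_ | ⟨a, t⟩, h, ha⟩
      · simp at h
      · exact ⟨t, by simpa using h, a, ha⟩

theorem Df.exN {n : ℕ} {P : Vec A n × Γ → Prop} (h : Df D (vext n env) P) :
    Df D env fun γ => ∃ t, P (t, γ) := by
  obtain ⟨p, hp, h⟩ := h
  exact ⟨_, exN_mem hD n p hp, fun γ => ⟨fun ⟨t, h1, h2⟩ => ⟨⟨t, h1⟩, (h (⟨t, h1⟩, γ)).1 h2⟩,
    fun ⟨t, h2⟩ => ⟨t.1, t.2, (h (t, γ)).2 h2⟩⟩⟩

theorem Df.false : Df D env fun _ => False :=
  ⟨_, hD.and _ hD.eq _ (hD.neg _ hD.eq), fun _ => by simp⟩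

theorem Df.true : Df D env fun _ => True := ((Df.false hD).not hD).congr fun _ => by simp

theorem Df.mem (h : Lm env fun γ => [f γ]) (j : Lm env F) : Df D env fun γ => f γ ∈ F γ := by
  obtain ⟨r, j⟩ := j
  simp only [j]
  clear j
  induction r with
  | nil => simpa using Df.false hD
  | cons i r ih => exact ((Df.eq hD h ⟨[i], fun _ => rfl⟩).or hD ih).congr fun γ => by simp

theorem Df.nodup (j : Lm env F) : Df D env fun γ => (F γ).Nodup := by
  obtain ⟨r, j⟩ := j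
  simp only [j]
  clear j
  induction r with
  | nil => simpa using Df.true hD
  | cons i r ih =>
    exact (((Df.mem hD ⟨[i], fun _ => rfl⟩ ⟨r, fun _ => rfl⟩).not hD).and hD ih).congr fun γ => by
      rw [List.map_cons, List.nodup_cons]

theorem Df.leq (h : Lm env F) (j : Lm env H) : Df D env fun γ => F γ = H γ := by
  obtain ⟨r, h⟩ := h
  obtain ⟨s, j⟩ := j
  simp only [h, j]
  clear h j
  induction r generalizing s with
  | nil => cases s <;> simpa using (by first | exact Df.true hD | exact Df.false hD)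
  | cons i r ih =>
    cases s with
    | nil => simpa using Df.false hD
    | cons i' s =>
      exact ((Df.eq hD ⟨[i], fun _ => rfl⟩ ⟨[i'], fun _ => rfl⟩).and hD (ih s)).congr fun γ => by
        rw [List.map_cons, List.map_cons, List.cons.injEq]

theorem Df.union {ι : Type} {S : Set ι} (hS : S.Finite) {R : ι → Γ → Prop}
    (h : ∀ i ∈ S, Df D env (R i)) : Df D env fun γ => ∃ i ∈ S, R i γ := by
  induction S, hS using Set.Finite.induction_on with
  | empty => simpa using Df.false hD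
  | insert _ _ ih =>
    exact ((h _ (mem_insert _ _)).or hD (ih fun i hi => h i (mem_insert_of_mem _ hi))).congr
      fun γ => by simp

end

/-- definable sets and relations over `k` -/
def D1 (D : Set (List A → Prop)) (k : List A) (Y : A → Prop) : Prop :=
  ∃ p ∈ D, ∀ a, p (a :: k) ↔ Y a
def D2 (D : Set (List A → Prop)) (k : List A) (R : A → A → Prop) : Prop :=
  ∃ p ∈ D, ∀ a b, p (a :: b :: k) ↔ R a b

theorem D1.of_df {k : List A} {P : A × Unit → Prop} (h : Df D (ext fun _ : Unit => k) P) :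
    D1 D k fun a => P (a, ()) := by
  obtain ⟨p, hp, h⟩ := h
  exact ⟨p, hp, fun a => h (a, ())⟩

theorem D2.of_df {k : List A} {P : A × A × Unit → Prop}
    (h : Df D (ext (ext fun _ : Unit => k)) P) : D2 D k fun a b => P (a, b, ()) := by
  obtain ⟨p, hp, h⟩ := h
  exact ⟨p, hp, fun a b => h (a, b, ())⟩

theorem D1.app (hD : Closed D E) {k : List A} {Y : A → Prop} (h : D1 D k Y)
    (hf : Lm env fun γ => [f γ]) (hk : Lm env fun _ => k) : Df D env fun γ => Y (f γ) := by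
  obtain ⟨p, hp, h⟩ := h
  exact (Df.atom hD hp (hf.cons hk)).congr fun γ => h _

theorem D2.app (hD : Closed D E) {k : List A} {R : A → A → Prop} (h : D2 D k R)
    (hf : Lm env fun γ => [f γ]) (hg : Lm env fun γ => [g γ]) (hk : Lm env fun _ => k) :
    Df D env fun γ => R (f γ) (g γ) := by
  obtain ⟨p, hp, h⟩ := h
  exact (Df.atom hD hp (hf.cons (hg.cons hk))).congr fun γ => h _ _

/-- same type -/
def Eqv (D : Set (List A → Prop)) (l l' : List A) : Prop :=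
  l.length = l'.length ∧ ∀ p ∈ D, (p l ↔ p l')

variable {l l' l'' m m' k k' s t : List A} {x x' y y' : A}

omit [Inhabited A] in
theorem Eqv.refl (l : List A) : Eqv D l l := ⟨rfl, fun _ _ => Iff.rfl⟩
omit [Inhabited A] in
theorem Eqv.symm (h : Eqv D l l') : Eqv D l' l := ⟨h.1.symm, fun p hp => (h.2 p hp).symm⟩
omit [Inhabited A] in
theorem Eqv.trans (h : Eqv D l l') (j : Eqv D l' l'') : Eqv D l l'' :=
  ⟨h.1.trans j.1, fun p hp => (h.2 p hp).trans (j.2 p hp)⟩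

omit [Inhabited A] in
theorem Df.transfer (h : Df D env P) {γ γ' : Γ} (e : Eqv D (env γ) (env γ')) (j : P γ) : P γ' := by
  obtain ⟨p, hp, h⟩ := h
  exact (h _).1 ((e.2 p hp).1 ((h _).2 j))

theorem Eqv.sub (hD : Closed D E) {L M : List Γ} (h : Eqv D (L.map f) (L.map g)) (hs : M ⊆ L) :
    Eqv D (M.map f) (M.map g) := by
  obtain ⟨r, -, e⟩ := exists_idx (A := A) hs
  exact ⟨by simp, fun p hp => by rw [e, e]; exact h.2 _ (hD.ren p hp r)⟩

theorem Eqv.of_zip (hD : Closed D E) (h : Eqv D l l') (hm : m.length = m'.length)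
    (hs : m.zip m' ⊆ l.zip l') : Eqv D m m' := by
  have := Eqv.sub hD (f := Prod.fst) (g := Prod.snd) (L := l.zip l')
    (by rwa [List.map_fst_zip h.1.le, List.map_snd_zip h.1.ge]) hs
  rwa [List.map_fst_zip hm.le, List.map_snd_zip hm.ge] at this

theorem Eqv.tail (hD : Closed D E) (h : Eqv D (x :: l) (x' :: l')) : Eqv D l l' :=
  h.of_zip hD (by simpa using h.1) (by simp)

theorem Eqv.right (hD : Closed D E) (h : Eqv D (m ++ l) (m' ++ l')) (hm : m.length = m'.length) :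
    Eqv D l l' :=
  h.of_zip hD (by simpa [hm] using h.1) (by simp [List.zip_append hm])

theorem Eqv.left (hD : Closed D E) (h : Eqv D (m ++ l) (m' ++ l')) (hm : m.length = m'.length) :
    Eqv D m m' := h.of_zip hD hm (by simp [List.zip_append hm])

theorem Eqv.eq (hD : Closed D E) (h : Eqv D l l') (h1 : (x, x') ∈ l.zip l')
    (h2 : (y, y') ∈ l.zip l') : x = y ↔ x' = y' :=
  (h.of_zip hD (m := [x, y]) (m' := [x', y']) rfl (by simp [h1, h2])).2 _ hD.eq

theorem Eqv.rel (hD : Closed D E) (h : Eqv D (x :: y :: l) (x' :: y' :: l')) :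
    E l x y ↔ E l' x' y' := h.2 _ hD.rel

omit [Inhabited A] in
theorem exists_zip (h : l.length = l'.length) (hs : s ⊆ l) :
    ∃ s', s.length = s'.length ∧ s.zip s' ⊆ l.zip l' ∧ s' ⊆ l' := by
  induction s with
  | nil => exact ⟨[], rfl, by simp, by simp⟩
  | cons a s ih =>
    obtain ⟨s', h1, h2, h3⟩ := ih fun x hx => hs (List.mem_cons_of_mem _ hx)
    have : a ∈ (l.zip l').map Prod.fst := by
      rw [List.map_fst_zip h.le]; exact hs List.mem_cons_self
    obtain ⟨⟨a, b⟩, h4, rfl⟩ := List.mem_map.1 this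
    exact ⟨b :: s', by simp [h1], by simp [h2, h4], by simp [h3, (List.of_mem_zip h4).2]⟩

theorem Eqv.mem (hD : Closed D E) (h : Eqv D (x :: l) (x' :: l')) (hx : x ∈ l) : x' ∈ l' :=
  (Df.mem hD (env := ext Subtype.val) Lm.t0 Lm.self.up).transfer (γ := (x, ⟨l, rfl⟩))
    (γ' := (x', ⟨l', by simpa using h.1.symm⟩)) h hx

theorem Eqv.nodup (hD : Closed D E) (h : Eqv D l l') (hx : l.Nodup) : l'.Nodup :=
  (Df.nodup hD Lm.self).transfer (γ := ⟨l, rfl⟩) (γ' := ⟨l', h.1.symm⟩) h hx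

/-- the standing hypotheses -/
structure Hyp (D : Set (List A → Prop)) (E : List A → A → A → Prop) : Prop where
  cl : Closed D E
  fin : ∀ k, (dcl D k).Finite
  eqv : ∀ s, s.Nodup → Equivalence (E s) ∧ ∀ a, {b | E s a b}.Finite
  inj : ∀ s t, s.Nodup → t.Nodup → E s = E t → s = t
  surj : ∀ p ∈ D, ∀ k : List A, Equivalence (fun a b => p (a :: b :: k)) →
    (∀ a, {b | p (a :: b :: k)}.Finite) → ∃ s, s.Nodup ∧ E s = fun a b => p (a :: b :: k)

omit [Inhabited A] in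
theorem D1.dcl {Y : A → Prop} (h : D1 D k Y) (hx : Y x) (hu : ∀ b, Y b → b = x) : x ∈ dcl D k := by
  obtain ⟨p, hp, h⟩ := h
  exact ⟨p, hp, (h _).2 hx, fun b hb => hu b ((h _).1 hb)⟩

theorem Hyp.code (h : Hyp D E) {R : A → A → Prop} (hR : D2 D k R) (h1 : Equivalence R)
    (h2 : ∀ a, {b | R a b}.Finite) : ∃ s, s.Nodup ∧ E s = R ∧ ∀ x ∈ s, x ∈ dcl D k := by
  have hD := h.cl
  obtain ⟨s, s1, s2⟩ : ∃ s, s.Nodup ∧ E s = R := by
    obtain ⟨p, hp, e⟩ := hR
    obtain rfl : R = fun a b => p (a :: b :: k) := funext₂ fun a b => propext (e a b).symm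
    exact h.surj p hp k h1 h2
  refine ⟨s, s1, s2, fun x hx => ?_⟩
  obtain ⟨i, hi, rfl⟩ := List.getElem_of_mem hx
  have hk : Lm (fun _ : Unit => k) fun _ => k := Lm.const fun _ h => h
  refine (D1.of_df ((((Df.nodup hD Lm.vec).and hD ((((Df.rel hD Lm.vec.up.up Lm.t0.up Lm.t0).iff hD
    (hR.app hD Lm.t0.up Lm.t0 hk.up.vup.up.up)).all hD).all hD)).and hD (Df.eq hD Lm.t0.vup
      (Lm.vec.sub (n := s.length) (fun γ => γ.1.2) (r := [i]) (by simpa using hi)))).exN hD)).dcl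
    ⟨⟨s, rfl⟩, ⟨s1, fun a b => by rw [s2]⟩, by simp [hi]⟩ ?_
  rintro b ⟨⟨t, ht⟩, ⟨t1, t2⟩, t3⟩
  obtain rfl := h.inj t s t1 s1 (s2 ▸ funext₂ fun a b => propext (t2 a b))
  simpa [hi] using t3

theorem Hyp.fin_rel (h : Hyp D E) (k : List A) :
    {R : A → A → Prop | D2 D k R ∧ Equivalence R ∧ ∀ a, {b | R a b}.Finite}.Finite := by
  classical
  have := (h.fin k).fintype
  refine (Set.finite_range fun s : {s : List (dcl D k) // s.Nodup} =>
    E (s.1.map Subtype.val)).subset ?_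
  rintro R ⟨h1, h2, h3⟩
  obtain ⟨s, s1, s2, s3⟩ := h.code h1 h2 h3
  lift s to List (dcl D k) using s3
  exact ⟨⟨s, s1.of_map _⟩, s2⟩

/-- `x` is definable over `k` or lies in a non-trivial block of a partition coded in `k`. -/
def Step (D : Set (List A → Prop)) (E : List A → A → A → Prop) (k : List A) (x : A) : Prop :=
  x ∈ dcl D k ∨ ∃ s : List A, s.Nodup ∧ s ⊆ k ∧ ∃ y, y ≠ x ∧ E s x y

theorem Step.mono (hD : Closed D E) (h : Step D E k x) (hk : k ⊆ k') : Step D E k' x := by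
  rcases h with ⟨p, hp, h1, h2⟩ | ⟨s, s1, s2, s3⟩
  · exact Or.inl ((D1.of_df (Df.atom hD hp (Lm.t0.cons (Lm.const hk).up))).dcl h1 h2)
  · exact Or.inr ⟨s, s1, List.Subset.trans s2 hk, s3⟩

theorem Step.transfer (hD : Closed D E) (h : Step D E k x) (e : Eqv D (x :: k) (x' :: k')) :
    Step D E k' x' := by
  have hl : k.length = k'.length := by simpa using e.1
  rcases h with ⟨p, hp, h1, h2⟩ | ⟨s, s1, s2, s3⟩
  · exact Or.inl ⟨p, hp, (e.2 p hp).1 h1, (((Df.atom hD hp (Lm.t0.cons Lm.self.up.up)).imp hD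
      (Df.eq hD Lm.t0 Lm.t0.up)).all hD).transfer (γ := (x, ⟨k, rfl⟩)) (γ' := (x', ⟨k', hl.symm⟩))
      e h2⟩
  · obtain ⟨s', a1, a2, a3⟩ := exists_zip hl s2
    have e' : Eqv D (x :: s) (x' :: s') :=
      e.of_zip hD (by simp [a1]) (List.cons_subset_cons _ a2)
    exact Or.inr ⟨s', (e'.tail hD).nodup hD s1, a3,
      ((((Df.eq hD Lm.t0 Lm.t0.up).not hD).and hD
        (Df.rel hD Lm.self.up.up Lm.t0.up Lm.t0)).ex hD).transfer (γ := (x, ⟨s, rfl⟩))
        (γ' := (x', ⟨s', a1.symm⟩)) e' s3⟩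

theorem Hyp.isolate (h : Hyp D E) (hx : Step D E k x) :
    ∃ p ∈ D, p (x :: k) ∧ ∀ x', p (x' :: k) → Eqv D (x :: k) (x' :: k) := by
  have hD := h.cl
  rcases hx with ⟨p, hp, h1, h2⟩ | ⟨s, s1, s2, s3⟩
  · exact ⟨p, hp, h1, fun x' hx' => h2 x' hx' ▸ Eqv.refl _⟩
  obtain ⟨q, qf⟩ := h.eqv s s1
  have hk : Lm (fun _ : Unit => k) fun _ => k := Lm.const fun _ h => h
  have hs : Lm (fun _ : Unit => k) fun _ => s := Lm.const s2
  set S := {Y : A → Prop | D1 D k Y ∧ Y x ∧ ∀ z, Y z → ∃ y, y ≠ z ∧ E s z y}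
  set QY := fun (Y : A → Prop) (a b : A) => a = b ∨ (E s a b ∧ ∃ y, Y y ∧ E s a y)
  have f1 : (QY '' S).Finite := (h.fin_rel k).subset (by
    rintro _ ⟨Y, ⟨hY, -⟩, rfl⟩
    refine ⟨D2.of_df ((Df.eq hD Lm.t0 Lm.t0.up).or hD ((Df.rel hD hs.up.up Lm.t0 Lm.t0.up).and hD
      (((hY.app hD Lm.t0 hk.up.up.up).and hD (Df.rel hD hs.up.up.up Lm.t0.up Lm.t0)).ex hD))),
      ⟨fun a => Or.inl rfl, ?_, ?_⟩, fun a => (qf a).subset ?_⟩
    · rintro a b (rfl | ⟨h1, y, h2, h3⟩)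
      · exact Or.inl rfl
      · exact Or.inr ⟨q.symm h1, y, h2, q.trans (q.symm h1) h3⟩
    · rintro a b c (rfl | ⟨h1, h2⟩) (rfl | ⟨h3, h4⟩)
      · exact Or.inl rfl
      · exact Or.inr ⟨h3, h4⟩
      · exact Or.inr ⟨h1, h2⟩
      · exact Or.inr ⟨q.trans h1 h3, h2⟩
    · rintro b (rfl | h1)
      · exact q.refl _
      · exact h1.1)
  obtain ⟨Y₀, m0, m1⟩ := f1.exists_minimalFor' QY S ⟨fun z => ∃ y, y ≠ z ∧ E s z y,
    D1.of_df ((((Df.eq hD Lm.t0 Lm.t0.up).not hD).and hD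
      (Df.rel hD hs.up.up Lm.t0.up Lm.t0)).ex hD), s3, fun _ h => h⟩
  obtain ⟨Y₁, ⟨m2, m3⟩, m4⟩ := exists_minimalFor_of_wellFoundedLT
    (fun Y => Y ∈ S ∧ ∀ z, Y z → Y₀ z) (fun Y => {z | Y z ∧ E s x z}.ncard) ⟨Y₀, m0, fun _ h => h⟩
  have key : ∀ Y, D1 D k Y → Y x → ∀ z, Y₁ z → Y z := by
    intro Y hY hx z hz
    have a1 : {z | (Y₁ z ∧ Y z) ∧ E s x z} = {z | Y₁ z ∧ E s x z} := by
      have sub : {z | (Y₁ z ∧ Y z) ∧ E s x z} ⊆ {z | Y₁ z ∧ E s x z} := fun z h => ⟨h.1.1, h.2⟩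
      have fi : {z | Y₁ z ∧ E s x z}.Finite := (qf x).subset fun z h => h.2
      exact eq_of_subset_of_ncard_le sub (m4 (j := fun z => Y₁ z ∧ Y z)
        ⟨⟨D1.of_df ((m2.1.app hD Lm.t0 hk.up).and hD (hY.app hD Lm.t0 hk.up)), ⟨m2.2.1, hx⟩,
          fun z h => m2.2.2 z h.1⟩, fun z h => m3 z h.1⟩ (ncard_le_ncard sub fi)) fi
    have a2 := m1 (j := fun z => Y₁ z ∧ ∀ w, E s z w → Y₁ w → Y w)
      ⟨D1.of_df ((m2.1.app hD Lm.t0 hk.up).and hD (((Df.rel hD hs.up.up Lm.t0.up Lm.t0).imp hD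
        ((m2.1.app hD Lm.t0 hk.up.up).imp hD (hY.app hD Lm.t0 hk.up.up))).all hD)),
        ⟨m2.2.1, fun w h1 h2 => (a1.ge (show w ∈ {z | Y₁ z ∧ E s x z} from ⟨h2, h1⟩)).1.2⟩,
        fun z h => m2.2.2 z h.1⟩
      fun a b h => h.imp_right fun ⟨h1, y, h2, h3⟩ => ⟨h1, y, m3 y h2.1, h3⟩
    obtain ⟨y, y1, y2⟩ := m2.2.2 z hz
    obtain ⟨-, w, w1, w2⟩ := (a2 z y (Or.inr ⟨y2, z, m3 z hz, q.refl z⟩)).resolve_left y1.symm
    exact w1.2 z (q.symm w2) hz
  obtain ⟨p, hp, e⟩ := m2.1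
  refine ⟨p, hp, (e _).2 m2.2.1, fun x' hx' => ⟨rfl, fun r hr => ⟨fun j => ?_, fun j => ?_⟩⟩⟩
  · exact key _ ⟨r, hr, fun _ => Iff.rfl⟩ j x' ((e _).1 hx')
  · by_contra j'
    exact key _ ⟨_, hD.neg r hr, fun _ => Iff.rfl⟩ j' x' ((e _).1 hx') j

theorem iso_transfer (hD : Closed D E) {p : List A → Prop} (hp : p ∈ D)
    (h : ∀ x', p (x' :: k) → Eqv D (x :: k) (x' :: k)) (e : Eqv D k k') (hx : p (x' :: k')) :
    Eqv D (x :: k) (x' :: k') := by
  have key : ∀ r ∈ D, r (x :: k) → r (x' :: k') := fun r hr j => by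
    by_contra j'
    obtain ⟨a, a1, a2⟩ := (e.2 _ (hD.ex _ (hD.and p hp _ (hD.neg r hr)))).2 ⟨x', hx, j'⟩
    exact a2 (((h a a1).2 r hr).1 j)
  exact ⟨by simp [e.1], fun r hr => ⟨key r hr, fun j => by_contra fun j' =>
    key _ (hD.neg r hr) j' j⟩⟩

theorem Hyp.extend (h : Hyp D E) (hx : Step D E k x) (e : Eqv D k k') :
    ∃ x', Eqv D (x :: k) (x' :: k') := by
  obtain ⟨p, hp, h1, h2⟩ := h.isolate hx
  obtain ⟨x', hx'⟩ := (e.2 _ (h.cl.ex p hp)).1 ⟨x, h1⟩
  exact ⟨x', iso_transfer h.cl hp h2 e hx'⟩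

end Pool.Agent.P.MP_e517ea_lc.Mdl
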