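import Pool.Agent.P.MP_e517ea_lc.Main

namespace Pool.Agent.P.MP_e517ea_lc.OldNoBijection

open Pool.Agent.Lib.Forcing Pool.Agent.P.MP_e517ea_lc

/-- In every transitive model `M` of ZF, for every set `A` of `M` that is infinite in `M`, there is
no bijection in `M` between the finitary partitions of `A` and the injective finite sequences of
elements of `A`. -/
theorem result (M : Set ZFSet.{0}) (hM : IsZFModel M) (A : ZFSet.{0}) (hA : A ∈ M)
    (hinf : ¬ FiniteIn M A) : ¬ EqCard M (finParts M A) (injSeqs M A) :=
  main hM hA hinf

end Pool.Agent.P.MP_e517ea_lc.OldNoBijection
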