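import Pool.Agent.P.MP_e517ea_lc.Budget

/-!
Two minimal classes: bounds for fixed points, and the bound for the number of new fixed points.
-/

namespace Pool.Agent.P.MP_e517ea_lc

open Set

variable {G A : Type*} [Group G] [MulAction G A]

/-- A base together with a bound `Y` for the number of new fixed points of minimal classes. -/
structure Base2 (A : Type*) [MulAction G A] (U : Subgroup G) (J w ka Y : ℕ) : Prop
    extends Base A U J w where
  hY : ∀ a : A, Min U a → (F0 U a).ncard ≤ Y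
  hYl : (ka + 4) * Y ≤ (Fix A U).ncard
  big : 2 * w ^ 2 < Y
  hm : ∃ m k, 4 * w ^ Y < m ^ m ∧ 2 * (4 * m) ^ (4 * m) ≤ 2 ^ k ∧ 4 * Y ≤ k ∧ 3 * k ≤ ka * Y

variable {U U' V W : Subgroup G} {a b c d x : A} {g : G} {X S K : Set A} {J w ka Y : ℕ}

theorem stab_biUnion {ι : Type*} {s : Set ι} {T : ι → Set A} (h : ∀ i ∈ s, Stab W (T i)) :
    Stab W (⋃ i ∈ s, T i) := fun g hg a ha => by
  obtain ⟨i, hi, ha⟩ := mem_iUnion₂.1 ha
  exact mem_iUnion₂.2 ⟨i, hi, h i hi g hg a ha⟩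

theorem cs_biUnion {ι : Type*} {s : Set ι} {T : ι → Set A} (h : ∀ i ∈ s, CS W (T i)) :
    CS W (⋃ i ∈ s, T i) := fun a ha b e => by
  obtain ⟨i, hi, ha⟩ := mem_iUnion₂.1 ha
  exact mem_iUnion₂.2 ⟨i, hi, h i hi a ha b e⟩

theorem inf_SS_le (h : V ≤ U) (e : cl V x = cl V a) : V ⊓ SS U a ≤ SS V x := fun _ hg =>
  SS_congr e ▸ ⟨hg.1, cl_eq_mono h hg.2.2⟩

theorem stab_biUnion_cls (h : W ≤ U) (hK : K ⊆ Fix A W) : Stab W (⋃ a ∈ K, cls U a) :=
  stab_biUnion fun a ha => stab_cls.mono fun g hg => ⟨h hg, by rw [hK ha g hg]⟩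

theorem nn_UX_le (h : W ≤ U) (hf : FinG A W) (hK : K ⊆ Fix A W) :
    nn U (⋃ a ∈ K, XO U U a) ≤ nn W (⋃ a ∈ K, cls U a) :=
  nn_le_of_cls h hf (stab_biUnion_cls h hK) fun z hz => by
    obtain ⟨a, ha, hz⟩ := mem_iUnion₂.1 hz
    obtain ⟨g, hg, e⟩ := XO_symm le_rfl hz
    exact ⟨g, hg, cls_congr e ▸ subset_biUnion_of_mem (u := fun a => cls U a) ha⟩

variable (B : Base2 A U J w ka Y)
include B

theorem Base2.Yl : Y ≤ (Fix A U).ncard := le_trans (by nlinarith) B.hYl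

theorem Base2.pos : 0 < Y ∧ 0 < w := ⟨by have := B.big; omega, by have := B.two; omega⟩

theorem Base2.lt (ha : a ∉ acl A U) : nn U (XO U U a) ≤ (2 * Y * w) ^ Y := by
  obtain ⟨h1, h2⟩ := B.pos
  by_cases h : Min U a
  · have := B.hY a h
    refine (B.lt_min h (this.trans B.Yl)).trans ((Nat.pow_le_pow_left ?_ _).trans
      (Nat.pow_le_pow_right (by positivity) this))
    gcongr
  · obtain ⟨b, hb, hm⟩ := B.hyp.exists_min B.opn ha
    exact (B.lt_nonmin hm (B.hY b hm) B.Yl h hb).trans (Nat.pow_le_pow_left (by nlinarith) _)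

theorem Base2.NN_le (hc : Min U c) : NN A (SS U c) ≤ w ^ Y * NN A U :=
  B.bl (B.opn.SS c) SS_le (B.hY c hc) B.Yl

theorem Base2.f1 (hc : Min U c) (hX : Stab U X) (hs : CS U X) (h : X ⊆ (acl A U)ᶜ) :
    nn (SS U c) (X \ cl U c) ≤ w ^ Y * nn U X :=
  B.acl_SS c ▸ B.hyp.f1 (B.opn.SS c) SS_le (B.NN_le hc) hX hs h

theorem Base2.sym (hc : Min U c) (hd : d ∉ cl U c) (hK : K ⊆ cls U d)
    (hK' : K ⊆ Fix A (SS U c ⊓ SS U d)) : K.ncard < 4 * Y := by
  by_contra h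
  have H := B.hyp
  obtain ⟨h1, h2⟩ := B.pos
  have hKf := (H.clsf B.opn d).subset hK
  have hd' : d ∉ acl A U := fun h => hd (acl_subset_cl h)
  have k1 := nn_lower (H.fin ((B.opn.SS c).inf (B.opn.SS d))) hKf (fun g hg a ha => hK' ha g hg)
    (a := Y) (by omega)
  have k2 := nn_cls_le (X := XO U U d \ cl U c) SS_le (H.fin (B.opn.SS c)) hKf hK (stab_Fix hK')
    (((stab_XO le_rfl).mono SS_le).diff stab_cl) fun z hz => ⟨cls_subset_XO (hK hz), fun h =>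
      hd (cl_subset le_rfl h (mem_cl_of_eq (hK hz).symm))⟩
  have k3 := B.f1 hc (stab_XO le_rfl) cs_XO (XO_subset_compl le_rfl hd')
  have k4 := (Nat.pow_le_pow_right h1 (by omega : 3 * Y ≤ K.ncard - Y)).trans
    (k1.trans (k2.trans (k3.trans (Nat.mul_le_mul_left _ (B.lt hd')))))
  rw [← mul_pow, pow_mul, Nat.pow_le_pow_iff_left h1.ne'] at k4
  have := B.big
  have k5 : Y * (Y * Y) ≤ Y * (2 * w ^ 2) := by nlinarith
  have := Nat.le_of_mul_le_mul_left k5 h1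
  nlinarith

theorem Base2.lemF (hc : Min U c) (hx : x ∉ cl U c) :
    (Fix A (SS (SS U c) x) ∩ cls (SS U c) x).ncard ≤ ka * Y := by
  by_contra h
  have H := B.hyp
  obtain ⟨m, k, m1, m2, m3, m4⟩ := B.hm
  set V := SS U c with hV
  set W := SS V x with hW
  set F := Fix A W ∩ cls V x with hF
  have hVo : Opn A V := B.opn.SS c
  have hWo : Opn A W := hVo.SS x
  have hD := H.clsf hVo x
  have hFf : F.Finite := hD.subset inter_subset_right
  have hWU : W ≤ U := SS_le.trans SS_le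
  have hn : ∀ a ∈ cls V x, a ∉ cl U c := fun a ha =>
    B.acl_SS c ▸ notMem_acl_of_eq le_rfl ha (B.acl_SS c ▸ hx)
  obtain ⟨K, ⟨k1, k2, k3⟩, k4⟩ := exists_min_image
    {K | K ⊆ F ∧ (∀ a ∈ K, ∀ b ∈ F, cl U a = cl U b → b ∈ K) ∧ k ≤ K.ncard} ncard
    (hFf.finite_subsets.subset fun _ h => h.1) ⟨F, Subset.rfl, fun _ _ _ h _ => h, by omega⟩
  have hKf := hFf.subset k1
  obtain ⟨a, ha⟩ : K.Nonempty := (ncard_pos hKf).1 (by have := B.pos; omega)
  have k5 : (K ∩ cls U a).ncard < 4 * Y := B.sym hc (hn a (k1 ha).2) inter_subset_right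
    fun z hz => Fix_anti (inf_SS_le SS_le (k1 ha).2) (k1 hz.1).1
  have k6 : (K \ cls U a).ncard < k := by
    by_contra h'
    exact absurd (k4 (K \ cls U a) ⟨sdiff_subset.trans k1, fun y hy z hz e =>
      ⟨k2 y hy.1 z hz e, fun h => hy.2 (h.trans e.symm)⟩, not_lt.1 h'⟩)
      (not_le.2 (ncard_lt_ncard ⟨sdiff_subset, fun h => (h ha).2 (mem_cls_self U a)⟩ hKf))
  have k7 := ncard_inter_add_ncard_sdiff_eq_ncard K (cls U a) hKf
  have k8 := ncard_sdiff_add_ncard_of_subset k1 hFf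
  have hsub : ∀ K' ⊆ F, (⋃ a ∈ K', cls U a) ⊆ cls V x := fun K' h =>
    iUnion₂_subset fun a ha z hz => (h ha).2.trans (cl_eq_mono SS_le hz)
  have hfix : ∀ K' ⊆ F, K' ⊆ Fix A W := fun K' h => h.trans inter_subset_left
  have hself : ∀ K' : Set A, K' ⊆ ⋃ a ∈ K', cls U a := fun K' a ha =>
    mem_iUnion₂.2 ⟨a, ha, mem_cls_self U a⟩
  have hU : ∀ K' ⊆ F, (⋃ a ∈ K', XO U U a) ⊆ (acl A U)ᶜ := fun K' h =>
    iUnion₂_subset fun a ha => XO_subset_compl le_rfl fun h' => hn a (h ha).2 (acl_subset_cl h')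
  have k9 : F \ K ⊆ F := sdiff_subset
  have j1 := join (H.fin hWo) (hD.subset (hsub K k1)) (hD.subset (hsub _ k9))
    (stab_biUnion_cls hWU (hfix K k1)) (stab_biUnion_cls hWU (hfix _ k9))
    (disjoint_left.2 fun z h1 h2 => by
      obtain ⟨y, hy, h1⟩ := mem_iUnion₂.1 h1
      obtain ⟨y', hy', h2⟩ := mem_iUnion₂.1 h2
      exact hy'.2 (k2 y hy y' hy'.1 (h1.trans h2.symm)))
    (hself K) (hself _) (fun g hg a ha => hfix K k1 ha g hg) (fun g hg a ha => hfix _ k9 ha g hg)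
    (m2.trans (Nat.pow_le_pow_right two_pos k3)) (m2.trans (Nat.pow_le_pow_right two_pos (by omega)))
  have hs1 : ∀ K' : Set A, Stab U (⋃ a ∈ K', XO U U a) := fun K' =>
    stab_biUnion fun _ _ => stab_XO le_rfl
  have hs2 : ∀ K' : Set A, CS U (⋃ a ∈ K', XO U U a) := fun K' => cs_biUnion fun _ _ => cs_XO
  have hS := union_subset (hsub K k1) (hsub _ k9)
  have j2 := nn_cls_le (X := ((⋃ a ∈ K, XO U U a) ∪ ⋃ a ∈ F \ K, XO U U a) \ cl U c) le_rfl
    (H.fin hVo) (hD.subset hS) hS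
    (((stab_biUnion_cls hWU (hfix K k1)).union (stab_biUnion_cls hWU (hfix _ k9))).mono inf_le_right)
    ((((hs1 _).union (hs1 _)).mono SS_le).diff stab_cl)
    fun z hz => ⟨hz.imp (fun h => iUnion₂_mono (fun _ _ => cls_subset_XO) h)
      (fun h => iUnion₂_mono (fun _ _ => cls_subset_XO) h), hn z (hS hz)⟩
  rw [inf_eq_right.2 SS_le] at j2
  have j3 := B.f1 hc ((hs1 K).union (hs1 (F \ K))) ((hs2 _).union (hs2 _))
    (union_subset (hU K k1) (hU _ k9))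
  have j4 := (nn_union_le (X' := ⋃ a ∈ F \ K, XO U U a) (H.fin B.opn) (hs1 K) (hs2 K).sat).trans
    (Nat.mul_le_mul (nn_UX_le hWU (H.fin hWo) (hfix K k1)) (nn_UX_le hWU (H.fin hWo) (hfix _ k9)))
  have j5 := j1.trans (Nat.mul_le_mul_left _ (j2.trans (j3.trans (Nat.mul_le_mul_left _ j4))))
  rw [← mul_assoc 4] at j5
  exact absurd (Nat.le_of_mul_le_mul_right j5
    (Nat.mul_pos (nn_pos (H.fin hWo) _) (nn_pos (H.fin hWo) _))) (not_le.2 m1)

/-- A lowest fixed point of two minimal classes has a small budget. -/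
theorem Base2.gl (hc : Min U c) (hb : Min U b) (hbc : b ∉ cl U c)
    (hx : x ∈ Fix A (SS U c ⊓ SS U b)) (hx' : x ∉ cl U c) :
    ∃ y ∈ cl (SS U c) x, y ∉ cl U c ∧
      NN A (SS (SS U c) y) ≤ w ^ ((ka + 4) * Y) * NN A (SS U c) := by
  have H := B.hyp
  set V := SS U c with hV
  have hVo : Opn A V := B.opn.SS c
  have hW := hVo.inf (B.opn.SS b)
  obtain ⟨y, ⟨y1, y2, y3⟩, y4⟩ := exists_min_image
    {y | y ∈ Fix A (V ⊓ SS U b) ∧ y ∈ cl V x ∧ y ∉ cl U c} (fun y => (cl V y).ncard)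
    ((H.fix hW).subset fun _ h => h.1) ⟨x, hx, mem_cl_self V x, hx'⟩
  refine ⟨y, y2, y3, (B.bl (hVo.SS y) (SS_le.trans SS_le) ?_ B.hYl).trans
    (Nat.mul_le_mul_left _ (H.NN_mono hVo SS_le))⟩
  have k1 : Fix A (SS V y) ⊆ Fix A (V ⊓ SS U b) :=
    Fix_anti fun g hg => ⟨hg.1, by rw [y1 g hg]⟩
  have k2 : Fix A (SS V y) \ Fix A U ⊆
      (Fix A (SS V y) ∩ cls V y) ∪ (cls U c ∩ Fix A (SS U b ⊓ SS U c)) := by
    intro z hz
    by_cases h : z ∈ cl U c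
    · exact Or.inr ⟨hc.2 z h (B.closed ▸ hz.2), inf_comm V (SS U b) ▸ k1 hz.1⟩
    · have h1 : z ∈ cl V y := acl_SS (H.clf hVo y) ▸ Fix_subset_acl hz.1
      exact Or.inl ⟨hz.1, (eq_of_subset_of_ncard_le (cl_subset le_rfl h1)
        (y4 z ⟨k1 hz.1, cl_subset le_rfl y2 h1, h⟩) (H.clf hVo y)).symm⟩
  have k3 : (Fix A (SS V y) ∩ cls V y).ncard ≤ ka * Y := B.lemF hc y3
  have k4 := B.sym (K := cls U c ∩ Fix A (SS U b ⊓ SS U c)) hb
    (fun h => hbc (hb.2 c h hc.1 ▸ mem_cl_self U b)) inter_subset_left inter_subset_right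
  have k5 := (ncard_le_ncard k2 (((H.clsf hVo y).subset inter_subset_right).union
    ((H.clsf B.opn c).subset inter_subset_left))).trans (ncard_union_le _ _)
  rw [add_mul]
  omega

/-- The classes strictly above such a point. -/
theorem Base2.gl' (hc : Min U c) (hb : Min U b) (hbc : b ∉ cl U c)
    (hx : x ∈ Fix A (SS U c ⊓ SS U b)) (hx' : x ∉ cl U c) {ι : Type*} (s : Finset ι) (e : ι → A)
    (h1 : ∀ i ∈ s, x ∈ cl (SS U c) (e i)) (h2 : ∀ i ∈ s, e i ∉ cl (SS U c) x)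
    (hd : (s : Set ι).PairwiseDisjoint fun i => XO (SS U c) (SS U c) (e i)) :
    ∏ i ∈ s, nn (SS U c) (XO (SS U c) (SS U c) (e i)) ≤ w ^ ((ka + 4) * Y) := by
  have H := B.hyp
  have hVo := B.opn.SS c
  obtain ⟨y, y1, y2, y3⟩ := B.gl hc hb hbc hx hx'
  have e1 := acl_SS (H.clf hVo y)
  have := (H.sp (hVo.SS y) SS_le s e (fun i hi h => h2 i hi (cl_subset le_rfl y1 (e1 ▸ h)))
    (fun i hi => ⟨y, cl_subset le_rfl (h1 i hi) y1, e1 ▸ mem_cl_self _ y, B.acl_SS c ▸ y2⟩)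
    hd).trans y3
  rw [mul_comm] at this
  exact Nat.le_of_mul_le_mul_right this (H.NN_pos hVo)

end Pool.Agent.P.MP_e517ea_lc
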