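import Pool.Agent.P.MP_e517ea_lc.LemA

/-!
Orbits whose number of invariant partitions less than doubles after fixing a minimal class.
-/

namespace Pool.Agent.P.MP_e517ea_lc

open Set

variable {G A : Type*} [Group G] [MulAction G A]

/-- Stable orbits. -/
def Stb (U : Subgroup G) (c : A) (O : Set A) : Prop :=
  O ∈ Orb A U ∧ nn (SS U c) (O \ cl U c) < 2 * nn U O

/-- Big minimal points. -/
def BigP (U : Subgroup G) (a : A) : Prop := Min U a ∧ 65 < (F0 U a).ncard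

/-- Big minimal orbits. -/
def Big (U : Subgroup G) (O : Set A) : Prop := ∃ a ∈ O, BigP U a

/-- Good orbits. -/
def Good (U : Subgroup G) (c : A) (T : ℕ) (O : Set A) : Prop :=
  Stb U c O ∧ (nn U O ≤ T ∨ Big U O)

/-- The orbit of classes of the smaller group that contains a stable orbit. -/
def lab (U : Subgroup G) (c : A) (O : Set A) : Set A :=
  ⋃ d ∈ O \ cl U c, XO (SS U c) (SS U c) d

variable {U U' V W : Subgroup G} {a b c d d' e x : A} {g : G} {X S R K O O' : Set A}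
  {J w ka Y T : ℕ}

theorem BigP.of_XO (h : BigP U a) (hb : b ∈ XO U U a) : BigP U b :=
  ⟨h.1.of_XO hb, ncard_F0_XO hb ▸ h.2⟩

theorem Big.pt (h : Big U O) (hO : O ∈ Orb A U) (hd : d ∈ O) : BigP U d := by
  obtain ⟨a, ha, h⟩ := h
  exact h.of_XO (Orb.eq hO ha ▸ hd)

theorem BigP.nonempty (h : BigP U a) : (F0 U a).Nonempty :=
  nonempty_of_ncard_ne_zero (by have := h.2; omega)

theorem subset_lab : O \ cl U c ⊆ lab U c O := fun d hd => mem_iUnion₂.2 ⟨d, hd, mem_XO_self⟩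

theorem XO_subset_XO (h : V ≤ U) : XO U V d ⊆ XO V V d := fun _ ⟨g, hg, e⟩ =>
  ⟨g, hg, cl_eq_mono h e⟩

theorem stab_SO (hO : O ∈ Orb A U) : Stab (SS U c) (O \ cl U c) :=
  ((Orb.stab hO).mono SS_le).diff stab_cl

theorem exists_mem_cls (hS : Stab V S) (h : S ⊆ XO V V e) (hx : x ∈ S) :
    (S ∩ cls V e).Nonempty := by
  obtain ⟨g, hg, h1⟩ := XO_symm le_rfl (h hx)
  exact ⟨g • x, hS g hg x hx, h1.symm⟩

theorem Hyp.loc_le (H : Hyp G A) (hV : Opn A V) (hS : Stab V S) (h : S ⊆ XO V V e) :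
    nn V S ≤ nn (SS V e) (S ∩ cls V e) := by
  refine Detects.le (fun P hP a b hab hne => ?_) SS_le (H.fin (hV.SS e))
    ((hS.mono SS_le).inter stab_cls)
  obtain ⟨h1, h2⟩ := (hP.2.2 a b hab).resolve_left hne
  obtain ⟨g, hg, h3⟩ := XO_symm le_rfl (h h1)
  exact ⟨g, hg, ⟨hS g hg a h1, h3.symm⟩, hS g hg b h2,
    h3.symm.trans (cl_smul_eq hg (Inv.cl_eq hP hab))⟩

theorem Hyp.loc_ge (H : Hyp G A) (hV : Opn A V) (hS : Stab V S) :
    nn (SS V e) (S ∩ cls V e) ≤ nn V S := by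
  have := nn_cls_le (a := e) le_rfl (H.fin hV) ((H.clsf hV e).subset inter_subset_right)
    inter_subset_right (((hS.mono SS_le).inter stab_cls).mono inf_le_right) hS inter_subset_left
  rwa [inf_eq_right.2 SS_le] at this

theorem Hyp.gain_loc (H : Hyp G A) (hV : Opn A V) (hS : Stab V S) (hR : Stab V R)
    (hd : Disjoint S R) : nn (SS V e) (S ∩ cls V e) * nn (SS V e) (R ∩ cls V e) +
      mm (SS V e) (S ∩ cls V e) * mm (SS V e) (R ∩ cls V e) ≤ nn V (S ∪ R) := by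
  have hD := H.clsf hV e
  refine (gain (H.fin (hV.SS e)) (hD.subset inter_subset_right) (hD.subset inter_subset_right)
    (hd.mono inter_subset_left inter_subset_left)).trans ?_
  rw [← union_inter_distrib_right]
  exact H.loc_ge hV (hS.union hR)

theorem Hyp.mm_loc (H : Hyp G A) (hV : Opn A V) (hS : Stab V S) (h : S ⊆ XO V V e) (hx : x ∈ S) :
    1 ≤ mm (SS V e) (S ∩ cls V e) :=
  mm_pos (H.fin (hV.SS e)) ((H.clsf hV e).subset inter_subset_right)
    ((hS.mono SS_le).inter stab_cls) (exists_mem_cls hS h hx)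

variable (B : Base A U J w)
include B

theorem Base.det (hO : O ∈ Orb A U) : nn U O ≤ nn (SS U c) (O \ cl U c) :=
  B.acl_SS c ▸ B.hyp.det (B.opn.SS c) SS_le (Orb.stab hO) (Orb.cs hO) (Orb.subset hO)

theorem Base.exists_gen (hO : O ∈ Orb A U) (c : A) :
    ∃ d ∈ O \ cl U c, d ∈ Gen U (SS U c) := by
  obtain ⟨a, ha, rfl, -⟩ := hO
  obtain ⟨g, hg, h⟩ := B.hyp.exists_gen B.opn (B.opn.SS c) ha
  exact ⟨_, ⟨smul_mem_XO hg, B.acl_SS c ▸ gen_subset h⟩, h⟩

theorem Base.tr (h : Stb U c O) (hd : d ∈ O \ cl U c) (hd' : d' ∈ O \ cl U c) :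
    d' ∈ XO U (SS U c) d := by
  by_contra h0
  have e := Orb.eq h.1 hd.1
  have := nn_split (a := d) SS_le (B.hyp.fin (B.opn.SS c)) mem_XO_self (e ▸ hd'.1)
    (B.acl_SS c ▸ hd.2) (B.acl_SS c ▸ hd'.2) h0
  rw [e, B.acl_SS] at this
  exact absurd ((Nat.mul_le_mul_right _ (Orb.two_le h.1)).trans this) (not_le.2 h.2)

theorem Base.gen (h : Stb U c O) (hd : d ∈ O \ cl U c) : d ∈ Gen U (SS U c) := by
  obtain ⟨y, h1, h2⟩ := B.exists_gen h.1 c
  exact XO_subset (stab_gen SS_le) cs_gen h2 (B.tr h h1 hd)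

theorem Base.SO_eq (h : Stb U c O) (hd : d ∈ O \ cl U c) : XO U (SS U c) d = O \ cl U c :=
  (XO_subset (stab_SO h.1) ((Orb.cs h.1).diff (B.acl_SS c ▸ cs_acl SS_le)) hd).antisymm
    fun _ hx => B.tr h hd hx

theorem Base.lab_eq (h : Stb U c O) (hd : d ∈ O \ cl U c) :
    lab U c O = XO (SS U c) (SS U c) d :=
  (iUnion₂_subset fun _ hy => (XO_eq le_rfl (XO_subset_XO SS_le (B.tr h hd hy))).subset).antisymm
    (subset_biUnion_of_mem (u := fun d => XO (SS U c) (SS U c) d) hd)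

theorem Base.exists_lab (h : Stb U c O) :
    ∃ d ∈ O \ cl U c, lab U c O = XO (SS U c) (SS U c) d := by
  obtain ⟨d, hd, -⟩ := B.exists_gen h.1 c
  exact ⟨d, hd, B.lab_eq h hd⟩

/-- A class of the smaller group contains at most one class of a stable big orbit. -/
theorem Base.st3 (h : Stb U c O) (hb : Big U O) (hd : d ∈ O \ cl U c) (hd' : d' ∈ O \ cl U c)
    (e : cl (SS U c) d = cl (SS U c) d') : cl U d = cl U d' := by
  by_contra h0
  have H := B.hyp
  have hV := B.opn.SS c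
  have hp := hb.pt h.1 hd.1
  obtain ⟨x, hx⟩ := hp.nonempty
  have ex : cl U d = cl U x := B.F0_cls hp.1 hx
  have hxO : x ∈ O \ cl U c := B.SO_eq h hd ▸ cls_subset_XO ex
  obtain ⟨v, hv, ev⟩ := B.tr h hxO hd'
  have hdet : Detects U O (O \ cl U c) := fun P hP a b hab hne => by
    obtain ⟨k1, k2⟩ := (hP.2.2 a b hab).resolve_left hne
    obtain ⟨g, hg, eg⟩ := XO_symm le_rfl (Orb.eq h.1 hd.1 ▸ k1 : a ∈ XO U U d)
    exact ⟨g, hg, B.SO_eq h hd ▸ cls_subset_XO eg.symm,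
      B.SO_eq h hd ▸ cls_subset_XO (eg.symm.trans (cl_smul_eq hg (Inv.cl_eq hP hab)))⟩
  have := pointed (σ := Setoid.ker (cl U)) (H.fin hV) (H.tau_mem hV) (stab_SO h.1) hxO
    (fun u hu u' hu' e => by
      have k1 : cl U ((u'⁻¹ * u) • x) = cl U x := by
        simpa only [inv_smul_smul, mul_smul] using cl_smul_eq (U.inv_mem hu'.1) e
      have k2 := hx.1 _ (mem_SS_of (U.mul_mem (U.inv_mem hu'.1) hu.1) ex (ex.trans k1.symm))
      rwa [mul_smul, inv_smul_eq_iff] at k2) hv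
    ((cl_eq_mono SS_le ex).symm.trans (e.trans (cl_eq_mono SS_le ev).symm))
    (fun k => h0 (ex.trans (k.trans ev))) (Ps := (fun P => res P (O \ cl U c)) '' Inv U O)
    (by rintro _ ⟨P, hP, rfl⟩; exact res_mem (Inv_anti SS_le hP) (stab_SO h.1))
    (by rintro _ ⟨P, hP, rfl⟩ a b hab; exact Inv.cl_eq hP (res_le hab))
    (by rintro _ ⟨P, hP, rfl⟩ a b hab; exact cl_eq_mono SS_le (Inv.cl_eq hP (res_le hab)))
  rw [hdet.injOn.ncard_image] at this
  exact absurd this (not_le.2 h.2)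

/-- No new fixed points in the classes of a stable big orbit. -/
theorem Base.st4 (h : Stb U c O) (hb : Big U O) (hd : d ∈ O \ cl U c) (hx : x ∈ cls U d)
    (hx' : x ∈ Fix A (SS U c ⊓ SS U d)) : x ∈ Fix A (SS U d) := by
  intro g hg
  by_contra h0
  have H := B.hyp
  have hV := B.opn.SS c
  have hf := H.fin (hV.inf (B.opn.SS d))
  have hp := hb.pt h.1 hd.1
  have hD := H.clsf B.opn d
  have hs : Stab (SS U c ⊓ SS U d) (cls U d) := stab_cls.mono inf_le_right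
  have hs' : Stab (SS U c ⊓ SS U d) ({x} : Set A) := stab_Fix (singleton_subset_iff.2 hx')
  have k1 := nn_XO_le (a := d) le_rfl SS_le (H.fin (B.opn.SS d)) stab_cls Subset.rfl
  have k2 := two_to_one hf inf_le_right stab_cls hx' hg h0
  have k3 := n1 hf (hD.subset sdiff_subset) (hs.diff hs') (K := F0 U d)
    (fun z hz => ⟨B.F0_cls hp.1 hz, fun e => h0 (e ▸ hz.1 g hg)⟩) (fun k hk z hz => hz.1 k hk.2)
    (J := 4) (le_trans (by norm_num) (Nat.pow_le_pow_right two_pos hp.2.le)) {()} (fun _ => {x})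
    (fun _ _ => ⟨finite_singleton x, singleton_nonempty x, hs', disjoint_sdiff_left⟩) (by simp)
  have k4 := nn_cls_le SS_le (H.fin hV) hD Subset.rfl hs (stab_SO h.1)
    (B.SO_eq h hd ▸ cls_subset_XO)
  have k5 := k3.trans ((nn_mono hf (union_subset sdiff_subset
    (iUnion₂_subset fun _ _ => singleton_subset_iff.2 hx))).trans k4)
  rw [Orb.eq h.1 hd.1] at k1
  have := h.2
  simp only [Finset.card_singleton] at k5
  omega

/-- A stable big orbit has no new invariant partitions. -/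
theorem Base.st5 (h : Stb U c O) (hb : Big U O) : nn (SS U c) (O \ cl U c) ≤ nn U O := by
  have H := B.hyp
  obtain ⟨d, hd, -⟩ := B.exists_gen h.1 c
  have hV := B.opn.SS c
  have hW := hV.inf (B.opn.SS d)
  have hp := hb.pt h.1 hd.1
  have hD := H.clsf B.opn d
  have k1 : nn (SS U c) (O \ cl U c) ≤ nn (SS U c ⊓ SS U d) (cls U d) := by
    refine Detects.le (fun P hP a b hab hne => ?_) inf_le_left (H.fin hW)
      (stab_cls.mono inf_le_right)
    obtain ⟨k1, k2⟩ := (hP.2.2 a b hab).resolve_left hne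
    obtain ⟨g, hg, eg⟩ := B.tr h k1 hd
    exact ⟨g, hg, eg.symm, eg.symm.trans (cl_smul_eq hg.1 (B.st3 h hb k1 k2 (Inv.cl_eq hP hab)))⟩
  have k2 : Inv (SS U c ⊓ SS U d) (cls U d) ⊆ Inv (SS U d) (cls U d) := by
    intro P hP
    refine ⟨hP.1, fun g hg a b hab => ?_, hP.2.2⟩
    let Q : Subgroup G :=
      { carrier := {k | k ∈ U ∧ ∀ a b, P (k • a) (k • b) ↔ P a b}
        one_mem' := ⟨U.one_mem, fun _ _ => by rw [one_smul, one_smul]⟩
        mul_mem' := fun {k l} hk hl => ⟨U.mul_mem hk.1 hl.1, fun a b => by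
          rw [mul_smul, mul_smul, hk.2, hl.2]⟩
        inv_mem' := fun {k} hk => ⟨U.inv_mem hk.1, fun a b => by
          rw [← hk.2, smul_inv_smul, smul_inv_smul]⟩ }
    have q1 : SS U c ⊓ SS U d ≤ Q := fun k hk => ⟨hk.2.1, fun _ _ => Inv.iff hP hk⟩
    have q0 : P ∈ Inv (U ⊓ pw G (cl U d)) (cls U d) := ⟨hP.1, fun k hk a b hab => by
      rcases hP.2.2 a b hab with rfl | ⟨k1, k2⟩
      · exact P.refl _
      · rwa [hk.2 a (cls_subset_cl k1), hk.2 b (cls_subset_cl k2)], hP.2.2⟩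
    have q2 : U ⊓ pw G (cl U d) ≤ Q := fun k hk => ⟨hk.1, fun _ _ => Inv.iff q0 hk⟩
    have q3 : acl A (U ⊓ pw G (cl U d)) ⊆ cl U d := by
      have := acl_inf_pw (H.clf B.opn d) (U := U ⊓ pw G {d}) Subset.rfl
      refine subset_trans (acl_anti ?_) this.subset
      exact inf_le_inf_right _ inf_le_left
    refine H.code (U := Q) (X := cls U d) (hW.mono q1) ⟨hP.1, fun k hk a b => (hk.2 a b).2, hP.2.2⟩
      (fun z hz => ?_) hab
    by_cases hL : z ∈ Fix A U
    · exact hL g hg.1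
    · exact B.st4 h hb hd (hp.1.2 z (q3 (Fix_subset_acl (Fix_anti q2 hz))) (B.closed ▸ hL))
        (Fix_anti q1 hz) g hg
  have k3 := nn_cls_le (X := O) le_rfl (H.fin B.opn) hD Subset.rfl (stab_cls.mono inf_le_right)
    (Orb.stab h.1) (Orb.eq h.1 hd.1 ▸ cls_subset_XO)
  rw [inf_eq_right.2 SS_le] at k3
  exact k1.trans ((ncard_le_ncard k2 ((H.fin (B.opn.SS d)).fin _)).trans k3)

theorem Base.mm_good (h : Good U c T O) (hT : 0 < T) (he : lab U c O = XO (SS U c) (SS U c) e) :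
    nn (SS (SS U c) e) ((O \ cl U c) ∩ cls (SS U c) e) ≤
      2 * T * mm (SS (SS U c) e) ((O \ cl U c) ∩ cls (SS U c) e) := by
  have H := B.hyp
  have hV := B.opn.SS c
  obtain ⟨y, hy, -⟩ := B.exists_gen h.1.1 c
  have hs := stab_SO (c := c) h.1.1
  have hsub : O \ cl U c ⊆ XO (SS U c) (SS U c) e := he ▸ subset_lab
  rcases h.2 with h2 | h2
  · have k1 := H.loc_ge (e := e) hV hs
    have k2 := H.mm_loc hV hs hsub hy
    have := h.1.2
    nlinarith
  · obtain ⟨d, hd, hd'⟩ := exists_mem_cls hs hsub hy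
    have hp := h2.pt h.1.1 hd.1
    obtain ⟨x, hx⟩ := hp.nonempty
    have ex : cl U d = cl U x := B.F0_cls hp.1 hx
    rw [mm_eq (V := SS (SS U c) e) (S := (O \ cl U c) ∩ cls (SS U c) e) (a := x)
      ⟨B.SO_eq h.1 hd ▸ cls_subset_XO ex, hd'.trans (cl_eq_mono SS_le ex)⟩
      fun g hg => hx.1 g ⟨hg.1.1, B.st3 h.1 h2 hd (hs g hg.1 d hd)
        (hd'.symm.trans (stab_cls g hg d hd'))⟩]
    exact Nat.le_mul_of_pos_left _ (by omega)

theorem Base.gain1 (h : Good U c T O) (hT : 0 < T) (hR : Stab (SS U c) R) (hR' : R ⊆ lab U c O)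
    (hx : x ∈ R) (hd : Disjoint (O \ cl U c) R) :
    (4 * T ^ 2 + 1) * nn U O ≤ 4 * T ^ 2 * nn (SS U c) ((O \ cl U c) ∪ R) := by
  have H := B.hyp
  have hV := B.opn.SS c
  obtain ⟨e, -, he⟩ := B.exists_lab h.1
  have k1 := H.gain_loc (e := e) hV (stab_SO h.1.1) hR hd
  have k2 := B.mm_good h hT he
  have k3 := (B.det h.1.1).trans (H.loc_le hV (stab_SO h.1.1) (he ▸ subset_lab))
  have k4 := H.mm_loc hV hR (he ▸ hR') hx
  have k5 := nn_pos (H.fin (hV.SS e)) (R ∩ cls (SS U c) e)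
  set n := nn (SS (SS U c) e) ((O \ cl U c) ∩ cls (SS U c) e)
  set m := mm (SS (SS U c) e) ((O \ cl U c) ∩ cls (SS U c) e)
  have k6 : n + m ≤ nn (SS U c) ((O \ cl U c) ∪ R) := le_trans (by nlinarith) k1
  have k7 : n ≤ 4 * T ^ 2 * m := k2.trans (Nat.mul_le_mul_right _ (by nlinarith))
  calc _ ≤ (4 * T ^ 2 + 1) * n := Nat.mul_le_mul_left _ k3
    _ ≤ 4 * T ^ 2 * (n + m) := by nlinarith
    _ ≤ _ := Nat.mul_le_mul_left _ k6

theorem Base.gain2 (h : Good U c T O) (h' : Good U c T O') (hT : 0 < T) (hne : O ≠ O')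
    (hl : lab U c O = lab U c O') : (4 * T ^ 2 + 1) * (nn U O * nn U O') ≤
      4 * T ^ 2 * nn (SS U c) ((O \ cl U c) ∪ (O' \ cl U c)) := by
  have H := B.hyp
  have hV := B.opn.SS c
  obtain ⟨e, -, he⟩ := B.exists_lab h.1
  have he' := hl.symm.trans he
  have k1 := H.gain_loc (e := e) hV (stab_SO (c := c) h.1.1) (stab_SO (c := c) h'.1.1)
    ((Orb.disjoint h.1.1 h'.1.1 hne).mono sdiff_subset sdiff_subset)
  have k2 := Nat.mul_le_mul (B.mm_good h hT he) (B.mm_good h' hT he')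
  have k3 := Nat.mul_le_mul ((B.det h.1.1).trans (H.loc_le hV (stab_SO h.1.1) (he ▸ subset_lab)))
    ((B.det h'.1.1).trans (H.loc_le hV (stab_SO h'.1.1) (he' ▸ subset_lab)))
  refine (Nat.mul_le_mul_left _ k3).trans (le_trans ?_ (Nat.mul_le_mul_left _ k1))
  nlinarith

end Pool.Agent.P.MP_e517ea_lc
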